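import Pool.Agent.H541.RP.Err1

/-!
# Reversed primes: the sum of the errors (helper541)
-/

set_option autoImplicit false

namespace Pool.Agent.H541.RP

open Finset Filter Topology Pool.Agent.Helper112

lemma UU_small (hpt : S_point) {r : ℝ} (hr0 : 0 < r) (hr1 : r ≤ 1) {B n v d : ℕ} (hB : 2 ≤ B) (hd : 1 < d)
    (hdv : d ≤ B ^ v) (hc : B.Coprime d) : UU r B n d ≤ d * r ^ (n / (v + 1)) := by
  unfold UU
  have h1 : ∀ h ∈ (range d).filter (fun h => h.Coprime d), AA r B n ((h : ℝ) / d) ≤ r ^ (n / (v + 1)) := by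
    intro h hh
    rw [mem_filter, mem_range] at hh
    have h2 := hpt r B n v d (h : ℤ) hr0 hr1 hB hd hdv hc (by
      intro hdiv
      have h3 : d ∣ h := by exact_mod_cast hdiv
      have h4 : d ∣ 1 := by
        rw [← hh.2.gcd_eq_one]
        exact Nat.dvd_gcd h3 dvd_rfl
      have := Nat.le_of_dvd one_pos h4
      omega)
    rw [Int.cast_natCast] at h2
    exact h2
  refine (sum_le_card_nsmul _ _ _ h1).trans ?_
  rw [nsmul_eq_mul]
  have h2 : ((range d).filter (fun h => h.Coprime d)).card ≤ d := by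
    refine (card_filter_le _ _).trans ?_
    rw [card_range]
  have h3 : (((range d).filter (fun h => h.Coprime d)).card : ℝ) ≤ d := by exact_mod_cast h2
  exact mul_le_mul_of_nonneg_right h3 (by positivity)

/-- the analytic limit -/
lemma limit (K : ℝ) (a : ℕ) : ∃ s0 : ℕ, ∀ s : ℕ, s0 ≤ s → K * ((s : ℝ) + 1) ^ a * (1 / 2) ^ s ≤ 1 := by
  have h1 : Tendsto (fun s : ℕ => (s : ℝ) ^ a * (1 / 2 : ℝ) ^ s) atTop (𝓝 0) :=
    tendsto_pow_const_mul_const_pow_of_abs_lt_one a (by rw [abs_of_pos] <;> norm_num)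
  have h2 := h1.comp (tendsto_add_atTop_nat 1)
  have h3 : Tendsto (fun s : ℕ => (2 * |K|) * (((s + 1 : ℕ) : ℝ) ^ a * (1 / 2 : ℝ) ^ (s + 1))) atTop
      (𝓝 ((2 * |K|) * 0)) := h2.const_mul _
  rw [mul_zero] at h3
  have h4 := h3.eventually (eventually_le_nhds (show (0 : ℝ) < 1 by norm_num))
  obtain ⟨s0, hs0⟩ := eventually_atTop.1 h4
  refine ⟨s0, fun s hs => le_trans ?_ (hs0 s hs)⟩
  push_cast
  rw [pow_succ]
  have h5 : (2 * |K|) * (((s : ℝ) + 1) ^ a * ((1 / 2 : ℝ) ^ s * (1 / 2))) = |K| * ((s : ℝ) + 1) ^ a * (1 / 2) ^ s := by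
    ring
  rw [h5]
  have := le_abs_self K
  gcongr

theorem t_ERR (hpt : S_point) (hbig : S_errBig) (hmom : S_mom) : S_err := by
  intro b r hb hr0 hr1
  obtain ⟨B, hB⟩ : ∃ B : ℕ, B = b ^ 8 := ⟨_, rfl⟩
  have hB256 : 256 ≤ B := by
    rw [hB]
    calc 256 = 2 ^ 8 := by norm_num
      _ ≤ b ^ 8 := Nat.pow_le_pow_left hb 8
  have hBR : (256 : ℝ) ≤ B := by exact_mod_cast hB256
  obtain ⟨I0, hI0⟩ := exists_pow_lt_of_lt_one (show (0 : ℝ) < 1 / B by positivity) hr1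
  obtain ⟨I, hI⟩ : ∃ I : ℕ, I = max I0 2 := ⟨_, rfl⟩
  have hI2 : 2 ≤ I := by rw [hI]; exact le_max_right _ _
  have hIr : (B : ℝ) * r ^ I ≤ 1 := by
    have h1 : r ^ I ≤ r ^ I0 := pow_le_pow_of_le_one hr0.le hr1.le (by rw [hI]; exact le_max_left _ _)
    have h2 : r ^ I ≤ 1 / B := h1.trans hI0.le
    calc (B : ℝ) * r ^ I ≤ B * (1 / B) := by gcongr
      _ = 1 := by field_simp
  obtain ⟨C, hC, hCb⟩ := hbig b r I hb hr0 hr1 (by omega) (by rw [← hB]; exact hIr)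
  obtain ⟨J2, hJ2⟩ := exists_pow_lt_of_lt_one (show (0 : ℝ) < 1 / (2 * (B : ℝ) ^ 3) by positivity) hr1
  refine ⟨64 * I, by omega, fun A => ?_⟩
  have hbR : (2 : ℝ) ≤ b := by exact_mod_cast hb
  have hlb : 0 < Real.log b := Real.log_pos (by linarith)
  obtain ⟨s0, hs0⟩ := limit ((1 + Real.log b) ^ 4 * (1 + C)) (4 * (A + 4))
  refine ⟨(max s0 (16 * J2 + 16)) ^ 4 + 64 * I, fun L hL => ?_⟩
  obtain ⟨s, hs⟩ : ∃ s : ℕ, s = Nat.sqrt (Nat.sqrt L) := ⟨_, rfl⟩
  have hs1 : max s0 (16 * J2 + 16) ≤ s := by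
    rw [hs, Nat.le_sqrt, Nat.le_sqrt]
    have : max s0 (16 * J2 + 16) ^ 4 ≤ L := by omega
    calc _ = max s0 (16 * J2 + 16) ^ 4 := by ring
      _ ≤ L := this
  have hs2 : s0 ≤ s := (le_max_left _ _).trans hs1
  have hs3 : 16 * J2 + 16 ≤ s := (le_max_right _ _).trans hs1
  have hs4 : s ^ 4 ≤ L := by
    have h1 : s * s ≤ Nat.sqrt L := by rw [hs]; exact Nat.sqrt_le _
    have h2 : Nat.sqrt L * Nat.sqrt L ≤ L := Nat.sqrt_le _
    calc s ^ 4 = (s * s) * (s * s) := by ring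
      _ ≤ Nat.sqrt L * Nat.sqrt L := Nat.mul_le_mul h1 h1
      _ ≤ L := h2
  have hs5 : L ≤ (s + 1) ^ 4 := by
    have h1 : Nat.sqrt L < (s + 1) * (s + 1) := by rw [hs]; exact Nat.lt_succ_sqrt _
    have h2 : L < (Nat.sqrt L + 1) * (Nat.sqrt L + 1) := Nat.lt_succ_sqrt _
    calc L ≤ (Nat.sqrt L + 1) * (Nat.sqrt L + 1) := h2.le
      _ ≤ ((s + 1) * (s + 1)) * ((s + 1) * (s + 1)) := Nat.mul_le_mul h1 h1
      _ = (s + 1) ^ 4 := by ring
  obtain ⟨n, hn⟩ : ∃ n : ℕ, n = L / 8 := ⟨_, rfl⟩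
  obtain ⟨t, ht⟩ : ∃ t : ℕ, t = L / (64 * I) := ⟨_, rfl⟩
  have hI0' : 0 < 64 * I := by omega
  have ht1 : 1 ≤ t := by
    rw [ht, Nat.le_div_iff_mul_le hI0']
    have : 0 ≤ (max s0 (16 * J2 + 16)) ^ 4 := Nat.zero_le _
    omega
  have htL : 64 * I * t ≤ L := by rw [ht]; exact Nat.mul_div_le L _
  have hnL : 8 * (I * t) ≤ n := by
    rw [hn, Nat.le_div_iff_mul_le (by norm_num)]
    calc 8 * (I * t) * 8 = 64 * I * t := by ring
      _ ≤ L := htL
  have hnK : I * (2 * (2 * t + 1)) ≤ n := by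
    refine le_trans ?_ hnL
    calc I * (2 * (2 * t + 1)) = I * (4 * t + 2) := by ring
      _ ≤ I * (8 * t) := Nat.mul_le_mul_left I (by omega)
      _ = 8 * (I * t) := by ring
  -- the exponent of the pointwise bound
  have hns : J2 * s ≤ n / (s + 1) := by
    rw [Nat.le_div_iff_mul_le (by omega), hn, Nat.le_div_iff_mul_le (by norm_num)]
    refine le_trans ?_ hs4
    have h1 : 16 * J2 ≤ s := by omega
    have h2 : s + 1 ≤ 2 * s := by omega
    calc J2 * s * (s + 1) * 8 ≤ J2 * s * (2 * s) * 8 := by gcongr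
      _ = (16 * J2) * s ^ 2 := by ring
      _ ≤ s * s ^ 2 := by gcongr
      _ = s ^ 3 := by ring
      _ ≤ s ^ 4 := Nat.pow_le_pow_right (by omega) (by norm_num)
  have hD : b ^ (16 * t) = B ^ (2 * t) := by
    rw [hB, ← pow_mul]
    congr 1
    ring
  rw [← hn, ← ht, ← hB]
  obtain ⟨D, hDD⟩ : ∃ D : ℕ, D = b ^ (16 * t) := ⟨_, rfl⟩
  rw [← hDD]
  have hcong : ∑ l ∈ (Icc 1 D).filter (fun l => l.Coprime (b ^ 3 - b)),
      (l.divisors.card : ℝ) ^ 2 / l * ∑ h ∈ Ico 1 l, AA r B n (((b : ℝ) ^ 2 - 1) * ((h : ℝ) / l)) =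
      ∑ l ∈ (Icc 1 D).filter (fun l => l.Coprime (b ^ 3 - b)),
      (l.divisors.card : ℝ) ^ 2 / l * ∑ d ∈ l.divisors.filter (fun d => 1 < d), UU r B n d := by
    refine sum_congr rfl fun l hl => ?_
    rw [mem_filter, mem_Icc] at hl
    rw [lowest hb B n (by omega) hl.2]
  rw [hcong]
  have h1 := double' (fun l => l.Coprime (b ^ 3 - b))
    (fun d l hdl hl => Nat.Coprime.coprime_dvd_left hdl hl) (UU r B n) (UU_nonneg hr0 B n) D
  refine h1.trans ?_
  have hbm : b ∣ b ^ 3 - b := Nat.dvd_sub (dvd_pow_self b (by norm_num)) dvd_rfl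
  -- splitting
  have h2 : ∑ d ∈ (Icc 2 D).filter (fun l => l.Coprime (b ^ 3 - b)), (d.divisors.card : ℝ) ^ 2 / d * UU r B n d ≤
      (∑ d ∈ (Ico 2 (B ^ s)).filter (fun d => d.Coprime b), (d.divisors.card : ℝ) ^ 2 / d * UU r B n d) +
      ∑ d ∈ (Ico (B ^ s) (B ^ (2 * t + 1))).filter (fun d => d.Coprime b),
        (d.divisors.card : ℝ) ^ 2 / d * UU r B n d := by
    rw [← sum_union_inter]
    have hpos : ∀ d : ℕ, 0 ≤ (d.divisors.card : ℝ) ^ 2 / d * UU r B n d := fun d =>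
      mul_nonneg (by positivity) (UU_nonneg hr0 B n d)
    refine le_trans ?_ (le_add_of_nonneg_right (sum_nonneg fun d _ => hpos d))
    apply sum_le_sum_of_subset_of_nonneg
    · intro d hd
      rw [mem_filter, mem_Icc] at hd
      have hdc : d.Coprime b := Nat.Coprime.coprime_dvd_right hbm hd.2
      have hdlt : d < B ^ (2 * t + 1) := by
        refine lt_of_le_of_lt hd.1.2 ?_
        rw [hDD, hD]
        exact Nat.pow_lt_pow_right (by omega) (by omega)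
      rw [mem_union, mem_filter, mem_filter, mem_Ico, mem_Ico]
      rcases Nat.lt_or_ge d (B ^ s) with h | h
      · exact Or.inl ⟨⟨hd.1.1, h⟩, hdc⟩
      · exact Or.inr ⟨⟨h, hdlt⟩, hdc⟩
    · exact fun d _ _ => hpos d
  have h3 : ∑ d ∈ (Ico (B ^ s) (B ^ (2 * t + 1))).filter (fun d => d.Coprime b),
        (d.divisors.card : ℝ) ^ 2 / d * UU r B n d ≤ C * (9 / 64) ^ s := by
    have := hCb s (2 * t) n hnK
    rw [← hB] at this
    exact this
  have h4 : ∑ d ∈ (Ico 2 (B ^ s)).filter (fun d => d.Coprime b), (d.divisors.card : ℝ) ^ 2 / d * UU r B n d ≤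
      (1 / 2) ^ s := by
    have e1 : ∀ d ∈ (Ico 2 (B ^ s)).filter (fun d => d.Coprime b), (d.divisors.card : ℝ) ^ 2 / d * UU r B n d ≤
        ((B : ℝ) ^ s) ^ 2 * r ^ (n / (s + 1)) := by
      intro d hd
      rw [mem_filter, mem_Ico] at hd
      have hBd : B.Coprime d := by rw [hB]; exact Nat.Coprime.pow_left 8 hd.2.symm
      have e2 := UU_small hpt (n := n) hr0 hr1.le (by omega : 2 ≤ B) (by omega : 1 < d) hd.1.2.le hBd
      have hdR : (0 : ℝ) < d := by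
        have : 0 < d := by omega
        exact_mod_cast this
      have e3 : (d.divisors.card : ℝ) ≤ (B : ℝ) ^ s := by
        have h5 : d.divisors.card ≤ d := Nat.card_divisors_le_self d
        have h6 : d.divisors.card ≤ B ^ s := h5.trans hd.1.2.le
        exact_mod_cast h6
      calc (d.divisors.card : ℝ) ^ 2 / d * UU r B n d ≤ (d.divisors.card : ℝ) ^ 2 / d * (d * r ^ (n / (s + 1))) := by
            gcongr
        _ = (d.divisors.card : ℝ) ^ 2 * r ^ (n / (s + 1)) := by field_simp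
        _ ≤ _ := by gcongr
    refine (sum_le_card_nsmul _ _ _ e1).trans ?_
    rw [nsmul_eq_mul]
    have e4 : (((Ico 2 (B ^ s)).filter (fun d => d.Coprime b)).card : ℝ) ≤ (B : ℝ) ^ s := by
      have : ((Ico 2 (B ^ s)).filter (fun d => d.Coprime b)).card ≤ B ^ s := by
        refine (card_filter_le _ _).trans ?_
        rw [Nat.card_Ico]
        omega
      exact_mod_cast this
    have e5 : r ^ (n / (s + 1)) ≤ (r ^ J2) ^ s := by
      rw [← pow_mul]
      exact pow_le_pow_of_le_one hr0.le hr1.le hns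
    have e6 : (r ^ J2) ^ s ≤ (1 / (2 * (B : ℝ) ^ 3)) ^ s :=
      pow_le_pow_left₀ (by positivity) hJ2.le s
    calc (((Ico 2 (B ^ s)).filter (fun d => d.Coprime b)).card : ℝ) * (((B : ℝ) ^ s) ^ 2 * r ^ (n / (s + 1)))
        ≤ (B : ℝ) ^ s * (((B : ℝ) ^ s) ^ 2 * (1 / (2 * (B : ℝ) ^ 3)) ^ s) := by
          have := e5.trans e6
          gcongr
      _ = ((B : ℝ) ^ 3) ^ s * (1 / (2 * (B : ℝ) ^ 3)) ^ s := by
          rw [← mul_assoc]
          congr 1
          rw [← pow_mul, ← pow_add, ← pow_mul]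
          congr 1
          ring
      _ = (1 / 2) ^ s := by
          rw [← mul_pow]
          congr 1
          field_simp
  have h5 : (9 / 64 : ℝ) ^ s ≤ (1 / 2) ^ s := pow_le_pow_left₀ (by norm_num) (by norm_num) s
  have h6 : ∑ d ∈ (Icc 2 D).filter (fun l => l.Coprime (b ^ 3 - b)), (d.divisors.card : ℝ) ^ 2 / d * UU r B n d ≤
      (1 + C) * (1 / 2) ^ s := by
    have : C * (9 / 64 : ℝ) ^ s ≤ C * (1 / 2) ^ s := by gcongr
    linarith
  have hLR : (1 : ℝ) ≤ L := by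
    have : 1 ≤ L := by omega
    exact_mod_cast this
  have h7 : ∑ e ∈ Icc 1 D, (e.divisors.card : ℝ) ^ 2 / e ≤ (L * (1 + Real.log b)) ^ 4 := by
    have e1 := hmom 2 D
    refine e1.trans ?_
    norm_num
    apply pow_le_pow_left₀
    · have := Real.log_natCast_nonneg D
      linarith
    · rw [hDD]
      push_cast
      rw [Real.log_pow]
      have e2 : ((16 * t : ℕ) : ℝ) ≤ L := by
        have : 16 * t ≤ L := by
          calc 16 * t ≤ 64 * I * t := by
                apply Nat.mul_le_mul_right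
                omega
            _ ≤ L := htL
        exact_mod_cast this
      nlinarith
  have h8 := hs0 s hs2
  have hL0 : (0 : ℝ) < L := by linarith
  rw [le_div_iff₀ (by positivity)]
  have h9 : (L : ℝ) ≤ ((s : ℝ) + 1) ^ 4 := by exact_mod_cast hs5
  have h10 : 0 ≤ ∑ e ∈ Icc 1 D, (e.divisors.card : ℝ) ^ 2 / e := sum_nonneg fun _ _ => by positivity
  calc (∑ d ∈ (Icc 2 D).filter (fun l => l.Coprime (b ^ 3 - b)), (d.divisors.card : ℝ) ^ 2 / d * UU r B n d) *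
        (∑ e ∈ Icc 1 D, (e.divisors.card : ℝ) ^ 2 / e) * (L : ℝ) ^ A
      ≤ ((1 + C) * (1 / 2) ^ s) * ((L * (1 + Real.log b)) ^ 4) * (L : ℝ) ^ A := by
        apply mul_le_mul_of_nonneg_right _ (by positivity)
        exact mul_le_mul h6 h7 h10 (by positivity)
    _ = (1 + Real.log b) ^ 4 * (1 + C) * (L : ℝ) ^ (A + 4) * (1 / 2) ^ s := by
        rw [mul_pow, pow_add]
        ring
    _ ≤ (1 + Real.log b) ^ 4 * (1 + C) * (((s : ℝ) + 1) ^ 4) ^ (A + 4) * (1 / 2) ^ s := by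
        gcongr
    _ = (1 + Real.log b) ^ 4 * (1 + C) * ((s : ℝ) + 1) ^ (4 * (A + 4)) * (1 / 2) ^ s := by
        rw [← pow_mul]
    _ ≤ 1 := h8

end Pool.Agent.H541.RP
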