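import Pool.Agent.H541.RP.Stm

/-!
# Reversed primes: average of the digit products over the Farey fractions (task RP-AVG)
-/

set_option autoImplicit false

namespace Pool.Agent.H541.RP.TAVG

open Finset Pool.Agent.H541.RP

lemma dist1_add_int (x : ℝ) (k : ℤ) : dist1 (x + k) = dist1 x := by
  unfold dist1
  rw [round_add_intCast]
  push_cast
  congr 1
  ring

lemma wt_add_int (r : ℝ) (B : ℕ) (x : ℝ) (k : ℤ) : wt r B (x + k) = wt r B x := by
  unfold wt
  rw [dist1_add_int]

lemma wt_nonneg {r : ℝ} (hr : 0 < r) (B : ℕ) (x : ℝ) : 0 ≤ wt r B x := by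
  unfold wt
  split_ifs
  · exact hr.le
  · exact zero_le_one

lemma wt_le_one {r : ℝ} (hr1 : r ≤ 1) (B : ℕ) (x : ℝ) : wt r B x ≤ 1 := by
  unfold wt
  split_ifs
  · exact hr1
  · exact le_rfl

lemma AA_nonneg {r : ℝ} (hr : 0 < r) (B n : ℕ) (x : ℝ) : 0 ≤ AA r B n x :=
  prod_nonneg fun _ _ => wt_nonneg hr B _

lemma AA_le_one {r : ℝ} (hr : 0 < r) (hr1 : r ≤ 1) (B n : ℕ) (x : ℝ) : AA r B n x ≤ 1 :=
  prod_le_one (fun _ _ => wt_nonneg hr B _) (fun _ _ => wt_le_one hr1 B _)

lemma AA_add_int (r : ℝ) (B n : ℕ) (x : ℝ) (k : ℤ) : AA r B n (x + k) = AA r B n x := by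
  unfold AA
  apply prod_congr rfl
  intro i _
  have h : (B : ℝ) ^ i * (x + k) = (B : ℝ) ^ i * x + (((B : ℤ) ^ i * k : ℤ) : ℝ) := by
    push_cast; ring
  rw [h, wt_add_int]

lemma AA_add (r : ℝ) (B m n : ℕ) (x : ℝ) :
    AA r B (m + n) x = AA r B m x * AA r B n ((B : ℝ) ^ m * x) := by
  unfold AA
  rw [prod_range_add]
  congr 1
  apply prod_congr rfl
  intro i _
  rw [pow_add, mul_comm ((B : ℝ) ^ m), mul_assoc]

lemma AA_mono {r : ℝ} (hr : 0 < r) (hr1 : r ≤ 1) (B : ℕ) {m n : ℕ} (h : m ≤ n) (x : ℝ) :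
    AA r B n x ≤ AA r B m x := by
  obtain ⟨k, rfl⟩ := Nat.exists_eq_add_of_le h
  rw [AA_add]
  exact mul_le_of_le_one_right (AA_nonneg hr B m x) (AA_le_one hr hr1 B k _)

lemma AA_mul (r : ℝ) (B M : ℕ) (x : ℝ) (I : ℕ) :
    AA r B (I * M) x = ∏ u ∈ range I, AA r B M ((B : ℝ) ^ (M * u) * x) := by
  induction I with
  | zero => simp [AA]
  | succ I ih =>
    rw [prod_range_succ, ← ih, add_mul, one_mul, AA_add, mul_comm I M]

lemma prod_le_sum_pow {I : ℕ} (hI : 1 ≤ I) (a : ℕ → ℝ) (h0 : ∀ u, 0 ≤ a u) :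
    ∏ u ∈ range I, a u ≤ ∑ u ∈ range I, a u ^ I := by
  obtain ⟨u0, hu0, hmax⟩ := exists_max_image (range I) a ⟨0, mem_range.2 hI⟩
  calc ∏ u ∈ range I, a u ≤ ∏ _u ∈ range I, a u0 := prod_le_prod (fun u _ => h0 u) hmax
    _ = a u0 ^ I := by rw [prod_const, card_range]
    _ ≤ ∑ u ∈ range I, a u ^ I :=
      single_le_sum (f := fun u => a u ^ I) (fun u _ => pow_nonneg (h0 u) I) hu0

/-- multiplication by a number prime to `d` permutes the reduced fractions with denominator `d` -/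
lemma perm_sum {d : ℕ} (hd : 1 ≤ d) (k : ℕ) (hk : k.Coprime d) (F : ℝ → ℝ) (h0 : ∀ x, 0 ≤ F x)
    (hper : ∀ (x : ℝ) (m : ℤ), F (x + m) = F x) :
    ∑ h ∈ (range d).filter (fun h => h.Coprime d), F ((k : ℝ) * ((h : ℝ) / d)) ≤
      ∑ h ∈ (range d).filter (fun h => h.Coprime d), F ((h : ℝ) / d) := by
  have hdpos : (0 : ℝ) < d := by exact_mod_cast hd
  have h1 : ∀ h : ℕ, F ((k : ℝ) * ((h : ℝ) / d)) = F (((k * h % d : ℕ) : ℝ) / d) := by
    intro h
    have e : (k : ℝ) * ((h : ℝ) / d) = ((k * h % d : ℕ) : ℝ) / d + (((k * h / d : ℕ) : ℤ) : ℝ) := by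
      have h2 := Nat.mod_add_div (k * h) d
      rw [Int.cast_natCast]
      generalize k * h % d = u at h2 ⊢
      generalize k * h / d = v at h2 ⊢
      have h3 : (u : ℝ) + d * v = k * h := by exact_mod_cast h2
      field_simp
      linarith
    rw [e, hper]
  rw [sum_congr rfl (fun h _ => h1 h)]
  have hinj : Set.InjOn (fun h => k * h % d) ((range d).filter (fun h => h.Coprime d) : Set ℕ) := by
    intro x hx y hy hxy
    simp only [coe_filter, mem_range, Set.mem_ofPred_eq] at hx hy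
    have h3 : k * x ≡ k * y [MOD d] := hxy
    have h4 : x ≡ y [MOD d] := Nat.ModEq.cancel_left_of_coprime (by rwa [Nat.coprime_comm] at hk) h3
    exact Nat.ModEq.eq_of_lt_of_lt h4 hx.1 hy.1
  have h5 : ∑ h ∈ (range d).filter (fun h => h.Coprime d), F (((k * h % d : ℕ) : ℝ) / d) =
      ∑ h ∈ ((range d).filter (fun h => h.Coprime d)).image (fun h => k * h % d), F ((h : ℝ) / d) := by
    rw [sum_image]
    intro x hx y hy hxy
    exact hinj hx hy hxy
  rw [h5]
  apply sum_le_sum_of_subset_of_nonneg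
  · intro y hy
    rw [mem_image] at hy
    obtain ⟨x, hx, rfl⟩ := hy
    rw [mem_filter, mem_range] at hx ⊢
    refine ⟨Nat.mod_lt _ hd, ?_⟩
    have : (k * x).Coprime d := Nat.Coprime.mul_left hk hx.2
    rw [Nat.Coprime] at this ⊢
    rw [← this, Nat.gcd_comm (k * x) d, Nat.gcd_rec d (k * x)]
  · intro _ _ _
    exact h0 _

/-- weight of a digit -/
noncomputable def om (s : ℝ) (B t : ℕ) : ℝ := if t = 0 ∨ t = B - 1 then 1 else s

lemma sum_mul_range (B N : ℕ) (hB : 0 < B) (g h : ℕ → ℝ) :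
    ∑ a ∈ range (B * N), g (a % B) * h (a / B) = (∑ t ∈ range B, g t) * ∑ a ∈ range N, h a := by
  induction N with
  | zero => simp
  | succ N ih =>
    rw [mul_add, mul_one, sum_range_add, ih, sum_range_succ, mul_add]
    congr 1
    rw [sum_mul]
    apply sum_congr rfl
    intro t ht
    rw [mem_range] at ht
    rw [Nat.mul_add_mod, Nat.mod_eq_of_lt ht, Nat.mul_add_div hB, Nat.div_eq_of_lt ht, add_zero]

lemma sum_prod_digits (B M : ℕ) (hB : 0 < B) (g : ℕ → ℝ) :
    ∑ a ∈ range (B ^ M), ∏ i ∈ range M, g (a / B ^ i % B) = (∑ t ∈ range B, g t) ^ M := by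
  induction M with
  | zero => simp
  | succ M ih =>
    have h1 : ∀ a : ℕ, ∏ i ∈ range (M + 1), g (a / B ^ i % B) =
        g (a % B) * ∏ i ∈ range M, g (a / B / B ^ i % B) := by
      intro a
      rw [prod_range_succ', mul_comm]
      congr 1
      · simp
      · apply prod_congr rfl
        intro i _
        rw [Nat.div_div_eq_div_mul, pow_succ, mul_comm B]
    rw [sum_congr rfl (fun a _ => h1 a), pow_succ B, mul_comm (B ^ M) B,
      sum_mul_range B (B ^ M) hB g (fun a => ∏ i ∈ range M, g (a / B ^ i % B)), ih, pow_succ, mul_comm]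

lemma sum_om {s : ℝ} {B : ℕ} (hB : 4 ≤ B) (hs0 : 0 ≤ s) (hs : (B : ℝ) * s ≤ 1) : ∑ t ∈ range B, om s B t ≤ 3 := by
  have h1 : ∀ t ∈ range B, om s B t ≤ s + ((if t = 0 then 1 else 0) + (if t = B - 1 then 1 else 0)) := by
    intro t _
    unfold om
    by_cases h : t = 0
    · rw [if_pos (Or.inl h), if_pos h]
      have : (0 : ℝ) ≤ if t = B - 1 then 1 else 0 := by split_ifs <;> norm_num
      linarith
    · by_cases h' : t = B - 1
      · rw [if_pos (Or.inr h'), if_pos h', if_neg h]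
        linarith
      · rw [if_neg (by tauto), if_neg h', if_neg h]
        linarith
  calc ∑ t ∈ range B, om s B t ≤ ∑ t ∈ range B, (s + ((if t = 0 then 1 else 0) + (if t = B - 1 then 1 else 0))) :=
        sum_le_sum h1
    _ = B * s + (1 + 1) := by
        rw [sum_add_distrib, sum_add_distrib, sum_const, card_range, nsmul_eq_mul, sum_ite_eq' , sum_ite_eq',
          if_pos (mem_range.2 (by omega)), if_pos (mem_range.2 (by omega))]
    _ ≤ 3 := by linarith

/-- a digit different from `0` and `B - 1` gives the weight `r` -/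
lemma wt_pow_le {r : ℝ} (hr : 0 < r) (hr1 : r ≤ 1) {B : ℕ} (hB : 4 ≤ B) (I i M a : ℕ) (hi : i < M) (x : ℝ)
    (h1 : (a : ℝ) ≤ (B : ℝ) ^ M * x) (h2 : (B : ℝ) ^ M * x < a + 1) :
    wt r B ((B : ℝ) ^ i * x) ^ I ≤ om (r ^ I) B (a / B ^ (M - 1 - i) % B) := by
  unfold om
  split_ifs with h
  · exact pow_le_one₀ (wt_nonneg hr B _) (wt_le_one hr1 B _)
  · rw [not_or] at h
    have hBpos : (0 : ℝ) < B := by
      have : 0 < B := by omega
      exact_mod_cast this
    set e := M - 1 - i with he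
    set c := a / B ^ e with hc
    -- `c ≤ B^(i+1) x < c + 1`
    have hpe : (0 : ℝ) < (B : ℝ) ^ e := by positivity
    have hM : M = e + (i + 1) := by omega
    have hc1 : (c : ℝ) ≤ (B : ℝ) ^ (i + 1) * x := by
      have h3 : c * B ^ e ≤ a := Nat.div_mul_le_self a (B ^ e)
      have h4 : (c : ℝ) * (B : ℝ) ^ e ≤ a := by exact_mod_cast h3
      have h5 : (c : ℝ) * (B : ℝ) ^ e ≤ ((B : ℝ) ^ (i + 1) * x) * (B : ℝ) ^ e := by
        refine h4.trans (h1.trans (le_of_eq ?_))
        rw [hM, pow_add]; ring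
      exact le_of_mul_le_mul_right h5 hpe
    have hc2 : (B : ℝ) ^ (i + 1) * x < c + 1 := by
      have h3 : a + 1 ≤ (c + 1) * B ^ e := by
        have := Nat.lt_div_mul_add (a := a) (b := B ^ e) (by positivity)
        rw [add_mul, one_mul]
        exact this
      have h4 : ((a : ℝ) + 1) ≤ ((c : ℝ) + 1) * (B : ℝ) ^ e := by exact_mod_cast h3
      have h5 : ((B : ℝ) ^ (i + 1) * x) * (B : ℝ) ^ e < ((c : ℝ) + 1) * (B : ℝ) ^ e := by
        refine lt_of_lt_of_le (lt_of_eq_of_lt ?_ h2) h4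
        rw [hM, pow_add]; ring
      exact lt_of_mul_lt_mul_right h5 hpe.le
    set t := c % B with ht
    have htB : t < B := Nat.mod_lt _ (by omega)
    have hq : c = B * (c / B) + t := (Nat.div_add_mod c B).symm
    set k := c / B with hk
    -- `k + t / B ≤ B^i x < k + (t + 1) / B`
    have hx1 : (k : ℝ) + 1 / B ≤ (B : ℝ) ^ i * x := by
      have h6 : (B : ℝ) * k + 1 ≤ B * ((B : ℝ) ^ i * x) := by
        have h7 : (1 : ℝ) ≤ t := by
          have : 1 ≤ t := by omega
          exact_mod_cast this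
        have h8 : (c : ℝ) = B * k + t := by exact_mod_cast hq
        have h9 : (B : ℝ) ^ (i + 1) * x = B * ((B : ℝ) ^ i * x) := by rw [pow_succ]; ring
        rw [← h9]; linarith
      have h10 : (B : ℝ) * (k + 1 / B) ≤ B * ((B : ℝ) ^ i * x) := by
        rw [mul_add, mul_one_div, div_self hBpos.ne']
        exact h6
      exact le_of_mul_le_mul_left h10 hBpos
    have hx2 : (B : ℝ) ^ i * x < (k : ℝ) + 1 - 1 / B := by
      have h6 : B * ((B : ℝ) ^ i * x) < (B : ℝ) * k + B - 1 := by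
        have h7 : (t : ℝ) + 2 ≤ B := by
          have : t + 2 ≤ B := by omega
          exact_mod_cast this
        have h8 : (c : ℝ) = B * k + t := by exact_mod_cast hq
        have h9 : (B : ℝ) ^ (i + 1) * x = B * ((B : ℝ) ^ i * x) := by rw [pow_succ]; ring
        rw [← h9]; linarith
      have h10 : B * ((B : ℝ) ^ i * x) < (B : ℝ) * (k + 1 - 1 / B) := by
        have : (B : ℝ) * (k + 1 - 1 / B) = B * k + B - 1 := by
          field_simp
        rw [this]; exact h6
      exact lt_of_mul_lt_mul_left h10 hBpos.le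
    have hd : 1 / (2 * (B : ℝ)) ≤ dist1 ((B : ℝ) ^ i * x) := by
      unfold dist1
      set y := (B : ℝ) ^ i * x with hy
      have h11 : 1 / (2 * (B : ℝ)) ≤ 1 / B := by
        apply one_div_le_one_div_of_le hBpos
        linarith
      have h12 : (0 : ℝ) < 1 / B := by positivity
      rcases le_or_gt (round y) (k : ℤ) with h13 | h13
      · have h14 : (round y : ℝ) ≤ k := by exact_mod_cast h13
        refine h11.trans (le_trans ?_ (le_abs_self _))
        linarith
      · have h14 : (k : ℝ) + 1 ≤ round y := by exact_mod_cast h13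
        refine h11.trans (le_trans ?_ (neg_le_abs _))
        linarith
    have hw : wt r B ((B : ℝ) ^ i * x) = r := by
      unfold wt
      rw [if_pos hd]
    rw [hw]

lemma AA_pow_le {r : ℝ} (hr : 0 < r) (hr1 : r ≤ 1) {B : ℕ} (hB : 4 ≤ B) (I M a : ℕ) (x : ℝ)
    (h1 : (a : ℝ) ≤ (B : ℝ) ^ M * x) (h2 : (B : ℝ) ^ M * x < a + 1) :
    AA r B M x ^ I ≤ ∏ i ∈ range M, om (r ^ I) B (a / B ^ i % B) := by
  unfold AA
  rw [← prod_pow, ← prod_range_reflect (fun i => om (r ^ I) B (a / B ^ i % B))]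
  apply prod_le_prod
  · intro i _
    exact pow_nonneg (wt_nonneg hr B _) _
  · intro i hi
    exact wt_pow_le hr hr1 hB I i M a (mem_range.1 hi) x h1 h2

/-- the pairs `(d, h)` -/
def prs (B R : ℕ) : Finset (Σ _ : ℕ, ℕ) :=
  ((Icc 1 R).filter (fun d => d.Coprime B)).sigma (fun d => (range d).filter (fun h => h.Coprime d))

lemma mem_prs {B R : ℕ} {p : Σ _ : ℕ, ℕ} : p ∈ prs B R ↔
    (1 ≤ p.1 ∧ p.1 ≤ R ∧ p.1.Coprime B) ∧ p.2 < p.1 ∧ p.2.Coprime p.1 := by
  unfold prs
  rw [mem_sigma, mem_filter, mem_filter, mem_Icc, mem_range]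
  tauto

lemma fl_inj {B M R : ℕ} (hR : R ^ 2 ≤ B ^ M) :
    Set.InjOn (fun p : Σ _ : ℕ, ℕ => B ^ M * p.2 / p.1) (prs B R : Set (Σ _ : ℕ, ℕ)) := by
  rintro ⟨d, h⟩ hp ⟨d', h'⟩ hp' he
  rw [mem_coe, mem_prs] at hp hp'
  obtain ⟨⟨hd1, hd2, -⟩, hh1, hh2⟩ := hp
  obtain ⟨⟨hd1', hd2', -⟩, hh1', hh2'⟩ := hp'
  simp only at hd1 hd2 hh1 hh2 hd1' hd2' hh1' hh2' he
  -- cross multiplication
  have hcross : h * d' = h' * d := by
    by_contra hne
    set a := B ^ M * h / d with ha
    have e1 : a * d ≤ B ^ M * h := Nat.div_mul_le_self _ _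
    have e2 : B ^ M * h < (a + 1) * d := by
      have := Nat.lt_div_mul_add (a := B ^ M * h) (b := d) (by omega)
      rw [add_mul, one_mul]; exact this
    have e1' : a * d' ≤ B ^ M * h' := by rw [he]; exact Nat.div_mul_le_self _ _
    have e2' : B ^ M * h' < (a + 1) * d' := by
      rw [he]
      have := Nat.lt_div_mul_add (a := B ^ M * h') (b := d') (by omega)
      rw [add_mul, one_mul]; exact this
    have hdd : d * d' ≤ B ^ M := by
      calc d * d' ≤ R * R := Nat.mul_le_mul hd2 hd2'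
        _ = R ^ 2 := by ring
        _ ≤ B ^ M := hR
    rcases Nat.lt_or_gt_of_ne hne with hlt | hlt
    · -- h d' < h' d
      have f1 : B ^ M * (h * d' + 1) ≤ B ^ M * (h' * d) := Nat.mul_le_mul_left _ hlt
      have f2 : B ^ M * h' * d < (a + 1) * d' * d := Nat.mul_lt_mul_of_pos_right e2' (by omega)
      have f3 : a * d * d' ≤ B ^ M * h * d' := Nat.mul_le_mul_right _ e1
      nlinarith
    · have f1 : B ^ M * (h' * d + 1) ≤ B ^ M * (h * d') := Nat.mul_le_mul_left _ hlt
      have f2 : B ^ M * h * d' < (a + 1) * d * d' := Nat.mul_lt_mul_of_pos_right e2 (by omega)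
      have f3 : a * d' * d ≤ B ^ M * h' * d := Nat.mul_le_mul_right _ e1'
      nlinarith
  have hdd' : d = d' := by
    apply Nat.dvd_antisymm
    · have : d ∣ h * d' := ⟨h', by rw [hcross]; ring⟩
      exact (Nat.Coprime.dvd_of_dvd_mul_left hh2.symm this)
    · have : d' ∣ h' * d := ⟨h, by rw [← hcross]; ring⟩
      exact (Nat.Coprime.dvd_of_dvd_mul_left hh2'.symm this)
  subst hdd'
  have : h = h' := Nat.eq_of_mul_eq_mul_right (by omega) hcross
  rw [this]

lemma farey_sum {r : ℝ} (hr : 0 < r) (hr1 : r ≤ 1) {B I M R : ℕ} (hB : 4 ≤ B) (hrI : (B : ℝ) * r ^ I ≤ 1)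
    (hR : R ^ 2 ≤ B ^ M) :
    ∑ d ∈ (Icc 1 R).filter (fun d => d.Coprime B), ∑ h ∈ (range d).filter (fun h => h.Coprime d),
      AA r B M ((h : ℝ) / d) ^ I ≤ 3 ^ M := by
  have hom : ∀ t, 0 ≤ om (r ^ I) B t := by
    intro t
    unfold om
    split_ifs
    · exact zero_le_one
    · exact pow_nonneg hr.le _
  have hB0 : 0 < B := by omega
  calc ∑ d ∈ (Icc 1 R).filter (fun d => d.Coprime B), ∑ h ∈ (range d).filter (fun h => h.Coprime d),
        AA r B M ((h : ℝ) / d) ^ I
      = ∑ p ∈ prs B R, AA r B M ((p.2 : ℝ) / p.1) ^ I := by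
        unfold prs
        rw [sum_sigma]
    _ ≤ ∑ p ∈ prs B R, ∏ i ∈ range M, om (r ^ I) B (B ^ M * p.2 / p.1 / B ^ i % B) := by
        apply sum_le_sum
        rintro ⟨d, h⟩ hp
        rw [mem_prs] at hp
        simp only at hp ⊢
        have hd : (0 : ℝ) < d := by
          have : 0 < d := hp.1.1
          exact_mod_cast this
        apply AA_pow_le hr hr1 hB I M
        · have h1 : B ^ M * h / d * d ≤ B ^ M * h := Nat.div_mul_le_self _ _
          have h2 : ((B ^ M * h / d : ℕ) : ℝ) * d ≤ (B : ℝ) ^ M * h := by exact_mod_cast h1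
          rw [← mul_div_assoc, le_div_iff₀ hd]
          exact h2
        · have h1 : B ^ M * h < B ^ M * h / d * d + d := Nat.lt_div_mul_add hp.1.1
          have h2 : (B : ℝ) ^ M * h < ((B ^ M * h / d : ℕ) : ℝ) * d + d := by exact_mod_cast h1
          rw [← mul_div_assoc, div_lt_iff₀ hd]
          linarith
    _ = ∑ a ∈ (prs B R).image (fun p : Σ _ : ℕ, ℕ => B ^ M * p.2 / p.1),
          ∏ i ∈ range M, om (r ^ I) B (a / B ^ i % B) := by
        rw [sum_image (fun x hx y hy hxy => fl_inj hR (mem_coe.2 hx) (mem_coe.2 hy) hxy)]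
    _ ≤ ∑ a ∈ range (B ^ M), ∏ i ∈ range M, om (r ^ I) B (a / B ^ i % B) := by
        apply sum_le_sum_of_subset_of_nonneg
        · intro a ha
          rw [mem_image] at ha
          obtain ⟨⟨d, h⟩, hp, rfl⟩ := ha
          rw [mem_prs] at hp
          simp only at hp ⊢
          rw [mem_range]
          apply Nat.div_lt_of_lt_mul
          rw [mul_comm d]
          exact Nat.mul_lt_mul_of_pos_left hp.2.1 (by positivity)
        · intro a _ _
          exact prod_nonneg fun i _ => hom _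
    _ = (∑ t ∈ range B, om (r ^ I) B t) ^ M := sum_prod_digits B M hB0 _
    _ ≤ 3 ^ M := by
        apply pow_le_pow_left₀ (sum_nonneg fun t _ => hom t)
        exact sum_om hB (pow_nonneg hr.le I) hrI

theorem t_AVG : S_avg := by
  intro r B I M R n hr hr1 hB hI hrI hR hn
  have hBpos : 0 < B := by omega
  calc ∑ d ∈ (Icc 1 R).filter (fun d => d.Coprime B), ∑ h ∈ (range d).filter (fun h => h.Coprime d),
        AA r B n ((h : ℝ) / d)
      ≤ ∑ d ∈ (Icc 1 R).filter (fun d => d.Coprime B), ∑ h ∈ (range d).filter (fun h => h.Coprime d),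
        ∑ u ∈ range I, AA r B M ((B : ℝ) ^ (M * u) * ((h : ℝ) / d)) ^ I := by
        apply sum_le_sum
        intro d _
        apply sum_le_sum
        intro h _
        refine (AA_mono hr hr1 B hn _).trans ?_
        rw [AA_mul]
        exact prod_le_sum_pow hI _ (fun u => AA_nonneg hr B M _)
    _ = ∑ u ∈ range I, ∑ d ∈ (Icc 1 R).filter (fun d => d.Coprime B), ∑ h ∈ (range d).filter (fun h => h.Coprime d),
        AA r B M ((B : ℝ) ^ (M * u) * ((h : ℝ) / d)) ^ I := by
        rw [sum_congr rfl (fun d _ => sum_comm), sum_comm]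
    _ ≤ ∑ _u ∈ range I, (3 : ℝ) ^ M := by
        apply sum_le_sum
        intro u _
        refine le_trans ?_ (farey_sum hr hr1 (I := I) (M := M) (R := R) hB hrI hR)
        apply sum_le_sum
        intro d hd
        rw [mem_filter, mem_Icc] at hd
        have h1 := perm_sum hd.1.1 (B ^ (M * u)) (Nat.Coprime.pow_left _ hd.2.symm) (fun x => AA r B M x ^ I)
          (fun x => pow_nonneg (AA_nonneg hr B M x) I)
          (fun x m => by simp only [AA_add_int])
        push_cast at h1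
        exact h1
    _ = I * 3 ^ M := by rw [sum_const, card_range, nsmul_eq_mul]

end Pool.Agent.H541.RP.TAVG
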