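import Pool.Agent.H541.RP.Stm

/-! # Task DIGIT of project RP -/

set_option autoImplicit false

namespace Pool.Agent.H541.RP.TDIGIT

open Finset Pool.Agent.Helper112 Pool.Agent.H541.RP

lemma norm_one_add_ee (x : ℝ) : ‖1 + ee x‖ ^ 2 = 2 + 2 * Real.cos (2 * Real.pi * x) := by
  have h : ee x = (Real.cos (2 * Real.pi * x) : ℂ) + (Real.sin (2 * Real.pi * x) : ℂ) * Complex.I := by
    unfold ee
    rw [show (2 * Real.pi * x * Complex.I : ℂ) = ((2 * Real.pi * x : ℝ) : ℂ) * Complex.I by push_cast; ring,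
      Complex.exp_mul_I, Complex.ofReal_cos, Complex.ofReal_sin]
  rw [h, ← Complex.normSq_eq_norm_sq, Complex.normSq_apply]
  simp only [Complex.add_re, Complex.one_re, Complex.ofReal_re, Complex.mul_re, Complex.I_re, mul_zero,
    Complex.ofReal_im, Complex.I_im, mul_one, sub_self, add_zero, Complex.add_im, Complex.one_im, Complex.mul_im,
    zero_add]
  nlinarith [Real.sin_sq_add_cos_sq (2 * Real.pi * x)]

lemma cos_le {x η : ℝ} (h0 : 0 < η) (h : η ≤ dist1 x) :
    Real.cos (2 * Real.pi * x) ≤ Real.cos (2 * Real.pi * η) := by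
  unfold dist1 at h
  have h1 : Real.cos (2 * Real.pi * x) = Real.cos (2 * Real.pi * |x - round x|) := by
    rw [show 2 * Real.pi * x = 2 * Real.pi * (x - round x) + (round x : ℤ) * (2 * Real.pi) by ring,
      Real.cos_add_int_mul_two_pi]
    rcases abs_cases (x - round x) with ⟨h2, -⟩ | ⟨h2, -⟩
    · rw [h2]
    · rw [h2, show 2 * Real.pi * -(x - round x) = -(2 * Real.pi * (x - round x)) by ring, Real.cos_neg]
  rw [h1]
  have h3 : |x - round x| ≤ 1 / 2 := abs_sub_round x
  have hpi := Real.pi_pos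
  apply Real.cos_le_cos_of_nonneg_of_le_pi (by positivity) (by nlinarith)
  nlinarith

theorem t_DIGIT : S_digit := by
  intro b η hb hη
  by_cases hη2 : 1 / 2 < η
  · refine ⟨1 / 2, by norm_num, by norm_num, fun x hx => ?_⟩
    exfalso
    have : dist1 x ≤ 1 / 2 := abs_sub_round x
    linarith
  · push Not at hη2
    have hpi := Real.pi_pos
    have hb2 : (2 : ℝ) ≤ b := by exact_mod_cast hb
    set s : ℝ := Real.sqrt (2 + 2 * Real.cos (2 * Real.pi * η)) with hs
    have hcos : Real.cos (2 * Real.pi * η) < 1 := by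
      rw [← Real.cos_zero]
      apply Real.cos_lt_cos_of_nonneg_of_le_pi le_rfl (by nlinarith) (by positivity)
    have hs2 : s < 2 := by
      rw [hs, Real.sqrt_lt' (by norm_num)]
      linarith
    have hs0 : 0 ≤ s := Real.sqrt_nonneg _
    refine ⟨max (1 / 2) ((s + (b - 2)) / b), lt_max_of_lt_left (by norm_num), ?_, fun x hx => ?_⟩
    · apply max_lt (by norm_num)
      rw [div_lt_one (by linarith)]
      linarith
    · have h1 : ‖1 + ee x‖ ≤ s := by
        rw [hs]
        apply Real.le_sqrt_of_sq_le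
        rw [norm_one_add_ee]
        linarith [cos_le hη hx]
      obtain ⟨k, rfl⟩ : ∃ k, b = k + 2 := ⟨b - 2, by omega⟩
      have h2 : ∑ d ∈ range (k + 2), ee (d * x) = (1 + ee x) + ∑ d ∈ range k, ee (((d + 2 : ℕ) : ℝ) * x) := by
        rw [sum_range_succ', sum_range_succ']
        simp only [Nat.cast_zero, zero_mul, ls_ee_zero, zero_add, Nat.cast_one, one_mul]
        ring
      have h3 : ‖∑ d ∈ range k, ee (((d + 2 : ℕ) : ℝ) * x)‖ ≤ k := by
        refine (norm_sum_le _ _).trans ?_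
        simp [ls_norm_ee]
      calc ‖∑ d ∈ range (k + 2), ee (d * x)‖ ≤ ‖1 + ee x‖ + ‖∑ d ∈ range k, ee (((d + 2 : ℕ) : ℝ) * x)‖ := by
            rw [h2]; exact norm_add_le _ _
        _ ≤ s + (((k + 2 : ℕ) : ℝ) - 2) := by
            have h4 : (((k + 2 : ℕ) : ℝ) - 2) = k := by push_cast; ring
            rw [h4]; exact add_le_add h1 h3
        _ = ((k + 2 : ℕ) : ℝ) * ((s + (((k + 2 : ℕ) : ℝ) - 2)) / ((k + 2 : ℕ) : ℝ)) := by
            field_simp
        _ ≤ _ := mul_le_mul_of_nonneg_left (le_max_right _ _) (by positivity)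

end Pool.Agent.H541.RP.TDIGIT
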