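import Pool.Agent.H541.RP.Stm
import Pool.Graph.R_seed8.H623R3.PBT8

/-!
# RP-ENERGY (helper668 for helper541): additive energy by the fourth moment
-/

set_option autoImplicit false

namespace Pool.Agent.H541.RP.TENERGY

open Finset Pool.Agent.Helper112 Pool.Agent.H541.RP

/-- Parseval with multiplicities -/
theorem parseval {ι : Type*} (T : Finset ι) (y : ι → ℕ) (f : ι → ℝ) (N : ℕ) (hN : 0 < N)
    (hy : ∀ t ∈ T, y t < N) :
    ∑ k ∈ range N, ‖∑ t ∈ T, (f t : ℂ) * ee ((k : ℝ) / N * y t)‖ ^ 2 =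
      N * ∑ t ∈ T, ∑ t' ∈ T, if y t = y t' then f t * f t' else 0 := by
  have hN' : (N : ℝ) ≠ 0 := by exact_mod_cast hN.ne'
  have h1 : ((∑ k ∈ range N, ‖∑ t ∈ T, (f t : ℂ) * ee ((k : ℝ) / N * y t)‖ ^ 2 : ℝ) : ℂ) =
      ((N * ∑ t ∈ T, ∑ t' ∈ T, if y t = y t' then f t * f t' else 0 : ℝ) : ℂ) := by
    push_cast
    have h2 : ∀ k ∈ range N, ((‖∑ t ∈ T, (f t : ℂ) * ee ((k : ℝ) / N * y t)‖ : ℂ)) ^ 2 =
        ∑ t ∈ T, ∑ t' ∈ T, (f t : ℂ) * (f t' : ℂ) * ee ((k : ℝ) * (((y t : ℝ) - y t') / N)) := by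
      intro k _
      rw [← Complex.mul_conj', map_sum, Finset.sum_mul_sum]
      refine sum_congr rfl fun t _ => sum_congr rfl fun t' _ => ?_
      rw [map_mul, ls_conj_ee, Complex.conj_ofReal]
      have e : (k : ℝ) * (((y t : ℝ) - y t') / N) = (k : ℝ) / N * y t + -((k : ℝ) / N * y t') := by
        field_simp
        ring
      rw [e, ls_ee_add]
      ring
    rw [sum_congr rfl h2, sum_comm, mul_sum]
    refine sum_congr rfl fun t ht => ?_
    rw [sum_comm, mul_sum]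
    refine sum_congr rfl fun t' ht' => ?_
    rw [← mul_sum, Pool.Agent.H623R3.PBT8.orth hN]
    have h3 : y t ≡ y t' [MOD N] ↔ y t = y t' :=
      ⟨fun h => Nat.ModEq.eq_of_lt_of_lt h (hy t ht) (hy t' ht'), fun h => by rw [h]⟩
    by_cases h : y t = y t'
    · rw [if_pos h, if_pos (h3.2 h)]
      push_cast
      ring
    · rw [if_neg h, if_neg (fun h' => h (h3.1 h'))]
      simp
  exact_mod_cast h1

/-- fourth moment -/
theorem fourth (X : ℕ) (x : ℕ → ℕ) (f : ℕ → ℝ) (hX : 1 ≤ X) (hx : ∀ n < X, x n < X) :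
    ∑ k ∈ range (2 * X), ‖∑ n ∈ range X, (f n : ℂ) * ee ((k : ℝ) / (2 * X : ℕ) * x n)‖ ^ 4 =
      (2 * X : ℕ) * ∑ t ∈ range X ×ˢ range X, ∑ t' ∈ range X ×ˢ range X,
        if x t.1 + x t.2 = x t'.1 + x t'.2 then (f t.1 * f t.2) * (f t'.1 * f t'.2) else 0 := by
  rw [← parseval (range X ×ˢ range X) (fun t => x t.1 + x t.2) (fun t => f t.1 * f t.2) (2 * X)
    (by omega)]
  · refine sum_congr rfl fun k _ => ?_
    have e : ∑ t ∈ range X ×ˢ range X, ((f t.1 * f t.2 : ℝ) : ℂ) *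
        ee ((k : ℝ) / (2 * X : ℕ) * ((x t.1 + x t.2 : ℕ) : ℝ)) =
        (∑ n ∈ range X, (f n : ℂ) * ee ((k : ℝ) / (2 * X : ℕ) * x n)) ^ 2 := by
      rw [sq, Finset.sum_mul_sum, ← Finset.sum_product']
      refine sum_congr rfl fun t _ => ?_
      have e1 : (k : ℝ) / (2 * X : ℕ) * ((x t.1 + x t.2 : ℕ) : ℝ) =
          (k : ℝ) / (2 * X : ℕ) * x t.1 + (k : ℝ) / (2 * X : ℕ) * x t.2 := by
        rw [Nat.cast_add (x t.1), mul_add]
      rw [e1, ls_ee_add]
      push_cast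
      ring
    show _ = ‖∑ t ∈ range X ×ˢ range X, ((f t.1 * f t.2 : ℝ) : ℂ) *
        ee ((k : ℝ) / (2 * X : ℕ) * ((x t.1 + x t.2 : ℕ) : ℝ))‖ ^ 2
    rw [e, norm_pow, ← pow_mul]
  · intro t ht
    rw [mem_product, mem_range, mem_range] at ht
    have h1 := hx _ ht.1
    have h2 := hx _ ht.2
    show x t.1 + x t.2 < 2 * X
    omega

theorem pow4_le (a b c : ℝ) (ha : 0 ≤ a) (hb : 0 ≤ b) (hc : 0 ≤ c) (h : c ≤ a + b) :
    c ^ 4 ≤ 8 * (a ^ 4 + b ^ 4) := by
  have h1 : c ^ 4 ≤ (a + b) ^ 4 := by gcongr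
  nlinarith [sq_nonneg (a - b), sq_nonneg (a ^ 2 - b ^ 2), sq_nonneg (a + b), sq_nonneg (a * b),
    mul_nonneg ha hb, sq_nonneg (a ^ 2 + b ^ 2 - 2 * a * b), mul_nonneg (mul_nonneg ha hb) (sq_nonneg (a - b)),
    mul_nonneg (sq_nonneg (a - b)) (sq_nonneg (a + b))]

theorem t_ENERGY : S_energy := by
  intro X x A w V σ hX hinj hx hA hw hw1 hV hσ hsup
  set N : ℕ := 2 * X with hNdef
  have hN : 0 < N := by omega
  have hNr : (0 : ℝ) < N := by exact_mod_cast hN
  have hXr : (0 : ℝ) < X := by exact_mod_cast hX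
  -- the energy is at most the quadruple sum
  have h1 : (Finset.addEnergy (A.image x) (A.image x) : ℝ) ≤
      ∑ t ∈ range X ×ˢ range X, ∑ t' ∈ range X ×ˢ range X,
        if x t.1 + x t.2 = x t'.1 + x t'.2 then (w t.1 * w t.2) * (w t'.1 * w t'.2) else 0 := by
    have h2 : Finset.addEnergy (A.image x) (A.image x) ≤
        (((A ×ˢ A) ×ˢ (A ×ˢ A)).filter (fun q => x q.1.1 + x q.1.2 = x q.2.1 + x q.2.2)).card := by
      unfold Finset.addEnergy
      refine le_trans (Finset.card_le_card ?_) (Finset.card_image_le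
        (f := fun q : (ℕ × ℕ) × (ℕ × ℕ) => ((x q.1.1, x q.2.1), (x q.1.2, x q.2.2))))
      intro q hq
      rw [mem_filter, mem_product, mem_product, mem_product, mem_image, mem_image, mem_image,
        mem_image] at hq
      obtain ⟨⟨⟨⟨a, ha, ha'⟩, ⟨b, hb, hb'⟩⟩, ⟨⟨c, hc, hc'⟩, ⟨d, hd, hd'⟩⟩⟩, hq⟩ := hq
      rw [mem_image]
      refine ⟨((a, c), (b, d)), ?_, ?_⟩
      · rw [mem_filter, mem_product, mem_product, mem_product]
        refine ⟨⟨⟨ha, hc⟩, ⟨hb, hd⟩⟩, ?_⟩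
        show x a + x c = x b + x d
        rw [ha', hb', hc', hd']
        exact hq
      · show ((x a, x b), (x c, x d)) = q
        rw [ha', hb', hc', hd']
    have h3 : ((((A ×ˢ A) ×ˢ (A ×ˢ A)).filter
        (fun q => x q.1.1 + x q.1.2 = x q.2.1 + x q.2.2)).card : ℝ) =
        ∑ t ∈ A ×ˢ A, ∑ t' ∈ A ×ˢ A, if x t.1 + x t.2 = x t'.1 + x t'.2 then (1 : ℝ) else 0 := by
      rw [← Finset.sum_product', Finset.card_filter]
      push_cast
      rfl
    have hAA : A ×ˢ A ⊆ range X ×ˢ range X := Finset.product_subset_product hA hA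
    have hnn : ∀ t t' : ℕ × ℕ, (0 : ℝ) ≤
        if x t.1 + x t.2 = x t'.1 + x t'.2 then (w t.1 * w t.2) * (w t'.1 * w t'.2) else 0 := by
      intro t t'
      split_ifs
      · exact mul_nonneg (mul_nonneg (hw _) (hw _)) (mul_nonneg (hw _) (hw _))
      · exact le_rfl
    calc (Finset.addEnergy (A.image x) (A.image x) : ℝ) ≤ _ := by exact_mod_cast h2
      _ = ∑ t ∈ A ×ˢ A, ∑ t' ∈ A ×ˢ A, if x t.1 + x t.2 = x t'.1 + x t'.2 then (1 : ℝ) else 0 := h3
      _ ≤ ∑ t ∈ A ×ˢ A, ∑ t' ∈ A ×ˢ A,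
          if x t.1 + x t.2 = x t'.1 + x t'.2 then (w t.1 * w t.2) * (w t'.1 * w t'.2) else 0 := by
        refine sum_le_sum fun t ht => sum_le_sum fun t' ht' => ?_
        rw [mem_product] at ht ht'
        split_ifs
        · have a1 := hw1 _ ht.1
          have a2 := hw1 _ ht.2
          have a3 := hw1 _ ht'.1
          have a4 := hw1 _ ht'.2
          exact one_le_mul_of_one_le_of_one_le (one_le_mul_of_one_le_of_one_le a1 a2)
            (one_le_mul_of_one_le_of_one_le a3 a4)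
        · exact le_rfl
      _ ≤ ∑ t ∈ A ×ˢ A, ∑ t' ∈ range X ×ˢ range X,
          if x t.1 + x t.2 = x t'.1 + x t'.2 then (w t.1 * w t.2) * (w t'.1 * w t'.2) else 0 :=
        sum_le_sum fun t _ => sum_le_sum_of_subset_of_nonneg hAA fun t' _ _ => hnn t t'
      _ ≤ _ := sum_le_sum_of_subset_of_nonneg hAA fun t _ _ => sum_nonneg fun t' _ => hnn t t'
  -- notation for the exponential sums
  set F : (ℕ → ℝ) → ℕ → ℂ := fun f k => ∑ n ∈ range X, (f n : ℂ) * ee ((k : ℝ) / N * x n) with hF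
  have hFw := fourth X x w hX hx
  have hFV := fourth X x (fun _ => V) hX hx
  rw [← hNdef] at hFw hFV
  -- constant weights
  have h4 : ∑ k ∈ range N, ‖F (fun _ => V) k‖ ^ 4 ≤ N * (V ^ 4 * X ^ 3) := by
    have h5 : ∑ k ∈ range N, ‖F (fun _ => V) k‖ ^ 4 = _ := hFV
    rw [h5]
    refine mul_le_mul_of_nonneg_left ?_ hNr.le
    have h6 : ∑ t ∈ range X ×ˢ range X, ∑ t' ∈ range X ×ˢ range X,
        (if x t.1 + x t.2 = x t'.1 + x t'.2 then (V * V) * (V * V) else 0) =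
        V ^ 4 * ((((range X ×ˢ range X) ×ˢ (range X ×ˢ range X)).filter
          (fun q => x q.1.1 + x q.1.2 = x q.2.1 + x q.2.2)).card : ℝ) := by
      rw [← Finset.sum_product', ← Finset.sum_filter, Finset.sum_const, nsmul_eq_mul]
      ring
    rw [h6]
    refine mul_le_mul_of_nonneg_left ?_ (by positivity)
    have h7 : (((range X ×ˢ range X) ×ˢ (range X ×ˢ range X)).filter
          (fun q => x q.1.1 + x q.1.2 = x q.2.1 + x q.2.2)).card ≤
        ((range X ×ˢ range X) ×ˢ range X).card := by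
      refine Finset.card_le_card_of_injOn (fun q => (q.1, q.2.1)) ?_ ?_
      · intro q hq
        rw [Finset.mem_coe, mem_filter, mem_product, mem_product, mem_product] at hq
        rw [Finset.mem_coe, mem_product, mem_product]
        exact ⟨hq.1.1, hq.1.2.1⟩
      · rintro ⟨⟨a, b⟩, ⟨c, d⟩⟩ hq ⟨⟨a', b'⟩, ⟨c', d'⟩⟩ hq' h
        rw [Finset.mem_coe, mem_filter, mem_product, mem_product, mem_product] at hq hq'
        simp only [Prod.mk.injEq] at h
        obtain ⟨⟨rfl, rfl⟩, rfl⟩ := h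
        obtain ⟨⟨-, ⟨-, hd⟩⟩, e⟩ := hq
        obtain ⟨⟨-, ⟨-, hd'⟩⟩, e'⟩ := hq'
        simp only at hd hd' e e'
        have h8 : x d = x d' := by omega
        have h9 : d = d' := hinj (by exact_mod_cast hd) (by exact_mod_cast hd') h8
        rw [h9]
    rw [card_product, card_product, card_range] at h7
    have h8 : ((((range X ×ˢ range X) ×ˢ (range X ×ˢ range X)).filter
          (fun q => x q.1.1 + x q.1.2 = x q.2.1 + x q.2.2)).card : ℝ) ≤ ((X * X * X : ℕ) : ℝ) := by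
      exact_mod_cast h7
    calc _ ≤ _ := h8
      _ = (X : ℝ) ^ 3 := by push_cast; ring
  -- the error
  have h9 : ∑ k ∈ range N, ‖F (fun n => w n - V) k‖ ^ 4 ≤
      N * (σ ^ 2 * X ^ 2 * ∑ n ∈ range X, (w n - V) ^ 2) := by
    have h10 : ∑ k ∈ range N, ‖F (fun n => w n - V) k‖ ^ 2 = N * ∑ n ∈ range X, (w n - V) ^ 2 := by
      have h11 := parseval (range X) x (fun n => w n - V) N hN (fun t ht => by
        rw [mem_range] at ht
        have := hx t ht
        omega)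
      have h12 : ∑ t ∈ range X, ∑ t' ∈ range X,
          (if x t = x t' then (w t - V) * (w t' - V) else 0) = ∑ n ∈ range X, (w n - V) ^ 2 := by
        refine sum_congr rfl fun t ht => ?_
        rw [Finset.sum_eq_single t]
        · rw [if_pos rfl, sq]
        · intro t' ht' hne
          rw [if_neg]
          intro h
          exact hne (hinj (by exact_mod_cast ht') (by exact_mod_cast ht) h.symm)
        · intro h
          exact absurd ht h
      rw [h12] at h11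
      exact h11
    calc ∑ k ∈ range N, ‖F (fun n => w n - V) k‖ ^ 4 ≤
        ∑ k ∈ range N, (σ * X) ^ 2 * ‖F (fun n => w n - V) k‖ ^ 2 := by
          refine sum_le_sum fun k _ => ?_
          have h13 := hsup ((k : ℝ) / N)
          have h14 : ‖F (fun n => w n - V) k‖ ≤ σ * X := h13
          have h15 : ‖F (fun n => w n - V) k‖ ^ 2 ≤ (σ * X) ^ 2 := by gcongr
          calc ‖F (fun n => w n - V) k‖ ^ 4 = ‖F (fun n => w n - V) k‖ ^ 2 *
                ‖F (fun n => w n - V) k‖ ^ 2 := by ring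
            _ ≤ _ := mul_le_mul_of_nonneg_right h15 (by positivity)
      _ = (σ * X) ^ 2 * (N * ∑ n ∈ range X, (w n - V) ^ 2) := by rw [← mul_sum, h10]
      _ = _ := by ring
  -- comparison
  have h16 : ∑ k ∈ range N, ‖F w k‖ ^ 4 ≤
      ∑ k ∈ range N, 8 * (‖F (fun _ => V) k‖ ^ 4 + ‖F (fun n => w n - V) k‖ ^ 4) := by
    refine sum_le_sum fun k _ => ?_
    refine pow4_le _ _ _ (norm_nonneg _) (norm_nonneg _) (norm_nonneg _) ?_
    have h17 : F w k = F (fun _ => V) k + F (fun n => w n - V) k := by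
      simp only [hF]
      rw [← sum_add_distrib]
      refine sum_congr rfl fun n _ => ?_
      push_cast
      ring
    rw [h17]
    exact norm_add_le _ _
  rw [← mul_sum, sum_add_distrib] at h16
  have h18 : ∑ k ∈ range N, ‖F w k‖ ^ 4 = _ := hFw
  rw [h18] at h16
  have h19 : (N : ℝ) * ∑ t ∈ range X ×ˢ range X, ∑ t' ∈ range X ×ˢ range X,
        (if x t.1 + x t.2 = x t'.1 + x t'.2 then (w t.1 * w t.2) * (w t'.1 * w t'.2) else 0) ≤
      N * (8 * V ^ 4 * X ^ 3 + 8 * σ ^ 2 * X ^ 2 * ∑ n ∈ range X, (w n - V) ^ 2) := by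
    calc _ ≤ _ := h16
      _ ≤ 8 * (N * (V ^ 4 * X ^ 3) + N * (σ ^ 2 * X ^ 2 * ∑ n ∈ range X, (w n - V) ^ 2)) := by
        linarith
      _ = _ := by ring
  exact le_trans h1 (le_of_mul_le_mul_left h19 hNr)

end Pool.Agent.H541.RP.TENERGY
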