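import Pool.Agent.H541.RP.Stm
import Pool.Graph.R_seed8.Helper112.Arith

/-!
# Project RP, ERRBIG: the large part of the error
-/

set_option autoImplicit false

namespace Pool.Agent.H541.RP.TERRBIG

open Finset Pool.Agent.H541.RP

theorem wt_nonneg {r : ℝ} (hr : 0 < r) (B : ℕ) (x : ℝ) : 0 ≤ wt r B x := by
  unfold wt
  split_ifs
  · exact hr.le
  · exact zero_le_one

theorem AA_nonneg {r : ℝ} (hr : 0 < r) (B n : ℕ) (x : ℝ) : 0 ≤ AA r B n x :=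
  Finset.prod_nonneg fun i _ => wt_nonneg hr B _

theorem tau_bd : ∃ C : ℝ, 0 < C ∧ ∀ b k d : ℕ, 1 ≤ d → d ≤ (b ^ 8) ^ (k + 1) →
    (d.divisors.card : ℝ) ≤ C * (b : ℝ) ^ (k + 1) := by
  obtain ⟨C, hC, h⟩ := Pool.Agent.Helper112.divisor_bound (ε := 1 / 8) (by norm_num)
  refine ⟨C, hC, fun b k d hd hdb => (h d hd).trans ?_⟩
  apply mul_le_mul_of_nonneg_left _ hC.le
  have h1 : (d : ℝ) ≤ ((b : ℝ) ^ (k + 1)) ^ 8 := by
    have h2 : ((d : ℕ) : ℝ) ≤ (((b ^ 8) ^ (k + 1) : ℕ) : ℝ) := by exact_mod_cast hdb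
    refine h2.trans (le_of_eq ?_)
    push_cast
    rw [← pow_mul, ← pow_mul, mul_comm]
  have hb : 0 ≤ (b : ℝ) ^ (k + 1) := by positivity
  calc (d : ℝ) ^ (1 / 8 : ℝ) ≤ (((b : ℝ) ^ (k + 1)) ^ 8) ^ (1 / 8 : ℝ) :=
        Real.rpow_le_rpow (Nat.cast_nonneg d) h1 (by norm_num)
    _ = (b : ℝ) ^ (k + 1) := by
        rw [← Real.rpow_natCast ((b : ℝ) ^ (k + 1)) 8, ← Real.rpow_mul hb]
        norm_num

/-- the inner sum -/
noncomputable def UU (r : ℝ) (B n d : ℕ) : ℝ :=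
  ∑ h ∈ (range d).filter (fun h => h.Coprime d), AA r B n ((h : ℝ) / d)

theorem UU_nonneg {r : ℝ} (hr : 0 < r) (B n d : ℕ) : 0 ≤ UU r B n d :=
  Finset.sum_nonneg fun h _ => AA_nonneg hr B n _

theorem block (hav : S_avg) {C : ℝ} (hC : 0 < C) (hτ : ∀ b k d : ℕ, 1 ≤ d →
    d ≤ (b ^ 8) ^ (k + 1) → (d.divisors.card : ℝ) ≤ C * (b : ℝ) ^ (k + 1))
    {b I k n : ℕ} {r : ℝ} (hb : 2 ≤ b) (hr : 0 < r) (hr1 : r < 1) (hI : 1 ≤ I)
    (hIr : ((b ^ 8 : ℕ) : ℝ) * r ^ I ≤ 1) (hn : I * (2 * (k + 1)) ≤ n) :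
    ∑ d ∈ (Ico ((b ^ 8) ^ k) ((b ^ 8) ^ (k + 1))).filter (fun d => d.Coprime b),
      (d.divisors.card : ℝ) ^ 2 / d * UU r (b ^ 8) n d ≤
      (9 * C ^ 2 * I * (b : ℝ) ^ 2) * (9 / 64 : ℝ) ^ k := by
  have hb0 : (0 : ℝ) < b := by
    have : (2 : ℝ) ≤ b := by exact_mod_cast hb
    linarith
  have hB : 1 ≤ (b ^ 8) ^ k := Nat.one_le_pow _ _ (Nat.pow_pos (by omega))
  have hB4 : 4 ≤ b ^ 8 := by
    calc 4 ≤ 2 ^ 8 := by norm_num
      _ ≤ b ^ 8 := Nat.pow_le_pow_left hb 8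
  have hav1 := hav r (b ^ 8) I (2 * (k + 1)) ((b ^ 8) ^ (k + 1)) n hr hr1.le hB4 hI hIr
    (by rw [← pow_mul, mul_comm (k + 1) 2]) hn
  set W : ℝ := (C * (b : ℝ) ^ (k + 1)) ^ 2 / ((b : ℝ) ^ 8) ^ k with hW
  have hW0 : 0 ≤ W := by positivity
  have hterm : ∀ d ∈ (Ico ((b ^ 8) ^ k) ((b ^ 8) ^ (k + 1))).filter (fun d => d.Coprime b),
      (d.divisors.card : ℝ) ^ 2 / d * UU r (b ^ 8) n d ≤ W * UU r (b ^ 8) n d := by
    intro d hd
    rw [mem_filter, mem_Ico] at hd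
    apply mul_le_mul_of_nonneg_right _ (UU_nonneg hr _ _ _)
    have h1 : 1 ≤ d := hB.trans hd.1.1
    have h2 := hτ b k d h1 hd.1.2.le
    have h3 : ((b : ℝ) ^ 8) ^ k ≤ d := by exact_mod_cast hd.1.1
    rw [hW]
    apply div_le_div₀ (by positivity) _ (by positivity) h3
    exact pow_le_pow_left₀ (Nat.cast_nonneg _) h2 2
  have hsub : ∑ d ∈ (Ico ((b ^ 8) ^ k) ((b ^ 8) ^ (k + 1))).filter (fun d => d.Coprime b),
      UU r (b ^ 8) n d ≤
      ∑ d ∈ (Icc 1 ((b ^ 8) ^ (k + 1))).filter (fun d => d.Coprime (b ^ 8)), UU r (b ^ 8) n d := by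
    apply Finset.sum_le_sum_of_subset_of_nonneg
    · intro d hd
      rw [mem_filter, mem_Ico] at hd
      rw [mem_filter, mem_Icc]
      exact ⟨⟨hB.trans hd.1.1, hd.1.2.le⟩, hd.2.pow_right 8⟩
    · intro d _ _
      exact UU_nonneg hr _ _ _
  have hav2 : ∑ d ∈ (Icc 1 ((b ^ 8) ^ (k + 1))).filter (fun d => d.Coprime (b ^ 8)),
      UU r (b ^ 8) n d ≤ I * 3 ^ (2 * (k + 1)) := hav1
  calc _ ≤ ∑ d ∈ (Ico ((b ^ 8) ^ k) ((b ^ 8) ^ (k + 1))).filter (fun d => d.Coprime b),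
        W * UU r (b ^ 8) n d := Finset.sum_le_sum hterm
    _ = W * ∑ d ∈ (Ico ((b ^ 8) ^ k) ((b ^ 8) ^ (k + 1))).filter (fun d => d.Coprime b),
        UU r (b ^ 8) n d := by rw [Finset.mul_sum]
    _ ≤ W * (I * 3 ^ (2 * (k + 1))) := mul_le_mul_of_nonneg_left (hsub.trans hav2) hW0
    _ = (9 * C ^ 2 * I * (b : ℝ) ^ 2) * (9 / (b : ℝ) ^ 6) ^ k := by
        have e1 : (3 : ℝ) ^ (2 * (k + 1)) = 9 * 9 ^ k := by
          rw [pow_mul, pow_succ]
          norm_num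
          ring
        have e2 : (9 / (b : ℝ) ^ 6) ^ k = 9 ^ k * ((b : ℝ) ^ 2) ^ k / ((b : ℝ) ^ 8) ^ k := by
          rw [← mul_pow, ← div_pow]
          congr 1
          field_simp
        rw [hW, e1, e2]
        ring
    _ ≤ (9 * C ^ 2 * I * (b : ℝ) ^ 2) * (9 / 64 : ℝ) ^ k := by
        apply mul_le_mul_of_nonneg_left _ (by positivity)
        apply pow_le_pow_left₀ (by positivity)
        apply div_le_div_of_nonneg_left (by norm_num) (by norm_num)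
        have h2 : (2 : ℝ) ≤ b := by exact_mod_cast hb
        calc (64 : ℝ) = 2 ^ 6 := by norm_num
          _ ≤ (b : ℝ) ^ 6 := pow_le_pow_left₀ (by norm_num) h2 6

theorem t_ERRBIG (h : S_avg) : S_errBig := by
  obtain ⟨C, hC, hτ⟩ := tau_bd
  intro b r I hb hr hr1 hI hIr
  have hb0 : (0 : ℝ) < b := by
    have : (2 : ℝ) ≤ b := by exact_mod_cast hb
    linarith
  have hI0 : (0 : ℝ) < I := by exact_mod_cast hI
  set C' : ℝ := 9 * C ^ 2 * I * (b : ℝ) ^ 2 with hC'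
  have hC'0 : 0 < C' := by positivity
  refine ⟨C' / (1 - 9 / 64), by apply div_pos hC'0; norm_num, ?_⟩
  intro s K n hn
  have hB : 0 < b ^ 8 := Nat.pow_pos (by omega)
  rcases Nat.lt_or_ge s (K + 1) with hs | hs
  · have key : ∀ m : ℕ, s ≤ m → m ≤ K + 1 →
        ∑ d ∈ (Ico ((b ^ 8) ^ s) ((b ^ 8) ^ m)).filter (fun d => d.Coprime b),
          (d.divisors.card : ℝ) ^ 2 / d * UU r (b ^ 8) n d ≤
        ∑ k ∈ Ico s m, C' * (9 / 64 : ℝ) ^ k := by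
      intro m hsm
      induction m, hsm using Nat.le_induction with
      | base =>
        intro _
        rw [Ico_self, Ico_self, Finset.filter_empty, Finset.sum_empty, Finset.sum_empty]
      | succ m hsm ih =>
        intro hm
        have ih' := ih (by omega)
        have h1 : (b ^ 8) ^ s ≤ (b ^ 8) ^ m := Nat.pow_le_pow_right hB hsm
        have h2 : (b ^ 8) ^ m ≤ (b ^ 8) ^ (m + 1) := Nat.pow_le_pow_right hB (Nat.le_succ m)
        rw [Finset.sum_filter] at ih' ⊢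
        rw [← Finset.sum_Ico_consecutive _ h1 h2, Finset.sum_Ico_succ_top hsm]
        have h3 := block h hC hτ (k := m) (n := n) hb hr hr1 hI hIr (by
          refine le_trans ?_ hn
          apply Nat.mul_le_mul_left
          omega)
        rw [Finset.sum_filter] at h3
        exact add_le_add ih' h3
    have h4 := key (K + 1) hs.le le_rfl
    have h5 : ∑ k ∈ Ico s (K + 1), C' * (9 / 64 : ℝ) ^ k ≤ C' / (1 - 9 / 64) * (9 / 64) ^ s := by
      rw [← Finset.mul_sum]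
      have h6 := geom_sum_Ico_le_of_lt_one (m := s) (n := K + 1) (x := (9 / 64 : ℝ))
        (by norm_num) (by norm_num)
      calc C' * ∑ k ∈ Ico s (K + 1), (9 / 64 : ℝ) ^ k ≤ C' * ((9 / 64) ^ s / (1 - 9 / 64)) :=
            mul_le_mul_of_nonneg_left h6 hC'0.le
        _ = C' / (1 - 9 / 64) * (9 / 64) ^ s := by ring
    exact h4.trans h5
  · have h1 : (b ^ 8) ^ (K + 1) ≤ (b ^ 8) ^ s := Nat.pow_le_pow_right hB hs
    rw [Finset.Ico_eq_empty_of_le h1, Finset.filter_empty, Finset.sum_empty]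
    positivity

end Pool.Agent.H541.RP.TERRBIG
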