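import Pool.Agent.H541.RP.Stm

/-!
# RP-EXPAND (helper299 for helper541)
-/

set_option autoImplicit false

namespace Pool.Agent.H541.RP.TEXPAND

open Finset Pool.Agent.Helper112 Pool.Agent.H541.RP

lemma ee_eq_one {x : ℝ} (h : ee x = 1) : ∃ k : ℤ, x = k := by
  unfold ee at h
  rw [Complex.exp_eq_one_iff] at h
  obtain ⟨k, hk⟩ := h
  refine ⟨k, ?_⟩
  have hpi : (2 * (Real.pi : ℂ) * Complex.I) ≠ 0 := Complex.two_pi_I_ne_zero
  have h2 : (2 * (Real.pi : ℂ) * Complex.I) * ((x : ℂ) - k) = 0 := by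
    linear_combination hk
  have h3 := (mul_eq_zero.1 h2).resolve_left hpi
  have h4 : (x : ℂ) = (k : ℂ) := sub_eq_zero.1 h3
  exact_mod_cast h4

lemma orth {l : ℕ} (hl : 0 < l) (n : ℕ) :
    ∑ h ∈ range l, ee ((h : ℝ) / l * n) = if l ∣ n then (l : ℂ) else 0 := by
  have hl' : (l : ℝ) ≠ 0 := by exact_mod_cast hl.ne'
  have h1 : ∀ h ∈ range l, ee ((h : ℝ) / l * n) = ee ((n : ℝ) / l) ^ h := by
    intro h _
    rw [← ls_ee_nat_mul]
    congr 1
    field_simp
  rw [sum_congr rfl h1]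
  split_ifs with hd
  · obtain ⟨k, rfl⟩ := hd
    have : (((l * k : ℕ) : ℝ) / l) = (k : ℕ) := by push_cast; field_simp
    rw [this, ls_ee_nat]
    simp
  · have hne : ee ((n : ℝ) / l) ≠ 1 := by
      intro h
      obtain ⟨k, hk⟩ := ee_eq_one h
      apply hd
      have h2 : (n : ℝ) = l * k := by
        rw [← hk]; field_simp
      have h3 : (n : ℤ) = l * k := by exact_mod_cast h2
      exact Int.natCast_dvd_natCast.1 ⟨k, h3⟩
    have hp : ee ((n : ℝ) / l) ^ l = 1 := by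
      rw [← ls_ee_nat_mul]
      have : (l : ℝ) * ((n : ℝ) / l) = (n : ℕ) := by field_simp
      rw [this, ls_ee_nat]
    have h4 := mul_neg_geom_sum (ee ((n : ℝ) / l)) l
    rw [hp, sub_self] at h4
    rcases mul_eq_zero.1 h4 with h5 | h5
    · exact absurd (sub_eq_zero.1 h5).symm hne
    · exact h5

/-- the indicator of the divisibility minus its mean -/
lemma ind {l : ℕ} (hl : 0 < l) (n : ℕ) :
    ((if l ∣ n then (1 : ℂ) else 0) - 1 / l) = (1 / (l : ℂ)) * ∑ h ∈ Ico 1 l, ee ((h : ℝ) / l * n) := by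
  have hl' : (l : ℂ) ≠ 0 := by exact_mod_cast hl.ne'
  have h1 := orth hl n
  rw [range_eq_Ico, sum_eq_sum_Ico_succ_bot hl] at h1
  have h0 : ee (((0 : ℕ) : ℝ) / l * n) = 1 := by simp [ls_ee_zero]
  rw [h0] at h1
  have h2 : ∑ h ∈ Ico 1 l, ee ((h : ℝ) / l * n) = (if l ∣ n then (l : ℂ) else 0) - 1 := by
    rw [← h1]; simp
  rw [h2]
  split_ifs
  · field_simp
  · ring

theorem t_EXPAND : S_expand := by
  intro X D x c α
  have key : ∑ n ∈ range X, (((∑ l ∈ (Icc 1 D).filter (fun l => l ∣ n), c l) - ∑ l ∈ Icc 1 D, c l / l : ℝ) : ℂ) *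
      ee (α * x n) = ∑ l ∈ Icc 1 D, ((c l : ℂ) / l) * ∑ h ∈ Ico 1 l,
        ∑ n ∈ range X, ee ((h : ℝ) / l * n + α * x n) := by
    have h1 : ∀ n ∈ range X, (((∑ l ∈ (Icc 1 D).filter (fun l => l ∣ n), c l) - ∑ l ∈ Icc 1 D, c l / l : ℝ) : ℂ) *
        ee (α * x n) = ∑ l ∈ Icc 1 D, ((c l : ℂ) / l) * ∑ h ∈ Ico 1 l, ee ((h : ℝ) / l * n + α * x n) := by
      intro n _
      have h2 : (((∑ l ∈ (Icc 1 D).filter (fun l => l ∣ n), c l) - ∑ l ∈ Icc 1 D, c l / l : ℝ) : ℂ) =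
          ∑ l ∈ Icc 1 D, (c l : ℂ) * ((if l ∣ n then (1 : ℂ) else 0) - 1 / l) := by
        rw [sum_filter]
        push_cast
        rw [← sum_sub_distrib]
        refine sum_congr rfl fun l _ => ?_
        split_ifs
        · ring
        · push_cast; ring
      rw [h2, sum_mul]
      refine sum_congr rfl fun l hl => ?_
      have hl0 : 0 < l := (mem_Icc.1 hl).1
      rw [ind hl0 n]
      have h3 : ∑ h ∈ Ico 1 l, ee ((h : ℝ) / l * n + α * x n) =
          (∑ h ∈ Ico 1 l, ee ((h : ℝ) / l * n)) * ee (α * x n) := by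
        rw [sum_mul]
        exact sum_congr rfl fun h _ => ls_ee_add _ _
      rw [h3]
      ring
    rw [sum_congr rfl h1, sum_comm]
    refine sum_congr rfl fun l _ => ?_
    rw [← mul_sum, sum_comm]
  rw [key]
  refine (norm_sum_le _ _).trans (sum_le_sum fun l _ => ?_)
  rw [norm_mul, norm_div, Complex.norm_real, Real.norm_eq_abs, Complex.norm_natCast]
  exact mul_le_mul_of_nonneg_left (norm_sum_le _ _) (by positivity)

end Pool.Agent.H541.RP.TEXPAND

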