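import Pool.Agent.H541.RP.Stm

/-!
Subtask of project RP (helper541): moments of the divisor function with weight `1 / n`.
-/

set_option autoImplicit false

namespace Pool.Agent.H541.RP.TMOM

open Finset Pool.Agent.H541.RP
open scoped Pointwise

theorem card_divisors_mul_le (a b : ℕ) :
    ((a * b).divisors.card : ℝ) ≤ (a.divisors.card : ℝ) * b.divisors.card := by
  rw [Nat.divisors_mul]
  exact_mod_cast Finset.card_mul_le

theorem step (f : ℕ → ℝ) (hf : ∀ n, 0 ≤ f n) (X : ℕ) :
    ∑ n ∈ Icc 1 X, ∑ p ∈ n.divisorsAntidiagonal, f p.1 * f p.2 ≤ (∑ n ∈ Icc 1 X, f n) ^ 2 := by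
  have h1 : ∀ n ∈ Icc 1 X, ∑ p ∈ n.divisorsAntidiagonal, f p.1 * f p.2 =
      ∑ p ∈ (Icc 1 X ×ˢ Icc 1 X).filter (fun p => p.1 * p.2 = n), f p.1 * f p.2 := by
    intro n hn
    rw [mem_Icc] at hn
    apply Finset.sum_congr _ fun _ _ => rfl
    ext ⟨a, b⟩
    simp only [Nat.mem_divisorsAntidiagonal, mem_filter, mem_product, mem_Icc]
    constructor
    · rintro ⟨h, h0⟩
      have ha : 0 < a := Nat.pos_of_ne_zero (by rintro rfl; simp at h; omega)
      have hb : 0 < b := Nat.pos_of_ne_zero (by rintro rfl; simp at h; omega)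
      have h2 : a ≤ a * b := Nat.le_mul_of_pos_right a hb
      have h3 : b ≤ a * b := Nat.le_mul_of_pos_left b ha
      omega
    · rintro ⟨-, h⟩
      exact ⟨h, by omega⟩
  rw [Finset.sum_congr rfl h1]
  refine (Finset.sum_fiberwise_le_sum_of_sum_fiber_nonneg fun y _ =>
    Finset.sum_nonneg fun p _ => mul_nonneg (hf _) (hf _)).trans ?_
  rw [Finset.sum_product, sq, Finset.sum_mul_sum]

theorem t_MOM : S_mom := by
  intro k X
  induction k with
  | zero =>
    simp only [pow_zero, pow_one]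
    have h := harmonic_le_one_add_log X
    rw [harmonic_eq_sum_Icc] at h
    push_cast at h
    simpa only [one_div] using h
  | succ k ih =>
    have h0 : ∀ n ∈ Icc 1 X, (n.divisors.card : ℝ) ^ (k + 1) / n ≤
        ∑ p ∈ n.divisorsAntidiagonal, ((p.1.divisors.card : ℝ) ^ k / p.1) *
          ((p.2.divisors.card : ℝ) ^ k / p.2) := by
      intro n hn
      rw [mem_Icc] at hn
      have h1 : (n.divisors.card : ℝ) ^ (k + 1) / n =
          ∑ p ∈ n.divisorsAntidiagonal, (n.divisors.card : ℝ) ^ k / n := by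
        rw [Nat.sum_divisorsAntidiagonal (fun _ _ => (n.divisors.card : ℝ) ^ k / (n : ℝ)),
          Finset.sum_const, nsmul_eq_mul]
        ring
      rw [h1]
      apply Finset.sum_le_sum
      rintro ⟨a, b⟩ hp
      rw [Nat.mem_divisorsAntidiagonal] at hp
      obtain ⟨hab, -⟩ := hp
      simp only at hab ⊢
      rw [← hab, div_mul_div_comm, ← mul_pow]
      push_cast
      have h2 := card_divisors_mul_le a b
      gcongr
    calc ∑ n ∈ Icc 1 X, (n.divisors.card : ℝ) ^ (k + 1) / n
        ≤ ∑ n ∈ Icc 1 X, ∑ p ∈ n.divisorsAntidiagonal, ((p.1.divisors.card : ℝ) ^ k / p.1) *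
          ((p.2.divisors.card : ℝ) ^ k / p.2) := Finset.sum_le_sum h0
      _ ≤ (∑ n ∈ Icc 1 X, (n.divisors.card : ℝ) ^ k / n) ^ 2 :=
          step (fun n => (n.divisors.card : ℝ) ^ k / n) (fun n => by positivity) X
      _ ≤ ((1 + Real.log X) ^ (2 ^ k)) ^ 2 := by
          apply pow_le_pow_left₀ _ ih
          exact Finset.sum_nonneg fun n _ => by positivity
      _ = (1 + Real.log X) ^ (2 ^ (k + 1)) := by
          rw [← pow_mul, pow_succ]

end Pool.Agent.H541.RP.TMOM
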