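import Pool.Agent.H541.RP.Stm

/-!
# POINT: in every window of `v + 1` consecutive indices one point is far from the integers
-/

set_option autoImplicit false

namespace Pool.Agent.H541.RP.TPOINT

open Finset Pool.Agent.H541.RP

lemma dist1_mul (B : ℕ) (y : ℝ) (hB : 2 ≤ B) (h : dist1 y < 1 / (2 * (B : ℝ))) :
    dist1 ((B : ℝ) * y) = B * dist1 y := by
  unfold dist1 at h ⊢
  have hBp : (0 : ℝ) < B := by positivity
  have hB' : (0 : ℝ) < B := by exact_mod_cast (by omega : 0 < B)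
  have h2 : |(B : ℝ) * y - ((B : ℤ) * round y : ℤ)| = B * |y - round y| := by
    push_cast
    rw [← mul_sub, abs_mul, abs_of_pos hB']
  have h3 : |(B : ℝ) * y - ((B : ℤ) * round y : ℤ)| < 1 / 2 := by
    rw [h2]
    have : (B : ℝ) * |y - round y| < B * (1 / (2 * (B : ℝ))) := mul_lt_mul_of_pos_left h hB'
    have e : (B : ℝ) * (1 / (2 * (B : ℝ))) = 1 / 2 := by field_simp
    linarith
  have h4 : |(B : ℝ) * y - round ((B : ℝ) * y)| ≤ |(B : ℝ) * y - ((B : ℤ) * round y : ℤ)| :=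
    round_le _ _
  have h5 : round ((B : ℝ) * y) = (B : ℤ) * round y := by
    have h6 : |((round ((B : ℝ) * y) - (B : ℤ) * round y : ℤ) : ℝ)| < 1 := by
      have h7 : ((round ((B : ℝ) * y) - (B : ℤ) * round y : ℤ) : ℝ) =
          ((B : ℝ) * y - ((B : ℤ) * round y : ℤ)) - ((B : ℝ) * y - round ((B : ℝ) * y)) := by
        push_cast; ring
      rw [h7]
      have := abs_sub ((B : ℝ) * y - ((B : ℤ) * round y : ℤ)) ((B : ℝ) * y - round ((B : ℝ) * y))
      linarith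
    have h8 : |round ((B : ℝ) * y) - (B : ℤ) * round y| < 1 := by exact_mod_cast h6
    have h9 := Int.abs_lt_one_iff.mp h8
    omega
  rw [h5, h2]

lemma dist1_ge (d : ℕ) (m : ℤ) (hd : 0 < d) (h : ¬ (d : ℤ) ∣ m) :
    1 / (d : ℝ) ≤ dist1 ((m : ℝ) / d) := by
  unfold dist1
  have hd' : (0 : ℝ) < d := by exact_mod_cast hd
  set k : ℤ := round ((m : ℝ) / d) with hk
  have h1 : (m : ℝ) / d - k = ((m - d * k : ℤ) : ℝ) / d := by
    push_cast
    field_simp
  rw [h1, abs_div, abs_of_pos hd']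
  apply div_le_div_of_nonneg_right _ hd'.le
  have h2 : m - d * k ≠ 0 := by
    intro h3
    apply h
    exact ⟨k, by linarith⟩
  have h4 : (1 : ℤ) ≤ |m - d * k| := Int.one_le_abs h2
  exact_mod_cast h4

lemma wt_le_one (r : ℝ) (B : ℕ) (x : ℝ) (hr : r ≤ 1) : wt r B x ≤ 1 := by
  unfold wt; split_ifs <;> linarith

lemma wt_nonneg (r : ℝ) (B : ℕ) (x : ℝ) (hr : 0 < r) : 0 ≤ wt r B x := by
  unfold wt; split_ifs <;> linarith

lemma window (B v d : ℕ) (h : ℤ) (hB : 2 ≤ B) (hd : 1 < d) (hv : d ≤ B ^ v) (hc : B.Coprime d)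
    (hh : ¬ (d : ℤ) ∣ h) (i : ℕ) :
    ∃ j < v + 1, 1 / (2 * (B : ℝ)) ≤ dist1 ((B : ℝ) ^ (i + j) * ((h : ℝ) / d)) := by
  by_contra hcon
  push Not at hcon
  have hB' : (0 : ℝ) < B := by exact_mod_cast (by omega : 0 < B)
  have hd' : (0 : ℝ) < d := by exact_mod_cast (by omega : 0 < d)
  have key : ∀ j ≤ v, dist1 ((B : ℝ) ^ (i + j) * ((h : ℝ) / d)) =
      B ^ j * dist1 ((B : ℝ) ^ i * ((h : ℝ) / d)) := by
    intro j
    induction j with
    | zero => intro _; simp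
    | succ j ih =>
      intro hj
      have e : (B : ℝ) ^ (i + (j + 1)) * ((h : ℝ) / d) =
          B * ((B : ℝ) ^ (i + j) * ((h : ℝ) / d)) := by ring
      rw [e, dist1_mul B _ hB (hcon j (by omega)), ih (by omega)]
      ring
  have h0 : 1 / (d : ℝ) ≤ dist1 ((B : ℝ) ^ i * ((h : ℝ) / d)) := by
    have e : (B : ℝ) ^ i * ((h : ℝ) / d) = (((B : ℤ) ^ i * h : ℤ) : ℝ) / d := by
      push_cast; ring
    rw [e]
    apply dist1_ge d _ (by omega)
    intro hdv
    apply hh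
    have hcop : IsCoprime (d : ℤ) ((B : ℤ) ^ i) := by
      apply IsCoprime.pow_right
      exact (Nat.isCoprime_iff_coprime.mpr hc.symm)
    exact hcop.dvd_of_dvd_mul_left hdv
  have h1 := key v le_rfl
  have h2 := hcon v (by omega)
  have h3 : (1 : ℝ) ≤ B ^ v * dist1 ((B : ℝ) ^ i * ((h : ℝ) / d)) := by
    have h4 : (d : ℝ) ≤ (B : ℝ) ^ v := by exact_mod_cast hv
    calc (1 : ℝ) = d * (1 / d) := by field_simp
      _ ≤ B ^ v * (1 / d) := mul_le_mul_of_nonneg_right h4 (by positivity)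
      _ ≤ _ := mul_le_mul_of_nonneg_left h0 (by positivity)
  have h5 : 1 / (2 * (B : ℝ)) ≤ 1 := by
    rw [div_le_one (by positivity)]
    have : (2 : ℝ) ≤ B := by exact_mod_cast hB
    linarith
  linarith

theorem t_POINT : S_point := by
  intro r B n v d h hr hr1 hB hd hv hc hh
  have hwin : ∀ i : ℕ, ∏ j ∈ range (v + 1), wt r B ((B : ℝ) ^ (i + j) * ((h : ℝ) / d)) ≤ r := by
    intro i
    obtain ⟨j, hj, hj2⟩ := window B v d h hB hd hv hc hh i
    have hjm : j ∈ range (v + 1) := mem_range.mpr hj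
    rw [← Finset.mul_prod_erase _ _ hjm]
    have e : wt r B ((B : ℝ) ^ (i + j) * ((h : ℝ) / d)) = r := by
      unfold wt; rw [if_pos hj2]
    rw [e]
    have h1 : ∏ x ∈ (range (v + 1)).erase j, wt r B ((B : ℝ) ^ (i + x) * ((h : ℝ) / d)) ≤ 1 :=
      Finset.prod_le_one (fun x _ => wt_nonneg r B _ hr) (fun x _ => wt_le_one r B _ hr1)
    nlinarith
  have hq : ∀ q : ℕ, AA r B (q * (v + 1)) ((h : ℝ) / d) ≤ r ^ q := by
    intro q
    induction q with
    | zero => simp [AA]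
    | succ q ih =>
      have e : (q + 1) * (v + 1) = q * (v + 1) + (v + 1) := by ring
      unfold AA at ih ⊢
      rw [e, Finset.prod_range_add, pow_succ]
      exact mul_le_mul ih (hwin _) (Finset.prod_nonneg fun x _ => wt_nonneg r B _ hr)
        (pow_nonneg hr.le _)
  have hn : n = (n / (v + 1)) * (v + 1) + n % (v + 1) := by
    have := Nat.div_add_mod n (v + 1)
    rw [mul_comm] at this
    exact this.symm
  have h2 := hq (n / (v + 1))
  rw [hn]
  have e2 : ((n / (v + 1)) * (v + 1) + n % (v + 1)) / (v + 1) = n / (v + 1) := by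
    rw [← hn]
  rw [e2]
  unfold AA at h2 ⊢
  rw [Finset.prod_range_add]
  have h3 : ∏ x ∈ range (n % (v + 1)),
      wt r B ((B : ℝ) ^ (n / (v + 1) * (v + 1) + x) * ((h : ℝ) / d)) ≤ 1 :=
    Finset.prod_le_one (fun x _ => wt_nonneg r B _ hr) (fun x _ => wt_le_one r B _ hr1)
  have h4 : 0 ≤ ∏ x ∈ range (n / (v + 1) * (v + 1)), wt r B ((B : ℝ) ^ x * ((h : ℝ) / d)) :=
    Finset.prod_nonneg fun x _ => wt_nonneg r B _ hr
  calc _ ≤ (∏ x ∈ range (n / (v + 1) * (v + 1)), wt r B ((B : ℝ) ^ x * ((h : ℝ) / d))) * 1 :=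
        mul_le_mul_of_nonneg_left h3 h4
    _ ≤ _ := by rw [mul_one]; exact h2

end Pool.Agent.H541.RP.TPOINT
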