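import Pool.Agent.H541.RP.Stm

/-! RP-PROD (helper134). -/

set_option autoImplicit false

namespace Pool.Agent.H541.RP.TPROD

open Finset Pool.Agent.Helper112 Pool.Agent.H541.RP

/-- the digit sum -/
noncomputable def Ph (b : ℕ) (x : ℝ) : ℂ := ∑ d ∈ range b, ee (d * x)

/-- the exponential sum -/
noncomputable def FF (b L : ℕ) (θ α : ℝ) : ℂ :=
  ∑ n ∈ range (b ^ L), ee (θ * n + α * rv b L n)

theorem ph_le (b : ℕ) (x : ℝ) : ‖Ph b x‖ ≤ b := by
  unfold Ph
  refine (norm_sum_le _ _).trans ?_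
  rw [Finset.sum_congr rfl (fun d _ => ls_norm_ee _)]
  simp

theorem ff_le (b L : ℕ) (θ α : ℝ) : ‖FF b L θ α‖ ≤ (b : ℝ) ^ L := by
  unfold FF
  refine (norm_sum_le _ _).trans ?_
  rw [Finset.sum_congr rfl (fun d _ => ls_norm_ee _)]
  simp

/-- splitting `n = d + b n'` -/
theorem sum_split (b N : ℕ) (hb : 0 < b) (f : ℕ → ℂ) :
    ∑ n ∈ range (b * N), f n = ∑ m ∈ range N, ∑ d ∈ range b, f (d + b * m) := by
  induction N with
  | zero => simp
  | succ N ih =>
    rw [Finset.sum_range_succ, ← ih, Nat.mul_succ, Finset.sum_range_add]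
    congr 1
    exact Finset.sum_congr rfl fun d _ => by rw [add_comm]

theorem ff_succ (b L : ℕ) (hb : 2 ≤ b) (θ α : ℝ) :
    FF b (L + 1) θ α = Ph b (θ + α * (b : ℝ) ^ L) * FF b L (b * θ) α := by
  unfold FF Ph
  rw [pow_succ', sum_split b (b ^ L) (by omega), Finset.mul_sum]
  refine Finset.sum_congr rfl fun m _ => ?_
  rw [Finset.sum_mul]
  refine Finset.sum_congr rfl fun d hd => ?_
  rw [Finset.mem_range] at hd
  rw [← ls_ee_add]
  congr 1
  have h1 : (d + b * m) % b = d := by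
    rw [Nat.add_mul_mod_self_left, Nat.mod_eq_of_lt hd]
  have h2 : (d + b * m) / b = m := by
    rw [Nat.add_mul_div_left _ _ (by omega : 0 < b), Nat.div_eq_of_lt hd, zero_add]
  have h3 : rv b (L + 1) (d + b * m) = d * b ^ L + rv b L m := by
    change ((d + b * m) % b) * b ^ L + rv b L ((d + b * m) / b) = _
    rw [h1, h2]
  rw [h3]
  push_cast
  ring

theorem dist1_le (x : ℝ) (n : ℤ) : dist1 x ≤ |x - n| := by
  unfold dist1
  exact round_le x n

theorem dist1_comb (b : ℕ) (x y : ℝ) : dist1 (b * y - x) ≤ dist1 x + b * dist1 y := by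
  have h := dist1_le (b * y - x) ((b : ℤ) * round y - round x)
  refine h.trans ?_
  have e : (b : ℝ) * y - x - (((b : ℤ) * round y - round x : ℤ) : ℝ) =
      (b : ℝ) * (y - round y) - (x - round x) := by push_cast; ring
  rw [e]
  refine (abs_sub _ _).trans ?_
  rw [abs_mul, Nat.abs_cast]
  unfold dist1
  linarith

theorem AA_succ (r : ℝ) (B n : ℕ) (x : ℝ) :
    AA r B (n + 1) x = wt r B x * AA r B n (B * x) := by
  unfold AA
  rw [Finset.prod_range_succ', mul_comm]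
  congr 1
  · rw [pow_zero, one_mul]
  · refine Finset.prod_congr rfl fun i _ => ?_
    rw [pow_succ, mul_assoc]

theorem AA_nonneg (r : ℝ) (hr : 0 < r) (B n : ℕ) (x : ℝ) : 0 ≤ AA r B n x := by
  unfold AA
  refine Finset.prod_nonneg fun i _ => ?_
  unfold wt
  split_ifs
  · exact hr.le
  · exact zero_le_one

theorem t_PROD (h : S_digit) : S_prod := by
  intro b hb
  have hb0 : (0 : ℝ) < b := by
    have : 0 < b := by omega
    exact_mod_cast this
  have hb2 : (2 : ℝ) ≤ b := by exact_mod_cast hb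
  have hη : (0 : ℝ) < 1 / (4 * b * (b : ℝ) ^ 8) := by positivity
  obtain ⟨r, hr0, hr1, hr⟩ := h b (1 / (4 * b * (b : ℝ) ^ 8)) hb hη
  refine ⟨r, hr0, hr1, ?_⟩
  -- two consecutive factors
  have key : ∀ (L : ℕ) (θ α : ℝ),
      ‖Ph b (θ + α * (b : ℝ) ^ (L + 1))‖ * ‖Ph b (b * θ + α * (b : ℝ) ^ L)‖ ≤
        (b : ℝ) ^ 2 * wt r (b ^ 8) (((b : ℝ) ^ 2 - 1) * θ) := by
    intro L θ α
    have n1 := norm_nonneg (Ph b (θ + α * (b : ℝ) ^ (L + 1)))
    have n2 := norm_nonneg (Ph b (b * θ + α * (b : ℝ) ^ L))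
    have b1 := ph_le b (θ + α * (b : ℝ) ^ (L + 1))
    have b2 := ph_le b (b * θ + α * (b : ℝ) ^ L)
    unfold wt
    split_ifs with hw
    · have hc := dist1_comb b (θ + α * (b : ℝ) ^ (L + 1)) (b * θ + α * (b : ℝ) ^ L)
      have e : (b : ℝ) * (b * θ + α * (b : ℝ) ^ L) - (θ + α * (b : ℝ) ^ (L + 1)) =
          ((b : ℝ) ^ 2 - 1) * θ := by ring
      rw [e] at hc
      have hw' : 1 / (2 * (b : ℝ) ^ 8) ≤ dist1 (((b : ℝ) ^ 2 - 1) * θ) := by
        have : ((b ^ 8 : ℕ) : ℝ) = (b : ℝ) ^ 8 := by push_cast; ring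
        rw [this] at hw; exact hw
      by_cases hy : 1 / (4 * b * (b : ℝ) ^ 8) ≤ dist1 (b * θ + α * (b : ℝ) ^ L)
      · have h3 : ‖Ph b (b * θ + α * (b : ℝ) ^ L)‖ ≤ b * r := hr _ hy
        calc ‖Ph b (θ + α * (b : ℝ) ^ (L + 1))‖ * ‖Ph b (b * θ + α * (b : ℝ) ^ L)‖
            ≤ b * (b * r) := mul_le_mul b1 h3 n2 hb0.le
          _ = (b : ℝ) ^ 2 * r := by ring
      · push Not at hy
        have h4 : (b : ℝ) * dist1 (b * θ + α * (b : ℝ) ^ L) < 1 / (4 * (b : ℝ) ^ 8) := by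
          have h5 := mul_lt_mul_of_pos_left hy hb0
          have h6 : (b : ℝ) * (1 / (4 * b * (b : ℝ) ^ 8)) = 1 / (4 * (b : ℝ) ^ 8) := by
            field_simp
          rwa [h6] at h5
        have h7 : 1 / (2 * (b : ℝ) ^ 8) = 1 / (4 * (b : ℝ) ^ 8) + 1 / (4 * (b : ℝ) ^ 8) := by
          field_simp; norm_num
        have h8 : 1 / (4 * (b : ℝ) ^ 8) ≤ dist1 (θ + α * (b : ℝ) ^ (L + 1)) := by linarith
        have h9 : 1 / (4 * b * (b : ℝ) ^ 8) ≤ 1 / (4 * (b : ℝ) ^ 8) := by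
          apply one_div_le_one_div_of_le (by positivity)
          have : 0 < (b : ℝ) ^ 8 := by positivity
          nlinarith
        have h3 : ‖Ph b (θ + α * (b : ℝ) ^ (L + 1))‖ ≤ b * r := hr _ (h9.trans h8)
        calc ‖Ph b (θ + α * (b : ℝ) ^ (L + 1))‖ * ‖Ph b (b * θ + α * (b : ℝ) ^ L)‖
            ≤ (b * r) * b := mul_le_mul h3 b2 n2 (by positivity)
          _ = (b : ℝ) ^ 2 * r := by ring
    · rw [mul_one, sq]
      exact mul_le_mul b1 b2 n2 hb0.le
  -- one more factor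
  have one : ∀ (L : ℕ) (θ α : ℝ), ‖FF b (L + 1) θ α‖ ≤ b * ‖FF b L (b * θ) α‖ := by
    intro L θ α
    rw [ff_succ b L hb, norm_mul]
    exact mul_le_mul_of_nonneg_right (ph_le _ _) (norm_nonneg _)
  have eight : ∀ (L : ℕ) (θ α : ℝ), ‖FF b (L + 8) θ α‖ ≤
      (b : ℝ) ^ 8 * wt r (b ^ 8) (((b : ℝ) ^ 2 - 1) * θ) * ‖FF b L ((b : ℝ) ^ 8 * θ) α‖ := by
    intro L θ α
    have h1 : FF b (L + 8) θ α = Ph b (θ + α * (b : ℝ) ^ (L + 6 + 1)) *
        (Ph b (b * θ + α * (b : ℝ) ^ (L + 6)) * FF b (L + 6) (b * (b * θ)) α) := by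
      rw [show L + 8 = (L + 6 + 1) + 1 from rfl, ff_succ b (L + 6 + 1) hb, ff_succ b (L + 6) hb]
    have h2 : ‖FF b (L + 6) (b * (b * θ)) α‖ ≤ (b : ℝ) ^ 6 * ‖FF b L ((b : ℝ) ^ 8 * θ) α‖ := by
      have q5 := one (L + 5) (b * (b * θ)) α
      have q4 := one (L + 4) (b * (b * (b * θ))) α
      have q3 := one (L + 3) (b * (b * (b * (b * θ)))) α
      have q2 := one (L + 2) (b * (b * (b * (b * (b * θ))))) α
      have q1 := one (L + 1) (b * (b * (b * (b * (b * (b * θ)))))) α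
      have q0 := one L (b * (b * (b * (b * (b * (b * (b * θ))))))) α
      have e : (b : ℝ) * (b * (b * (b * (b * (b * (b * (b * θ))))))) = (b : ℝ) ^ 8 * θ := by ring
      rw [e] at q0
      have m0 := q0
      have m1 := q1.trans (mul_le_mul_of_nonneg_left m0 hb0.le)
      have m2 := q2.trans (mul_le_mul_of_nonneg_left m1 hb0.le)
      have m3 := q3.trans (mul_le_mul_of_nonneg_left m2 hb0.le)
      have m4 := q4.trans (mul_le_mul_of_nonneg_left m3 hb0.le)
      have m5 := q5.trans (mul_le_mul_of_nonneg_left m4 hb0.le)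
      refine m5.trans (le_of_eq ?_)
      ring
    rw [h1, norm_mul, norm_mul, ← mul_assoc]
    have h3 := mul_le_mul (key (L + 6) θ α) h2 (norm_nonneg _) (by
      refine mul_nonneg (by positivity) ?_
      unfold wt
      split_ifs
      · exact hr0.le
      · exact zero_le_one)
    refine h3.trans (le_of_eq ?_)
    ring
  -- induction
  have main : ∀ (k j : ℕ) (θ α : ℝ), j < 8 → ‖FF b (8 * k + j) θ α‖ ≤
      (b : ℝ) ^ (8 * k + j) * AA r (b ^ 8) k (((b : ℝ) ^ 2 - 1) * θ) := by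
    intro k
    induction k with
    | zero =>
      intro j θ α _
      have : AA r (b ^ 8) 0 (((b : ℝ) ^ 2 - 1) * θ) = 1 := by unfold AA; simp
      rw [this, mul_one]
      exact ff_le _ _ _ _
    | succ k ih =>
      intro j θ α hj
      have e1 : 8 * (k + 1) + j = (8 * k + j) + 8 := by ring
      rw [e1]
      have h1 := eight (8 * k + j) θ α
      have h2 := ih j ((b : ℝ) ^ 8 * θ) α hj
      rw [AA_succ]
      have e2 : ((b : ℝ) ^ 2 - 1) * ((b : ℝ) ^ 8 * θ) =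
          ((b ^ 8 : ℕ) : ℝ) * (((b : ℝ) ^ 2 - 1) * θ) := by push_cast; ring
      rw [e2] at h2
      have hw0 : 0 ≤ (b : ℝ) ^ 8 * wt r (b ^ 8) (((b : ℝ) ^ 2 - 1) * θ) := by
        refine mul_nonneg (by positivity) ?_
        unfold wt
        split_ifs
        · exact hr0.le
        · exact zero_le_one
      refine (h1.trans (mul_le_mul_of_nonneg_left h2 hw0)).trans (le_of_eq ?_)
      ring
  intro L θ α
  have h1 := main (L / 8) (L % 8) θ α (Nat.mod_lt _ (by norm_num))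
  rw [Nat.div_add_mod] at h1
  exact h1

end Pool.Agent.H541.RP.TPROD
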