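import Pool.Agent.H541.RP.Stm

set_option autoImplicit false

namespace Pool.Agent.H541.RP.TRV

open Finset Pool.Agent.H541.RP

theorem div_lt {b L n : ℕ} (hb : 2 ≤ b) (hn : n < b ^ (L + 1)) : n / b < b ^ L := by
  rw [Nat.div_lt_iff_lt_mul (by omega)]
  rwa [pow_succ] at hn

theorem rv_lt (b : ℕ) (hb : 2 ≤ b) : ∀ L n : ℕ, n < b ^ L → rv b L n < b ^ L := by
  intro L
  induction L with
  | zero =>
    intro n hn
    change 0 < b ^ 0
    rw [pow_zero]
    exact Nat.one_pos
  | succ L ih =>
    intro n hn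
    have h2 := ih (n / b) (div_lt hb hn)
    have h3 : n % b < b := Nat.mod_lt _ (by omega)
    change (n % b) * b ^ L + rv b L (n / b) < b ^ (L + 1)
    have h4 : (n % b + 1) * b ^ L ≤ b * b ^ L := Nat.mul_le_mul_right _ h3
    calc (n % b) * b ^ L + rv b L (n / b) < (n % b) * b ^ L + b ^ L := by omega
      _ = (n % b + 1) * b ^ L := by ring
      _ ≤ b * b ^ L := h4
      _ = b ^ (L + 1) := by ring

theorem rv_inj (b : ℕ) (hb : 2 ≤ b) : ∀ L n n' : ℕ, n < b ^ L → n' < b ^ L →
    rv b L n = rv b L n' → n = n' := by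
  intro L
  induction L with
  | zero =>
    intro n n' hn hn' _
    rw [pow_zero] at hn hn'
    omega
  | succ L ih =>
    intro n n' hn hn' h
    have h1 := div_lt hb hn
    have h1' := div_lt hb hn'
    have h2 := rv_lt b hb L _ h1
    have h2' := rv_lt b hb L _ h1'
    change (n % b) * b ^ L + rv b L (n / b) = (n' % b) * b ^ L + rv b L (n' / b) at h
    have hp : 0 < b ^ L := by positivity
    have h3 : n % b = n' % b := by
      have h6 : ((n % b) * b ^ L + rv b L (n / b)) / b ^ L =
          ((n' % b) * b ^ L + rv b L (n' / b)) / b ^ L := by rw [h]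
      rw [Nat.mul_comm, Nat.mul_add_div hp, Nat.div_eq_of_lt h2, Nat.mul_comm (n' % b),
        Nat.mul_add_div hp, Nat.div_eq_of_lt h2', add_zero, add_zero] at h6
      exact h6
    have h4 : rv b L (n / b) = rv b L (n' / b) := by
      rw [h3] at h
      exact Nat.add_left_cancel h
    have h5 := ih _ _ h1 h1' h4
    have h6 := Nat.div_add_mod n b
    have h7 := Nat.div_add_mod n' b
    rw [h5, h3] at h6
    exact h6.symm.trans h7

theorem rv_digits (b : ℕ) (hb : 2 ≤ b) : ∀ L n : ℕ, b ^ L ≤ n → n < b ^ (L + 1) →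
    rv b (L + 1) n = Nat.ofDigits b (Nat.digits b n).reverse := by
  intro L
  induction L with
  | zero =>
    intro n h1 h2
    rw [pow_zero] at h1
    rw [zero_add, pow_one] at h2
    change (n % b) * b ^ 0 + 0 = _
    rw [Nat.digits_of_lt b n (by omega) h2, Nat.mod_eq_of_lt h2, List.reverse_singleton,
      Nat.ofDigits_singleton, pow_zero, mul_one, add_zero]
  | succ L ih =>
    intro n h1 h2
    have h3 : b ^ L ≤ n / b := by
      rw [Nat.le_div_iff_mul_le (by omega)]
      rwa [pow_succ] at h1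
    have h4 := div_lt hb h2
    have hn : 0 < n := lt_of_lt_of_le (by positivity) h1
    have hnb : n / b ≠ 0 := (lt_of_lt_of_le (by positivity) h3).ne'
    have hlen : (Nat.digits b (n / b)).length = L + 1 := by
      rw [Nat.length_digits b _ (by omega) hnb, Nat.log_eq_of_pow_le_of_lt_pow h3 h4]
    have h5 : Nat.digits b n = (n % b) :: Nat.digits b (n / b) :=
      Nat.digits_def' (by omega) hn
    change (n % b) * b ^ (L + 1) + rv b (L + 1) (n / b) = _
    rw [ih _ h3 h4, h5, List.reverse_cons, Nat.ofDigits_append, List.length_reverse, hlen,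
      Nat.ofDigits_singleton, add_comm, mul_comm (b ^ (L + 1))]

theorem t_RV : S_rv := by
  intro b hb L
  refine ⟨rv_lt b hb L, ?_, rv_digits b hb L⟩
  intro n hn n' hn' h
  rw [Finset.coe_range, Set.mem_Iio] at hn hn'
  exact rv_inj b hb L n n' hn hn' h

end Pool.Agent.H541.RP.TRV
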