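import Pool.Agent.H541.RP.Stm

/-!
# Reversed primes: task SCHNIR (Schnirelmann's theorem)
-/

set_option autoImplicit false

namespace Pool.Agent.H541.RP.TSCHNIR

open Finset Pool.Agent.H541.RP

open Classical in
/-- counting function -/
noncomputable def cnt (S : Set ℕ) (N : ℕ) : ℕ := ((Icc 1 N).filter (· ∈ S)).card

/-- sums of at most `k` elements of `S` -/
def Rep (S : Set ℕ) (k : ℕ) : Set ℕ :=
  {n | ∃ l : List ℕ, (∀ x ∈ l, x ∈ S) ∧ l.length ≤ k ∧ l.sum = n}

lemma cnt_le (S : Set ℕ) (N : ℕ) : cnt S N ≤ N := by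
  classical
  unfold cnt
  exact (card_filter_le _ _).trans (by simp)

lemma cnt_mono (S S' : Set ℕ) (h : S ⊆ S') (N : ℕ) : cnt S N ≤ cnt S' N := by
  classical
  unfold cnt
  exact card_le_card (fun x hx => by
    rw [mem_filter] at hx ⊢
    exact ⟨hx.1, h hx.2⟩)

lemma cnt_ge (S : Set ℕ) (N : ℕ) (T : Finset ℕ) (h : ∀ m ∈ T, 1 ≤ m ∧ m ≤ N ∧ m ∈ S) :
    T.card ≤ cnt S N := by
  classical
  unfold cnt
  refine card_le_card fun m hm => ?_
  obtain ⟨h1, h2, h3⟩ := h m hm
  rw [mem_filter, mem_Icc]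
  exact ⟨⟨h1, h2⟩, h3⟩

/-- Schnirelmann's inequality -/
lemma schnir (A B C : Set ℕ) (β : ℝ) (hA : 0 ∈ A)
    (hAC : ∀ a ∈ A, a ∈ C) (hC : ∀ a ∈ A, ∀ b ∈ B, a + b ∈ C)
    (hB : ∀ N : ℕ, β * N ≤ cnt B N) (N : ℕ) :
    (1 - β) * cnt A N + β * N ≤ cnt C N := by
  classical
  induction N using Nat.strong_induction_on with
  | _ N ih =>
  by_cases hne : ((Icc 1 N).filter (· ∈ A)).Nonempty
  · set a := ((Icc 1 N).filter (· ∈ A)).max' hne with ha
    have ham : a ∈ (Icc 1 N).filter (· ∈ A) := max'_mem _ _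
    rw [mem_filter, mem_Icc] at ham
    obtain ⟨⟨ha1, haN⟩, haA⟩ := ham
    have hmax : ∀ x, 1 ≤ x → x ≤ N → x ∈ A → x ≤ a := fun x h1 h2 h3 =>
      le_max' _ _ (by rw [mem_filter, mem_Icc]; exact ⟨⟨h1, h2⟩, h3⟩)
    have hi := ih (a - 1) (by omega)
    have hb := hB (N - a)
    -- counting in A
    have hcA : cnt A N = cnt A (a - 1) + 1 := by
      unfold cnt
      have : (Icc 1 N).filter (· ∈ A) = insert a ((Icc 1 (a - 1)).filter (· ∈ A)) := by
        ext x
        simp only [mem_filter, mem_Icc, mem_insert]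
        constructor
        · rintro ⟨⟨h1, h2⟩, h3⟩
          have := hmax x h1 h2 h3
          by_cases hx : x = a
          · exact Or.inl hx
          · exact Or.inr ⟨⟨h1, by omega⟩, h3⟩
        · rintro (rfl | ⟨⟨h1, h2⟩, h3⟩)
          · exact ⟨⟨ha1, haN⟩, haA⟩
          · exact ⟨⟨h1, by omega⟩, h3⟩
      rw [this, card_insert_of_notMem]
      intro h
      rw [mem_filter, mem_Icc] at h
      omega
    -- counting in C
    have hcC : cnt C (a - 1) + 1 + cnt B (N - a) ≤ cnt C N := by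
      unfold cnt
      have hsub : (insert a ((Icc 1 (a - 1)).filter (· ∈ C))) ∪
          ((Icc 1 (N - a)).filter (· ∈ B)).image (fun b => a + b) ⊆ (Icc 1 N).filter (· ∈ C) := by
        intro x hx
        rw [mem_union, mem_insert, mem_filter, mem_Icc, mem_image] at hx
        rw [mem_filter, mem_Icc]
        rcases hx with (rfl | ⟨⟨h1, h2⟩, h3⟩) | ⟨b, hb, rfl⟩
        · exact ⟨⟨ha1, haN⟩, hAC _ haA⟩
        · exact ⟨⟨h1, by omega⟩, h3⟩
        · rw [mem_filter, mem_Icc] at hb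
          exact ⟨⟨by omega, by omega⟩, hC _ haA _ hb.2⟩
      refine le_trans (le_of_eq ?_) (card_le_card hsub)
      rw [card_union_of_disjoint, card_insert_of_notMem, card_image_of_injective]
      · intro x y h
        simpa using h
      · intro h
        rw [mem_filter, mem_Icc] at h
        omega
      · rw [disjoint_left]
        intro x hx hx'
        rw [mem_insert, mem_filter, mem_Icc] at hx
        rw [mem_image] at hx'
        obtain ⟨b, hb, rfl⟩ := hx'
        rw [mem_filter, mem_Icc] at hb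
        rcases hx with h | h
        · omega
        · omega
    have hcC' : (cnt C (a - 1) : ℝ) + 1 + cnt B (N - a) ≤ cnt C N := by exact_mod_cast hcC
    rw [Nat.cast_sub ha1] at hi
    rw [Nat.cast_sub haN] at hb
    rw [hcA]
    push_cast at hi ⊢
    nlinarith
  · have h0 : cnt A N = 0 := by
      unfold cnt
      rw [not_nonempty_iff_eq_empty] at hne
      rw [hne, card_empty]
    have hBC : cnt B N ≤ cnt C N := cnt_mono _ _ (fun b hb => by
      have := hC 0 hA b hb
      rwa [zero_add] at this) N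
    have hBC' : (cnt B N : ℝ) ≤ cnt C N := by exact_mod_cast hBC
    rw [h0]
    have := hB N
    push_cast
    linarith

lemma zero_mem_Rep (S : Set ℕ) (k : ℕ) : 0 ∈ Rep S k := ⟨[], by simp, by simp, by simp⟩

lemma Rep_add (S : Set ℕ) (k k' a b : ℕ) (ha : a ∈ Rep S k) (hb : b ∈ Rep S k') :
    a + b ∈ Rep S (k + k') := by
  obtain ⟨l, h1, h2, h3⟩ := ha
  obtain ⟨l', h1', h2', h3'⟩ := hb
  refine ⟨l ++ l', ?_, ?_, ?_⟩
  · intro x hx
    rcases List.mem_append.1 hx with h | h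
    · exact h1 x h
    · exact h1' x h
  · rw [List.length_append]; omega
  · rw [List.sum_append, h3, h3']

lemma Rep_mono (S : Set ℕ) (k k' : ℕ) (h : k ≤ k') : Rep S k ⊆ Rep S k' := by
  rintro a ⟨l, h1, h2, h3⟩
  exact ⟨l, h1, h2.trans h, h3⟩

lemma dens (S : Set ℕ) (β : ℝ) (hβ1 : β ≤ 1) (hB : ∀ N : ℕ, β * N ≤ cnt S N) (k N : ℕ) :
    (1 - (1 - β) ^ k) * N ≤ cnt (Rep S k) N := by
  induction k with
  | zero => simp
  | succ k ih =>
    have h := schnir (Rep S k) S (Rep S (k + 1)) β (zero_mem_Rep S k)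
      (fun a ha => Rep_mono S k (k + 1) (by omega) ha)
      (fun a ha b hb => Rep_add S k 1 a b ha ⟨[b], by simpa using hb, by simp, by simp⟩) hB N
    have h1 : (1 - β) * ((1 - (1 - β) ^ k) * N) ≤ (1 - β) * cnt (Rep S k) N :=
      mul_le_mul_of_nonneg_left ih (by linarith)
    have h2 : (1 - (1 - β) ^ (k + 1)) * (N : ℝ) =
        (1 - β) * ((1 - (1 - β) ^ k) * N) + β * N := by ring
    rw [h2]
    linarith

lemma full (S : Set ℕ) (k : ℕ) (h : ∀ N : ℕ, 1 ≤ N → (N : ℝ) / 2 < cnt (Rep S k) N) (n : ℕ) :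
    n ∈ Rep S (k + k) := by
  classical
  rcases Nat.eq_zero_or_pos n with rfl | hn
  · exact zero_mem_Rep _ _
  by_cases hk : n ∈ Rep S k
  · exact Rep_mono S k (k + k) (by omega) hk
  have hc := h n hn
  set P := (Icc 1 n).filter (· ∈ Rep S k) with hP
  have hcP : (n : ℝ) / 2 < P.card := hc
  have hPn : ∀ x ∈ P, 1 ≤ x ∧ x < n := by
    intro x hx
    rw [hP, mem_filter, mem_Icc] at hx
    refine ⟨hx.1.1, lt_of_le_of_ne hx.1.2 ?_⟩
    rintro rfl
    exact hk hx.2
  set Q := P.image (fun x => n - x) with hQ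
  have hQc : Q.card = P.card := by
    rw [hQ, card_image_of_injOn]
    intro x hx y hy hxy
    have h1 := hPn x hx
    have h2 := hPn y hy
    have hxy' : n - x = n - y := hxy
    omega
  have hnd : ¬ Disjoint P Q := by
    intro hd
    have h1 : (P ∪ Q).card = P.card + Q.card := card_union_of_disjoint hd
    have h2 : P ∪ Q ⊆ Icc 1 n := by
      intro x hx
      rw [mem_Icc]
      rcases mem_union.1 hx with h | h
      · have := hPn x h
        omega
      · obtain ⟨y, hy, rfl⟩ := mem_image.1 h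
        have := hPn y hy
        omega
    have h3 := card_le_card h2
    rw [h1, hQc, Nat.card_Icc] at h3
    have h4 : ((P.card + P.card : ℕ) : ℝ) ≤ n := by
      exact_mod_cast (by omega : P.card + P.card ≤ n)
    push_cast at h4
    linarith
  rw [not_disjoint_iff] at hnd
  obtain ⟨x, hxP, hxQ⟩ := hnd
  obtain ⟨y, hyP, hy⟩ := mem_image.1 hxQ
  have h1 := hPn x hxP
  have h2 := hPn y hyP
  have h3 : x + y = n := by
    have hy' : n - y = x := hy
    omega
  rw [hP, mem_filter] at hxP hyP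
  rw [← h3]
  exact Rep_add S k k x y hxP.2 hyP.2

lemma basis (S : Set ℕ) (β : ℝ) (hβ0 : 0 < β) (hβ1 : β ≤ 1) (hB : ∀ N : ℕ, β * N ≤ cnt S N) :
    ∃ h : ℕ, ∀ n, n ∈ Rep S h := by
  obtain ⟨k, hk⟩ := exists_pow_lt_of_lt_one (show (0 : ℝ) < 1 / 2 by norm_num)
    (show 1 - β < 1 by linarith)
  refine ⟨k + k, full S k fun N hN => ?_⟩
  have h := dens S β hβ1 hB k N
  have hN' : (0 : ℝ) < N := by exact_mod_cast hN
  have : (1 / 2 : ℝ) * N < (1 - (1 - β) ^ k) * N := by
    apply mul_lt_mul_of_pos_right _ hN'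
    linarith
  linarith

lemma twothree (v : ℕ) (hv : 2 ≤ v) : ∃ l : List ℕ, (∀ x ∈ l, x = 2 ∨ x = 3) ∧ l.length ≤ v ∧
    l.sum = v := by
  induction v using Nat.strong_induction_on with
  | _ v ih =>
  rcases Nat.lt_or_ge v 4 with h | h
  · have : v = 2 ∨ v = 3 := by omega
    rcases this with rfl | rfl
    · exact ⟨[2], by simp, by simp, by simp⟩
    · exact ⟨[3], by simp, by simp, by simp⟩
  · obtain ⟨l, h1, h2, h3⟩ := ih (v - 2) (by omega) (by omega)
    refine ⟨2 :: l, ?_, ?_, ?_⟩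
    · intro x hx
      rcases List.mem_cons.1 hx with rfl | hx
      · exact Or.inl rfl
      · exact h1 x hx
    · rw [List.length_cons]; omega
    · rw [List.sum_cons, h3]; omega

lemma unfoldS (A : Set ℕ) (l : List ℕ)
    (hl : ∀ x ∈ l, x = 1 ∨ ∃ a ∈ A, ∃ b ∈ A, a + b = x) :
    ∃ (u : ℕ) (l' : List ℕ), u ≤ l.length ∧ (∀ x ∈ l', x ∈ A) ∧ l'.length ≤ 2 * l.length ∧
      l.sum = u + l'.sum := by
  induction l with
  | nil => exact ⟨0, [], by simp, by simp, by simp, by simp⟩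
  | cons x l ih =>
    obtain ⟨u, l', h1, h2, h3, h4⟩ := ih (fun y hy => hl y (List.mem_cons_of_mem _ hy))
    rcases hl x List.mem_cons_self with rfl | ⟨a, ha, b, hb, rfl⟩
    · refine ⟨u + 1, l', ?_, h2, ?_, ?_⟩
      · rw [List.length_cons]; omega
      · rw [List.length_cons]; omega
      · rw [List.sum_cons, h4]; omega
    · refine ⟨u, a :: b :: l', ?_, ?_, ?_, ?_⟩
      · rw [List.length_cons]; omega
      · intro y hy
        rcases List.mem_cons.1 hy with rfl | hy
        · exact ha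
        rcases List.mem_cons.1 hy with rfl | hy
        · exact hb
        exact h2 y hy
      · simp only [List.length_cons]; omega
      · simp only [List.sum_cons, h4]; omega

theorem t_SCHNIR : S_schnir := by
  classical
  intro A hA hd
  obtain ⟨c, N0, hc, hT⟩ := hd
  set S : Set ℕ := {x | x = 1 ∨ ∃ a ∈ A, ∃ b ∈ A, a + b = x} with hS
  set β : ℝ := min (min c 1) (1 / ((N0 : ℝ) + 1)) with hβ
  have hN0 : (0 : ℝ) < (N0 : ℝ) + 1 := by positivity
  have hβ0 : 0 < β := lt_min (lt_min hc one_pos) (by positivity)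
  have hβ1 : β ≤ 1 := (min_le_left _ _).trans (min_le_right _ _)
  have hβc : β ≤ c := (min_le_left _ _).trans (min_le_left _ _)
  have hβN : β ≤ 1 / ((N0 : ℝ) + 1) := min_le_right _ _
  have hB : ∀ N : ℕ, β * N ≤ cnt S N := by
    intro N
    rcases Nat.eq_zero_or_pos N with rfl | hN
    · simp
    by_cases hNN : N0 ≤ N
    · obtain ⟨T, hT1, hT2⟩ := hT N hNN
      have h0 : T.card ≤ cnt S N := cnt_ge S N T fun m hm =>
        ⟨(hT1 m hm).1, (hT1 m hm).2.1, Or.inr (hT1 m hm).2.2⟩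
      have h1 : ((T.card : ℕ) : ℝ) ≤ cnt S N := by exact_mod_cast h0
      have h2 : β * N ≤ c * N := mul_le_mul_of_nonneg_right hβc (Nat.cast_nonneg _)
      linarith
    · have h1 : 1 ≤ cnt S N := by
        refine le_trans (by simp) (cnt_ge S N {1} fun m hm => ?_)
        rw [mem_singleton] at hm
        rw [hm]
        exact ⟨le_refl _, hN, Or.inl rfl⟩
      have h1' : (1 : ℝ) ≤ cnt S N := by exact_mod_cast h1
      have h2 : (N : ℝ) ≤ N0 + 1 := by
        exact_mod_cast (by omega : N ≤ N0 + 1)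
      have h3 : β * N ≤ 1 / ((N0 : ℝ) + 1) * (N0 + 1) :=
        mul_le_mul hβN h2 (Nat.cast_nonneg _) (by positivity)
      rw [one_div, inv_mul_cancel₀ hN0.ne'] at h3
      linarith
  obtain ⟨h, hh⟩ := basis S β hβ0 hβ1 hB
  refine ⟨3 * h + 2, 2, fun N hN => ?_⟩
  obtain ⟨l, h1, h2, h3⟩ := hh (N - 2)
  obtain ⟨u, l', g1, g2, g3, g4⟩ := unfoldS A l h1
  have hu : ∃ l2 : List ℕ, (∀ x ∈ l2, x ∈ A) ∧ l2.length ≤ u + 2 ∧ l2.sum = u + 2 := by
    rcases hA with hA | ⟨hA2, hA3⟩
    · refine ⟨List.replicate (u + 2) 1, ?_, by simp, by simp⟩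
      intro x hx
      rw [List.eq_of_mem_replicate hx]
      exact hA
    · obtain ⟨l2, k1, k2, k3⟩ := twothree (u + 2) (by omega)
      refine ⟨l2, ?_, k2, k3⟩
      intro x hx
      rcases k1 x hx with rfl | rfl
      · exact hA2
      · exact hA3
  obtain ⟨l2, k1, k2, k3⟩ := hu
  refine ⟨l2 ++ l', ?_, ?_, ?_⟩
  · intro x hx
    rcases List.mem_append.1 hx with hx | hx
    · exact k1 x hx
    · exact g2 x hx
  · rw [List.length_append]; omega
  · rw [List.sum_append, k3]
    omega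

end Pool.Agent.H541.RP.TSCHNIR
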