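import Pool.Agent.H541.RP.Stm

set_option autoImplicit false

namespace Pool.Agent.H541.RP.TSECOND

open Finset Pool.Agent.H541.RP

theorem abs_inner_le (D : ℕ) (c : ℕ → ℝ) (hc : ∀ l, |c l| ≤ (l.divisors.card : ℝ) ^ 2) (n : ℕ)
    (hn : 1 ≤ n) :
    |∑ l ∈ (Icc 1 D).filter (fun l => l ∣ n), c l| ≤ (n.divisors.card : ℝ) ^ 3 := by
  calc |∑ l ∈ (Icc 1 D).filter (fun l => l ∣ n), c l|
      ≤ ∑ l ∈ (Icc 1 D).filter (fun l => l ∣ n), |c l| := abs_sum_le_sum_abs _ _
    _ ≤ ∑ l ∈ (Icc 1 D).filter (fun l => l ∣ n), (n.divisors.card : ℝ) ^ 2 := by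
        apply sum_le_sum
        intro l hl
        rw [mem_filter] at hl
        refine (hc l).trans ?_
        have h1 : l.divisors ⊆ n.divisors := Nat.divisors_subset_of_dvd (by omega) hl.2
        have h2 : (l.divisors.card : ℝ) ≤ n.divisors.card := by exact_mod_cast card_le_card h1
        gcongr
    _ ≤ ∑ l ∈ n.divisors, (n.divisors.card : ℝ) ^ 2 := by
        apply sum_le_sum_of_subset_of_nonneg
        · intro l hl
          rw [mem_filter] at hl
          rw [Nat.mem_divisors]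
          exact ⟨hl.2, by omega⟩
        · intro l _ _; positivity
    _ = (n.divisors.card : ℝ) ^ 3 := by
        rw [sum_const, nsmul_eq_mul]; ring

theorem abs_zero_le (D : ℕ) (c : ℕ → ℝ) (hc : ∀ l, |c l| ≤ (l.divisors.card : ℝ) ^ 2) :
    |∑ l ∈ (Icc 1 D).filter (fun l => l ∣ 0), c l| ≤ (D : ℝ) ^ 3 := by
  calc |∑ l ∈ (Icc 1 D).filter (fun l => l ∣ 0), c l|
      ≤ ∑ l ∈ (Icc 1 D).filter (fun l => l ∣ 0), |c l| := abs_sum_le_sum_abs _ _
    _ ≤ ∑ l ∈ Icc 1 D, |c l| := by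
        apply sum_le_sum_of_subset_of_nonneg (filter_subset _ _)
        intro l _ _; positivity
    _ ≤ ∑ l ∈ Icc 1 D, (D : ℝ) ^ 2 := by
        apply sum_le_sum
        intro l hl
        rw [mem_Icc] at hl
        refine (hc l).trans ?_
        have h1 : l.divisors.card ≤ D := (Nat.card_divisors_le_self l).trans hl.2
        have h2 : (l.divisors.card : ℝ) ≤ D := by exact_mod_cast h1
        gcongr
    _ = (D : ℝ) ^ 3 := by
        rw [sum_const, nsmul_eq_mul, Nat.card_Icc]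
        simp only [Nat.add_sub_cancel]
        ring

theorem t_SECOND (h : S_mom) : S_second := by
  intro X D c V hD hDX hc hV
  have hX1 : 1 ≤ X := le_trans (Nat.one_le_pow _ _ hD) hDX
  have hlog : 0 ≤ Real.log X := Real.log_natCast_nonneg X
  have h1 : (1 : ℝ) ≤ (1 + Real.log X) ^ 64 := one_le_pow₀ (by linarith)
  have hmom := h 6 X
  have h64 : (2 : ℕ) ^ 6 = 64 := by norm_num
  rw [h64] at hmom
  have hXr : (0 : ℝ) < X := by exact_mod_cast hX1
  have hV' := abs_le.1 hV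
  have hn : ∀ n : ℕ, 1 ≤ n →
      ((∑ l ∈ (Icc 1 D).filter (fun l => l ∣ n), c l) - V) ^ 2 ≤ 4 * (n.divisors.card : ℝ) ^ 6 := by
    intro n hn1
    have hb := abs_inner_le D c hc n hn1
    have hcard : (1 : ℝ) ≤ (n.divisors.card : ℝ) ^ 3 := by
      apply one_le_pow₀
      have : 0 < n.divisors.card := Nat.pos_of_ne_zero (by
        rw [Ne, card_eq_zero]
        exact Nat.nonempty_divisors.2 (by omega) |>.ne_empty)
      exact_mod_cast this
    have h2 : |(∑ l ∈ (Icc 1 D).filter (fun l => l ∣ n), c l) - V| ≤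
        2 * (n.divisors.card : ℝ) ^ 3 := by
      calc _ ≤ |∑ l ∈ (Icc 1 D).filter (fun l => l ∣ n), c l| + |V| := abs_sub _ _
        _ ≤ _ := by linarith
    calc _ = |(∑ l ∈ (Icc 1 D).filter (fun l => l ∣ n), c l) - V| ^ 2 := (sq_abs _).symm
      _ ≤ (2 * (n.divisors.card : ℝ) ^ 3) ^ 2 := by gcongr
      _ = _ := by ring
  have h0 : ((∑ l ∈ (Icc 1 D).filter (fun l => l ∣ 0), c l) - V) ^ 2 ≤ 4 * X := by
    have hb := abs_zero_le D c hc
    have hDr : (1 : ℝ) ≤ (D : ℝ) ^ 3 := one_le_pow₀ (by exact_mod_cast hD)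
    have h2 : |(∑ l ∈ (Icc 1 D).filter (fun l => l ∣ 0), c l) - V| ≤ 2 * (D : ℝ) ^ 3 := by
      calc _ ≤ |∑ l ∈ (Icc 1 D).filter (fun l => l ∣ 0), c l| + |V| := abs_sub _ _
        _ ≤ _ := by linarith
    have h3 : ((D : ℝ)) ^ 6 ≤ X := by exact_mod_cast hDX
    calc _ = |(∑ l ∈ (Icc 1 D).filter (fun l => l ∣ 0), c l) - V| ^ 2 := (sq_abs _).symm
      _ ≤ (2 * (D : ℝ) ^ 3) ^ 2 := by gcongr
      _ = 4 * (D : ℝ) ^ 6 := by ring
      _ ≤ _ := by linarith
  have hsum : ∑ n ∈ Ico 1 X, ((∑ l ∈ (Icc 1 D).filter (fun l => l ∣ n), c l) - V) ^ 2 ≤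
      4 * X * (1 + Real.log X) ^ 64 := by
    calc _ ≤ ∑ n ∈ Ico 1 X, 4 * (X : ℝ) * ((n.divisors.card : ℝ) ^ 6 / n) := by
          apply sum_le_sum
          intro n hn'
          rw [mem_Ico] at hn'
          refine (hn n hn'.1).trans ?_
          have hn0 : (0 : ℝ) < n := by exact_mod_cast hn'.1
          have hnX : (n : ℝ) ≤ X := by exact_mod_cast hn'.2.le
          rw [mul_div_assoc', le_div_iff₀ hn0]
          have : (0 : ℝ) ≤ (n.divisors.card : ℝ) ^ 6 := by positivity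
          nlinarith
      _ ≤ ∑ n ∈ Icc 1 X, 4 * (X : ℝ) * ((n.divisors.card : ℝ) ^ 6 / n) := by
          apply sum_le_sum_of_subset_of_nonneg
          · intro n hn'
            rw [mem_Ico] at hn'
            rw [mem_Icc]
            exact ⟨hn'.1, hn'.2.le⟩
          · intro n _ _; positivity
      _ = 4 * X * ∑ n ∈ Icc 1 X, (n.divisors.card : ℝ) ^ 6 / n := by rw [mul_sum]
      _ ≤ _ := by gcongr
  rw [range_eq_Ico, sum_eq_sum_Ico_succ_bot (by omega : 0 < X)]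
  have hge : (4 : ℝ) * X ≤ 4 * X * (1 + Real.log X) ^ 64 := by
    nlinarith
  have : (0 + 1 : ℕ) = 1 := rfl
  linarith [h0, hsum, hge]

end Pool.Agent.H541.RP.TSECOND
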