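import Pool.Agent.H541.RP.Stm
import Pool.Graph.R_seed8.W89.Sv.Start
import Pool.Graph.R_seed8.W89.Sv.Mert

/-!
# Selberg's upper bound sieve as a function of bounded support
-/

set_option autoImplicit false

namespace Pool.Agent.H541.RP.TSIEVE

open Finset Filter Topology ArithmeticFunction BoundingSieve Pool.Agent.Helper923.PPS
  Pool.Agent.W89.Sv Pool.Agent.H541.RP

/-- the sieve -/
noncomputable def ss (m z : ℕ) : BoundingSieve := sv m (∅ : Finset ℕ) (fun n => n) 1 z 1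

/-- the squared weights -/
noncomputable def lam (m z : ℕ) (ξ : ℝ) : ℕ → ℝ := lambdaSquared (selW (ss m z) ξ)

theorem lam_abs (m z : ℕ) {ξ : ℝ} (hξ : 1 ≤ ξ) {l : ℕ} (hl : l ∣ PZ m z) :
    |lam m z ξ l| ≤ (l.divisors.card : ℝ) ^ 2 := by
  unfold lam lambdaSquared
  calc |∑ d1 ∈ l.divisors, ∑ d2 ∈ l.divisors,
          if l = Nat.lcm d1 d2 then selW (ss m z) ξ d1 * selW (ss m z) ξ d2 else 0|
        ≤ ∑ d1 ∈ l.divisors, |∑ d2 ∈ l.divisors,
          if l = Nat.lcm d1 d2 then selW (ss m z) ξ d1 * selW (ss m z) ξ d2 else 0| :=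
        Finset.abs_sum_le_sum_abs _ _
      _ ≤ ∑ d1 ∈ l.divisors, ∑ d2 ∈ l.divisors, (1 : ℝ) := by
          apply Finset.sum_le_sum
          intro d1 h1
          refine (Finset.abs_sum_le_sum_abs _ _).trans ?_
          apply Finset.sum_le_sum
          intro d2 h2
          split_ifs
          · rw [abs_mul]
            have a1 := sv_W m (∅ : Finset ℕ) (fun n => n) 1 z 1 hξ
              ((Nat.dvd_of_mem_divisors h1).trans hl)
            have a2 := sv_W m (∅ : Finset ℕ) (fun n => n) 1 z 1 hξ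
              ((Nat.dvd_of_mem_divisors h2).trans hl)
            calc |selW (ss m z) ξ d1| * |selW (ss m z) ξ d2| ≤ 1 * 1 := by
                  apply mul_le_mul a1 a2 (abs_nonneg _) zero_le_one
              _ = 1 := one_mul 1
          · simp
      _ = (l.divisors.card : ℝ) ^ 2 := by
          simp [sq]

theorem lam_zero (m z : ℕ) {ξ : ℝ} (hξ : 1 ≤ ξ) {l : ℕ} (hle : ξ ^ 2 < l) :
    lam m z ξ l = 0 := by
  unfold lam lambdaSquared
  apply Finset.sum_eq_zero
  intro d1 h1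
  apply Finset.sum_eq_zero
  intro d2 h2
  split_ifs with hlcm
  · by_cases c1 : (d1 : ℝ) ≤ ξ
    · by_cases c2 : (d2 : ℝ) ≤ ξ
      · exfalso
        apply absurd hle
        rw [not_lt]
        have h3 : l ≤ d1 * d2 := by
          rw [hlcm]
          exact Nat.le_of_dvd (Nat.mul_pos (Nat.pos_of_mem_divisors h1)
            (Nat.pos_of_mem_divisors h2)) (Nat.lcm_dvd_mul d1 d2)
        have h4 : (l : ℝ) ≤ d1 * d2 := by exact_mod_cast h3
        calc (l : ℝ) ≤ d1 * d2 := h4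
          _ ≤ ξ * ξ := by gcongr
          _ = ξ ^ 2 := by ring
      · rw [selW_eq_zero (ss m z) ξ (not_le.1 c2), mul_zero]
    · rw [selW_eq_zero (ss m z) ξ (not_le.1 c1), zero_mul]
  · rfl

theorem sum_conv (m z : ℕ) (hz : 1 ≤ z) (n : ℕ) (f : ℕ → ℝ) :
    ∑ l ∈ (Icc 1 (z ^ 16)).filter (fun l => l ∣ n),
      (if l ∣ PZ m z then lam m z ((z : ℝ) ^ 8) l else 0) * f l =
    ∑ d ∈ (Nat.gcd (PZ m z) n).divisors, lam m z ((z : ℝ) ^ 8) d * f d := by
  have hz1 : (1 : ℝ) ≤ z := by exact_mod_cast hz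
  have hξ : (1 : ℝ) ≤ (z : ℝ) ^ 8 := one_le_pow₀ hz1
  have hP : PZ m z ≠ 0 := PZ_ne_zero m z
  have hg : Nat.gcd (PZ m z) n ≠ 0 := fun h => hP (Nat.gcd_eq_zero_iff.1 h).1
  have h1 : ∑ l ∈ (Icc 1 (z ^ 16)).filter (fun l => l ∣ n),
      (if l ∣ PZ m z then lam m z ((z : ℝ) ^ 8) l else 0) * f l =
      ∑ l ∈ ((Icc 1 (z ^ 16)).filter (fun l => l ∣ n)).filter (fun l => l ∣ PZ m z),
        lam m z ((z : ℝ) ^ 8) l * f l := by
    rw [Finset.sum_filter (fun l => l ∣ PZ m z)]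
    apply Finset.sum_congr rfl
    intro l _
    split_ifs <;> simp
  rw [h1]
  apply Finset.sum_subset
  · intro l hl
    rw [Finset.mem_filter, Finset.mem_filter] at hl
    rw [Nat.mem_divisors]
    exact ⟨Nat.dvd_gcd hl.2 hl.1.2, hg⟩
  · intro l hl hl'
    rw [Nat.mem_divisors] at hl
    have hlP : l ∣ PZ m z := hl.1.trans (Nat.gcd_dvd_left _ _)
    have hln : l ∣ n := hl.1.trans (Nat.gcd_dvd_right _ _)
    have hl0 : 1 ≤ l := Nat.pos_of_dvd_of_pos hlP (Nat.pos_of_ne_zero hP)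
    have hlt : z ^ 16 < l := by
      by_contra hcon
      apply hl'
      rw [Finset.mem_filter, Finset.mem_filter, Finset.mem_Icc]
      exact ⟨⟨⟨hl0, not_lt.1 hcon⟩, hln⟩, hlP⟩
    have hlt' : ((z : ℝ) ^ 8) ^ 2 < l := by
      rw [← pow_mul]
      exact_mod_cast hlt
    rw [lam_zero m z hξ hlt', zero_mul]

theorem t_SIEVE : S_sieve := by
  intro m hm h2m
  obtain ⟨C, hC0, hC⟩ := rankin m
  have hlog : Tendsto (fun z : ℕ => Real.log (z : ℝ)) atTop atTop :=
    Real.tendsto_log_atTop.comp tendsto_natCast_atTop_atTop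
  have hVl : ∀ᶠ z : ℕ in atTop, VZ m z * Real.log z < cV m + 1 :=
    (V_lim m hm).eventually_lt_const (by linarith)
  obtain ⟨z0, hz0⟩ := eventually_atTop.1
    ((hlog.eventually_ge_atTop (100 * C + 1)).and ((eventually_ge_atTop 2).and hVl))
  refine ⟨2 * (cV m + 1), max z0 2, by have := cV_pos m; positivity, le_max_right _ _,
    fun z hz => ?_⟩
  obtain ⟨hl, hz2, hVz⟩ := hz0 z ((le_max_left _ _).trans hz)
  have hz1 : 1 ≤ z := by omega
  have hz2R : (2 : ℝ) ≤ z := by exact_mod_cast hz2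
  have hlz : 0 < Real.log z := Real.log_pos (by linarith)
  have hξ : (1 : ℝ) ≤ (z : ℝ) ^ 8 := one_le_pow₀ (by linarith)
  have hP : PZ m z ≠ 0 := PZ_ne_zero m z
  have hup : IsUpperMoebius (lam m z ((z : ℝ) ^ 8)) :=
    upperMoebius_lambdaSquared _ (selW_one (ss m z) _ hξ)
  have hsum : ∀ n : ℕ, ∑ l ∈ (Icc 1 (z ^ 16)).filter (fun l => l ∣ n),
      (if l ∣ PZ m z then lam m z ((z : ℝ) ^ 8) l else 0) =
      ∑ d ∈ (Nat.gcd (PZ m z) n).divisors, lam m z ((z : ℝ) ^ 8) d := by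
    intro n
    have h := sum_conv m z hz1 n (fun _ => 1)
    simpa only [mul_one] using h
  have hmain : ∑ l ∈ Icc 1 (z ^ 16),
      (if l ∣ PZ m z then lam m z ((z : ℝ) ^ 8) l else 0) / l =
      1 / GZ m ((z : ℝ) ^ 8) z := by
    have h := sum_conv m z hz1 0 (fun l => 1 / (l : ℝ))
    have h1 : (Icc 1 (z ^ 16)).filter (fun l => l ∣ 0) = Icc 1 (z ^ 16) :=
      Finset.filter_true_of_mem fun l _ => dvd_zero l
    rw [h1, Nat.gcd_zero_right] at h
    have h2 : ∑ l ∈ Icc 1 (z ^ 16),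
        (if l ∣ PZ m z then lam m z ((z : ℝ) ^ 8) l else 0) / l =
        ∑ l ∈ Icc 1 (z ^ 16),
        (if l ∣ PZ m z then lam m z ((z : ℝ) ^ 8) l else 0) * (1 / (l : ℝ)) :=
      Finset.sum_congr rfl fun l _ => by rw [mul_one_div]
    rw [h2, h]
    have h3 := mainSum_selW (ss m z) ((z : ℝ) ^ 8) hξ
    have h4 : selS (ss m z) ((z : ℝ) ^ 8) = GZ m ((z : ℝ) ^ 8) z :=
      sv_S m (∅ : Finset ℕ) (fun n => n) 1 z 1 _
    rw [h4] at h3
    rw [one_div, ← h3]
    rfl
  refine ⟨fun l => if l ∣ PZ m z then lam m z ((z : ℝ) ^ 8) l else 0, ?_, ?_, ?_, ?_, ?_, ?_⟩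
  · intro l hc
    have hlP : l ∣ PZ m z := by
      by_contra h
      exact hc (if_neg h)
    have hc' : lam m z ((z : ℝ) ^ 8) l ≠ 0 := by
      intro h
      apply hc
      simp only [if_pos hlP, h]
    refine ⟨Nat.pos_of_dvd_of_pos hlP (Nat.pos_of_ne_zero hP), ?_, ?_⟩
    · by_contra hcon
      apply hc'
      apply lam_zero m z hξ
      rw [← pow_mul]
      exact_mod_cast not_le.1 hcon
    · rw [Nat.coprime_iff_gcd_eq_one]
      by_contra hne
      obtain ⟨q, hq, hqd⟩ := Nat.exists_prime_and_dvd hne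
      have h1 := prime_dvd_PZ hq ((hqd.trans (Nat.gcd_dvd_left _ _)).trans hlP)
      exact h1.2 (hqd.trans (Nat.gcd_dvd_right _ _))
  · intro l
    by_cases hlP : l ∣ PZ m z
    · simp only [if_pos hlP]
      exact lam_abs m z hξ hlP
    · simp only [if_neg hlP, abs_zero]
      positivity
  · intro n
    rw [hsum n]
    refine le_trans ?_ (hup _)
    split_ifs <;> norm_num
  · intro p hp hzp
    rw [hsum p]
    have hg : Nat.gcd (PZ m z) p = 1 := by
      have h : p.Coprime (PZ m z) := by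
        rw [hp.coprime_iff_not_dvd]
        intro h
        have := (prime_dvd_PZ hp h).1
        omega
      exact h.symm
    have h := hup 1
    rw [if_pos rfl] at h
    rw [hg]
    exact h
  · rw [hmain]
    have h : 0 ≤ GZ m ((z : ℝ) ^ 8) z := by
      unfold GZ
      positivity
    positivity
  · rw [hmain]
    have hV := VZ_pos m z
    have hr := hC z hz2 ((z : ℝ) ^ 8) 2 hξ (by norm_num)
    have hq : 8 ≤ Real.log ((z : ℝ) ^ 8) / Real.log z := by
      rw [le_div_iff₀ hlz, Real.log_pow]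
      norm_num
    have hCz : C / Real.log z ≤ 1 / 100 := by
      rw [div_le_iff₀ hlz]
      linarith
    set ρ : ℝ := Real.exp (-2 * (Real.log ((z : ℝ) ^ 8) / Real.log z) +
      (Real.exp 2 - 1) * (1 + C / Real.log z)) with hρ
    have hρ1 : ρ ≤ 1 / 4900 := by
      refine le_trans ?_ exp_85
      apply Real.exp_le_exp.2
      have h1 := exp_two
      have h2 : 0 ≤ 1 + C / Real.log z := by positivity
      have h3 : (Real.exp 2 - 1) * (1 + C / Real.log z) ≤ (739 / 100 - 1) * (1 + 1 / 100) := by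
        apply mul_le_mul (by linarith) (by linarith) h2 (by norm_num)
      linarith
    have hρ0 : 0 < ρ := Real.exp_pos _
    have h1 := inv_GZ hV (by linarith : ρ < 1) hr
    have h2 : ρ / (1 - ρ) ≤ 4 / 10000 := by
      rw [div_le_iff₀ (by linarith)]
      linarith
    have h3 : 1 / GZ m ((z : ℝ) ^ 8) z ≤ 2 * VZ m z := by
      have := mul_le_mul_of_nonneg_left h2 hV.le
      linarith
    rw [le_div_iff₀ hlz]
    have h4 := mul_le_mul_of_nonneg_right h3 hlz.le
    linarith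

end Pool.Agent.H541.RP.TSIEVE
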