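import Pool.Agent.H541.RP.Main
import Pool.Agent.H541.RP.Err2
import Pool.Agent.H541.RP.TDIGIT
import Pool.Agent.H541.RP.TPROD
import Pool.Agent.H541.RP.TPOINT
import Pool.Agent.H541.RP.TAVG
import Pool.Agent.H541.RP.TMOM
import Pool.Agent.H541.RP.TSIEVE
import Pool.Agent.H541.RP.TERRBIG
import Pool.Agent.H541.RP.TENERGY
import Pool.Agent.H541.RP.TEXPAND
import Pool.Agent.H541.RP.TSECOND
import Pool.Agent.H541.RP.TPRIMES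
import Pool.Agent.H541.RP.TRV
import Pool.Agent.H541.RP.TSCHNIR

/-!
# Reversed primes: the two theorems without hypotheses (helper541)
-/

set_option autoImplicit false

namespace Pool.Agent.H541.RP

theorem t_energy {b : ℕ} (hb : 2 ≤ b) : ∃ (C : ℝ) (L0 : ℕ), 0 < C ∧ ∀ L : ℕ, L0 ≤ L →
      (Finset.addEnergy ((PL b L).image (rv b L)) ((PL b L).image (rv b L)) : ℝ) ≤
        C * ((b : ℝ) ^ L) ^ 3 / (L : ℝ) ^ 4 :=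
  energy_bound (TPROD.t_PROD TDIGIT.t_DIGIT) TSIEVE.t_SIEVE
    (t_ERR TPOINT.t_POINT (TERRBIG.t_ERRBIG TAVG.t_AVG) TMOM.t_MOM) TENERGY.t_ENERGY TEXPAND.t_EXPAND
    (TSECOND.t_SECOND TMOM.t_MOM) TRV.t_RV hb

theorem t_dens {b : ℕ} (hb : 2 ≤ b) : ∃ (c : ℝ) (N0 : ℕ), 0 < c ∧ ∀ N : ℕ, N0 ≤ N → ∃ T : Finset ℕ,
      (∀ m ∈ T, 1 ≤ m ∧ m ≤ N ∧ ∃ x ∈ RPr b, ∃ y ∈ RPr b, x + y = m) ∧ c * N ≤ (T.card : ℝ) :=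
  dens2 (TPROD.t_PROD TDIGIT.t_DIGIT) TSIEVE.t_SIEVE
    (t_ERR TPOINT.t_POINT (TERRBIG.t_ERRBIG TAVG.t_AVG) TMOM.t_MOM) TENERGY.t_ENERGY TEXPAND.t_EXPAND
    (TSECOND.t_SECOND TMOM.t_MOM) TRV.t_RV TPRIMES.t_PRIMES hb

theorem t_main (b : ℕ) (hb : 2 ≤ b) : ∃ K N0 : ℕ, ∀ N : ℕ, N0 ≤ N → ∃ l : List ℕ,
      (∀ x ∈ l, x ∈ RPr b) ∧ l.length ≤ K ∧ l.sum = N :=
  TSCHNIR.t_SCHNIR (RPr b) (small_rp hb) (t_dens hb)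

end Pool.Agent.H541.RP
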