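import Pool.Agent.H541.RP.Tree2
import Pool.Agent.H541.LL.Content

set_option autoImplicit false

/-!
From the count of survivors to the Hausdorff content of the limit set: variable lags.
-/

namespace Pool.Agent.H541.RP

open Finset Metric
open scoped ENNReal
open Pool.Agent.H541.LL (surv surv_lt surv_not_bad surv_anc DI DI_succ card_meet)

open Classical in
lemma content2 (x β η : ℕ → ℝ) (s t : ℕ → ℕ) (Act : ℕ → Prop) (R E : ℕ → ℕ → Prop) (g : ℕ → ℝ) (d : ℝ)
    (hg0 : g 0 = 1) (hg : ∀ n, g (n + 1) = 2 * (1 - x (n + 1)) * g n)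
    (hx0 : ∀ n, 0 ≤ x n) (hx1 : ∀ n, x n < 1) (hβ : ∀ n, 0 ≤ β n) (hη : ∀ n, 0 ≤ η n)
    (hact : ∀ e, Act e → 1 ≤ s e ∧ 1 ≤ t e ∧ 2 * s e ≤ e ∧ s e + t e ≤ e)
    (hx : ∀ n, (if Act (n + 1) then 2 * β (n + 1) * 2 ^ (s (n + 1)) * g (n + 1 - s (n + 1)) else 0) +
      ∑ e ∈ Fe Act s (n + 1), 2 * η e * 2 ^ (t e) * g (n + 1 - t e) ≤ x (n + 1) * g (n + 1))
    (hR0 : ∀ n k, R n k → Act n) (hE0 : ∀ n k, E n k → Act n)
    (hR : ∀ e j, Act e → j < 2 ^ (e - s e) → ¬ E e j →
      (((range (2 ^ e)).filter (fun k => k / 2 ^ (s e) = j ∧ R e k)).card : ℝ) ≤ β e * 2 ^ (s e))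
    (hE : ∀ e j, Act e → j < 2 ^ (e - s e - t e) →
      (((range (2 ^ (e - s e))).filter (fun k => k / 2 ^ (t e) = j ∧ E e k)).card : ℝ) ≤ η e * 2 ^ (t e))
    (hd0 : 0 < d) (hgd : ∀ n : ℕ, (2 : ℝ) ^ (d * n) ≤ g n) (G : Set ℝ)
    (hG : ∀ θ : ℝ, (∀ n, ∃ k, k < 2 ^ n ∧ ¬ R n k ∧ θ ∈ DI n k) → θ ∈ G)
    (V : ℕ → Set ℝ) (hV : G ⊆ ⋃ i, V i) : (1 / 12 : ℝ≥0∞) ≤ ∑' i, ediam (V i) ^ d := by
  by_contra hcon
  push Not at hcon
  have hgp : ∀ n, 0 < g n := fun n => lt_of_lt_of_le (by positivity) (hgd n)
  have hg2 : ∀ n, g (n + 1) ≤ 2 * g n := by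
    intro n
    rw [hg]
    have h1 := hx0 (n + 1)
    have h2 := hgp n
    nlinarith
  -- enlarge
  have hgap : (1 / 12 : ℝ≥0∞) - ∑' i, ediam (V i) ^ d ≠ 0 := (tsub_pos_of_lt hcon).ne'
  obtain ⟨ε, hε0, hε⟩ := ENNReal.exists_pos_sum_of_countable hgap ℕ
  set e : ℕ → ℝ≥0∞ := fun i => ediam (V i) ^ d + ε i with he
  have hesum : ∑' i, e i ≤ 1 / 12 := by
    rw [he, ENNReal.tsum_add]
    have h1 := hε.le
    have h2 := add_le_add_right h1 (∑' i, ediam (V i) ^ d)
    rw [add_tsub_cancel_of_le hcon.le] at h2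
    exact h2
  have hele : ∀ i, e i ≤ 1 / 12 := fun i => (ENNReal.le_tsum i).trans hesum
  have h112 : (1 / 12 : ℝ≥0∞) ≤ 1 := by
    rw [ENNReal.div_le_iff (by norm_num) (by norm_num)]
    norm_num
  have hefin : ∀ i, e i ≠ ∞ := fun i => ne_top_of_le_ne_top (by norm_num) ((hele i).trans h112)
  have hepos : ∀ i, 0 < (e i).toReal := by
    intro i
    apply ENNReal.toReal_pos _ (hefin i)
    have : (0 : ℝ≥0∞) < ε i := by exact_mod_cast hε0 i
    exact (this.trans_le le_add_self).ne'
  have hele1 : ∀ i, (e i).toReal ≤ 1 := by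
    intro i
    have := ENNReal.toReal_mono (by norm_num) ((hele i).trans h112)
    simpa using this
  have hN : ∀ i, ∃ n : ℕ, 1 / g (n + 1) < (e i).toReal ∧ (e i).toReal ≤ 1 / g n := by
    intro i
    have hex : ∃ n : ℕ, 1 / g (n + 1) < (e i).toReal := by
      have h2d : 1 < (2 : ℝ) ^ d := Real.one_lt_rpow (by norm_num) hd0
      obtain ⟨n, hn⟩ := pow_unbounded_of_one_lt (1 / (e i).toReal) h2d
      refine ⟨n, ?_⟩
      have h1 : 1 / (e i).toReal < g (n + 1) := by
        refine lt_of_lt_of_le hn (le_trans ?_ (hgd (n + 1)))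
        rw [Real.rpow_mul (by norm_num), Real.rpow_natCast]
        exact pow_le_pow_right₀ h2d.le (Nat.le_succ n)
      rw [one_div, inv_lt_comm₀ (hgp _) (hepos i)]
      rwa [one_div] at h1
    refine ⟨Nat.find hex, Nat.find_spec hex, ?_⟩
    rcases Nat.eq_zero_or_pos (Nat.find hex) with h0 | h0
    · rw [h0, hg0, div_one]
      exact hele1 i
    · have h1 := Nat.find_min hex (m := Nat.find hex - 1) (by omega)
      push Not at h1
      have h2 : Nat.find hex - 1 + 1 = Nat.find hex := by omega
      rwa [h2] at h1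
  choose N hN1 hN2 using hN
  have hdiam : ∀ i, ediam (V i) ≤ ENNReal.ofReal ((1 / 2 : ℝ) ^ (N i)) := by
    intro i
    have h1 : ediam (V i) ^ d ≤ e i := le_self_add
    have h3 : 1 / g (N i) ≤ ((1 / 2 : ℝ) ^ (N i)) ^ d := by
      have h4 : ((1 / 2 : ℝ) ^ (N i)) ^ d = 1 / (2 : ℝ) ^ (d * (N i)) := by
        rw [one_div_pow, one_div, Real.inv_rpow (by positivity), ← Real.rpow_natCast, ← Real.rpow_mul
          (by norm_num), one_div, mul_comm]
      rw [h4]
      exact one_div_le_one_div_of_le (by positivity) (hgd _)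
    have h2 : e i ≤ ENNReal.ofReal (((1 / 2 : ℝ) ^ (N i)) ^ d) := by
      rw [← ENNReal.ofReal_toReal (hefin i)]
      exact ENNReal.ofReal_le_ofReal ((hN2 i).trans h3)
    rw [← ENNReal.ofReal_rpow_of_nonneg (by positivity) hd0.le] at h2
    exact (ENNReal.rpow_le_rpow_iff hd0).1 (h1.trans h2)
  -- the additional removal
  set U : ℕ → ℕ → Prop := fun n k => ∃ i, N i = n ∧ (DI n k ∩ V i).Nonempty with hU
  have hcardU : ∀ n, ((((range (2 ^ n)).filter (fun k => U n k)).card : ℕ) : ℝ≥0∞) ≤
      ∑' i, if N i = n then 3 else 0 := by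
    intro n
    have hch : ∀ k, ∃ i, k ∈ (range (2 ^ n)).filter (fun k => U n k) →
        (N i = n ∧ (DI n k ∩ V i).Nonempty) := by
      intro k
      by_cases h : k ∈ (range (2 ^ n)).filter (fun k => U n k)
      · obtain ⟨i, hi⟩ := (mem_filter.1 h).2
        exact ⟨i, fun _ => hi⟩
      · exact ⟨0, fun h' => absurd h' h⟩
    choose f hf using hch
    set F := (range (2 ^ n)).filter (fun k => U n k) with hF
    have h1 : F.card ≤ 3 * (F.image f).card := by
      apply card_le_mul_card_image
      intro i hi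
      rcases (F.filter (fun k => f k = i)).eq_empty_or_nonempty with h | h
      · rw [h]
        simp
      · obtain ⟨k0, hk0⟩ := h
        rw [mem_filter] at hk0
        have hNi : N i = n := by
          rw [← hk0.2]
          exact (hf k0 hk0.1).1
        apply card_meet n (V i)
        · rw [← hNi]
          exact hdiam i
        · intro k hk
          rw [mem_filter] at hk
          have := (hf k hk.1).2
          rwa [hk.2] at this
    calc (F.card : ℝ≥0∞) ≤ ((3 * (F.image f).card : ℕ) : ℝ≥0∞) := by exact_mod_cast h1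
      _ = ∑ i ∈ F.image f, (if N i = n then 3 else 0 : ℝ≥0∞) := by
        rw [Finset.sum_congr rfl (g := fun _ => (3 : ℝ≥0∞))]
        · rw [sum_const, nsmul_eq_mul]
          push_cast
          ring
        · intro i hi
          rw [mem_image] at hi
          obtain ⟨k, hk, rfl⟩ := hi
          rw [if_pos (hf k hk).1]
      _ ≤ ∑' i, if N i = n then 3 else 0 := ENNReal.sum_le_tsum _
  have hu : ∀ n, ∑ k ∈ range (n + 1), (((range (2 ^ k)).filter (fun j => U k j)).card : ℝ) / g k
      ≤ 1 / 2 := by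
    intro n
    have h1 : ENNReal.ofReal (∑ k ∈ range (n + 1),
        (((range (2 ^ k)).filter (fun j => U k j)).card : ℝ) / g k) ≤ 1 / 2 := by
      rw [ENNReal.ofReal_sum_of_nonneg (fun k _ => div_nonneg (by positivity) (hgp k).le)]
      calc ∑ k ∈ range (n + 1), ENNReal.ofReal
            ((((range (2 ^ k)).filter (fun j => U k j)).card : ℝ) / g k)
          = ∑ k ∈ range (n + 1), ((((range (2 ^ k)).filter (fun j => U k j)).card : ℕ) : ℝ≥0∞) *
              ENNReal.ofReal (1 / g k) := by
            apply sum_congr rfl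
            intro k _
            rw [← ENNReal.ofReal_natCast, ← ENNReal.ofReal_mul (by positivity)]
            congr 1
            ring
        _ ≤ ∑ k ∈ range (n + 1), (∑' i, if N i = k then 3 else 0) * ENNReal.ofReal (1 / g k) := by
            gcongr with k _
            exact hcardU k
        _ = ∑ k ∈ range (n + 1), ∑' i, (if N i = k then 3 else 0) * ENNReal.ofReal (1 / g k) := by
            apply sum_congr rfl
            intro k _
            rw [ENNReal.tsum_mul_right]
        _ = ∑' i, ∑ k ∈ range (n + 1), (if N i = k then 3 else 0) * ENNReal.ofReal (1 / g k) := by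
            rw [Summable.tsum_finsetSum]
            intro _ _
            exact ENNReal.summable
        _ ≤ ∑' i, 6 * e i := by
            apply ENNReal.tsum_le_tsum
            intro i
            simp only [ite_mul, zero_mul]
            rw [sum_ite_eq]
            split_ifs
            · have h2 : ENNReal.ofReal (1 / g (N i)) ≤ 2 * e i := by
                have h3 : 1 / g (N i) ≤ 2 * (e i).toReal := by
                  have h4 := hN1 i
                  have h5 : 1 / g (N i) ≤ 2 * (1 / g (N i + 1)) := by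
                    rw [mul_one_div, div_le_div_iff₀ (hgp _) (hgp _), one_mul]
                    exact hg2 _
                  linarith
                calc ENNReal.ofReal (1 / g (N i)) ≤ ENNReal.ofReal (2 * (e i).toReal) :=
                      ENNReal.ofReal_le_ofReal h3
                  _ = 2 * e i := by
                      rw [ENNReal.ofReal_mul (by norm_num), ENNReal.ofReal_toReal (hefin i)]
                      norm_num
              calc 3 * ENNReal.ofReal (1 / g (N i)) ≤ 3 * (2 * e i) := by gcongr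
                _ = 6 * e i := by
                    rw [← mul_assoc]
                    norm_num
            · exact zero_le
        _ = 6 * ∑' i, e i := ENNReal.tsum_mul_left
        _ ≤ 6 * (1 / 12) := by gcongr
        _ = 1 / 2 := by
            rw [one_div, one_div]
            have : (12 : ℝ≥0∞) = 6 * 2 := by norm_num
            rw [this, ENNReal.mul_inv (by norm_num) (by norm_num), ← mul_assoc,
              ENNReal.mul_inv_cancel (by norm_num) (by norm_num), one_mul]
    have h2 : (1 / 2 : ℝ≥0∞) = ENNReal.ofReal (1 / 2) := by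
      rw [ENNReal.ofReal_div_of_pos (by norm_num)]
      simp
    rw [h2] at h1
    exact (ENNReal.ofReal_le_ofReal_iff (by norm_num)).1 h1
  -- survivors
  set Bad := BadN s R E U with hBad
  have hsurv : ∀ n, (surv Bad n).Nonempty := by
    intro n
    have h1 := surv_card2 x β η s t Act R E U g
      (fun n => (((range (2 ^ n)).filter (fun k => U n k)).card : ℝ)) hg0 hg hx1 hβ hη hact hx
      hR0 hE0 hR hE (fun n => le_rfl) hu n
    have h2 : (0 : ℝ) < ((surv Bad n).card : ℝ) := lt_of_lt_of_le (half_pos (hgp n)) h1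
    rw [← card_pos]
    exact_mod_cast h2
  -- nested compact sets
  set K : ℕ → Set ℝ := fun n => ⋃ k ∈ surv Bad n, DI n k with hK
  have hKne : (⋂ n, K n).Nonempty := by
    apply IsCompact.nonempty_iInter_of_sequence_nonempty_isCompact_isClosed
    · intro n θ hθ
      simp only [hK, Set.mem_iUnion] at hθ ⊢
      obtain ⟨k, hk, hθk⟩ := hθ
      refine ⟨k / 2, ?_, DI_succ n k hθk⟩
      simp only [surv, mem_filter] at hk
      exact hk.2.1
    · intro n
      obtain ⟨k, hk⟩ := hsurv n
      refine ⟨(k : ℝ) / 2 ^ n, ?_⟩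
      simp only [hK, Set.mem_iUnion]
      refine ⟨k, hk, le_rfl, ?_⟩
      gcongr
      linarith
    · simp only [hK]
      apply Set.Finite.isCompact_biUnion
      · exact (surv Bad 0).finite_toSet
      · intro k _
        exact isCompact_Icc
    · intro n
      simp only [hK]
      apply Set.Finite.isClosed_biUnion
      · exact (surv Bad n).finite_toSet
      · intro k _
        exact isClosed_Icc
  obtain ⟨θ, hθ⟩ := hKne
  rw [Set.mem_iInter] at hθ
  have hθG : θ ∈ G := by
    apply hG
    intro n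
    have h1 := hθ n
    simp only [hK, Set.mem_iUnion] at h1
    obtain ⟨k, hk, hθk⟩ := h1
    exact ⟨k, surv_lt Bad n k hk, fun h => surv_not_bad Bad n k hk (Or.inl h), hθk⟩
  obtain ⟨i, hi⟩ := Set.mem_iUnion.1 (hV hθG)
  have h1 := hθ (N i)
  simp only [hK, Set.mem_iUnion] at h1
  obtain ⟨k, hk, hθk⟩ := h1
  exact surv_not_bad Bad _ k hk (Or.inr (Or.inr ⟨i, rfl, θ, hθk, hi⟩))

end Pool.Agent.H541.RP
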