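import Pool.Agent.H541.RP.Par2

set_option autoImplicit false

/-!
The growth sequence and the uniform lower bound for the content.
-/

namespace Pool.Agent.H541.RP

open Finset Metric
open scoped ENNReal
open Pool.Agent.H541.LL

/-- the growth sequence -/
noncomputable def gg (x : ℕ → ℝ) : ℕ → ℝ
  | 0 => 1
  | n + 1 => 2 * (1 - x (n + 1)) * gg x n

lemma gg_pos (x : ℕ → ℝ) (hx1 : ∀ n, x n ≤ 1 / 2) (n : ℕ) : 0 < gg x n := by
  induction n with
  | zero => exact one_pos
  | succ n ih =>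
    rw [gg]
    have := hx1 (n + 1)
    have h1 : 0 < 1 - x (n + 1) := by linarith
    positivity

lemma gg_lin (x : ℕ → ℝ) (hx0 : ∀ n, 0 ≤ x n) (hx1 : ∀ n, x n ≤ 1 / 2) (a c : ℕ) :
    2 ^ c * (1 - ∑ k ∈ Ioc a (a + c), x k) * gg x a ≤ gg x (a + c) := by
  induction c with
  | zero => simp
  | succ c ih =>
    have h1 : Ioc a (a + (c + 1)) = insert (a + c + 1) (Ioc a (a + c)) := by
      ext k
      simp only [mem_Ioc, mem_insert]
      omega
    rw [h1, sum_insert (by simp)]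
    have h2 : gg x (a + (c + 1)) = 2 * (1 - x (a + c + 1)) * gg x (a + c) := rfl
    rw [h2]
    have h3 := hx1 (a + c + 1)
    have h4 := hx0 (a + c + 1)
    have h5 := gg_pos x hx1 a
    have h6 := gg_pos x hx1 (a + c)
    have h7 : 0 ≤ ∑ k ∈ Ioc a (a + c), x k := sum_nonneg fun k _ => hx0 k
    have h8 : 0 ≤ 1 - x (a + c + 1) := by linarith
    have h9 := mul_le_mul_of_nonneg_left ih (show 0 ≤ 2 * (1 - x (a + c + 1)) by positivity)
    refine le_trans ?_ h9
    have h10 : 1 - (x (a + c + 1) + ∑ k ∈ Ioc a (a + c), x k) ≤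
        (1 - x (a + c + 1)) * (1 - ∑ k ∈ Ioc a (a + c), x k) := by nlinarith
    calc 2 ^ (c + 1) * (1 - (x (a + c + 1) + ∑ k ∈ Ioc a (a + c), x k)) * gg x a
        ≤ 2 ^ (c + 1) * ((1 - x (a + c + 1)) * (1 - ∑ k ∈ Ioc a (a + c), x k)) * gg x a := by gcongr
      _ = 2 * (1 - x (a + c + 1)) * (2 ^ c * (1 - ∑ k ∈ Ioc a (a + c), x k) * gg x a) := by
        rw [pow_succ]
        ring

lemma gg_exp (x : ℕ → ℝ) (hx0 : ∀ n, 0 ≤ x n) (hx1 : ∀ n, x n ≤ 1 / 2) (a c : ℕ) :
    2 ^ c * Real.exp (-(2 * ∑ k ∈ Ioc a (a + c), x k)) * gg x a ≤ gg x (a + c) := by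
  induction c with
  | zero => simp
  | succ c ih =>
    have h1 : Ioc a (a + (c + 1)) = insert (a + c + 1) (Ioc a (a + c)) := by
      ext k
      simp only [mem_Ioc, mem_insert]
      omega
    rw [h1, sum_insert (by simp)]
    have h2 : gg x (a + (c + 1)) = 2 * (1 - x (a + c + 1)) * gg x (a + c) := rfl
    rw [h2]
    have h3 := hx1 (a + c + 1)
    have h4 := hx0 (a + c + 1)
    have h5 := gg_pos x hx1 a
    have h8 : 0 ≤ 1 - x (a + c + 1) := by linarith
    have h9 := mul_le_mul_of_nonneg_left ih (show 0 ≤ 2 * (1 - x (a + c + 1)) by positivity)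
    refine le_trans ?_ h9
    have h10 : Real.exp (-(2 * x (a + c + 1))) ≤ 1 - x (a + c + 1) := by
      rw [Real.exp_neg, inv_le_comm₀ (Real.exp_pos _) (by linarith)]
      have h11 := Real.add_one_le_exp (2 * x (a + c + 1))
      refine le_trans ?_ h11
      rw [inv_le_iff_one_le_mul₀ (by linarith)]
      nlinarith
    calc 2 ^ (c + 1) * Real.exp (-(2 * (x (a + c + 1) + ∑ k ∈ Ioc a (a + c), x k))) * gg x a
        = 2 ^ (c + 1) * (Real.exp (-(2 * x (a + c + 1))) * Real.exp (-(2 * ∑ k ∈ Ioc a (a + c), x k)))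
            * gg x a := by
          rw [← Real.exp_add]
          congr 3
          ring
      _ ≤ 2 ^ (c + 1) * ((1 - x (a + c + 1)) * Real.exp (-(2 * ∑ k ∈ Ioc a (a + c), x k))) * gg x a := by
          gcongr
      _ = 2 * (1 - x (a + c + 1)) * (2 ^ c * Real.exp (-(2 * ∑ k ∈ Ioc a (a + c), x k)) * gg x a) := by
        rw [pow_succ]
        ring

/-- total weight of the exceptional events -/
lemma fe_sum (T : ℕ) (hT : 1 ≤ T) (s : ℕ → ℕ) (hs : ∀ e, T ≤ e → 2 * s e ≤ e) (a b : ℕ) :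
    ∑ k ∈ Ioc a b, ∑ e ∈ Fe (fun n => T ≤ n) s k, 1 / (e : ℝ) ^ 2 ≤ 2 / (T : ℝ) := by
  have hdis : ((Ioc a b : Finset ℕ) : Set ℕ).PairwiseDisjoint (fun k => Fe (fun n => T ≤ n) s k) := by
    intro k _ l _ hkl
    rw [Function.onFun, disjoint_left]
    intro e he1 he2
    rw [mem_Fe _ _ _ _ hs] at he1 he2
    omega
  rw [← sum_biUnion (fun k hk l hl hkl => hdis hk hl hkl)]
  have hsub : (Ioc a b).biUnion (fun k => Fe (fun n => T ≤ n) s k) ⊆ Ioo (T - 1) (2 * b + 1) := by
    intro e he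
    rw [mem_biUnion] at he
    obtain ⟨k, hk, he⟩ := he
    rw [mem_Fe _ _ _ _ hs] at he
    rw [mem_Ioc] at hk
    rw [mem_Ioo]
    have := hs e he.1
    omega
  calc ∑ e ∈ (Ioc a b).biUnion (fun k => Fe (fun n => T ≤ n) s k), 1 / (e : ℝ) ^ 2
      ≤ ∑ e ∈ Ioo (T - 1) (2 * b + 1), 1 / (e : ℝ) ^ 2 :=
        sum_le_sum_of_subset_of_nonneg hsub (fun e _ _ => by positivity)
    _ = ∑ e ∈ Ioo (T - 1) (2 * b + 1), ((e : ℝ) ^ 2)⁻¹ := by simp only [one_div]
    _ ≤ 2 / (((T - 1 : ℕ) : ℝ) + 1) := sum_Ioo_inv_sq_le _ _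
    _ = 2 / T := by
      congr 1
      rw [Nat.cast_sub hT]
      simp

/-- square roots in the upper half -/
lemma sN_lower (k b : ℕ) (hb : 100 ≤ b) (hk : b ≤ 2 * k) : √(b : ℝ) / 2 ≤ sN k := by
  by_contra hcon
  push Not at hcon
  have hbr : (100 : ℝ) ≤ b := by exact_mod_cast hb
  have h1 : √(b : ℝ) ^ 2 = b := Real.sq_sqrt (by positivity)
  have h2 : 10 ≤ √(b : ℝ) := by
    rw [Real.le_sqrt (by norm_num) (by positivity)]
    linarith
  have e3 : k < (Nat.sqrt k + 1) * (Nat.sqrt k + 1) := Nat.sqrt_lt.1 (Nat.lt_succ_self _)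
  have h3 : (k : ℝ) < ((sN k : ℝ) + 1) ^ 2 := by
    have : k < (sN k + 1) ^ 2 := by
      rw [sq]
      exact e3
    exact_mod_cast this
  have h4 : (b : ℝ) ≤ 2 * k := by exact_mod_cast hk
  have h5 : ((sN k : ℝ) + 1) ^ 2 ≤ (√(b : ℝ) / 2 + 1) ^ 2 := by
    have : (0 : ℝ) ≤ sN k := by positivity
    gcongr
  nlinarith

open Classical in
/-- the weights -/
noncomputable def xx (T : ℕ) (C1 : ℝ) (M : ℕ → ℕ) (n : ℕ) : ℝ :=
  (if T ≤ n then 4 * C1 * M n / sN n else 0) + ∑ e ∈ Fe (fun n => T ≤ n) sN n, 1 / (e : ℝ) ^ 2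

lemma sum_xx (T : ℕ) (hT : 100 ≤ T) (hs : ∀ e, T ≤ e → 2 * sN e ≤ e) (C1 : ℝ) (hC1 : 0 ≤ C1)
    (M : ℕ → ℕ) (η : ℕ → ℝ)
    (hM : ∀ a b, a ≤ b → ∑ k ∈ Ioc a b, (M k : ℝ) ≤ η b * (((b : ℝ) - a) + √(b : ℝ)))
    (a b : ℕ) (hab : a ≤ b) (hb : 100 ≤ b) (hba : b ≤ 2 * (a + 1)) :
    ∑ k ∈ Ioc a b, xx T C1 M k ≤ 8 * C1 * η b * (((b : ℝ) - a) / √(b : ℝ) + 1) + 2 / (T : ℝ) := by
  unfold xx
  rw [sum_add_distrib]
  refine add_le_add ?_ (fe_sum T (by omega) sN hs a b)
  have hbr : (100 : ℝ) ≤ b := by exact_mod_cast hb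
  have hsb : 0 < √(b : ℝ) := Real.sqrt_pos.2 (by linarith)
  calc ∑ k ∈ Ioc a b, (if T ≤ k then 4 * C1 * M k / sN k else 0)
      ≤ ∑ k ∈ Ioc a b, (8 * C1 / √(b : ℝ)) * M k := by
        apply sum_le_sum
        intro k hk
        rw [mem_Ioc] at hk
        split_ifs with h
        · have h1 := sN_lower k b hb (by omega)
          rw [div_mul_eq_mul_div]
          have h2 : 0 < √(b : ℝ) / 2 := by positivity
          have h3 : 0 ≤ 4 * C1 * M k := by positivity
          calc 4 * C1 * M k / sN k ≤ 4 * C1 * M k / (√(b : ℝ) / 2) :=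
                div_le_div_of_nonneg_left h3 h2 h1
            _ = 8 * C1 * M k / √(b : ℝ) := by
                field_simp
                ring
        · positivity
    _ = (8 * C1 / √(b : ℝ)) * ∑ k ∈ Ioc a b, (M k : ℝ) := by rw [mul_sum]
    _ ≤ (8 * C1 / √(b : ℝ)) * (η b * (((b : ℝ) - a) + √(b : ℝ))) := by
        apply mul_le_mul_of_nonneg_left (hM a b hab) (by positivity)
    _ = 8 * C1 * η b * (((b : ℝ) - a) / √(b : ℝ) + 1) := by
        field_simp

lemma core3 : ∃ η0 : ℝ, 0 < η0 ∧ η0 ≤ 1 ∧ ∀ d : ℝ, 0 < d → d < 1 → ∃ T : ℕ, 100 ≤ T ∧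
    (∀ n, T ≤ n → 64 * (lN n + 1) ^ 2 ≤ wN n ∧ 64 ≤ lN n) ∧
    ∀ (α : ℕ → ℕ) (η : ℕ → ℝ) (M : ℕ → ℕ),
    (∀ n, T ≤ n → 1 ≤ α n ∧ α n ≤ lN n) → (∀ n, 0 ≤ η n ∧ η n ≤ η0) →
    (∀ e k, T ≤ e → e ≤ 2 * k → k ≤ e → η k * α e ≤ η0) →
    (∀ a b, a ≤ b → ∑ k ∈ Ioc a b, (M k : ℝ) ≤ η b * (((b : ℝ) - a) + √(b : ℝ))) →
    ∀ (ι : Type) (lam c : ι → ℝ), (∀ e, T ≤ e → ∃ F : Finset ι, F.card ≤ M e ∧
      ∀ i, (2 : ℝ) ^ e / 2 < lam i → lam i ≤ 2 ^ e → i ∈ F) →
    ∀ V : ℕ → Set ℝ, {θ : ℝ | θ ∈ Set.Icc (0 : ℝ) 1 ∧ ∀ n, T ≤ n → ∀ i, (2 : ℝ) ^ n / 2 < lam i →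
      lam i ≤ 2 ^ n → (∃ p ∈ QN (α n) n, (p : ℤ) ∣ ⌊θ * lam i + c i⌋) ∧
        ∀ m ∈ DN (α n) n, ¬ (m : ℤ) ∣ ⌊θ * lam i + c i⌋} ⊆ ⋃ i, V i →
    (1 / 12 : ℝ≥0∞) ≤ ∑' i, ediam (V i) ^ d := by
  classical
  obtain ⟨C, hC⟩ := Pool.Agent.Helper601.Mertens.mertens_inv
  have hC0 : 0 ≤ C := (abs_nonneg _).trans (hC 3 le_rfl)
  obtain ⟨C1, hC1⟩ : ∃ C1 : ℝ, C1 = 30 * Real.exp (2 * C) := ⟨_, rfl⟩
  have he2C : 1 ≤ Real.exp (2 * C) := Real.one_le_exp (by positivity)
  have hC130 : 30 ≤ C1 := by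
    rw [hC1]
    linarith
  obtain ⟨η0, hη0⟩ : ∃ η0 : ℝ, η0 = 1 / (8192 * C1) := ⟨_, rfl⟩
  have hη0p : 0 < η0 := by
    rw [hη0]
    positivity
  have hCη : C1 * η0 = 1 / 8192 := by
    rw [hη0]
    field_simp
  have hη01 : η0 ≤ 1 := by nlinarith
  refine ⟨η0, hη0p, hη01, fun d hd0 hd1 => ?_⟩
  obtain ⟨B, hB⟩ : ∃ B : ℝ, B = 36 * Real.exp (8 * C) + 64 * (C + 1) + Real.exp (3 * C) + 1 / (1 - d) :=
    ⟨_, rfl⟩
  have hd1' : 0 < 1 - d := by linarith
  have hBd : 1 / (1 - d) ≤ B := by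
    rw [hB]
    have := Real.exp_pos (8 * C)
    have := Real.exp_pos (3 * C)
    linarith
  have hB1 : 36 * Real.exp (8 * C) ≤ B := by
    rw [hB]
    have := Real.exp_pos (3 * C)
    have : 0 < 1 / (1 - d) := by positivity
    linarith
  have hB2 : 64 * (C + 1) ≤ B := by
    rw [hB]
    have := Real.exp_pos (3 * C)
    have := Real.exp_pos (8 * C)
    have : 0 < 1 / (1 - d) := by positivity
    linarith
  have hB3 : Real.exp (3 * C) ≤ B := by
    rw [hB]
    have := Real.exp_pos (8 * C)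
    have : 0 < 1 / (1 - d) := by positivity
    linarith
  obtain ⟨T, hT200, hT⟩ := facts B
  have hT100 : 100 ≤ T := by omega
  refine ⟨T, hT100, fun n hn => ⟨(hT n hn).2.1, (hT n hn).1⟩, ?_⟩
  intro α η M hα hη hηα hM ι lam c hF V hV
  set Act : ℕ → Prop := fun n => T ≤ n with hAct
  have hTr : (100 : ℝ) ≤ T := by exact_mod_cast hT100
  have hok : ∀ e, T ≤ e → 1 ≤ sN e ∧ 1 ≤ tN (α e) e ∧ 4 * sN e ≤ e ∧ 4 * tN (α e) e ≤ e := by
    intro e he
    obtain ⟨f1, f2, -⟩ := hT e he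
    exact act_ok (α e) e (by omega) f1 f2 (hα e he).1 (hα e he).2
  have hs2 : ∀ e, T ≤ e → 2 * sN e ≤ e := fun e he => by
    have := hok e he
    omega
  set x : ℕ → ℝ := xx T C1 M with hx
  have hx0 : ∀ n, 0 ≤ x n := by
    intro n
    rw [hx]
    unfold xx
    apply add_nonneg
    · split_ifs
      · positivity
      · exact le_rfl
    · exact sum_nonneg fun e _ => by positivity
  have h2T : 2 / (T : ℝ) ≤ 1 / 50 := by
    rw [div_le_iff₀ (by linarith)]
    linarith
  -- vanishing for small indices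
  have hxz : ∀ n, 2 * n < T → x n = 0 := by
    intro n hn
    rw [hx]
    unfold xx
    rw [if_neg (by omega), zero_add]
    apply sum_eq_zero
    intro e he
    rw [mem_Fe _ _ _ _ hs2] at he
    exfalso
    have := hs2 e he.1
    omega
  have hx1 : ∀ n, x n ≤ 1 / 2 := by
    intro n
    rcases Nat.lt_or_ge (2 * n) T with h | h
    · rw [hxz n h]
      norm_num
    rcases Nat.lt_or_ge n T with h' | h'
    · -- only exceptional events
      rw [hx]
      unfold xx
      rw [if_neg (by omega), zero_add]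
      have h1 := fe_sum T (by omega) sN hs2 (n - 1) n
      have h2 : Ioc (n - 1) n = {n} := by
        ext k
        simp only [mem_Ioc, mem_singleton]
        omega
      rw [h2, sum_singleton] at h1
      linarith
    · have h1 := sum_xx T hT100 hs2 C1 (by linarith) M η hM (n - 1) n (by omega) (by omega) (by omega)
      have h2 : Ioc (n - 1) n = {n} := by
        ext k
        simp only [mem_Ioc, mem_singleton]
        omega
      rw [h2, sum_singleton] at h1
      have h3 : ((n : ℝ) - ((n - 1 : ℕ) : ℝ)) = 1 := by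
        rw [Nat.cast_sub (by omega)]
        simp
      rw [h3] at h1
      have hnr : (100 : ℝ) ≤ n := by exact_mod_cast (by omega : 100 ≤ n)
      have h4 : 1 ≤ √(n : ℝ) := by
        rw [Real.le_sqrt (by norm_num) (by positivity)]
        linarith
      have h5 : 1 / √(n : ℝ) ≤ 1 := by
        rw [div_le_one (by linarith)]
        exact h4
      have h6 := (hη n).1
      have h7 := (hη n).2
      have h8 : 8 * C1 * η n * (1 / √(n : ℝ) + 1) ≤ 8 * C1 * η0 * (1 + 1) := by gcongr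
      have h9 : 8 * C1 * η0 * (1 + 1) = 16 / 8192 := by
        calc 8 * C1 * η0 * (1 + 1) = 16 * (C1 * η0) := by ring
          _ = 16 / 8192 := by rw [hCη]; norm_num
      linarith
  -- multiplicities
  have hMe : ∀ e, T ≤ e → M e ≤ e := by
    intro e he
    have h1 := hM (e - 1) e (by omega)
    have h2 : Ioc (e - 1) e = {e} := by
      ext k
      simp only [mem_Ioc, mem_singleton]
      omega
    rw [h2, sum_singleton] at h1
    have h3 : ((e : ℝ) - ((e - 1 : ℕ) : ℝ)) = 1 := by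
      rw [Nat.cast_sub (by omega)]
      simp
    rw [h3] at h1
    have her : (100 : ℝ) ≤ e := by exact_mod_cast (by omega : 100 ≤ e)
    have h4 : √(e : ℝ) ≤ e / 2 := by
      rw [Real.sqrt_le_left (by positivity)]
      nlinarith
    have h6 := (hη e).1
    have h7 := (hη e).2
    have h8 : η e * (1 + √(e : ℝ)) ≤ 1 * (1 + e / 2) := by
      have : η e ≤ 1 := h7.trans hη01
      gcongr
    have h9 : (M e : ℝ) ≤ e := by linarith
    exact_mod_cast h9
  refine core2 x sN (fun n => tN (α n) n) rN M KN Act (fun n => QN (α n) n) (fun n => DN (α n) n)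
    (gg x) d rfl (fun n => rfl) hx0 (fun n => lt_of_le_of_lt (hx1 n) (by norm_num))
    (fun n => QN_prime _ _) (fun n => ⟨wN n, by rw [rN]; ring⟩)
    (fun n => by unfold KN; exact one_le_pow₀ (by norm_num)) ?_ ?_ ?_ hd0 ?_ ι lam c hF V hV
  · -- sizes of the smooth numbers
    intro n _ m hm
    rw [mem_DN] at hm
    have : 1 ≤ 2 ^ (sN n / 2) := Nat.one_le_pow _ _ (by norm_num)
    exact ⟨by omega, hm.1.2⟩
  · intro e he
    have := hok e he
    exact ⟨this.1, this.2.1, by omega, by omega⟩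
  · -- the main condition
    intro n
    obtain ⟨b, hb⟩ : ∃ b, b = n + 1 := ⟨_, rfl⟩
    rw [← hb]
    have hxb : x b * gg x b = (if T ≤ b then 4 * C1 * M b / sN b else 0) * gg x b +
        ∑ e ∈ Fe Act sN b, 1 / (e : ℝ) ^ 2 * gg x b := by
      rw [← sum_mul, ← add_mul]
      rfl
    rw [hxb]
    have hgb := gg_pos x hx1 b
    apply add_le_add
    · by_cases hTb : T ≤ b
      · rw [if_pos hTb]
        rw [if_pos (show Act b from hTb)]
        obtain ⟨o1, o2, o3, o4⟩ := hok b hTb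
        obtain ⟨f1, f2, f3, f4, f5, f6⟩ := hT b hTb
        have hs0 : (0 : ℝ) < sN b := by exact_mod_cast o1
        have h1 := (rho_bounds C hC (α b) b (by omega) o1 (hα b hTb).1).1
        have h2 := tau_bound C hC B hB3 (α b) b (by omega) f1 f2 (hα b hTb).1 (hα b hTb).2 f4
        have h3 : 18 * rho (QN (α b) b) + 12 * ∑ m ∈ DN (α b) b, 1 / (m : ℝ) ≤ C1 / sN b := by
          calc 18 * rho (QN (α b) b) + 12 * ∑ m ∈ DN (α b) b, 1 / (m : ℝ)
              ≤ 18 * (Real.exp (2 * C) / sN b) + 12 * (1 / sN b) := by gcongr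
            _ ≤ 18 * (Real.exp (2 * C) / sN b) + 12 * (Real.exp (2 * C) / sN b) := by gcongr
            _ = C1 / sN b := by
              rw [hC1]
              ring
        -- the window
        have h4 := gg_lin x hx0 hx1 (b - sN b) (sN b)
        have h5 : b - sN b + sN b = b := by omega
        rw [h5] at h4
        have h6 := sum_xx T hT100 hs2 C1 (by linarith) M η hM (b - sN b) b (by omega) (by omega) (by omega)
        have h7 : ((b : ℝ) - ((b - sN b : ℕ) : ℝ)) = sN b := by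
          rw [Nat.cast_sub (by omega)]
          ring
        rw [h7] at h6
        have hbr : (100 : ℝ) ≤ b := by exact_mod_cast (by omega : 100 ≤ b)
        have h8 : (sN b : ℝ) ≤ √(b : ℝ) := Real.nat_sqrt_le_real_sqrt
        have h9 : (sN b : ℝ) / √(b : ℝ) ≤ 1 := by
          rw [div_le_one (Real.sqrt_pos.2 (by linarith))]
          exact h8
        have h10 := (hη b).1
        have h11 := (hη b).2
        have h12 : ∑ k ∈ Ioc (b - sN b) b, x k ≤ 1 / 2 := by
          calc ∑ k ∈ Ioc (b - sN b) b, x k ≤ 8 * C1 * η b * ((sN b : ℝ) / √(b : ℝ) + 1) + 2 / (T : ℝ) := h6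
            _ ≤ 8 * C1 * η0 * (1 + 1) + 1 / 50 := by gcongr
            _ = 16 * (C1 * η0) + 1 / 50 := by ring
            _ ≤ 1 / 2 := by
              rw [hCη]
              norm_num
        have hga := gg_pos x hx1 (b - sN b)
        have h13 : 2 ^ (sN b) * gg x (b - sN b) ≤ 2 * gg x b := by
          have h14 : 2 ^ (sN b) * (1 / 2) * gg x (b - sN b) ≤ gg x b := by
            refine le_trans ?_ h4
            gcongr
            linarith
          linarith
        calc 2 * ((M b : ℝ) * (18 * rho (QN (α b) b) + 12 * ∑ m ∈ DN (α b) b, 1 / (m : ℝ))) *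
              2 ^ (sN b) * gg x (b - sN b)
            ≤ 2 * ((M b : ℝ) * (C1 / sN b)) * 2 ^ (sN b) * gg x (b - sN b) := by gcongr
          _ = 2 * ((M b : ℝ) * (C1 / sN b)) * (2 ^ (sN b) * gg x (b - sN b)) := by ring
          _ ≤ 2 * ((M b : ℝ) * (C1 / sN b)) * (2 * gg x b) := by gcongr
          _ = 4 * C1 * M b / sN b * gg x b := by ring
      · rw [if_neg hTb, if_neg (show ¬ Act b from hTb)]
        simp
    · apply sum_le_sum
      intro e he
      rw [mem_Fe _ _ _ _ hs2] at he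
      obtain ⟨heT, heb⟩ := he
      have heT' : T ≤ e := heT
      obtain ⟨o1, o2, o3, o4⟩ := hok e heT'
      obtain ⟨f1, f2, f3, f4, f5, f6⟩ := hT e heT'
      obtain ⟨r1, r2, r3, r4, r5, r6, r7, r8⟩ := rel e (by omega) f1 f2
      obtain ⟨t, ht⟩ : ∃ t, t = tN (α e) e := ⟨_, rfl⟩
      rw [← ht]
      rw [← ht] at o2 o4
      have hη1 := eta_bound C B hC0 hC hB1 hB2 (α e) e (by omega) f1 f2 (hα e heT').1 (hα e heT').2
        f3 f5 (M e) (hMe e heT')
      rw [← ht] at hη1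
      -- the window
      have h4 := gg_exp x hx0 hx1 (b - t) t
      have h5 : b - t + t = b := by omega
      rw [h5] at h4
      have h6 := sum_xx T hT100 hs2 C1 (by linarith) M η hM (b - t) b (by omega) (by omega) (by omega)
      have h7 : ((b : ℝ) - ((b - t : ℕ) : ℝ)) = t := by
        rw [Nat.cast_sub (by omega)]
        ring
      rw [h7] at h6
      have hbr : (50 : ℝ) ≤ b := by exact_mod_cast (by omega : 50 ≤ b)
      have hsb : 0 < √(b : ℝ) := Real.sqrt_pos.2 (by linarith)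
      have hse : (sN e : ℝ) ≤ 2 * √(b : ℝ) := by
        have h8 : (sN e : ℝ) ≤ √(e : ℝ) := Real.nat_sqrt_le_real_sqrt
        have h9 : √(e : ℝ) ≤ 2 * √(b : ℝ) := by
          rw [Real.sqrt_le_left (by positivity), mul_pow, Real.sq_sqrt (by positivity)]
          have : (e : ℝ) ≤ 4 * b := by exact_mod_cast (by omega : e ≤ 4 * b)
          linarith
        exact h8.trans h9
      have htb : (t : ℝ) / √(b : ℝ) ≤ 16 * (wN e * α e * ((lN e : ℝ) + 1)) := by
        rw [div_le_iff₀ hsb, ht]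
        unfold tN rN
        push_cast
        calc 4 * (2 * (wN e : ℝ)) * sN e * α e * ((lN e : ℝ) + 1)
            = 8 * (wN e * α e * ((lN e : ℝ) + 1)) * sN e := by ring
          _ ≤ 8 * (wN e * α e * ((lN e : ℝ) + 1)) * (2 * √(b : ℝ)) := by gcongr
          _ = 16 * (wN e * α e * ((lN e : ℝ) + 1)) * √(b : ℝ) := by ring
      have hηb0 := (hη b).1
      have hηb1 := (hη b).2
      have hηab := hηα e b heT' (by omega) (by omega)
      have hsum : 2 * ∑ k ∈ Ioc (b - t) b, x k ≤ wN e * ((lN e / 8 : ℕ) : ℝ) * Real.log 2 := by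
        have e1 : 8 * C1 * η b * ((t : ℝ) / √(b : ℝ) + 1) ≤
            (wN e : ℝ) * ((lN e : ℝ) + 1) / 64 + 1 := by
          calc 8 * C1 * η b * ((t : ℝ) / √(b : ℝ) + 1)
              ≤ 8 * C1 * η b * (16 * (wN e * α e * ((lN e : ℝ) + 1)) + 1) := by gcongr
            _ = 128 * C1 * (η b * α e) * (wN e * ((lN e : ℝ) + 1)) + 8 * C1 * η b := by ring
            _ ≤ 128 * C1 * η0 * (wN e * ((lN e : ℝ) + 1)) + 8 * C1 * η0 := by gcongr
            _ = 128 * (C1 * η0) * (wN e * ((lN e : ℝ) + 1)) + 8 * (C1 * η0) := by ring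
            _ ≤ (wN e : ℝ) * ((lN e : ℝ) + 1) / 64 + 1 := by
              rw [hCη]
              nlinarith
        have e2 : ((lN e : ℝ) - 7) / 8 ≤ ((lN e / 8 : ℕ) : ℝ) := by
          have : lN e ≤ 8 * (lN e / 8) + 7 := by omega
          have h8 : (lN e : ℝ) ≤ 8 * ((lN e / 8 : ℕ) : ℝ) + 7 := by exact_mod_cast this
          linarith
        have e3 : (64 : ℝ) ≤ lN e := by exact_mod_cast f1
        have e4 : (64 : ℝ) ≤ wN e := by exact_mod_cast r7
        have e5 : (1 : ℝ) / 2 ≤ Real.log 2 := by linarith [Real.log_two_gt_d9]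
        have e6 : (wN e : ℝ) * (((lN e : ℝ) - 7) / 8) * (1 / 2) ≤
            wN e * ((lN e / 8 : ℕ) : ℝ) * Real.log 2 := by gcongr
        have e7 : 2 * ((wN e : ℝ) * ((lN e : ℝ) + 1) / 64 + 1 + 1 / 50) ≤
            (wN e : ℝ) * (((lN e : ℝ) - 7) / 8) * (1 / 2) := by nlinarith
        linarith
      have hexp : Real.exp (2 * ∑ k ∈ Ioc (b - t) b, x k) ≤ 2 ^ (wN e * (lN e / 8)) := by
        calc Real.exp (2 * ∑ k ∈ Ioc (b - t) b, x k)
            ≤ Real.exp (((wN e * (lN e / 8) : ℕ) : ℝ) * Real.log 2) := by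
              apply Real.exp_le_exp.2
              push_cast
              exact hsum
          _ = 2 ^ (wN e * (lN e / 8)) := by
            rw [Real.exp_nat_mul, Real.exp_log (by norm_num)]
      have hga := gg_pos x hx1 (b - t)
      have h13 : 2 ^ t * gg x (b - t) ≤ 2 ^ (wN e * (lN e / 8)) * gg x b := by
        calc 2 ^ t * gg x (b - t) = Real.exp (2 * ∑ k ∈ Ioc (b - t) b, x k) *
              (2 ^ t * Real.exp (-(2 * ∑ k ∈ Ioc (b - t) b, x k)) * gg x (b - t)) := by
              rw [Real.exp_neg]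
              field_simp
          _ ≤ 2 ^ (wN e * (lN e / 8)) * gg x b := by
              gcongr
      have hηn : 0 ≤ eta (QN (α e) e) (sN e) t (M e) (rN e) (KN e) := by
        have hK1 : 1 ≤ KN e := by
          unfold KN
          exact one_le_pow₀ (by norm_num)
        have := Bd_nonneg (QN (α e) e) (QN_prime _ _) (sN e) t (rN e) (KN e) hK1
        unfold eta
        positivity
      calc 2 * eta (QN (α e) e) (sN e) t (M e) (rN e) (KN e) * 2 ^ t * gg x (b - t)
          = 2 * eta (QN (α e) e) (sN e) t (M e) (rN e) (KN e) * (2 ^ t * gg x (b - t)) := by ring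
        _ ≤ 2 * eta (QN (α e) e) (sN e) t (M e) (rN e) (KN e) *
            (2 ^ (wN e * (lN e / 8)) * gg x b) := by gcongr
        _ = 2 * eta (QN (α e) e) (sN e) t (M e) (rN e) (KN e) * 2 ^ (wN e * (lN e / 8)) * gg x b := by
            ring
        _ ≤ 1 / (e : ℝ) ^ 2 * gg x b := by gcongr
  · -- growth
    intro n
    have h1 := gg_exp x hx0 hx1 0 n
    rw [zero_add] at h1
    have h2 : gg x 0 = 1 := rfl
    rw [h2, mul_one] at h1
    refine le_trans ?_ h1
    have h3 : (2 : ℝ) ^ (d * n) = 2 ^ n * Real.exp (-((1 - d) * n * Real.log 2)) := by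
      have e1 : (2 : ℝ) ^ n = Real.exp (n * Real.log 2) := by
        rw [Real.exp_nat_mul, Real.exp_log (by norm_num)]
      rw [e1, ← Real.exp_add, Real.rpow_def_of_pos (by norm_num)]
      congr 1
      ring
    rw [h3]
    apply mul_le_mul_of_nonneg_left _ (by positivity)
    apply Real.exp_le_exp.2
    apply neg_le_neg
    have hlog2 : (1 : ℝ) / 2 ≤ Real.log 2 := by linarith [Real.log_two_gt_d9]
    rcases Nat.lt_or_ge (2 * n) T with h | h
    · have h4 : ∑ k ∈ Ioc 0 n, x k = 0 := by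
        apply sum_eq_zero
        intro k hk
        rw [mem_Ioc] at hk
        exact hxz k (by omega)
      rw [h4, mul_zero]
      positivity
    · have hsT : 1 / (1 - d) ≤ sN T := by
        obtain ⟨f1, f2, f3, f4, f5, f6⟩ := hT T le_rfl
        obtain ⟨r1, -⟩ := rel T (by omega) f1 f2
        have e1 : (wN T : ℝ) ≤ sN T := by
          have : wN T ≤ sN T := Nat.sqrt_le_self _
          exact_mod_cast this
        exact (hBd.trans f6).trans e1
      have hsT10 : (10 : ℝ) ≤ sN T := by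
        obtain ⟨f1, f2, f3, f4, f5, f6⟩ := hT T le_rfl
        obtain ⟨-, -, -, -, -, -, -, r8⟩ := rel T (by omega) f1 f2
        exact_mod_cast r8
      have h4 : ∑ k ∈ Ioc 0 n, x k ≤ 8 * C1 * η0 * (n / sN T) + 2 / (T : ℝ) := by
        rw [hx]
        unfold xx
        rw [sum_add_distrib]
        refine add_le_add ?_ (fe_sum T (by omega) sN hs2 0 n)
        calc ∑ k ∈ Ioc 0 n, (if T ≤ k then 4 * C1 * M k / sN k else 0)
            ≤ ∑ k ∈ Ioc 0 n, (4 * C1 / sN T) * M k := by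
              apply sum_le_sum
              intro k hk
              split_ifs with h5
              · have h6 : (sN T : ℝ) ≤ sN k := by
                  have : sN T ≤ sN k := Nat.sqrt_le_sqrt h5
                  exact_mod_cast this
                rw [div_mul_eq_mul_div]
                apply div_le_div_of_nonneg_left (by positivity) (by linarith) h6
              · positivity
          _ = (4 * C1 / sN T) * ∑ k ∈ Ioc 0 n, (M k : ℝ) := by rw [mul_sum]
          _ ≤ (4 * C1 / sN T) * (η n * (((n : ℝ) - ((0 : ℕ) : ℝ)) + √(n : ℝ))) := by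
              apply mul_le_mul_of_nonneg_left (hM 0 n (by omega)) (by positivity)
          _ ≤ (4 * C1 / sN T) * (η0 * (n + n)) := by
              have h6 : √(n : ℝ) ≤ n := by
                rw [Real.sqrt_le_left (by positivity)]
                have : (1 : ℝ) ≤ n := by exact_mod_cast (by omega : 1 ≤ n)
                nlinarith
              have h7 := (hη n).1
              have h8 := (hη n).2
              have h9 : ((n : ℝ) - ((0 : ℕ) : ℝ)) + √(n : ℝ) ≤ n + n := by
                simp only [Nat.cast_zero, sub_zero]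
                linarith
              have h10 : 0 ≤ ((n : ℝ) - ((0 : ℕ) : ℝ)) + √(n : ℝ) := by
                simp only [Nat.cast_zero, sub_zero]
                positivity
              have h11 : η n * (((n : ℝ) - ((0 : ℕ) : ℝ)) + √(n : ℝ)) ≤ η0 * (n + n) :=
                mul_le_mul h8 h9 h10 hη0p.le
              exact mul_le_mul_of_nonneg_left h11 (by positivity)
          _ = 8 * C1 * η0 * (n / sN T) := by ring
      have h5 : 8 * C1 * η0 = 1 / 1024 := by
        calc 8 * C1 * η0 = 8 * (C1 * η0) := by ring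
          _ = 1 / 1024 := by rw [hCη]; norm_num
      rw [h5] at h4
      have hnr : (T : ℝ) ≤ 2 * n := by exact_mod_cast h
      have hTs : (sN T : ℝ) * sN T ≤ T := by exact_mod_cast Nat.sqrt_le T
      have h6 : 1 / (sN T : ℝ) ≤ 1 - d := by
        rw [div_le_iff₀ (by linarith)]
        rw [div_le_iff₀ hd1'] at hsT
        linarith
      have h7 : 2 / (T : ℝ) ≤ (n : ℝ) * (1 / sN T) / 25 := by
        -- 2 / T ≤ n * (4 / T^2) ≤ n * 4 / (s T)^...
        have e1 : 2 / (T : ℝ) ≤ 4 * n / (T : ℝ) ^ 2 := by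
          rw [div_le_div_iff₀ (by linarith) (by positivity)]
          nlinarith
        have e2 : 4 * (n : ℝ) / (T : ℝ) ^ 2 ≤ (n : ℝ) * (1 / sN T) / 25 := by
          have hn0 : (0 : ℝ) ≤ n := by positivity
          rw [mul_one_div, div_div, div_le_div_iff₀ (by positivity) (by positivity)]
          have e3 : 100 * (sN T : ℝ) ≤ (T : ℝ) ^ 2 := by nlinarith
          nlinarith
        linarith
      have h8 : (n : ℝ) / sN T = n * (1 / sN T) := by ring
      rw [h8] at h4
      have hn0 : (0 : ℝ) ≤ n := by positivity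
      have h9 : (n : ℝ) * (1 / sN T) ≤ n * (1 - d) := by gcongr
      have h10 : (1 - d) * n * (1 / 2) ≤ (1 - d) * n * Real.log 2 := by gcongr
      nlinarith

end Pool.Agent.H541.RP
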