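import Mathlib
import Pool.Graph.R_seed8.Helper112.LS

/-!
# Reversed primes: definitions (helper541)
-/

set_option autoImplicit false

namespace Pool.Agent.H541.RP

/-- the number whose `L` base-`b` digits are the `L` lowest digits of `n` in reverse order -/
def rv (b : ℕ) : ℕ → ℕ → ℕ
  | 0, _ => 0
  | (L + 1), n => (n % b) * b ^ L + rv b L (n / b)

/-- distance to the nearest integer -/
noncomputable def dist1 (x : ℝ) : ℝ := |x - round x|

/-- weight `r` at the points at distance at least `1 / (2 B)` from the integers, else `1` -/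
noncomputable def wt (r : ℝ) (B : ℕ) (x : ℝ) : ℝ := if 1 / (2 * (B : ℝ)) ≤ dist1 x then r else 1

/-- product of the weights along `x, B x, …, B ^ (n - 1) x` -/
noncomputable def AA (r : ℝ) (B n : ℕ) (x : ℝ) : ℝ :=
  ∏ i ∈ Finset.range n, wt r B ((B : ℝ) ^ i * x)

end Pool.Agent.H541.RP
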