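import Pool.Agent.H541.RP.Stm
import Pool.Graph.R_seed8.H316R2.LS
import Pool.Graph.R_seed8.H623R3.PBT8

/-!
# Reversed primes: lowest terms (helper541)
-/

set_option autoImplicit false

namespace Pool.Agent.H541.RP

open Finset Filter Topology Pool.Agent.Helper112
open Pool.Agent.H623R3.PBT8 (group)

lemma dist1_add_int (x : ℝ) (k : ℤ) : dist1 (x + k) = dist1 x := by
  unfold dist1
  rw [round_add_intCast]
  push_cast
  congr 1
  ring

lemma wt_add_int (r : ℝ) (B : ℕ) (x : ℝ) (k : ℤ) : wt r B (x + k) = wt r B x := by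
  unfold wt
  rw [dist1_add_int]

lemma AA_add_int (r : ℝ) (B n : ℕ) (x : ℝ) (k : ℤ) : AA r B n (x + k) = AA r B n x := by
  unfold AA
  refine prod_congr rfl fun i _ => ?_
  have : (B : ℝ) ^ i * (x + k) = (B : ℝ) ^ i * x + (((B : ℤ) ^ i * k : ℤ) : ℝ) := by
    push_cast
    ring
  rw [this, wt_add_int]

lemma wt_nonneg {r : ℝ} (hr : 0 < r) (B : ℕ) (x : ℝ) : 0 ≤ wt r B x := by
  unfold wt
  split_ifs <;> linarith

lemma wt_le_one {r : ℝ} (hr : r ≤ 1) (B : ℕ) (x : ℝ) : wt r B x ≤ 1 := by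
  unfold wt
  split_ifs <;> linarith

lemma AA_nonneg {r : ℝ} (hr : 0 < r) (B n : ℕ) (x : ℝ) : 0 ≤ AA r B n x :=
  prod_nonneg fun _ _ => wt_nonneg hr _ _

/-- a multiplier prime to `d` permutes the reduced residues -/
lemma perm {f : ℝ → ℝ} (hf : ∀ (x : ℝ) (k : ℤ), f (x + k) = f x) {d u : ℕ} (hd : 0 < d) (hu : u.Coprime d) :
    ∑ a ∈ (range d).filter (fun a => a.Coprime d), f ((u : ℝ) * ((a : ℝ) / d)) =
      ∑ a ∈ (range d).filter (fun a => a.Coprime d), f ((a : ℝ) / d) := by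
  have hdR : (d : ℝ) ≠ 0 := by exact_mod_cast hd.ne'
  have hmaps : ∀ a ∈ (range d).filter (fun a => a.Coprime d), u * a % d ∈ (range d).filter (fun a => a.Coprime d) := by
    intro a ha
    rw [mem_filter, mem_range] at ha ⊢
    refine ⟨Nat.mod_lt _ hd, ?_⟩
    have h1 : (u * a).Coprime d := hu.mul_left ha.2
    unfold Nat.Coprime
    rw [← Nat.gcd_rec]
    exact h1.symm
  have hinj : Set.InjOn (fun a => u * a % d) ((range d).filter (fun a => a.Coprime d) : Finset ℕ) := by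
    intro a ha a' ha' h
    rw [mem_coe, mem_filter, mem_range] at ha ha'
    have h1 : u * a ≡ u * a' [MOD d] := h
    have h2 : a ≡ a' [MOD d] := Nat.ModEq.cancel_left_of_coprime (by rw [Nat.gcd_comm]; exact hu) h1
    exact Nat.ModEq.eq_of_lt_of_lt h2 ha.1 ha'.1
  have himg : ((range d).filter (fun a => a.Coprime d)).image (fun a => u * a % d) =
      (range d).filter (fun a => a.Coprime d) := by
    apply eq_of_subset_of_card_le
    · intro y hy
      rw [mem_image] at hy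
      obtain ⟨a, ha, rfl⟩ := hy
      exact hmaps a ha
    · rw [card_image_of_injOn hinj]
  conv_rhs => rw [← himg]
  rw [sum_image hinj]
  refine sum_congr rfl fun a _ => ?_
  have h1 : u * a = d * (u * a / d) + u * a % d := (Nat.div_add_mod _ _).symm
  have h2 : (u : ℝ) * ((a : ℝ) / d) = ((u * a % d : ℕ) : ℝ) / d + (((u * a / d : ℕ) : ℤ) : ℝ) := by
    have h3 : (u : ℝ) * a = d * ((u * a / d : ℕ) : ℝ) + ((u * a % d : ℕ) : ℝ) := by exact_mod_cast h1
    rw [← mul_div_assoc, h3, Int.cast_natCast, add_div, mul_div_cancel_left₀ _ hdR, add_comm]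
  rw [h2, hf]

/-- the sum over the reduced fractions with denominator `d` -/
noncomputable def UU (r : ℝ) (B n d : ℕ) : ℝ :=
  ∑ h ∈ (range d).filter (fun h => h.Coprime d), AA r B n ((h : ℝ) / d)

lemma UU_nonneg {r : ℝ} (hr : 0 < r) (B n d : ℕ) : 0 ≤ UU r B n d :=
  sum_nonneg fun _ _ => AA_nonneg hr _ _ _

/-- lowest terms -/
lemma lowest {b : ℕ} (hb : 2 ≤ b) {r : ℝ} (B n : ℕ) {l : ℕ} (hl : 0 < l) (hc : l.Coprime (b ^ 3 - b)) :
    ∑ h ∈ Ico 1 l, AA r B n (((b : ℝ) ^ 2 - 1) * ((h : ℝ) / l)) =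
      ∑ d ∈ l.divisors.filter (fun d => 1 < d), UU r B n d := by
  have hb2 : ((b ^ 2 - 1 : ℕ) : ℝ) = (b : ℝ) ^ 2 - 1 := by
    have : 1 ≤ b ^ 2 := Nat.one_le_pow _ _ (by omega)
    push_cast [Nat.cast_sub this]
    ring
  obtain ⟨f, hf⟩ : ∃ f : ℝ → ℝ, f = fun x => AA r B n (((b : ℝ) ^ 2 - 1) * x) := ⟨_, rfl⟩
  have hfp : ∀ (x : ℝ) (k : ℤ), f (x + k) = f x := by
    intro x k
    rw [hf]
    simp only
    have : ((b : ℝ) ^ 2 - 1) * (x + k) = ((b : ℝ) ^ 2 - 1) * x + ((((b : ℤ) ^ 2 - 1) * k : ℤ) : ℝ) := by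
      push_cast
      ring
    rw [this, AA_add_int]
  have h1 := group hl f
  have h2 : ∑ a ∈ range l, f ((a : ℝ) / l) = f 0 + ∑ h ∈ Ico 1 l, f ((h : ℝ) / l) := by
    rw [range_eq_Ico, ← sum_Ioo_add_eq_sum_Ico hl]
    have : Ioo 0 l = Ico 1 l := by
      ext x
      simp only [mem_Ioo, mem_Ico]
      omega
    rw [this]
    simp [add_comm]
  have h10 : (1 : ℕ) ∈ l.divisors := Nat.one_mem_divisors.2 hl.ne'
  rw [← Finset.add_sum_erase _ _ h10, h2] at h1
  have h11 : ∑ a ∈ (range 1).filter (fun a => a.Coprime 1), f ((a : ℝ) / (1 : ℕ)) = f 0 := by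
    simp
  rw [h11] at h1
  have h9 : l.divisors.filter (fun d => 1 < d) = l.divisors.erase 1 := by
    ext d
    rw [mem_filter, mem_erase, Nat.mem_divisors]
    constructor
    · rintro ⟨h1, h2⟩
      exact ⟨by omega, h1⟩
    · rintro ⟨h1, h2⟩
      refine ⟨h2, ?_⟩
      have := Nat.pos_of_dvd_of_pos h2.1 hl
      omega
  have h3 : ∑ h ∈ Ico 1 l, f ((h : ℝ) / l) = ∑ d ∈ l.divisors.erase 1,
      ∑ a ∈ (range d).filter (fun a => a.Coprime d), f ((a : ℝ) / d) := by linarith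
  rw [h9]
  have h4 : ∑ h ∈ Ico 1 l, AA r B n (((b : ℝ) ^ 2 - 1) * ((h : ℝ) / l)) = ∑ h ∈ Ico 1 l, f ((h : ℝ) / l) := by
    rw [hf]
  rw [h4, h3]
  refine sum_congr rfl fun d hd => ?_
  rw [mem_erase, Nat.mem_divisors] at hd
  have hd0 : 0 < d := Nat.pos_of_dvd_of_pos hd.2.1 hl
  have hcd : (b ^ 2 - 1).Coprime d := by
    have h5 : (b ^ 2 - 1) ∣ (b ^ 3 - b) := ⟨b, by
      rw [Nat.sub_mul, one_mul]
      ring_nf⟩
    exact (Nat.Coprime.coprime_dvd_left hd.2.1 (Nat.Coprime.coprime_dvd_right h5 hc)).symm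
  have h6 := perm (f := AA r B n) (fun x k => AA_add_int r B n x k) hd0 hcd
  unfold UU
  rw [← h6, hf]
  refine sum_congr rfl fun a _ => ?_
  rw [hb2]

/-- the double sum over multiples -/
lemma double' (P : ℕ → Prop) [DecidablePred P] (hP : ∀ d l : ℕ, d ∣ l → P l → P d) (U : ℕ → ℝ)
    (hU : ∀ d, 0 ≤ U d) (D : ℕ) :
    ∑ q ∈ (Icc 1 D).filter P, (q.divisors.card : ℝ) ^ 2 / q * ∑ d ∈ q.divisors.filter (fun d => 1 < d), U d ≤
    (∑ d ∈ (Icc 2 D).filter P, (d.divisors.card : ℝ) ^ 2 / d * U d) *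
        ∑ e ∈ Icc 1 D, (e.divisors.card : ℝ) ^ 2 / e := by
  have h1 : ∀ q ∈ (Icc 1 D).filter P,
      (q.divisors.card : ℝ) ^ 2 / q * ∑ d ∈ q.divisors.filter (fun d => 1 < d), U d ≤
      ∑ d ∈ q.divisors.filter (fun d => 1 < d), (((d.divisors.card : ℝ) ^ 2 / d * U d) *
        (((q / d).divisors.card : ℝ) ^ 2 / ((q / d : ℕ) : ℝ))) := by
    intro q hq
    rw [mem_filter, mem_Icc] at hq
    have hq0 : 0 < q := hq.1.1
    rw [mul_sum]
    refine sum_le_sum fun d hd => ?_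
    rw [mem_filter, Nat.mem_divisors] at hd
    obtain ⟨⟨⟨e, he⟩, _⟩, hd1⟩ := hd
    have hd0 : 0 < d := by omega
    have he0 : 0 < e := by
      rcases Nat.eq_zero_or_pos e with h0 | h0
      · subst h0; simp at he; omega
      · exact h0
    have hqd : q / d = e := by rw [he, Nat.mul_div_cancel_left _ hd0]
    rw [hqd, he]
    have hd' : (0 : ℝ) < d := by exact_mod_cast hd0
    have he' : (0 : ℝ) < e := by exact_mod_cast he0
    have ht : ((d * e).divisors.card : ℝ) ≤ (d.divisors.card : ℝ) * e.divisors.card := by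
      exact_mod_cast Pool.Agent.H316R2.tau_mul_le d e
    have ht2 : ((d * e).divisors.card : ℝ) ^ 2 ≤
        ((d.divisors.card : ℝ) * e.divisors.card) ^ 2 := by gcongr
    have hUd := hU d
    push_cast
    calc ((d * e).divisors.card : ℝ) ^ 2 / (d * e) * U d
        ≤ ((d.divisors.card : ℝ) * e.divisors.card) ^ 2 / (d * e) * U d := by
          gcongr
      _ = _ := by
          field_simp
  refine (sum_le_sum h1).trans ?_
  rw [sum_sigma', sum_mul_sum]
  rw [sum_sigma' (s := (Icc 2 D).filter P) (t := fun _ => Icc 1 D)]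
  set g : (_ : ℕ) × ℕ → (_ : ℕ) × ℕ := fun x => ⟨x.2, x.1 / x.2⟩ with hg
  set F : (_ : ℕ) × ℕ → ℝ := fun x => (((x.1.divisors.card : ℝ) ^ 2 / x.1 * U x.1) *
        ((x.2.divisors.card : ℝ) ^ 2 / (x.2 : ℝ))) with hF
  have hinj : Set.InjOn g (((Icc 1 D).filter P).sigma
      (fun q => q.divisors.filter (fun d => 1 < d)) : Finset ((_ : ℕ) × ℕ)) := by
    rintro ⟨q, d⟩ hx ⟨q', d'⟩ hx' hxx
    rw [Finset.mem_coe, mem_sigma, mem_filter, mem_filter, Nat.mem_divisors] at hx hx'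
    simp only [hg, Sigma.mk.injEq, heq_eq_eq] at hxx
    obtain ⟨h1, h2⟩ := hxx
    simp only at hx hx'
    subst h1
    have h3 : q = q' := by
      rw [← Nat.div_mul_cancel hx.2.1.1, h2, Nat.div_mul_cancel hx'.2.1.1]
    subst h3
    rfl
  have hsum : ∑ x ∈ ((Icc 1 D).filter P).sigma
      (fun q => q.divisors.filter (fun d => 1 < d)), F (g x) =
      ∑ y ∈ (((Icc 1 D).filter P).sigma
      (fun q => q.divisors.filter (fun d => 1 < d))).image g, F y := by
    rw [sum_image hinj]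
  have hgoal : ∑ x ∈ ((Icc 1 D).filter P).sigma
      (fun q => q.divisors.filter (fun d => 1 < d)), F (g x) ≤
      ∑ y ∈ ((Icc 2 D).filter P).sigma (fun _ => Icc 1 D), F y := by
    rw [hsum]
    refine sum_le_sum_of_subset_of_nonneg ?_ ?_
    · intro y hy
      rw [mem_image] at hy
      obtain ⟨⟨q, d⟩, hx, rfl⟩ := hy
      rw [mem_sigma, mem_filter, mem_filter, Nat.mem_divisors, mem_Icc] at hx
      simp only at hx
      obtain ⟨⟨⟨hq1, hqD⟩, hqc⟩, ⟨hdq, _⟩, hd1⟩ := hx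
      rw [mem_sigma, mem_filter, mem_Icc, mem_Icc]
      simp only [hg]
      have h5 : d ≤ q := Nat.le_of_dvd hq1 hdq
      refine ⟨⟨⟨by omega, by omega⟩, hP d q hdq hqc⟩, ?_, ?_⟩
      · exact Nat.div_pos h5 (by omega)
      · exact (Nat.div_le_self q d).trans hqD
    · intro y _ _
      simp only [hF]
      have := hU y.1
      positivity
  exact hgoal

end Pool.Agent.H541.RP
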