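import Mathlib

set_option autoImplicit false

/-!
Elementary inequalities between the parameters.
-/

namespace Pool.Agent.H541.RP

open Filter

lemma log_pow_le (a b : ℝ) (k : ℕ) : ∀ᶠ w : ℕ in atTop, (a * Real.log ((w : ℝ) + 1) + b) ^ k ≤ w := by
  have h1 : Tendsto (fun w : ℕ => (w : ℝ) + 1) atTop atTop :=
    tendsto_atTop_add_const_right _ _ tendsto_natCast_atTop_atTop
  have h2 : (fun x : ℝ => (a * Real.log x + b) ^ k) =o[atTop] (fun x : ℝ => x) := by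
    have h3 : (fun x : ℝ => (a * Real.log x + b)) =O[atTop] (fun x : ℝ => Real.log x) := by
      apply Asymptotics.IsBigO.add
      · exact (Asymptotics.isBigO_refl _ _).const_mul_left a
      · apply Asymptotics.IsLittleO.isBigO
        exact Asymptotics.isLittleO_const_left.2 (Or.inr (tendsto_norm_atTop_atTop.comp Real.tendsto_log_atTop))
    have h4 := h3.pow k
    exact h4.trans_isLittleO (Real.isLittleO_pow_log_id_atTop)
  have h5 := (h2.comp_tendsto h1).bound (by norm_num : (0 : ℝ) < 1 / 2)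
  filter_upwards [h5, eventually_ge_atTop 1] with w hw hw1
  simp only [Function.comp] at hw
  rw [Real.norm_eq_abs, Real.norm_eq_abs, abs_of_nonneg (by positivity : (0 : ℝ) ≤ (w : ℝ) + 1)] at hw
  have h6 := (le_abs_self _).trans hw
  have h7 : (1 : ℝ) ≤ w := by exact_mod_cast hw1
  linarith

lemma poly_le_exp (A : ℝ) (k : ℕ) (q : ℝ) (hq : 1 < q) :
    ∀ᶠ w : ℕ in atTop, A * ((w : ℝ) + 1) ^ k ≤ q ^ w := by
  have h1 : Tendsto (fun n : ℕ => (n : ℝ) ^ k / q ^ n) atTop (nhds 0) :=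
    tendsto_pow_const_div_const_pow_of_one_lt k hq
  have h2 := (tendsto_add_atTop_iff_nat 1).2 h1
  have h3 : ∀ᶠ w : ℕ in atTop, ((w + 1 : ℕ) : ℝ) ^ k / q ^ (w + 1) < 1 / ((|A| + 1) * q) := by
    apply h2.eventually_lt_const
    positivity
  filter_upwards [h3] with w hw
  have hq0 : 0 < q := by linarith
  rw [div_lt_div_iff₀ (by positivity) (by positivity)] at hw
  push_cast at hw
  rw [pow_succ q w] at hw
  have h4 : ((w : ℝ) + 1) ^ k * (|A| + 1) < q ^ w := by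
    have : ((w : ℝ) + 1) ^ k * (|A| + 1) * q < q ^ w * q := by linarith
    exact lt_of_mul_lt_mul_right this hq0.le
  have h5 : 0 ≤ ((w : ℝ) + 1) ^ k := by positivity
  have h6 := le_abs_self A
  nlinarith

/-- the elementary facts -/
lemma facts (C : ℝ) : ∃ T : ℕ, 200 ≤ T ∧ ∀ n ≥ T,
    64 ≤ Nat.log 2 n ∧ 64 * (Nat.log 2 n + 1) ^ 2 ≤ Nat.sqrt (Nat.sqrt n) ∧
    C * ((Nat.sqrt (Nat.sqrt n) : ℝ) + 1) ^ 24 ≤ 2 ^ (Nat.sqrt (Nat.sqrt n)) ∧
    C * ((Nat.sqrt (Nat.sqrt n) : ℝ) + 1) ^ 24 ≤ (3 / 2) ^ (Nat.sqrt (Nat.sqrt n)) ∧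
    (C * Real.log ((Nat.sqrt (Nat.sqrt n) : ℝ) + 1) + C) ^ 4 ≤ Nat.sqrt (Nat.sqrt n) ∧
    C ≤ Nat.sqrt (Nat.sqrt n) := by
  have hw : Tendsto (fun n : ℕ => Nat.sqrt (Nat.sqrt n)) atTop atTop := by
    apply tendsto_atTop.2
    intro b
    filter_upwards [eventually_ge_atTop ((b * b) * (b * b))] with n hn
    rw [Nat.le_sqrt, Nat.le_sqrt]
    exact hn
  have hl : Tendsto (fun n : ℕ => Nat.log 2 n) atTop atTop := by
    apply tendsto_atTop.2
    intro b
    filter_upwards [eventually_ge_atTop (2 ^ b)] with n hn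
    exact Nat.le_log_of_pow_le (by norm_num) hn
  have h1 := hl.eventually_ge_atTop 64
  have h2 := hw.eventually (log_pow_le 64 8 2)
  have h3 := hw.eventually (poly_le_exp C 24 2 (by norm_num))
  have h4 := hw.eventually (poly_le_exp C 24 (3 / 2) (by norm_num))
  have h5 := hw.eventually (log_pow_le C C 4)
  have h6 := hw.eventually ((tendsto_natCast_atTop_atTop (R := ℝ)).eventually_ge_atTop C)
  obtain ⟨T, hT⟩ := eventually_atTop.1 (h1.and (h2.and (h3.and (h4.and (h5.and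
    (h6.and (eventually_ge_atTop 100)))))))
  refine ⟨max T 200, le_max_right _ _, fun n hn => ?_⟩
  obtain ⟨a1, a2, a3, a4, a5, a6, a7⟩ := hT n ((le_max_left _ _).trans hn)
  refine ⟨a1, ?_, a3, a4, a5, a6⟩
  -- `2 ^ l ≤ n < (w + 1) ^ 4`
  set w := Nat.sqrt (Nat.sqrt n) with hwd
  set l := Nat.log 2 n with hld
  have hn0 : n ≠ 0 := by omega
  have e1 : 2 ^ l ≤ n := Nat.pow_log_le_self 2 hn0
  have e2 : Nat.sqrt n < (w + 1) * (w + 1) := Nat.sqrt_lt.1 (Nat.lt_succ_self _)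
  have e3 : n < (Nat.sqrt n + 1) * (Nat.sqrt n + 1) := Nat.sqrt_lt.1 (Nat.lt_succ_self _)
  have e4 : n < (w + 1) ^ 4 := by
    have : Nat.sqrt n + 1 ≤ (w + 1) * (w + 1) := e2
    calc n < (Nat.sqrt n + 1) * (Nat.sqrt n + 1) := e3
      _ ≤ ((w + 1) * (w + 1)) * ((w + 1) * (w + 1)) := Nat.mul_le_mul this this
      _ = (w + 1) ^ 4 := by ring
  have e5 : (2 : ℝ) ^ l ≤ ((w : ℝ) + 1) ^ 4 := by
    have : 2 ^ l ≤ (w + 1) ^ 4 := by omega
    exact_mod_cast this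
  have e6 : (l : ℝ) * Real.log 2 ≤ 4 * Real.log ((w : ℝ) + 1) := by
    have := Real.log_le_log (by positivity) e5
    rwa [Real.log_pow, Real.log_pow] at this
  have e7 : (1 : ℝ) / 2 ≤ Real.log 2 := by linarith [Real.log_two_gt_d9]
  have e8 : (l : ℝ) ≤ 8 * Real.log ((w : ℝ) + 1) := by
    have : (l : ℝ) * (1 / 2) ≤ l * Real.log 2 := by gcongr
    linarith
  have e9 : (8 * ((l : ℝ) + 1)) ^ 2 ≤ w := by
    refine le_trans ?_ a2
    have h0 : (0 : ℝ) ≤ 8 * ((l : ℝ) + 1) := by positivity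
    apply pow_le_pow_left₀ h0
    linarith
  have e10 : ((64 * (l + 1) ^ 2 : ℕ) : ℝ) ≤ (w : ℝ) := by
    push_cast
    refine le_trans (le_of_eq ?_) e9
    ring
  exact_mod_cast e10

end Pool.Agent.H541.RP
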