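import Pool.Agent.H541.RP.Core3
import Pool.Graph.R_seed8.H617R3.BT.Sieve

set_option autoImplicit false

/-!
Countably many families of exponential sequences at prime indices: counting.
-/

namespace Pool.Agent.H541.RP

open Finset Filter Topology

/-- the number of primes with `2 ^ a < μ L ^ p ≤ 2 ^ b` -/
lemma cnt_bound (μ L : ℝ) (hμ : 0 < μ) (hL : 1 < L) : ∃ D : ℝ, 0 < D ∧ ∃ b0 : ℕ, 2 ≤ b0 ∧
    ∀ a b : ℕ, a ≤ b → b0 ≤ b → ∀ F : Finset ℕ,
    (∀ p ∈ F, p.Prime ∧ (2 : ℝ) ^ a < μ * L ^ p ∧ μ * L ^ p ≤ 2 ^ b) →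
    (F.card : ℝ) ≤ (D / Real.log b) * (((b : ℝ) - a) + √(b : ℝ)) := by
  obtain ⟨N₀, hN₀, hBT⟩ := Pool.Agent.H617R3.BT.bt2 1 one_pos
  have hlL : 0 < Real.log L := Real.log_pos hL
  have hl2 : 0 < Real.log 2 := Real.log_pos (by norm_num)
  obtain ⟨c, hc⟩ : ∃ c : ℝ, c = Real.log 2 / Real.log L := ⟨_, rfl⟩
  have hc0 : 0 < c := by
    rw [hc]
    positivity
  refine ⟨6 * (c + 2), by positivity, N₀ ^ 2 + 4, by omega, ?_⟩
  intro a b hab hb F hF
  have hbr : (4 : ℝ) ≤ b := by exact_mod_cast (by omega : 4 ≤ b)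
  have hlogb : 0 < Real.log b := Real.log_pos (by linarith)
  have hsb : 2 ≤ √(b : ℝ) := by
    rw [Real.le_sqrt (by norm_num) (by positivity)]
    linarith
  have habr : (a : ℝ) ≤ b := by exact_mod_cast hab
  rcases F.eq_empty_or_nonempty with h0 | h0
  · rw [h0, card_empty, Nat.cast_zero]
    have : 0 ≤ ((b : ℝ) - a) + √(b : ℝ) := by linarith
    positivity
  obtain ⟨N, hN⟩ : ∃ N : ℕ, N = ⌊((b : ℝ) - a) * c⌋₊ + 1 + Nat.sqrt b := ⟨_, rfl⟩
  set p0 := F.min' h0 with hp0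
  have hp0F := hF p0 (F.min'_mem h0)
  have hsub : F ⊆ ((range N).filter (fun t => (p0 + t * 1).Prime)).image (fun t => p0 + t) := by
    intro p hp
    have hp1 := F.min'_le p hp
    have hpF := hF p hp
    rw [mem_image]
    refine ⟨p - p0, ?_, by omega⟩
    rw [mem_filter, mem_range]
    have h1 : p0 + (p - p0) * 1 = p := by omega
    rw [h1]
    refine ⟨?_, hpF.1⟩
    -- size
    have h2 : L ^ (p - p0) ≤ 2 ^ (b - a) := by
      have h3 : μ * L ^ p = (μ * L ^ p0) * L ^ (p - p0) := by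
        rw [mul_assoc, ← pow_add]
        congr 2
        omega
      have h4 : (2 : ℝ) ^ a * L ^ (p - p0) ≤ 2 ^ b := by
        calc (2 : ℝ) ^ a * L ^ (p - p0) ≤ (μ * L ^ p0) * L ^ (p - p0) := by
              gcongr
              exact hp0F.2.1.le
          _ = μ * L ^ p := h3.symm
          _ ≤ 2 ^ b := hpF.2.2
      have h5 : (2 : ℝ) ^ b = 2 ^ a * 2 ^ (b - a) := by
        rw [← pow_add]
        congr 1
        omega
      rw [h5] at h4
      exact le_of_mul_le_mul_left h4 (by positivity)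
    have h3 := Real.log_le_log (by positivity) h2
    rw [Real.log_pow, Real.log_pow] at h3
    have h4 : ((p - p0 : ℕ) : ℝ) ≤ ((b : ℝ) - a) * c := by
      rw [hc, mul_div_assoc', le_div_iff₀ hlL]
      rw [Nat.cast_sub hab] at h3
      exact h3
    have h5 : p - p0 ≤ ⌊((b : ℝ) - a) * c⌋₊ := Nat.le_floor h4
    omega
  have hNb : √(b : ℝ) ≤ N := by
    have h1 : √(b : ℝ) ≤ (Nat.sqrt b : ℝ) + 1 := Real.real_sqrt_le_nat_sqrt_succ
    rw [hN]
    push_cast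
    have : (0 : ℝ) ≤ (⌊((b : ℝ) - a) * c⌋₊ : ℝ) := by positivity
    linarith
  have hNN : N₀ ≤ N := by
    have h1 : N₀ ≤ Nat.sqrt b := by
      rw [Nat.le_sqrt']
      omega
    omega
  have h1 := hBT p0 1 N le_rfl hNN
  have h2 : (F.card : ℝ) ≤ ((((range N).filter (fun t => (p0 + t * 1).Prime)).card : ℕ) : ℝ) := by
    exact_mod_cast (card_le_card hsub).trans card_image_le
  have hNr : (N : ℝ) ≤ ((b : ℝ) - a) * c + 1 + √(b : ℝ) := by
    rw [hN]
    push_cast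
    have h3 := Nat.floor_le (show 0 ≤ ((b : ℝ) - a) * c from mul_nonneg (by linarith) hc0.le)
    have h4 : (Nat.sqrt b : ℝ) ≤ √(b : ℝ) := Real.nat_sqrt_le_real_sqrt
    linarith
  have hlogN : Real.log b / 2 ≤ Real.log N := by
    have h3 : Real.log (√(b : ℝ)) = Real.log b / 2 := Real.log_sqrt (by positivity)
    rw [← h3]
    exact Real.log_le_log (by linarith) hNb
  have hN0 : (0 : ℝ) ≤ N := by positivity
  have hba0 : 0 ≤ (b : ℝ) - a := by linarith
  calc (F.card : ℝ) ≤ (2 + 1) * (((1 : ℕ) : ℝ) / Nat.totient 1) * N / Real.log N := h2.trans h1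
    _ = 3 * N / Real.log N := by
      rw [Nat.totient_one]
      norm_num
    _ ≤ 3 * N / (Real.log b / 2) := by
      apply div_le_div_of_nonneg_left (by positivity) (by positivity) hlogN
    _ = 6 * N / Real.log b := by
      field_simp
      ring
    _ ≤ 6 * (((b : ℝ) - a) * c + 1 + √(b : ℝ)) / Real.log b := by gcongr
    _ ≤ 6 * ((c + 2) * (((b : ℝ) - a) + √(b : ℝ))) / Real.log b := by
      gcongr
      nlinarith
    _ = (6 * (c + 2) / Real.log b) * (((b : ℝ) - a) + √(b : ℝ)) := by ring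

/-- the exponent of the lower end of the sieving range -/
def al (n : ℕ) : ℕ := Nat.sqrt (lN n)

lemma al_slow (K : ℝ) : ∀ᶠ b : ℕ in atTop, K * ((al b : ℝ) + 1) ≤ Real.log b := by
  have h1 : Tendsto (fun b : ℕ => Real.log b) atTop atTop :=
    Real.tendsto_log_atTop.comp tendsto_natCast_atTop_atTop
  filter_upwards [h1.eventually_ge_atTop (6 * K ^ 2), h1.eventually_ge_atTop 1,
    eventually_ge_atTop 2] with b h2 h3 h4
  set x := Real.log b with hx
  have h5 : (al b : ℝ) ^ 2 ≤ 2 * x := by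
    have e1 : al b * al b ≤ lN b := Nat.sqrt_le _
    have e2 : (2 : ℝ) ^ (lN b) ≤ b := by
      have : 2 ^ (lN b) ≤ b := Nat.pow_log_le_self 2 (by omega)
      exact_mod_cast this
    have e3 := Real.log_le_log (by positivity) e2
    rw [Real.log_pow] at e3
    have e4 : (1 : ℝ) / 2 ≤ Real.log 2 := by linarith [Real.log_two_gt_d9]
    have e5 : (lN b : ℝ) * (1 / 2) ≤ lN b * Real.log 2 := by gcongr
    have e6 : ((al b : ℝ)) ^ 2 ≤ lN b := by
      rw [sq]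
      exact_mod_cast e1
    linarith
  have h6 : ((al b : ℝ) + 1) ^ 2 ≤ 6 * x := by nlinarith [sq_nonneg ((al b : ℝ) - 1)]
  have h7 : (K * ((al b : ℝ) + 1)) ^ 2 ≤ x ^ 2 := by
    calc (K * ((al b : ℝ) + 1)) ^ 2 = K ^ 2 * ((al b : ℝ) + 1) ^ 2 := by ring
      _ ≤ K ^ 2 * (6 * x) := by gcongr
      _ = (6 * K ^ 2) * x := by ring
      _ ≤ x * x := by gcongr
      _ = x ^ 2 := by ring
  exact le_of_sq_le_sq h7 (by linarith)

lemma al_tendsto : Tendsto al atTop atTop := by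
  apply tendsto_atTop.2
  intro m
  filter_upwards [eventually_ge_atTop (2 ^ (m * m))] with n hn
  unfold al lN
  rw [Nat.le_sqrt]
  exact Nat.le_log_of_pow_le (by norm_num) hn

lemma al_double (e k : ℕ) (hk : 1 ≤ k) (h : e ≤ 2 * k) : al e ≤ al k + 1 := by
  unfold al lN
  have h1 : Nat.log 2 e ≤ Nat.log 2 k + 1 := by
    calc Nat.log 2 e ≤ Nat.log 2 (2 * k) := Nat.log_mono_right h
      _ = Nat.log 2 k + 1 := by
        rw [mul_comm, Nat.log_mul_base (by norm_num) (by omega)]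
  calc Nat.sqrt (Nat.log 2 e) ≤ Nat.sqrt (Nat.log 2 k + 1) := Nat.sqrt_le_sqrt h1
    _ ≤ Nat.sqrt (Nat.log 2 k) + 1 := Nat.sqrt_succ_le_succ_sqrt _

open Classical in
/-- the primes of a level -/
noncomputable def PF (μ L : ℝ) (k : ℕ) : Finset ℕ :=
  (range (⌈(2 : ℝ) ^ k / (μ * (L - 1))⌉₊ + 1)).filter
    (fun p => p.Prime ∧ (2 : ℝ) ^ k / 2 < μ * L ^ p ∧ μ * L ^ p ≤ 2 ^ k)

lemma mem_PF (μ L : ℝ) (hμ : 0 < μ) (hL : 1 < L) (k p : ℕ) : p ∈ PF μ L k ↔
    p.Prime ∧ (2 : ℝ) ^ k / 2 < μ * L ^ p ∧ μ * L ^ p ≤ 2 ^ k := by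
  unfold PF
  rw [mem_filter, mem_range]
  constructor
  · rintro ⟨-, h⟩
    exact h
  · intro h
    refine ⟨?_, h⟩
    have h1 : (p : ℝ) * (L - 1) ≤ L ^ p := by
      have := one_add_mul_le_pow (a := L - 1) (by linarith) p
      rw [add_sub_cancel] at this
      linarith
    have h2 : (p : ℝ) ≤ (2 : ℝ) ^ k / (μ * (L - 1)) := by
      have h3 : 0 < L - 1 := by linarith
      rw [le_div_iff₀ (by positivity)]
      calc (p : ℝ) * (μ * (L - 1)) = μ * (p * (L - 1)) := by ring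
        _ ≤ μ * L ^ p := by gcongr
        _ ≤ 2 ^ k := h.2.2
    have h3 : p ≤ ⌈(2 : ℝ) ^ k / (μ * (L - 1))⌉₊ := by
      have := h2.trans (Nat.le_ceil _)
      exact_mod_cast this
    omega

lemma sum_PF (μ L : ℝ) (hμ : 0 < μ) (hL : 1 < L) (D : ℝ) (b0 : ℕ)
    (hD : ∀ a b : ℕ, a ≤ b → b0 ≤ b → ∀ F : Finset ℕ,
      (∀ p ∈ F, p.Prime ∧ (2 : ℝ) ^ a < μ * L ^ p ∧ μ * L ^ p ≤ 2 ^ b) →
      (F.card : ℝ) ≤ (D / Real.log b) * (((b : ℝ) - a) + √(b : ℝ))) (a b : ℕ) (hab : a ≤ b)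
    (hb : b0 ≤ b) :
    ∑ k ∈ Ioc a b, ((PF μ L k).card : ℝ) ≤ (D / Real.log b) * (((b : ℝ) - a) + √(b : ℝ)) := by
  have hdis : ((Ioc a b : Finset ℕ) : Set ℕ).PairwiseDisjoint (fun k => PF μ L k) := by
    intro k _ l _ hkl
    rw [Function.onFun, disjoint_left]
    intro p hp1 hp2
    rw [mem_PF μ L hμ hL] at hp1 hp2
    rcases Nat.lt_or_gt_of_ne hkl with h | h
    · have h1 : (2 : ℝ) ^ k ≤ 2 ^ l / 2 := by
        rw [le_div_iff₀ (by norm_num), ← pow_succ]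
        exact pow_le_pow_right₀ (by norm_num) h
      linarith [hp1.2.2, hp2.2.1]
    · have h1 : (2 : ℝ) ^ l ≤ 2 ^ k / 2 := by
        rw [le_div_iff₀ (by norm_num), ← pow_succ]
        exact pow_le_pow_right₀ (by norm_num) h
      linarith [hp2.2.2, hp1.2.1]
  have h1 : ((((Ioc a b).biUnion (fun k => PF μ L k)).card : ℕ) : ℝ) =
      ∑ k ∈ Ioc a b, ((PF μ L k).card : ℝ) := by
    rw [card_biUnion (fun k hk l hl hkl => hdis hk hl hkl)]
    push_cast
    rfl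
  rw [← h1]
  apply hD a b hab hb
  intro p hp
  rw [mem_biUnion] at hp
  obtain ⟨k, hk, hp⟩ := hp
  rw [mem_PF μ L hμ hL] at hp
  rw [mem_Ioc] at hk
  refine ⟨hp.1, lt_of_le_of_lt ?_ hp.2.1, hp.2.2.trans ?_⟩
  · rw [le_div_iff₀ (by norm_num), ← pow_succ]
    exact pow_le_pow_right₀ (by norm_num) hk.1
  · exact pow_le_pow_right₀ (by norm_num) hk.2

end Pool.Agent.H541.RP
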