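import Pool.Agent.H541.RP.Fam

set_option autoImplicit false

/-!
Countably many families of exponential sequences at prime indices: the uniform content theorem.
-/

namespace Pool.Agent.H541.RP

open Finset Filter Topology Metric
open scoped ENNReal

lemma exists_level (X : ℝ) (m : ℕ) (hX : (2 : ℝ) ^ m < X) : ∃ n : ℕ, m < n ∧ (2 : ℝ) ^ n / 2 < X ∧ X ≤ 2 ^ n := by
  classical
  have hex : ∃ N : ℕ, X ≤ 2 ^ N := by
    obtain ⟨N, hN⟩ := pow_unbounded_of_one_lt X (by norm_num : (1 : ℝ) < 2)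
    exact ⟨N, hN.le⟩
  have h1 := Nat.find_spec hex
  have h2 : m < Nat.find hex := by
    by_contra hcon
    push Not at hcon
    have : (2 : ℝ) ^ (Nat.find hex) ≤ 2 ^ m := pow_le_pow_right₀ (by norm_num) hcon
    linarith
  refine ⟨Nat.find hex, h2, ?_, h1⟩
  have h3 := Nat.find_min hex (m := Nat.find hex - 1) (by omega)
  push Not at h3
  have h4 : (2 : ℝ) ^ (Nat.find hex) / 2 = 2 ^ (Nat.find hex - 1) := by
    have : Nat.find hex = Nat.find hex - 1 + 1 := by omega
    rw [this, pow_succ]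
    simp
  rw [h4]
  exact h3

/-- the divisibility property of the value with index `(j, p)` -/
def Dv (μ L : ℕ → ℝ) (c : ℕ → ℕ → ℝ) (θ : ℝ) (j p : ℕ) : Prop :=
  ∃ n : ℕ, (2 : ℝ) ^ n / 2 < μ j * L j ^ p ∧ μ j * L j ^ p ≤ 2 ^ n ∧
    (∃ q ∈ QN (al n) n, (q : ℤ) ∣ ⌊θ * (μ j * L j ^ p) + c j p⌋) ∧
    ∀ m ∈ DN (al n) n, ¬ (m : ℤ) ∣ ⌊θ * (μ j * L j ^ p) + c j p⌋

theorem fam_content (μ L : ℕ → ℝ) (hμ : ∀ j, 0 < μ j) (hL : ∀ j, 1 < L j) (d : ℝ) (hd0 : 0 < d)
    (hd1 : d < 1) (c : ℕ → ℕ → ℝ) (V : ℕ → Set ℝ)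
    (hV : {θ : ℝ | θ ∈ Set.Icc (0 : ℝ) 1 ∧ ∀ j, ∀ᶠ p : ℕ in atTop, p.Prime → Dv μ L c θ j p} ⊆
      ⋃ i, V i) : (1 / 12 : ℝ≥0∞) ≤ ∑' i, ediam (V i) ^ d := by
  classical
  obtain ⟨η0, hη0p, hη01, hcore⟩ := core3
  obtain ⟨T', hT100, hTl, hcore⟩ := hcore d hd0 hd1
  choose D hD0 b0 hb02 hDb using fun j => cnt_bound (μ j) (L j) (hμ j) (hL j)
  obtain ⟨η, hη⟩ : ∃ η : ℕ → ℝ, ∀ b, η b = η0 / (2 * ((al b : ℝ) + 1)) := ⟨_, fun _ => rfl⟩
  have hηpos : ∀ b, 0 < η b := by
    intro b
    rw [hη]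
    positivity
  have hηle : ∀ b, η b ≤ η0 := by
    intro b
    rw [hη, div_le_iff₀ (by positivity)]
    have : (0 : ℝ) ≤ al b := by positivity
    nlinarith
  -- thresholds
  have hthr : ∀ j, ∃ T : ℕ, j ≤ T ∧ b0 j ≤ T ∧ ∀ b, T ≤ b → D j / Real.log b ≤ (1 / 2) ^ (j + 1) * η b := by
    intro j
    have h1 := al_slow (D j * 2 ^ (j + 1) * 2 / η0)
    obtain ⟨T, hT⟩ := eventually_atTop.1 h1
    refine ⟨max (max T 2) (max j (b0 j)), (le_max_left _ _).trans (le_max_right _ _),
      (le_max_right _ _).trans (le_max_right _ _), fun b hb => ?_⟩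
    have h2 := hT b ((le_max_left _ _).trans ((le_max_left _ _).trans hb))
    have h3 : 2 ≤ b := (le_max_right _ _).trans ((le_max_left _ _).trans hb)
    have h4 : 0 < Real.log b := Real.log_pos (by exact_mod_cast (by omega : 1 < b))
    rw [div_le_iff₀ h4, hη]
    have h5 : D j = (1 / 2) ^ (j + 1) * (η0 / (2 * ((al b : ℝ) + 1))) *
        (D j * 2 ^ (j + 1) * 2 / η0 * ((al b : ℝ) + 1)) := by
      rw [one_div, inv_pow]
      field_simp
    calc D j = (1 / 2) ^ (j + 1) * (η0 / (2 * ((al b : ℝ) + 1))) *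
        (D j * 2 ^ (j + 1) * 2 / η0 * ((al b : ℝ) + 1)) := h5
      _ ≤ (1 / 2) ^ (j + 1) * (η0 / (2 * ((al b : ℝ) + 1))) * Real.log b := by gcongr
  choose T hTj hTb hTη using hthr
  -- multiplicities
  obtain ⟨M, hM⟩ : ∃ M : ℕ → ℕ, ∀ n, M n =
      ∑ j ∈ range n, if T j < n then (PF (μ j) (L j) n).card else 0 := ⟨_, fun _ => rfl⟩
  have hMsum : ∀ a b : ℕ, a ≤ b → ∑ k ∈ Ioc a b, (M k : ℝ) ≤ η b * (((b : ℝ) - a) + √(b : ℝ)) := by
    intro a b hab
    have hW : 0 ≤ ((b : ℝ) - a) + √(b : ℝ) := by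
      have : (a : ℝ) ≤ b := by exact_mod_cast hab
      have := Real.sqrt_nonneg (b : ℝ)
      linarith
    have h1 : ∀ k ∈ Ioc a b, (M k : ℝ) =
        ∑ j ∈ range b, if T j < k then ((PF (μ j) (L j) k).card : ℝ) else 0 := by
      intro k hk
      rw [mem_Ioc] at hk
      rw [hM]
      push_cast
      apply sum_subset
      · intro j hj
        rw [mem_range] at *
        omega
      · intro j _ hj
        rw [mem_range] at hj
        rw [if_neg]
        have := hTj j
        omega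
    rw [sum_congr rfl h1, sum_comm]
    calc ∑ j ∈ range b, ∑ k ∈ Ioc a b, (if T j < k then ((PF (μ j) (L j) k).card : ℝ) else 0)
        ≤ ∑ j ∈ range b, (1 / 2) ^ (j + 1) * η b * (((b : ℝ) - a) + √(b : ℝ)) := by
          apply sum_le_sum
          intro j _
          rcases Nat.lt_or_ge (T j) b with h | h
          · calc ∑ k ∈ Ioc a b, (if T j < k then ((PF (μ j) (L j) k).card : ℝ) else 0)
                ≤ ∑ k ∈ Ioc a b, ((PF (μ j) (L j) k).card : ℝ) := by
                  apply sum_le_sum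
                  intro k _
                  split_ifs
                  · exact le_rfl
                  · positivity
              _ ≤ (D j / Real.log b) * (((b : ℝ) - a) + √(b : ℝ)) :=
                  sum_PF (μ j) (L j) (hμ j) (hL j) (D j) (b0 j) (hDb j) a b hab ((hTb j).trans h.le)
              _ ≤ (1 / 2) ^ (j + 1) * η b * (((b : ℝ) - a) + √(b : ℝ)) := by
                  apply mul_le_mul_of_nonneg_right (hTη j b h.le) hW
          · have h2 : ∑ k ∈ Ioc a b, (if T j < k then ((PF (μ j) (L j) k).card : ℝ) else 0) = 0 := by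
              apply sum_eq_zero
              intro k hk
              rw [mem_Ioc] at hk
              rw [if_neg (by omega)]
            rw [h2]
            have := hηpos b
            positivity
      _ = (∑ j ∈ range b, (1 / 2 : ℝ) ^ (j + 1)) * (η b * (((b : ℝ) - a) + √(b : ℝ))) := by
          rw [sum_mul]
          apply sum_congr rfl
          intro j _
          ring
      _ ≤ 1 * (η b * (((b : ℝ) - a) + √(b : ℝ))) := by
          apply mul_le_mul_of_nonneg_right _ (mul_nonneg (hηpos b).le hW)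
          have h2 : ∑ j ∈ range b, (1 / 2 : ℝ) ^ (j + 1) = 1 - (1 / 2) ^ b := by
            have h3 : ∀ n : ℕ, ∑ j ∈ range n, (1 / 2 : ℝ) ^ (j + 1) = 1 - (1 / 2) ^ n := by
              intro n
              induction n with
              | zero => simp
              | succ n ih =>
                rw [sum_range_succ, ih, pow_succ]
                ring
            exact h3 b
          rw [h2]
          have : (0 : ℝ) ≤ (1 / 2) ^ b := by positivity
          linarith
      _ = η b * (((b : ℝ) - a) + √(b : ℝ)) := one_mul _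
  -- the family
  obtain ⟨lam, hlam⟩ : ∃ lam : ℕ × ℕ → ℝ, ∀ z, lam z =
      if z.2.Prime ∧ (2 : ℝ) ^ (T z.1) < μ z.1 * L z.1 ^ z.2 then μ z.1 * L z.1 ^ z.2 else 0 :=
    ⟨_, fun _ => rfl⟩
  refine hcore al η M ?_ (fun n => ⟨(hηpos n).le, hηle n⟩) ?_ hMsum (ℕ × ℕ) lam
    (fun z => c z.1 z.2) ?_ V (Set.Subset.trans ?_ hV)
  · intro n hn
    obtain ⟨-, h2⟩ := hTl n hn
    refine ⟨?_, Nat.sqrt_le_self _⟩
    unfold al
    rw [Nat.le_sqrt]
    omega
  · intro e k he hek hke
    have h1 : al e ≤ al k + 1 := al_double e k (by omega) hek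
    have h2 : (al e : ℝ) ≤ (al k : ℝ) + 1 := by exact_mod_cast h1
    rw [hη, div_mul_eq_mul_div, div_le_iff₀ (by positivity)]
    have h3 : (0 : ℝ) ≤ (al k : ℝ) := by positivity
    nlinarith
  · intro e he
    refine ⟨(range e).biUnion (fun j => if T j < e then (PF (μ j) (L j) e).image (fun p => (j, p)) else ∅),
      ?_, ?_⟩
    · refine card_biUnion_le.trans ?_
      rw [hM]
      apply sum_le_sum
      intro j _
      split_ifs
      · exact card_image_le
      · simp
    · intro z h1 h2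
      rw [hlam] at h1 h2
      split_ifs at h1 h2 with h
      · have h3 : T z.1 < e := by
          by_contra hcon
          push Not at hcon
          have : (2 : ℝ) ^ e ≤ 2 ^ (T z.1) := pow_le_pow_right₀ (by norm_num) hcon
          linarith [h.2]
        rw [mem_biUnion]
        refine ⟨z.1, ?_, ?_⟩
        · rw [mem_range]
          have := hTj z.1
          omega
        · rw [if_pos h3, mem_image]
          exact ⟨z.2, (mem_PF _ _ (hμ _) (hL _) _ _).2 ⟨h.1, h1, h2⟩, rfl⟩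
      · exfalso
        have : (0 : ℝ) < 2 ^ e / 2 := by positivity
        linarith
  · intro θ hθ
    refine ⟨hθ.1, fun j => ?_⟩
    have h1 : Tendsto (fun p : ℕ => μ j * L j ^ p) atTop atTop :=
      (tendsto_pow_atTop_atTop_of_one_lt (hL j)).const_mul_atTop (hμ j)
    filter_upwards [h1.eventually_gt_atTop ((2 : ℝ) ^ (T j)), h1.eventually_gt_atTop ((2 : ℝ) ^ T')]
      with p h2 h3 hp
    obtain ⟨n, h4, h5, h6⟩ := exists_level _ T' h3
    have h7 : lam (j, p) = μ j * L j ^ p := by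
      rw [hlam, if_pos ⟨hp, h2⟩]
    have h8 := hθ.2 n h4.le (j, p) (by rw [h7]; exact h5) (by rw [h7]; exact h6)
    rw [h7] at h8
    exact ⟨n, h5, h6, h8.1, h8.2⟩

end Pool.Agent.H541.RP
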