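import Pool.Agent.H541.RP.Fam2
import Pool.Agent.H541.LL.Plane

set_option autoImplicit false

/-!
Two large prime factors; the Hausdorff dimension.
-/

namespace Pool.Agent.H541.RP

open Finset Filter Topology Metric
open scoped ENNReal NNReal

/-- `a` is divisible by a product of two (not necessarily distinct) primes larger than `B` -/
def Two (B : ℕ) (a : ℤ) : Prop :=
  ∃ q r : ℕ, q.Prime ∧ r.Prime ∧ B < q ∧ B < r ∧ ((q * r : ℕ) : ℤ) ∣ a

lemma Two.mono {B B' : ℕ} {a : ℤ} (h : Two B a) (hB : B' ≤ B) : Two B' a := by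
  obtain ⟨q, r, h1, h2, h3, h4, h5⟩ := h
  exact ⟨q, r, h1, h2, by omega, by omega, h5⟩

lemma two_of (α n : ℕ) (a : ℤ) (hy : yN α n ≤ 2 ^ (sN n - sN n / 2))
    (ha : yN α n ^ sN n * 2 ^ sN n ≤ a.natAbs) (hy0 : 1 ≤ yN α n)
    (h1 : ∃ q ∈ QN α n, (q : ℤ) ∣ a) (h2 : ∀ m ∈ DN α n, ¬ (m : ℤ) ∣ a) : Two (yN α n) a := by
  obtain ⟨q, hq, hqa⟩ := h1
  unfold QN at hq
  rw [mem_filter, mem_Ioc] at hq
  obtain ⟨⟨hq1, hq2⟩, hqp⟩ := hq
  obtain ⟨A, hAa⟩ : ∃ A : ℕ, A = a.natAbs := ⟨_, rfl⟩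
  have hA : yN α n ^ sN n * 2 ^ sN n ≤ A := by omega
  rw [Int.natCast_dvd, ← hAa] at hqa
  obtain ⟨b, hb⟩ := hqa
  have hys : 1 ≤ yN α n ^ sN n := Nat.one_le_pow _ _ (by omega)
  have hb2 : 2 ^ sN n ≤ b := by
    by_contra hcon
    push Not at hcon
    have : q * b < yN α n ^ sN n * 2 ^ sN n := by
      calc q * b < q * 2 ^ sN n := Nat.mul_lt_mul_of_pos_left hcon hqp.pos
        _ ≤ yN α n ^ sN n * 2 ^ sN n := Nat.mul_le_mul_right _ hq2
    omega
  by_cases hex : ∃ r, r.Prime ∧ r ∣ b ∧ yN α n < r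
  · obtain ⟨r, hr1, hr2, hr3⟩ := hex
    refine ⟨q, r, hqp, hr1, hq1, hr3, ?_⟩
    rw [Int.natCast_dvd, ← hAa, hb]
    exact Nat.mul_dvd_mul_left q hr2
  · exfalso
    push Not at hex
    have hYb : 2 ^ (sN n / 2) ≤ b := (Nat.pow_le_pow_right (by norm_num) (Nat.div_le_self _ _)).trans hb2
    obtain ⟨d, hd1, hd2, hd3⟩ := exists_divisor (yN α n) (2 ^ (sN n / 2)) (Nat.one_le_pow _ _ (by norm_num))
      b hYb hex
    apply h2 d
    · rw [mem_DN]
      refine ⟨⟨hd2, ?_⟩, fun p hp hpd => hex p hp (hpd.trans hd1)⟩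
      rcases hd3 with h | h
      · calc d ≤ 2 ^ (sN n / 2) * yN α n := h
          _ ≤ 2 ^ (sN n / 2) * 2 ^ (sN n - sN n / 2) := Nat.mul_le_mul_left _ hy
          _ = 2 ^ sN n := by
            rw [← pow_add]
            congr 1
            omega
      · exact h.trans (Nat.pow_le_pow_right (by norm_num) (Nat.div_le_self _ _))
    · rw [Int.natCast_dvd, ← hAa, hb]
      exact hd1.trans (dvd_mul_left _ _)

lemma sqrt_small (μ L : ℝ) (hμ : 0 < μ) (hL : 1 < L) :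
    ∀ᶠ p : ℕ in atTop, (2 : ℝ) ^ (Nat.sqrt p) < μ * L ^ p := by
  have hs : Tendsto (fun p : ℕ => Nat.sqrt p) atTop atTop := by
    apply Filter.tendsto_atTop.2
    intro b
    filter_upwards [eventually_ge_atTop (b * b)] with n hn
    rw [Nat.le_sqrt]
    exact hn
  have h1 : Tendsto (fun m : ℕ => L ^ m) atTop atTop := tendsto_pow_atTop_atTop_of_one_lt hL
  have h2 : Tendsto (fun m : ℕ => (2 : ℝ) ^ m) atTop atTop :=
    tendsto_pow_atTop_atTop_of_one_lt (by norm_num)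
  filter_upwards [hs.eventually (h1.eventually_ge_atTop 4),
    hs.eventually (h2.eventually_gt_atTop (1 / μ))] with p h3 h4
  have h5 : (Nat.sqrt p) * (Nat.sqrt p) ≤ p := Nat.sqrt_le p
  rw [div_lt_iff₀ hμ] at h4
  calc (2 : ℝ) ^ (Nat.sqrt p) = 1 * 2 ^ (Nat.sqrt p) := by ring
    _ < (2 ^ (Nat.sqrt p) * μ) * 2 ^ (Nat.sqrt p) := by gcongr
    _ = μ * (4 : ℝ) ^ (Nat.sqrt p) := by
      have : (4 : ℝ) = 2 * 2 := by norm_num
      rw [this, mul_pow]
      ring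
    _ ≤ μ * (L ^ (Nat.sqrt p)) ^ (Nat.sqrt p) := by gcongr
    _ = μ * L ^ (Nat.sqrt p * Nat.sqrt p) := by rw [← pow_mul]
    _ ≤ μ * L ^ p := by
      gcongr
      exact hL.le

lemma dv_two (μ L : ℕ → ℝ) (hμ : ∀ j, 0 < μ j) (hL : ∀ j, 1 < L j) (c : ℕ → ℕ → ℝ) (θ : ℝ) (j : ℕ)
    (ε : ℝ) (hε : 0 < ε) (hbig : ∀ᶠ p : ℕ in atTop, ε * L j ^ p ≤ |θ * (μ j * L j ^ p) + c j p|) (A : ℕ)
    (h : ∀ᶠ p : ℕ in atTop, p.Prime → Dv μ L c θ j p) :
    ∀ᶠ p : ℕ in atTop, p.Prime → Two (p ^ A) ⌊θ * (μ j * L j ^ p) + c j p⌋ := by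
  obtain ⟨T, hT200, hT⟩ := facts 1
  obtain ⟨T2, hT2⟩ := eventually_atTop.1 (al_tendsto.eventually_ge_atTop (2 * A + 1))
  have h2 : Tendsto (fun m : ℕ => (2 : ℝ) ^ (m / 2)) atTop atTop := by
    have e1 : Tendsto (fun m : ℕ => (2 : ℝ) ^ m) atTop atTop :=
      tendsto_pow_atTop_atTop_of_one_lt (by norm_num)
    have e2 : Tendsto (fun m : ℕ => m / 2) atTop atTop := Nat.tendsto_div_const_atTop (by norm_num)
    exact e1.comp e2
  obtain ⟨T3, hT3⟩ := eventually_atTop.1 (h2.eventually_ge_atTop (4 * μ j / ε))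
  have h3 : Tendsto (fun p : ℕ => μ j * L j ^ p) atTop atTop :=
    (tendsto_pow_atTop_atTop_of_one_lt (hL j)).const_mul_atTop (hμ j)
  filter_upwards [h, hbig, sqrt_small (μ j) (L j) (hμ j) (hL j),
    h3.eventually_gt_atTop ((2 : ℝ) ^ (max T (max T2 T3)))] with p h4 h5 h6 h7 hp
  obtain ⟨n, h8, h9, h10, h11⟩ := h4 hp
  have hn : max T (max T2 T3) < n := by
    by_contra hcon
    push Not at hcon
    have : (2 : ℝ) ^ n ≤ 2 ^ (max T (max T2 T3)) := pow_le_pow_right₀ (by norm_num) hcon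
    linarith
  have hnT : T ≤ n := by omega
  have hnT2 : T2 ≤ n := by omega
  have hnT3 : T3 ≤ n := by omega
  obtain ⟨f1, f2, -⟩ := hT n hnT
  obtain ⟨r1, r2, r3, r4, r5, r6, r7, r8⟩ := rel n (by omega) f1 f2
  have hpn : p < (n + 1) * (n + 1) := by
    rw [← Nat.sqrt_lt]
    by_contra hcon
    push Not at hcon
    have : (2 : ℝ) ^ n ≤ 2 ^ (Nat.sqrt p) := pow_le_pow_right₀ (by norm_num) (by omega)
    linarith
  have hal1 := hT2 n hnT2
  have hal2 : al n ≤ lN n := Nat.sqrt_le_self _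
  have hyle := yN_le (al n) n (by omega) f1 f2
  have hla : 64 * ((lN n + 1) * al n) ≤ wN n := by
    calc 64 * ((lN n + 1) * al n) ≤ 64 * (lN n + 1) ^ 2 := by
          rw [sq]
          apply Nat.mul_le_mul_left
          apply Nat.mul_le_mul_left
          omega
      _ ≤ wN n := f2
  have hws : wN n ≤ sN n := Nat.sqrt_le_self _
  have hys : yN (al n) n ≤ 2 ^ (sN n - sN n / 2) :=
    hyle.trans (Nat.pow_le_pow_right (by norm_num) (by omega))
  have hbound : yN (al n) n ^ sN n * 2 ^ sN n ≤ 2 ^ (n / 2) := by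
    calc yN (al n) n ^ sN n * 2 ^ sN n ≤ (2 ^ ((lN n + 1) * al n)) ^ sN n * 2 ^ sN n := by gcongr
      _ = 2 ^ (((lN n + 1) * al n + 1) * sN n) := by
        rw [← pow_mul, ← pow_add]
        congr 1
        ring
      _ ≤ 2 ^ (n / 2) := by
        apply Nat.pow_le_pow_right (by norm_num)
        have e1 : 32 * ((lN n + 1) * al n + 1) ≤ wN n := by omega
        have e2 : 32 * (((lN n + 1) * al n + 1) * sN n) ≤ n := by
          calc 32 * (((lN n + 1) * al n + 1) * sN n) = (32 * ((lN n + 1) * al n + 1)) * sN n := by ring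
            _ ≤ wN n * sN n := Nat.mul_le_mul_right _ e1
            _ ≤ sN n * sN n := Nat.mul_le_mul_right _ hws
            _ ≤ n := r4
        omega
  have hX : 2 * (2 : ℝ) ^ (n / 2) ≤ |θ * (μ j * L j ^ p) + c j p| := by
    refine le_trans ?_ h5
    have e1 := hT3 n hnT3
    have e2 : (2 : ℝ) ^ (n / 2) * 2 ^ (n / 2) ≤ 2 ^ n := by
      rw [← pow_add]
      exact pow_le_pow_right₀ (by norm_num) (by omega)
    have hμj := hμ j
    rw [div_le_iff₀ hε] at e1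
    have e3 : μ j * 2 ^ (n / 2) * 2 ≤ ε * (μ j * L j ^ p) := by
      have e4 : (2 : ℝ) ^ n / 2 * ε ≤ (μ j * L j ^ p) * ε := by
        apply mul_le_mul_of_nonneg_right h8.le hε.le
      have e5 : 4 * μ j * 2 ^ (n / 2) ≤ 2 ^ n * ε := by
        calc 4 * μ j * 2 ^ (n / 2) ≤ (2 ^ (n / 2) * ε) * 2 ^ (n / 2) := by gcongr
          _ = (2 ^ (n / 2) * 2 ^ (n / 2)) * ε := by ring
          _ ≤ 2 ^ n * ε := by gcongr
      nlinarith
    have e6 : μ j * (2 * 2 ^ (n / 2)) ≤ μ j * (ε * L j ^ p) := by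
      calc μ j * (2 * 2 ^ (n / 2)) = μ j * 2 ^ (n / 2) * 2 := by ring
        _ ≤ ε * (μ j * L j ^ p) := e3
        _ = μ j * (ε * L j ^ p) := by ring
    exact le_of_mul_le_mul_left e6 hμj
  have ha : yN (al n) n ^ sN n * 2 ^ sN n ≤ (⌊θ * (μ j * L j ^ p) + c j p⌋).natAbs := by
    set X := θ * (μ j * L j ^ p) + c j p
    have g1 : |X| ≤ |((⌊X⌋ : ℤ) : ℝ)| + 1 := by
      have h6 : |X - ⌊X⌋| ≤ 1 := by
        rw [abs_of_nonneg (sub_nonneg.2 (Int.floor_le X))]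
        have := Int.lt_floor_add_one X
        linarith
      have h7 := abs_sub_abs_le_abs_sub X (⌊X⌋ : ℝ)
      linarith
    have g2 : ((⌊X⌋.natAbs : ℕ) : ℝ) = |((⌊X⌋ : ℤ) : ℝ)| := by
      rw [Nat.cast_natAbs]
      push_cast
      rfl
    have g3 : ((yN (al n) n ^ sN n * 2 ^ sN n : ℕ) : ℝ) ≤ 2 ^ (n / 2) := by exact_mod_cast hbound
    have g4 : (1 : ℝ) ≤ 2 ^ (n / 2) := one_le_pow₀ (by norm_num)
    have g5 : ((yN (al n) n ^ sN n * 2 ^ sN n : ℕ) : ℝ) ≤ ((⌊X⌋.natAbs : ℕ) : ℝ) := by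
      rw [g2]
      linarith
    exact_mod_cast g5
  have hy3 := three_le_yN (al n) n (by omega) (by omega)
  refine (two_of (al n) n _ hys ha (by omega) h10 h11).mono ?_
  -- `p ^ A ≤ n ^ (al n)`
  unfold yN
  have hpn3 : p ≤ n ^ 2 + 2 * n := by
    have : (n + 1) * (n + 1) = n ^ 2 + 2 * n + 1 := by ring
    omega
  have hpn4 : p ≤ n ^ 2 * 2 := by nlinarith
  rcases Nat.eq_zero_or_pos A with hA | hA
  · subst hA
    simpa using Nat.one_le_pow (al n) n (by omega)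
  calc p ^ A ≤ (n ^ 2 * 2) ^ A := Nat.pow_le_pow_left hpn4 A
    _ = n ^ (2 * A) * 2 ^ A := by rw [mul_pow, ← pow_mul]
    _ ≤ n ^ (2 * A) * n := by
      apply Nat.mul_le_mul_left
      -- `2 ^ A ≤ n`
      have e1 : A ≤ lN n := by omega
      exact (Nat.pow_le_pow_right (by norm_num) e1).trans r5
    _ = n ^ (2 * A + 1) := by rw [pow_succ]
    _ ≤ n ^ (al n) := Nat.pow_le_pow_right (by omega) hal1

/-- **full dimension**, countably many families indexed by the natural numbers -/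
theorem dim_nat (κ L : ℕ → ℝ) (c : ℕ → ℕ → ℝ) (hκ : ∀ j, 0 < κ j) (hL : ∀ j, 1 < L j)
    (hc : ∀ j, Tendsto (fun p => c j p / L j ^ p) atTop (𝓝 0)) (u v : ℝ) (hu : 0 ≤ u) (huv : u < v) :
    dimH {β : ℝ | β ∈ Set.Ioo u v ∧ ∀ j A, ∀ᶠ p : ℕ in atTop, p.Prime →
      Two (p ^ A) ⌊β * κ j * L j ^ p + c j p⌋} = 1 := by
  apply le_antisymm
  · calc dimH _ ≤ dimH (Set.univ : Set ℝ) := dimH_mono (Set.subset_univ _)
      _ = 1 := Real.dimH_univ
  apply le_of_forall_lt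
  intro r hr
  have hr' : r ≠ ∞ := ne_top_of_lt hr
  lift r to ℝ≥0 using hr' with q
  have hq1 : q < 1 := by exact_mod_cast hr
  obtain ⟨d, hd1, hd2⟩ := exists_between hq1
  have hd0 : 0 < d := lt_of_le_of_lt bot_le hd1
  refine lt_of_lt_of_le (show (q : ℝ≥0∞) < d by exact_mod_cast hd1) ?_
  obtain ⟨ℓ, hℓ⟩ : ∃ ℓ : ℝ, ℓ = (v - u) / 3 := ⟨_, rfl⟩
  have hℓ0 : 0 < ℓ := by
    rw [hℓ]
    linarith
  set μ : ℕ → ℝ := fun j => ℓ * κ j with hμ
  have hμ0 : ∀ j, 0 < μ j := fun j => mul_pos hℓ0 (hκ j)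
  set c' : ℕ → ℕ → ℝ := fun j p => (u + ℓ) * κ j * L j ^ p + c j p with hc'
  set S : Set ℝ := {θ : ℝ | θ ∈ Set.Icc (0 : ℝ) 1 ∧ ∀ j, ∀ᶠ p : ℕ in atTop, p.Prime → Dv μ L c' θ j p}
    with hS
  have hdimS : (d : ℝ≥0∞) ≤ dimH S := by
    apply Pool.Agent.H541.LL.le_dimH_of_content d hd0 (1 / 12 : ℝ≥0∞) (by norm_num)
    intro V hV
    exact fam_content μ L hμ0 hL d (by exact_mod_cast hd0) (by exact_mod_cast hd2) c' V hV
  have hanti : AntilipschitzWith (Real.toNNReal (1 / ℓ)) (fun θ : ℝ => (u + ℓ) + ℓ * θ) := by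
    apply AntilipschitzWith.of_le_mul_dist
    intro x y
    rw [Real.coe_toNNReal _ (by positivity), Real.dist_eq, Real.dist_eq]
    have e1 : (u + ℓ + ℓ * x) - (u + ℓ + ℓ * y) = ℓ * (x - y) := by ring
    rw [e1, abs_mul, abs_of_pos hℓ0]
    apply le_of_eq
    field_simp
  refine hdimS.trans ((hanti.le_dimH_image S).trans (dimH_mono ?_))
  rintro _ ⟨θ, ⟨⟨hθ0, hθ1⟩, hθ⟩, rfl⟩
  have hp1 : 0 ≤ ℓ * θ := mul_nonneg hℓ0.le hθ0
  have hp2 : ℓ * θ ≤ ℓ := by nlinarith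
  refine ⟨⟨?_, ?_⟩, ?_⟩
  · simp only
    linarith
  · simp only
    rw [hℓ] at *
    linarith
  intro j A
  have hval : ∀ p, (u + ℓ + ℓ * θ) * κ j * L j ^ p + c j p = θ * (μ j * L j ^ p) + c' j p := by
    intro p
    simp only [hμ, hc']
    ring
  simp only [hval]
  have hκj := hκ j
  apply dv_two μ L hμ0 hL c' θ j (ℓ * κ j / 2) (by positivity) _ A (hθ j)
  -- positivity of the values
  have hcj := (hc j).eventually_const_lt (show -(ℓ * κ j / 2) < 0 by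
    have : 0 < ℓ * κ j / 2 := by positivity
    linarith)
  filter_upwards [hcj] with p hp
  have hLp : 0 < L j ^ p := pow_pos (by linarith [hL j]) p
  rw [lt_div_iff₀ hLp] at hp
  simp only [hμ, hc']
  have e1 : 0 ≤ θ * (ℓ * κ j * L j ^ p) := by positivity
  have e2 : 0 ≤ u * κ j * L j ^ p := by positivity
  refine le_trans ?_ (le_abs_self _)
  nlinarith

/-- **full dimension**, any countable set of families -/
theorem dim_countable {J : Type} [Countable J] (κ L : J → ℝ) (c : J → ℕ → ℝ) (hκ : ∀ j, 0 < κ j)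
    (hL : ∀ j, 1 < L j) (hc : ∀ j, Tendsto (fun p => c j p / L j ^ p) atTop (𝓝 0)) (u v : ℝ)
    (hu : 0 ≤ u) (huv : u < v) :
    dimH {β : ℝ | β ∈ Set.Ioo u v ∧ ∀ j A, ∀ᶠ p : ℕ in atTop, p.Prime →
      Two (p ^ A) ⌊β * κ j * L j ^ p + c j p⌋} = 1 := by
  obtain ⟨f, hf⟩ := exists_surjective_nat (Option J)
  apply le_antisymm
  · calc dimH _ ≤ dimH (Set.univ : Set ℝ) := dimH_mono (Set.subset_univ _)
      _ = 1 := Real.dimH_univ
  rw [← dim_nat (fun n => (f n).elim 1 κ) (fun n => (f n).elim 2 L) (fun n => (f n).elim (fun _ => 0) c)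
    (by
      intro n
      cases h : f n with
      | none => simp
      | some j => simpa using hκ j) (by
      intro n
      cases h : f n with
      | none => simp
      | some j => simpa using hL j) (by
      intro n
      cases h : f n with
      | none => simp
      | some j => simpa using hc j) u v hu huv]
  apply dimH_mono
  rintro β ⟨hβ, h⟩
  refine ⟨hβ, fun j A => ?_⟩
  obtain ⟨n, hn⟩ := hf (some j)
  have := h n A
  rw [hn] at this
  exact this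

end Pool.Agent.H541.RP
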