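import Pool.Agent.H541.RP.Fam3

set_option autoImplicit false

/-!
Countable index types, and two parameters.
-/

namespace Pool.Agent.H541.RP

open Finset Filter Topology Metric
open scoped ENNReal NNReal

/-- the divisibility property of the value at `p` for one family -/
def Dv1 (μ L : ℝ) (c : ℕ → ℝ) (θ : ℝ) (p : ℕ) : Prop :=
  ∃ n : ℕ, (2 : ℝ) ^ n / 2 < μ * L ^ p ∧ μ * L ^ p ≤ 2 ^ n ∧
    (∃ q ∈ QN (al n) n, (q : ℤ) ∣ ⌊θ * (μ * L ^ p) + c p⌋) ∧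
    ∀ m ∈ DN (al n) n, ¬ (m : ℤ) ∣ ⌊θ * (μ * L ^ p) + c p⌋

theorem fam_content_J {J : Type} [Countable J] (μ L : J → ℝ) (hμ : ∀ j, 0 < μ j) (hL : ∀ j, 1 < L j)
    (d : ℝ) (hd0 : 0 < d) (hd1 : d < 1) (c : J → ℕ → ℝ) (V : ℕ → Set ℝ)
    (hV : {θ : ℝ | θ ∈ Set.Icc (0 : ℝ) 1 ∧ ∀ j, ∀ᶠ p : ℕ in atTop, p.Prime →
      Dv1 (μ j) (L j) (c j) θ p} ⊆ ⋃ i, V i) : (1 / 12 : ℝ≥0∞) ≤ ∑' i, ediam (V i) ^ d := by
  obtain ⟨f, hf⟩ := exists_surjective_nat (Option J)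
  refine fam_content (fun n => (f n).elim 1 μ) (fun n => (f n).elim 2 L) (by
      intro n
      cases h : f n with
      | none => simp
      | some j => simpa using hμ j) (by
      intro n
      cases h : f n with
      | none => simp
      | some j => simpa using hL j) d hd0 hd1 (fun n => (f n).elim (fun _ => 0) c) V
      (Set.Subset.trans ?_ hV)
  rintro θ ⟨h1, h2⟩
  refine ⟨h1, fun j => ?_⟩
  obtain ⟨n, hn⟩ := hf (some j)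
  have := h2 n
  filter_upwards [this] with p hp hpp
  have h3 := hp hpp
  unfold Dv at h3
  simp only [hn] at h3
  exact h3

lemma dv1_two (μ L : ℝ) (hμ : 0 < μ) (hL : 1 < L) (c : ℕ → ℝ) (θ : ℝ)
    (ε : ℝ) (hε : 0 < ε) (hbig : ∀ᶠ p : ℕ in atTop, ε * L ^ p ≤ |θ * (μ * L ^ p) + c p|) (A : ℕ)
    (h : ∀ᶠ p : ℕ in atTop, p.Prime → Dv1 μ L c θ p) :
    ∀ᶠ p : ℕ in atTop, p.Prime → Two (p ^ A) ⌊θ * (μ * L ^ p) + c p⌋ :=
  dv_two (fun _ => μ) (fun _ => L) (fun _ => hμ) (fun _ => hL) (fun _ => c) θ 0 ε hε hbig A h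

/-- two parameters: dimension at least `1 + d` -/
theorem plane_dim {J : Type} [Countable J] (μ L : J → ℝ) (hμ : ∀ j, 0 < μ j) (hL : ∀ j, 1 < L j)
    (c : ℝ → J → ℕ → ℝ) (d : ℝ≥0) (hd0 : 0 < d) (hd1 : d < 1) :
    ((1 + d : ℝ≥0) : ℝ≥0∞) ≤ dimH {u : ℝ × ℝ | u.1 ∈ Set.Icc (0 : ℝ) 1 ∧ u.2 ∈ Set.Icc (0 : ℝ) 1 ∧
      ∀ j, ∀ᶠ p : ℕ in atTop, p.Prime → Dv1 (μ j) (L j) (c u.2 j) u.1 p} := by
  apply Pool.Agent.H541.LL.le_dimH_of_content (1 + d) (by positivity) (1 / 12 : ℝ≥0∞) (by norm_num)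
  intro V hV
  have := Pool.Agent.H541.LL.slices (d : ℝ) (by exact_mod_cast hd0) (1 / 12 : ℝ≥0∞) _ (by
    intro B hB W hW
    apply fam_content_J μ L hμ hL d (by exact_mod_cast hd0) (by exact_mod_cast hd1) (c B) W
    refine Set.Subset.trans ?_ hW
    intro θ hθ
    exact ⟨hθ.1, hB, hθ.2⟩) V hV
  simpa using this

end Pool.Agent.H541.RP
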