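import Pool.Agent.H541.RP.Content2
import Pool.Agent.H541.LL.Geo

set_option autoImplicit false

/-!
The bad events: geometry, with parameters that depend on the level.
-/

namespace Pool.Agent.H541.RP

open Finset Metric
open scoped ENNReal
open Pool.Agent.H541.LL

/-- the bad nodes of level `n` -/
def RR (Act : ℕ → Prop) (Q Dv : ℕ → Finset ℕ) {ι : Type} (lam c : ι → ℝ) (n k : ℕ) : Prop :=
  Act n ∧ ∃ i, (2 : ℝ) ^ n / 2 < lam i ∧ lam i ≤ 2 ^ n ∧ ∃ a : ℤ,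
    ((∀ p ∈ Q n, ¬ (p : ℤ) ∣ a) ∨ ∃ m ∈ Dv n, (m : ℤ) ∣ a) ∧
    ∃ θ ∈ DI n k, (a : ℝ) ≤ θ * lam i + c i ∧ θ * lam i + c i ≤ a + 1

/-- the exceptional nodes of level `e - s e` -/
def EE (Act : ℕ → Prop) (Q : ℕ → Finset ℕ) (s : ℕ → ℕ) {ι : Type} (lam c : ι → ℝ) (e j : ℕ) : Prop :=
  Act e ∧ ∃ i, (2 : ℝ) ^ e / 2 < lam i ∧ lam i ≤ 2 ^ e ∧
    2 * (rho (Q e) * ((2 ^ (s e + 1) + 2 : ℕ) : ℝ)) <
      GG (Q e) ((j : ℝ) / 2 ^ (e - s e) * lam i + c i) (((j : ℝ) + 1) / 2 ^ (e - s e) * lam i + c i)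

lemma card_multiples (m s : ℕ) (hm : 1 ≤ m) (hms : m ≤ 2 ^ s) (u v : ℝ) (huv : u ≤ v)
    (hH : v - u ≤ 2 ^ s) :
    (((Finset.Icc ⌈u - 1⌉ ⌊v⌋).filter (fun a : ℤ => (m : ℤ) ∣ a)).card : ℝ) ≤ 4 * (2 : ℝ) ^ s * (1 / m) := by
  have hmr : (0 : ℝ) < m := by exact_mod_cast (by omega : 0 < m)
  have hAB : ⌈u - 1⌉ - 1 ≤ ⌊v⌋ := by
    rw [Int.le_floor]
    push_cast
    have := Int.ceil_lt_add_one (u - 1)
    linarith
  have h1 := dev_ap m m (by omega) dvd_rfl (by omega) (⌈u - 1⌉ - 1) ⌊v⌋ hAB 0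
  unfold dev at h1
  rw [av_ap m m (by omega) dvd_rfl (by omega) 0, ← sum_filter, sum_const, nsmul_eq_mul, mul_one] at h1
  have h2 := (abs_le.1 h1).2
  have h3 : (Finset.Icc ⌈u - 1⌉ ⌊v⌋).filter (fun a : ℤ => (m : ℤ) ∣ a) =
      (Ioc (⌈u - 1⌉ - 1) ⌊v⌋).filter (fun y => (m : ℤ) ∣ y - 0) := by
    ext a
    simp only [mem_filter, mem_Icc, mem_Ioc, sub_zero]
    constructor
    · rintro ⟨⟨h1, h2⟩, h3⟩
      exact ⟨⟨by omega, h2⟩, h3⟩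
    · rintro ⟨⟨h1, h2⟩, h3⟩
      exact ⟨⟨by omega, h2⟩, h3⟩
  rw [h3]
  push_cast at h2
  have h4 := Int.le_ceil (u - 1)
  have h5 := Int.floor_le v
  have h6 : ((⌊v⌋ : ℝ) - ((⌈u - 1⌉ : ℝ) - 1)) * (1 / (m : ℝ)) ≤ (2 ^ s + 2) * (1 / (m : ℝ)) := by
    apply mul_le_mul_of_nonneg_right _ (by positivity)
    linarith
  have h7 : (1 : ℝ) ≤ 2 ^ s * (1 / (m : ℝ)) := by
    rw [mul_one_div, le_div_iff₀ hmr, one_mul]
    exact_mod_cast hms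
  have h8 : (2 : ℝ) * (1 / (m : ℝ)) ≤ 2 * (2 ^ s * (1 / (m : ℝ))) := by
    have : (1 : ℝ) ≤ 2 ^ s := one_le_pow₀ (by norm_num)
    have h9 : (1 : ℝ) * (1 / (m : ℝ)) ≤ 2 ^ s * (1 / (m : ℝ)) := by gcongr
    linarith
  nlinarith

open Classical in
lemma R_count2 (Act : ℕ → Prop) (Q Dv : ℕ → Finset ℕ) (s : ℕ → ℕ) (e : ℕ)
    (hQ : ∀ p ∈ Q e, p.Prime) (hD : ∀ m ∈ Dv e, 1 ≤ m ∧ m ≤ 2 ^ (s e))
    (hs : 1 ≤ s e) (hse : s e ≤ e) (M : ℕ) {ι : Type} (lam c : ι → ℝ)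
    (hM : ∃ F : Finset ι, F.card ≤ M ∧ ∀ i, (2 : ℝ) ^ e / 2 < lam i → lam i ≤ 2 ^ e → i ∈ F)
    (j : ℕ) (hE : ¬ EE Act Q s lam c e j) :
    (((range (2 ^ e)).filter (fun k => k / 2 ^ (s e) = j ∧ RR Act Q Dv lam c e k)).card : ℝ) ≤
      (M * (18 * rho (Q e) + 12 * ∑ m ∈ Dv e, 1 / (m : ℝ))) * 2 ^ (s e) := by
  have hρ := rho_pos (Q e) hQ
  set τ : ℝ := ∑ m ∈ Dv e, 1 / (m : ℝ) with hτ
  have hτ0 : 0 ≤ τ := sum_nonneg fun m _ => by positivity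
  by_cases hAct : Act e
  swap
  · have : (range (2 ^ e)).filter (fun k => k / 2 ^ (s e) = j ∧ RR Act Q Dv lam c e k) = ∅ := by
      apply filter_false_of_mem
      rintro k _ ⟨-, h1, -⟩
      exact hAct h1
    rw [this]
    simp only [card_empty, Nat.cast_zero]
    positivity
  obtain ⟨m0, hm0⟩ : ∃ m0, m0 = e - s e := ⟨_, rfl⟩
  have hN : e = m0 + s e := by omega
  obtain ⟨F, hF, hFn⟩ := hM
  set T := F.filter (fun i => (2 : ℝ) ^ e / 2 < lam i ∧ lam i ≤ 2 ^ e) with hT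
  have hTcard : T.card ≤ M := (card_filter_le _ _).trans hF
  set u : ι → ℝ := fun n => (j : ℝ) / 2 ^ m0 * lam n + c n with hu
  set v : ι → ℝ := fun n => ((j : ℝ) + 1) / 2 ^ m0 * lam n + c n with hv
  set W : ι → Finset ℤ := fun n => (Finset.Icc ⌈u n - 1⌉ ⌊v n⌋).filter
    (fun a => (∀ p ∈ Q e, ¬ (p : ℤ) ∣ a) ∨ ∃ m ∈ Dv e, (m : ℤ) ∣ a) with hW
  have hWle : ∀ n ∈ T, ((W n).card : ℝ) ≤ 2 * (rho (Q e) * ((2 ^ (s e + 1) + 2 : ℕ) : ℝ)) +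
      4 * (2 : ℝ) ^ (s e) * τ := by
    intro n hn
    rw [hT, mem_filter] at hn
    have hlam : 0 < lam n := lt_trans (by positivity) hn.2.1
    have h1 : W n ⊆ (Finset.Icc ⌈u n - 1⌉ ⌊v n⌋).filter (fun a => ∀ p ∈ Q e, ¬ (p : ℤ) ∣ a) ∪
        (Dv e).biUnion (fun m => (Finset.Icc ⌈u n - 1⌉ ⌊v n⌋).filter (fun a : ℤ => (m : ℤ) ∣ a)) := by
      intro a ha
      simp only [hW, mem_filter] at ha
      rw [mem_union, mem_filter, mem_biUnion]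
      rcases ha.2 with h | ⟨m, hm, h⟩
      · exact Or.inl ⟨ha.1, h⟩
      · exact Or.inr ⟨m, hm, mem_filter.2 ⟨ha.1, h⟩⟩
    have h2 : (((Finset.Icc ⌈u n - 1⌉ ⌊v n⌋).filter (fun a => ∀ p ∈ Q e, ¬ (p : ℤ) ∣ a)).card : ℝ) ≤
        2 * (rho (Q e) * ((2 ^ (s e + 1) + 2 : ℕ) : ℝ)) := by
      have h3 : (((Finset.Icc ⌈u n - 1⌉ ⌊v n⌋).filter (fun a => ∀ p ∈ Q e, ¬ (p : ℤ) ∣ a)).card : ℝ) =
          GG (Q e) (u n) (v n) := by
        rw [GG]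
        simp only [cop_one_iff]
        rw [← sum_filter, sum_const, nsmul_eq_mul, mul_one]
      rw [h3]
      by_contra hcon
      push Not at hcon
      apply hE
      refine ⟨hAct, n, hn.2.1, hn.2.2, ?_⟩
      rw [← hm0]
      exact hcon
    have hlen : v n - u n ≤ 2 ^ (s e) := by
      have h4 : v n - u n = lam n / 2 ^ m0 := by
        simp only [hu, hv]
        ring
      rw [h4, div_le_iff₀ (by positivity), ← pow_add, add_comm, ← hN]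
      exact hn.2.2
    have huv : u n ≤ v n := by
      have h4 : v n - u n = lam n / 2 ^ m0 := by
        simp only [hu, hv]
        ring
      have : 0 < lam n / 2 ^ m0 := by positivity
      linarith
    have h5 : ((((Dv e).biUnion (fun m => (Finset.Icc ⌈u n - 1⌉ ⌊v n⌋).filter
        (fun a : ℤ => (m : ℤ) ∣ a))).card : ℕ) : ℝ) ≤ 4 * (2 : ℝ) ^ (s e) * τ := by
      calc ((((Dv e).biUnion (fun m => (Finset.Icc ⌈u n - 1⌉ ⌊v n⌋).filter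
            (fun a : ℤ => (m : ℤ) ∣ a))).card : ℕ) : ℝ)
          ≤ ∑ m ∈ Dv e, ((((Finset.Icc ⌈u n - 1⌉ ⌊v n⌋).filter (fun a : ℤ => (m : ℤ) ∣ a)).card : ℕ) : ℝ) := by
            exact_mod_cast card_biUnion_le
        _ ≤ ∑ m ∈ Dv e, 4 * (2 : ℝ) ^ (s e) * (1 / m) := by
            apply sum_le_sum
            intro m hm
            exact card_multiples m (s e) (hD m hm).1 (hD m hm).2 _ _ huv hlen
        _ = 4 * (2 : ℝ) ^ (s e) * τ := by rw [← mul_sum]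
    have h6 := (card_le_card h1).trans (card_union_le _ _)
    have h7 : ((W n).card : ℝ) ≤ (((Finset.Icc ⌈u n - 1⌉ ⌊v n⌋).filter
      (fun a => ∀ p ∈ Q e, ¬ (p : ℤ) ∣ a)).card : ℝ) + ((((Dv e).biUnion (fun m =>
        (Finset.Icc ⌈u n - 1⌉ ⌊v n⌋).filter (fun a : ℤ => (m : ℤ) ∣ a))).card : ℕ) : ℝ) := by
      exact_mod_cast h6
    linarith
  set S := (range (2 ^ e)).filter (fun k => k / 2 ^ (s e) = j ∧ RR Act Q Dv lam c e k) with hS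
  -- choose a witness
  rcases S.eq_empty_or_nonempty with hSe | ⟨k0, hk0⟩
  · rw [hSe]
    simp only [card_empty, Nat.cast_zero]
    positivity
  have hι : Nonempty ι := by
    rw [hS, mem_filter] at hk0
    obtain ⟨-, -, -, n, -⟩ := hk0
    exact ⟨n⟩
  have hch : ∀ k, ∃ z : (_ : ι) × ℤ, k ∈ S → (z ∈ T.sigma W ∧
      ∃ θ ∈ DI e k, (z.2 : ℝ) ≤ θ * lam z.1 + c z.1 ∧ θ * lam z.1 + c z.1 ≤ z.2 + 1) := by
    intro k
    by_cases hk : k ∈ S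
    · rw [hS, mem_filter] at hk
      obtain ⟨hk1, hk2, hk3, n, hn1, hn2, a, ha, θ, hθ, h1, h2⟩ := hk
      refine ⟨⟨n, a⟩, fun _ => ⟨?_, θ, hθ, h1, h2⟩⟩
      have hlam : 0 < lam n := lt_trans (by positivity) hn1
      rw [mem_sigma]
      refine ⟨?_, ?_⟩
      · rw [hT, mem_filter]
        exact ⟨hFn n hn1 hn2, hn1, hn2⟩
      · simp only [hW, mem_filter, mem_Icc]
        obtain ⟨h3, h4⟩ := DI_anc m0 (s e) e k j hN hk2 hθ
        refine ⟨⟨?_, ?_⟩, ha⟩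
        · rw [Int.ceil_le]
          have h5 : (j : ℝ) / 2 ^ m0 * lam n ≤ θ * lam n := mul_le_mul_of_nonneg_right h3 hlam.le
          simp only [hu]
          linarith
        · rw [Int.le_floor]
          have h5 : θ * lam n ≤ ((j : ℝ) + 1) / 2 ^ m0 * lam n := mul_le_mul_of_nonneg_right h4 hlam.le
          simp only [hv]
          linarith
    · exact ⟨⟨hι.some, 0⟩, fun h => absurd h hk⟩
  choose f hf using hch
  have h1 : S.card ≤ 3 * (T.sigma W).card := by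
    apply card_le_mul_card_image_of_maps_to (f := f)
    · intro k hk
      exact (hf k hk).1
    · rintro ⟨n, a⟩ hz
      rw [mem_sigma] at hz
      have hn : n ∈ T := hz.1
      rw [hT, mem_filter] at hn
      have hlam : 0 < lam n := lt_trans (by positivity) hn.2.1
      apply card_three
      intro k hk l hl
      rw [mem_filter] at hk hl
      obtain ⟨-, θ, ⟨hθ1, hθ2⟩, h2, h3⟩ := hf k hk.1
      obtain ⟨-, τ', ⟨hτ1, hτ2⟩, h4, h5⟩ := hf l hl.1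
      rw [hk.2] at h2 h3
      rw [hl.2] at h4 h5
      simp only at h2 h3 h4 h5
      by_contra hcon
      push Not at hcon
      have h6 : (k : ℝ) + 3 ≤ l := by
        have : k + 3 ≤ l := by omega
        exact_mod_cast this
      have h2N : (0 : ℝ) < 2 ^ e := by positivity
      rw [div_le_iff₀ h2N] at hτ1
      rw [le_div_iff₀ h2N] at hθ2
      have h7 : 2 ≤ (τ' - θ) * 2 ^ e := by linarith
      have h8 : (τ' - θ) * lam n ≤ 1 := by linarith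
      have h9 : 0 < τ' - θ := by
        by_contra hneg
        push Not at hneg
        nlinarith
      have h10 : (τ' - θ) * (2 ^ e / 2) < (τ' - θ) * lam n := mul_lt_mul_of_pos_left hn.2.1 h9
      linarith
  have h2 : ((T.sigma W).card : ℝ) ≤ M * (2 * (rho (Q e) * ((2 ^ (s e + 1) + 2 : ℕ) : ℝ)) +
      4 * (2 : ℝ) ^ (s e) * τ) := by
    rw [card_sigma]
    push_cast
    calc ∑ n ∈ T, ((W n).card : ℝ) ≤ ∑ n ∈ T, (2 * (rho (Q e) * ((2 ^ (s e + 1) + 2 : ℕ) : ℝ)) +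
          4 * (2 : ℝ) ^ (s e) * τ) := sum_le_sum hWle
      _ = T.card * (2 * (rho (Q e) * ((2 ^ (s e + 1) + 2 : ℕ) : ℝ)) + 4 * (2 : ℝ) ^ (s e) * τ) := by
          rw [sum_const, nsmul_eq_mul]
      _ ≤ M * (2 * (rho (Q e) * ((2 ^ (s e + 1) + 2 : ℕ) : ℝ)) + 4 * (2 : ℝ) ^ (s e) * τ) := by gcongr
      _ = _ := by push_cast; ring
  have h3 : ((2 ^ (s e + 1) + 2 : ℕ) : ℝ) ≤ 3 * 2 ^ (s e) := by
    have h4 : (2 : ℝ) ≤ 2 ^ (s e) := by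
      calc (2 : ℝ) = 2 ^ 1 := by norm_num
        _ ≤ 2 ^ (s e) := pow_le_pow_right₀ (by norm_num) hs
    push_cast
    rw [pow_succ]
    linarith
  calc (S.card : ℝ) ≤ ((3 * (T.sigma W).card : ℕ) : ℝ) := by exact_mod_cast h1
    _ = 3 * ((T.sigma W).card : ℝ) := by push_cast; ring
    _ ≤ 3 * (M * (2 * (rho (Q e) * ((2 ^ (s e + 1) + 2 : ℕ) : ℝ)) + 4 * (2 : ℝ) ^ (s e) * τ)) := by gcongr
    _ ≤ 3 * (M * (2 * (rho (Q e) * (3 * 2 ^ (s e))) + 4 * (2 : ℝ) ^ (s e) * τ)) := by gcongr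
    _ = (M * (18 * rho (Q e) + 12 * τ)) * 2 ^ (s e) := by ring

open Classical in
lemma E_count2 (Act : ℕ → Prop) (Q : ℕ → Finset ℕ) (s : ℕ → ℕ) (e t r : ℕ)
    (hQ : ∀ p ∈ Q e, p.Prime) (hr : Even r) (K : ℝ) (hK : 1 ≤ K)
    (hs : 1 ≤ s e) (hse : s e ≤ e) (M : ℕ) {ι : Type} (lam c : ι → ℝ)
    (hM : ∃ F : Finset ι, F.card ≤ M ∧ ∀ i, (2 : ℝ) ^ e / 2 < lam i → lam i ≤ 2 ^ e → i ∈ F)
    (j : ℕ) :
    (((range (2 ^ (e - s e))).filter (fun k => k / 2 ^ t = j ∧ EE Act Q s lam c e k)).card : ℝ) ≤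
      eta (Q e) (s e) t M r K * 2 ^ t := by
  have hρ := rho_pos (Q e) hQ
  obtain ⟨N, hN⟩ : ∃ N, N = e - s e := ⟨_, rfl⟩
  have hNe : N + s e = e := by omega
  rw [← hN]
  set h : ℕ := 2 ^ (s e + 1) + 2 with hh
  have hh0 : (0 : ℝ) < h := by
    rw [hh]
    positivity
  obtain ⟨F, hF, hFn⟩ := hM
  set T := F.filter (fun n => (2 : ℝ) ^ (N + s e) / 2 < lam n ∧ lam n ≤ 2 ^ (N + s e)) with hT
  have hTcard : T.card ≤ M := (card_filter_le _ _).trans hF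
  set τ : ℝ := 2 * (rho (Q e) * (h : ℝ)) with hτ
  set X : ι → Finset ℕ := fun n => (range (2 ^ N)).filter (fun k => k / 2 ^ t = j ∧
      τ < GG (Q e) ((k : ℝ) / 2 ^ N * lam n + c n) (((k : ℝ) + 1) / 2 ^ N * lam n + c n)) with hX
  have hsub : (range (2 ^ N)).filter (fun k => k / 2 ^ t = j ∧ EE Act Q s lam c e k) ⊆ T.biUnion X := by
    intro k hk
    rw [mem_filter] at hk
    obtain ⟨hk1, hk2, -, n, hn1, hn2, hn3⟩ := hk
    rw [mem_biUnion]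
    refine ⟨n, ?_, ?_⟩
    · rw [hT, mem_filter, hNe]
      exact ⟨hFn n hn1 hn2, hn1, hn2⟩
    · simp only [hX, mem_filter]
      rw [← hN] at hn3
      exact ⟨hk1, hk2, hn3⟩
  have hXn : ∀ n ∈ T, ((X n).card : ℝ) ≤ 2 * Bd (Q e) (s e) t r K / 2 ^ (s e) := by
    intro n hn
    rw [hT, mem_filter] at hn
    obtain ⟨A, B, hAB, hBA, h1⟩ := X_count (Q e) (s e) t N j hs (lam n) (c n) τ hn.2.1 hn.2.2
    have h2 := count_bad (Q e) hQ r hr h K hK A B hAB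
    have h3 : (((Ioc A B).filter (fun y => τ < CC (Q e) h y)).card : ℝ) ≤ Bd (Q e) (s e) t r K := by
      rw [Bd, le_div_iff₀ (by positivity)]
      refine h2.trans ?_
      have h4 : 0 ≤ 2 * (rho (Q e) * (h : ℝ)) + 2 * ((h : ℝ) ^ 2 * kap (Q e) r K) := by
        have := kap_nonneg (Q e) r K hK
        positivity
      have h5 := mul_le_mul_of_nonneg_right hBA h4
      rw [← hh]
      linarith
    rw [le_div_iff₀ (by positivity)]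
    calc ((X n).card : ℝ) * 2 ^ (s e) ≤ 2 * (((Ioc A B).filter (fun y => τ < CC (Q e) h y)).card : ℝ) := h1
      _ ≤ 2 * Bd (Q e) (s e) t r K := by linarith
  have hB := Bd_nonneg (Q e) hQ (s e) t r K hK
  calc (((range (2 ^ N)).filter (fun k => k / 2 ^ t = j ∧ EE Act Q s lam c e k)).card : ℝ)
      ≤ ((T.biUnion X).card : ℝ) := by exact_mod_cast card_le_card hsub
    _ ≤ ∑ n ∈ T, ((X n).card : ℝ) := by exact_mod_cast card_biUnion_le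
    _ ≤ ∑ n ∈ T, 2 * Bd (Q e) (s e) t r K / 2 ^ (s e) := sum_le_sum hXn
    _ = T.card * (2 * Bd (Q e) (s e) t r K / 2 ^ (s e)) := by rw [sum_const, nsmul_eq_mul]
    _ ≤ M * (2 * Bd (Q e) (s e) t r K / 2 ^ (s e)) := by gcongr
    _ = eta (Q e) (s e) t M r K * 2 ^ t := by
      rw [eta, pow_add]
      field_simp

/-- **lower bound for the content**, parameters depending on the level -/
lemma core2 (x : ℕ → ℝ) (s t r M : ℕ → ℕ) (K : ℕ → ℝ) (Act : ℕ → Prop) (Q Dv : ℕ → Finset ℕ)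
    (g : ℕ → ℝ) (d : ℝ)
    (hg0 : g 0 = 1) (hg : ∀ n, g (n + 1) = 2 * (1 - x (n + 1)) * g n)
    (hx0 : ∀ n, 0 ≤ x n) (hx1 : ∀ n, x n < 1)
    (hQ : ∀ n, ∀ p ∈ Q n, p.Prime) (hr : ∀ n, Even (r n)) (hK : ∀ n, 1 ≤ K n)
    (hDv : ∀ n, Act n → ∀ m ∈ Dv n, 1 ≤ m ∧ m ≤ 2 ^ (s n))
    (hact : ∀ e, Act e → 1 ≤ s e ∧ 1 ≤ t e ∧ 2 * s e ≤ e ∧ s e + t e ≤ e)
    (hx : ∀ n, (open Classical in if Act (n + 1) then
        2 * (M (n + 1) * (18 * rho (Q (n + 1)) + 12 * ∑ m ∈ Dv (n + 1), 1 / (m : ℝ))) *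
          2 ^ (s (n + 1)) * g (n + 1 - s (n + 1)) else 0) +
      ∑ e ∈ Fe Act s (n + 1), 2 * eta (Q e) (s e) (t e) (M e) (r e) (K e) * 2 ^ (t e) * g (n + 1 - t e)
        ≤ x (n + 1) * g (n + 1))
    (hd0 : 0 < d) (hgd : ∀ n : ℕ, (2 : ℝ) ^ (d * n) ≤ g n)
    (ι : Type) (lam c : ι → ℝ)
    (hM : ∀ e, Act e → ∃ F : Finset ι, F.card ≤ M e ∧
      ∀ i, (2 : ℝ) ^ e / 2 < lam i → lam i ≤ 2 ^ e → i ∈ F)
    (V : ℕ → Set ℝ)
    (hV : {θ : ℝ | θ ∈ Set.Icc (0 : ℝ) 1 ∧ ∀ n, Act n → ∀ i, (2 : ℝ) ^ n / 2 < lam i → lam i ≤ 2 ^ n →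
      (∃ p ∈ Q n, (p : ℤ) ∣ ⌊θ * lam i + c i⌋) ∧ ∀ m ∈ Dv n, ¬ (m : ℤ) ∣ ⌊θ * lam i + c i⌋} ⊆ ⋃ i, V i) :
    (1 / 12 : ℝ≥0∞) ≤ ∑' i, ediam (V i) ^ d := by
  classical
  refine content2 x (fun e => M e * (18 * rho (Q e) + 12 * ∑ m ∈ Dv e, 1 / (m : ℝ)))
    (fun e => eta (Q e) (s e) (t e) (M e) (r e) (K e)) s t Act (RR Act Q Dv lam c) (EE Act Q s lam c)
    g d hg0 hg hx0 hx1 ?_ ?_ hact ?_ ?_ ?_ ?_ ?_ hd0 hgd _ ?_ V hV
  · intro n
    have := rho_pos (Q n) (hQ n)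
    have h2 : (0 : ℝ) ≤ ∑ m ∈ Dv n, 1 / (m : ℝ) := sum_nonneg fun m _ => by positivity
    positivity
  · intro n
    have := Bd_nonneg (Q n) (hQ n) (s n) (t n) (r n) (K n) (hK n)
    simp only [eta]
    positivity
  · intro n
    convert hx n using 4
  · rintro n k ⟨h, -⟩
    exact h
  · rintro n k ⟨h, -⟩
    exact h
  · intro e j he _ hE
    have h1 := hact e he
    exact R_count2 Act Q Dv s e (hQ e) (hDv e he) h1.1 (by omega) (M e) lam c (hM e he) j hE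
  · intro e j he _
    have h1 := hact e he
    exact E_count2 Act Q s e (t e) (r e) (hQ e) (hr e) (K e) (hK e) h1.1 (by omega) (M e) lam c (hM e he) j
  · intro θ hθ
    constructor
    · obtain ⟨k, hk1, -, hk3⟩ := hθ 0
      have : k = 0 := by simpa using hk1
      subst this
      simpa [DI] using hk3
    intro n hn i hi1 hi2
    obtain ⟨k, -, hk2, hk3⟩ := hθ n
    by_contra hcon
    apply hk2
    refine ⟨hn, i, hi1, hi2, ⌊θ * lam i + c i⌋, ?_, θ, hk3, Int.floor_le _,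
      (Int.lt_floor_add_one _).le⟩
    by_contra hcon2
    push Not at hcon2
    exact hcon ⟨hcon2.1, hcon2.2⟩

end Pool.Agent.H541.RP
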