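import Pool.Agent.H541.RP.Stm

/-!
# Reversed primes: assembly (helper541)
-/

set_option autoImplicit false

namespace Pool.Agent.H541.RP

open Finset Filter Topology Pool.Agent.Helper112
open scoped Pointwise

/-- primes with exactly `L` digits -/
def PL (b L : ℕ) : Finset ℕ := (Ico (b ^ (L - 1)) (b ^ L)).filter Nat.Prime

theorem energy_bound (hP : S_prod) (hS : S_sieve) (hE : S_err) (hEn : S_energy) (hX : S_expand)
    (h2 : S_second) (hR : S_rv) {b : ℕ} (hb : 2 ≤ b) :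
    ∃ (C : ℝ) (L0 : ℕ), 0 < C ∧ ∀ L : ℕ, L0 ≤ L →
      (addEnergy ((PL b L).image (rv b L)) ((PL b L).image (rv b L)) : ℝ) ≤
        C * ((b : ℝ) ^ L) ^ 3 / (L : ℝ) ^ 4 := by
  obtain ⟨r, hr0, hr1, hprod⟩ := hP b hb
  obtain ⟨J, hJ, herr⟩ := hE b r hb hr0 hr1
  have hm0 : b ^ 3 - b ≠ 0 := by
    have h1 : b ^ 1 < b ^ 3 := Nat.pow_lt_pow_right (by omega) (by omega)
    rw [pow_one] at h1
    omega
  have hm2 : 2 ∣ b ^ 3 - b := by
    have h1 : b ≤ b ^ 3 := Nat.le_self_pow (by norm_num) b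
    rcases Nat.even_or_odd b with h | h
    · exact (Nat.even_sub h1).2 (by simp [h, Nat.even_pow]) |>.two_dvd
    · exact (Nat.even_sub h1).2 (by simp [Nat.even_pow]) |>.two_dvd
  obtain ⟨C, z0, hC, hz02, hsv⟩ := hS (b ^ 3 - b) hm0 hm2
  obtain ⟨L1, hL1⟩ := herr 40
  have hbR : (2 : ℝ) ≤ b := by exact_mod_cast hb
  have hlb : 0 < Real.log b := Real.log_pos (by linarith)
  obtain ⟨K, hK⟩ : ∃ K : ℝ, K = 2 * J * C / Real.log b := ⟨_, rfl⟩
  have hJR : (96 : ℝ) ≤ J := by exact_mod_cast hJ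
  have hK0 : 0 < K := by rw [hK]; positivity
  obtain ⟨L2, hL2⟩ := exists_nat_ge K
  refine ⟨8 * K ^ 4 + 64 * (1 + Real.log b) ^ 64, max L1 (max (J * z0) (max (2 * J) L2)), by positivity,
    fun L hL => ?_⟩
  have g1 : L1 ≤ L := (le_max_left _ _).trans hL
  have g2 : J * z0 ≤ L := ((le_max_left _ _).trans (le_max_right _ _)).trans hL
  have g3 : 2 * J ≤ L := ((le_max_left _ _).trans ((le_max_right _ _).trans (le_max_right _ _))).trans hL
  have g4 : L2 ≤ L := ((le_max_right _ _).trans ((le_max_right _ _).trans (le_max_right _ _))).trans hL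
  have hKL : K ≤ L := hL2.trans (by exact_mod_cast g4)
  obtain ⟨t, ht⟩ : ∃ t : ℕ, t = L / J := ⟨_, rfl⟩
  have hJ0 : 0 < J := by omega
  have htz : z0 ≤ t := by
    rw [ht, Nat.le_div_iff_mul_le hJ0]
    linarith [Nat.mul_comm J z0]
  have ht1 : 2 ≤ t := hz02.trans htz
  have htL : J * t ≤ L := by rw [ht]; exact Nat.mul_div_le L J
  have htL2 : L < J * (t + 1) := by
    rw [ht]
    exact Nat.lt_mul_div_succ L hJ0
  have h96 : 96 * t ≤ L := (Nat.mul_le_mul_right t hJ).trans htL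
  obtain ⟨z, hz⟩ : ∃ z : ℕ, z = b ^ t := ⟨_, rfl⟩
  have hzt : t < z := by rw [hz]; exact Nat.lt_pow_self (by omega)
  obtain ⟨c, c1, c2, c3, c4, c5, c6⟩ := hsv z (by omega)
  have hD : z ^ 16 = b ^ (16 * t) := by rw [hz, ← pow_mul, mul_comm]
  have hLR : (192 : ℝ) ≤ L := by
    have : 192 ≤ L := by omega
    exact_mod_cast this
  have hL0 : (0 : ℝ) < L := by linarith
  obtain ⟨V, hV⟩ : ∃ V : ℝ, V = ∑ l ∈ Icc 1 (z ^ 16), c l / l := ⟨_, rfl⟩
  rw [← hV] at c5 c6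
  have hlz : Real.log z = t * Real.log b := by
    rw [hz]
    push_cast
    rw [Real.log_pow]
  have htR : (2 : ℝ) ≤ t := by exact_mod_cast ht1
  have htLR : (L : ℝ) ≤ 2 * J * t := by
    have h1 : (L : ℝ) ≤ J * (t + 1) := by exact_mod_cast htL2.le
    nlinarith
  have hVK : V ≤ K / L := by
    refine c6.trans ?_
    rw [hlz, hK, div_div, div_le_div_iff₀ (by positivity) (by positivity)]
    have := mul_le_mul_of_nonneg_left htLR (show 0 ≤ C * Real.log b by positivity)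
    nlinarith
  have hV1 : |V| ≤ 1 := by
    rw [abs_of_nonneg c5]
    refine hVK.trans ?_
    rw [div_le_one hL0]
    exact hKL
  obtain ⟨rv1, rv2, -⟩ := hR b hb L
  have hX1 : 1 ≤ b ^ L := Nat.one_le_pow _ _ (by omega)
  obtain ⟨σ, hσ⟩ : ∃ σ : ℝ, σ = 1 / (L : ℝ) ^ 40 := ⟨_, rfl⟩
  have hσ0 : 0 ≤ σ := by rw [hσ]; positivity
  have key := hEn (b ^ L) (rv b L) (PL b L) (fun n => ∑ l ∈ (Icc 1 (z ^ 16)).filter (fun l => l ∣ n), c l)
    V σ hX1 rv2 rv1 (by
      intro n hn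
      unfold PL at hn
      rw [mem_filter, mem_Ico] at hn
      exact mem_range.2 hn.1.2) c3 (by
      intro n hn
      unfold PL at hn
      rw [mem_filter, mem_Ico] at hn
      refine c4 n hn.2 (le_trans ?_ hn.1.1)
      rw [hz]
      exact Nat.pow_le_pow_right (by omega) (by omega)) c5 hσ0 (by
      intro α
      have e1 := hX (b ^ L) (z ^ 16) (rv b L) c α
      rw [← hV] at e1
      refine e1.trans ?_
      have e2 := hL1 L g1
      rw [← ht, ← hD] at e2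
      have e3 : ∑ l ∈ Icc 1 (z ^ 16), |c l| / l * ∑ h ∈ Ico 1 l,
          ‖∑ n ∈ range (b ^ L), ee ((h : ℝ) / l * n + α * rv b L n)‖ ≤
          ∑ l ∈ (Icc 1 (z ^ 16)).filter (fun l => l.Coprime (b ^ 3 - b)), |c l| / l * ∑ h ∈ Ico 1 l,
          ‖∑ n ∈ range (b ^ L), ee ((h : ℝ) / l * n + α * rv b L n)‖ := by
        rw [sum_filter]
        apply le_of_eq
        refine sum_congr rfl fun l _ => ?_
        split_ifs with hc
        · rfl
        · have : c l = 0 := by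
            by_contra hcl
            exact hc (c1 l hcl).2.2
          rw [this]
          simp
      refine e3.trans ?_
      have e4 : ∀ l ∈ (Icc 1 (z ^ 16)).filter (fun l => l.Coprime (b ^ 3 - b)), |c l| / l * ∑ h ∈ Ico 1 l,
          ‖∑ n ∈ range (b ^ L), ee ((h : ℝ) / l * n + α * rv b L n)‖ ≤
          (b : ℝ) ^ L * ((l.divisors.card : ℝ) ^ 2 / l * ∑ h ∈ Ico 1 l,
            AA r (b ^ 8) (L / 8) (((b : ℝ) ^ 2 - 1) * ((h : ℝ) / l))) := by
        intro l _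
        have e5 : ∑ h ∈ Ico 1 l, ‖∑ n ∈ range (b ^ L), ee ((h : ℝ) / l * n + α * rv b L n)‖ ≤
            (b : ℝ) ^ L * ∑ h ∈ Ico 1 l, AA r (b ^ 8) (L / 8) (((b : ℝ) ^ 2 - 1) * ((h : ℝ) / l)) := by
          rw [mul_sum]
          exact sum_le_sum fun h _ => hprod L _ α
        have e6 : 0 ≤ ∑ h ∈ Ico 1 l, ‖∑ n ∈ range (b ^ L), ee ((h : ℝ) / l * n + α * rv b L n)‖ :=
          sum_nonneg fun _ _ => norm_nonneg _
        calc |c l| / l * ∑ h ∈ Ico 1 l, ‖∑ n ∈ range (b ^ L), ee ((h : ℝ) / l * n + α * rv b L n)‖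
            ≤ (l.divisors.card : ℝ) ^ 2 / l * ((b : ℝ) ^ L * ∑ h ∈ Ico 1 l,
              AA r (b ^ 8) (L / 8) (((b : ℝ) ^ 2 - 1) * ((h : ℝ) / l))) := by
              apply mul_le_mul _ e5 e6 (by positivity)
              have := c2 l
              gcongr
          _ = _ := by ring
      refine (sum_le_sum e4).trans ?_
      rw [← mul_sum, mul_comm]
      push_cast
      refine mul_le_mul_of_nonneg_right ?_ (by positivity)
      rw [hσ]
      exact e2)
  refine key.trans ?_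
  have hD6 : (z ^ 16) ^ 6 ≤ b ^ L := by
    rw [hD, ← pow_mul]
    exact Nat.pow_le_pow_right (by omega) (by omega)
  have hz1 : 1 ≤ z ^ 16 := Nat.one_le_pow _ _ (by omega)
  have k1 := h2 (b ^ L) (z ^ 16) c V hz1 hD6 c2 hV1
  push_cast at k1 ⊢
  rw [Real.log_pow] at k1
  obtain ⟨X, hXd⟩ : ∃ X : ℝ, X = (b : ℝ) ^ L := ⟨_, rfl⟩
  have hX0 : 0 < X := by rw [hXd]; positivity
  rw [← hXd] at k1 ⊢
  have k2 : 1 + L * Real.log b ≤ L * (1 + Real.log b) := by nlinarith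
  have k3 : (1 + L * Real.log b) ^ 64 ≤ (L * (1 + Real.log b)) ^ 64 :=
    pow_le_pow_left₀ (by positivity) k2 64
  have k4 : 8 * V ^ 4 * X ^ 3 ≤ 8 * (K / L) ^ 4 * X ^ 3 := by
    have := pow_le_pow_left₀ c5 hVK 4
    gcongr
  have k5 : 8 * σ ^ 2 * X ^ 2 * ∑ n ∈ range (b ^ L),
      ((∑ l ∈ (Icc 1 (z ^ 16)).filter (fun l => l ∣ n), c l) - V) ^ 2 ≤
      8 * σ ^ 2 * X ^ 2 * (8 * X * (L * (1 + Real.log b)) ^ 64) := by
    apply mul_le_mul_of_nonneg_left _ (by positivity)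
    refine k1.trans ?_
    gcongr
  refine (add_le_add k4 k5).trans ?_
  have k6 : 8 * σ ^ 2 * X ^ 2 * (8 * X * (L * (1 + Real.log b)) ^ 64) =
      64 * (1 + Real.log b) ^ 64 * X ^ 3 / (L : ℝ) ^ 16 := by
    rw [hσ]
    have hne : (L : ℝ) ≠ 0 := hL0.ne'
    generalize (1 + Real.log b) = y
    generalize (L : ℝ) = x at hne
    field_simp
    ring
  have k7 : 64 * (1 + Real.log b) ^ 64 * X ^ 3 / (L : ℝ) ^ 16 ≤ 64 * (1 + Real.log b) ^ 64 * X ^ 3 / (L : ℝ) ^ 4 := by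
    apply div_le_div_of_nonneg_left (by positivity) (by positivity)
    exact pow_le_pow_right₀ (by linarith) (by norm_num)
  rw [k6]
  refine (add_le_add_right k7 _).trans (le_of_eq ?_)
  rw [div_pow]
  ring

/-- the reversed primes -/
def RPr (b : ℕ) : Set ℕ := {x : ℕ | ∃ p : ℕ, p.Prime ∧ x = Nat.ofDigits b (Nat.digits b p).reverse}

/-- small reversed primes -/
theorem small_rp {b : ℕ} (hb : 2 ≤ b) : 1 ∈ RPr b ∨ (2 ∈ RPr b ∧ 3 ∈ RPr b) := by
  unfold RPr
  rcases Nat.lt_or_ge b 4 with h4 | h4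
  · left
    have h5 : b = 2 ∨ b = 3 := by omega
    rcases h5 with rfl | rfl
    · exact ⟨2, Nat.prime_two, by norm_num [Nat.ofDigits]⟩
    · exact ⟨3, Nat.prime_three, by norm_num [Nat.ofDigits]⟩
  · right
    refine ⟨⟨2, Nat.prime_two, ?_⟩, ⟨3, Nat.prime_three, ?_⟩⟩
    · rw [Nat.digits_of_lt b 2 (by norm_num) (by omega)]
      simp
    · rw [Nat.digits_of_lt b 3 (by norm_num) (by omega)]
      simp

/-- the sums of two reversed primes have positive lower density -/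
theorem dens2 (hP : S_prod) (hS : S_sieve) (hE : S_err) (hEn : S_energy) (hX : S_expand)
    (h2 : S_second) (hR : S_rv) (hp : S_primes) {b : ℕ} (hb : 2 ≤ b) :
    ∃ (c : ℝ) (N0 : ℕ), 0 < c ∧ ∀ N : ℕ, N0 ≤ N → ∃ T : Finset ℕ,
      (∀ m ∈ T, 1 ≤ m ∧ m ≤ N ∧ ∃ x ∈ RPr b, ∃ y ∈ RPr b, x + y = m) ∧ c * N ≤ (T.card : ℝ) := by
  obtain ⟨C, L1, hC, hen⟩ := energy_bound hP hS hE hEn hX h2 hR hb
  obtain ⟨c, L2, hc, hpr⟩ := hp b hb
  have hbR : (2 : ℝ) ≤ b := by exact_mod_cast hb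
  · refine ⟨c ^ 4 / C / (2 * b), 2 * b ^ (L1 + L2 + 1), by positivity, fun N hN => ?_⟩
    obtain ⟨L, hL⟩ : ∃ L : ℕ, L = Nat.log b (N / 2) := ⟨_, rfl⟩
    have hpos : 0 < b ^ (L1 + L2 + 1) := by positivity
    have hN2 : b ^ (L1 + L2 + 1) ≤ N / 2 := by omega
    have hN0 : N / 2 ≠ 0 := by omega
    have hLL : L1 + L2 + 1 ≤ L := by
      rw [hL]
      exact Nat.le_log_of_pow_le (by omega) hN2
    have hl1 : b ^ L ≤ N / 2 := by rw [hL]; exact Nat.pow_log_le_self b hN0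
    have hl2 : N / 2 < b ^ (L + 1) := by rw [hL]; exact Nat.lt_pow_succ_log_self (by omega) _
    obtain ⟨rv1, rv2, -⟩ := hR b hb L
    obtain ⟨-, -, rv3⟩ := hR b hb (L - 1)
    have hL1' : L - 1 + 1 = L := by omega
    rw [hL1'] at rv3
    obtain ⟨s, hs⟩ : ∃ s : Finset ℕ, s = (PL b L).image (rv b L) := ⟨_, rfl⟩
    have hsub : ∀ x ∈ s, 1 ≤ x ∧ x < b ^ L ∧ ∃ p : ℕ, p.Prime ∧ x = Nat.ofDigits b (Nat.digits b p).reverse := by
      intro x hx
      rw [hs, mem_image] at hx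
      obtain ⟨p, hp1, rfl⟩ := hx
      unfold PL at hp1
      rw [mem_filter, mem_Ico] at hp1
      refine ⟨?_, rv1 p hp1.1.2, p, hp1.2, rv3 p hp1.1.1 hp1.1.2⟩
      by_contra hcon
      have h0 : rv b L p = 0 := by omega
      have h00 : ∀ K : ℕ, rv b K 0 = 0 := by
        intro K
        induction K with
        | zero => rfl
        | succ K ih =>
          show (0 % b) * b ^ K + rv b K (0 / b) = 0
          rw [Nat.zero_mod, Nat.zero_div, ih, zero_mul]
      have h1 : p = 0 := by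
        refine rv2 ?_ ?_ (h0.trans (h00 L).symm)
        · exact mem_coe.2 (mem_range.2 hp1.1.2)
        · exact mem_coe.2 (mem_range.2 (by positivity))
      exact hp1.2.ne_zero h1
    have hcard : s.card = (PL b L).card := by
      rw [hs]
      apply card_image_of_injOn
      intro x hx y hy hxy
      refine rv2 ?_ ?_ hxy
      · rw [mem_coe] at hx ⊢
        unfold PL at hx
        rw [mem_filter, mem_Ico] at hx
        exact mem_range.2 hx.1.2
      · rw [mem_coe] at hy ⊢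
        unfold PL at hy
        rw [mem_filter, mem_Ico] at hy
        exact mem_range.2 hy.1.2
    have hLpos : (0 : ℝ) < L := by
      have : 0 < L := by omega
      exact_mod_cast this
    have e1 : c * (b : ℝ) ^ L / L ≤ s.card := by
      rw [hcard]
      exact hpr L (by omega)
    have e2 := hen L (by omega)
    rw [← hs] at e2
    have e3 : (s.card : ℝ) ^ 2 * (s.card : ℝ) ^ 2 ≤ ((s + s).card : ℝ) * (addEnergy s s : ℝ) := by
      exact_mod_cast le_card_add_mul_addEnergy s s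
    refine ⟨s + s, ?_, ?_⟩
    · intro m hm
      rw [Finset.mem_add] at hm
      obtain ⟨x, hx, y, hy, rfl⟩ := hm
      obtain ⟨x1, x2, x3⟩ := hsub x hx
      obtain ⟨y1, y2, y3⟩ := hsub y hy
      exact ⟨by omega, by omega, x, x3, y, y3, rfl⟩
    · obtain ⟨X, hX⟩ : ∃ X : ℝ, X = (b : ℝ) ^ L := ⟨_, rfl⟩
      rw [← hX] at e1 e2
      have hX0 : 0 < X := by rw [hX]; positivity
      have hcnn : (0 : ℝ) ≤ ((s + s).card : ℝ) := Nat.cast_nonneg _
      have e4 : (c * X / L) ^ 4 ≤ (s.card : ℝ) ^ 2 * (s.card : ℝ) ^ 2 := by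
        have := pow_le_pow_left₀ (by positivity) e1 4
        calc (c * X / L) ^ 4 ≤ (s.card : ℝ) ^ 4 := this
          _ = _ := by ring
      have e5 : (c * X / L) ^ 4 ≤ ((s + s).card : ℝ) * (C * X ^ 3 / (L : ℝ) ^ 4) :=
        e4.trans (e3.trans (mul_le_mul_of_nonneg_left e2 hcnn))
      have e6 : c ^ 4 / C * X ≤ ((s + s).card : ℝ) := by
        have h1 : (c * X / L) ^ 4 = (c ^ 4 / C * X) * (C * X ^ 3 / (L : ℝ) ^ 4) := by
          field_simp
        rw [h1] at e5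
        exact le_of_mul_le_mul_right e5 (by positivity)
      refine le_trans ?_ e6
      have h7 : (N : ℝ) ≤ 2 * b * X := by
        have : N ≤ 2 * b ^ (L + 1) := by omega
        have h8 : (N : ℝ) ≤ 2 * (b : ℝ) ^ (L + 1) := by exact_mod_cast this
        rw [pow_succ, ← hX] at h8
        linarith
      calc c ^ 4 / C / (2 * b) * N ≤ c ^ 4 / C / (2 * b) * (2 * b * X) := by
            exact mul_le_mul_of_nonneg_left h7 (by positivity)
        _ = _ := by field_simp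

theorem main (hP : S_prod) (hS : S_sieve) (hE : S_err) (hEn : S_energy) (hX : S_expand)
    (h2 : S_second) (hR : S_rv) (hp : S_primes) (hsc : S_schnir) (b : ℕ) (hb : 2 ≤ b) :
    ∃ K N0 : ℕ, ∀ N : ℕ, N0 ≤ N → ∃ l : List ℕ,
      (∀ x ∈ l, x ∈ RPr b) ∧ l.length ≤ K ∧ l.sum = N :=
  hsc (RPr b) (small_rp hb) (dens2 hP hS hE hEn hX h2 hR hp hb)

end Pool.Agent.H541.RP
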