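import Mathlib

set_option autoImplicit false

/-!
Smooth divisors.
-/

namespace Pool.Agent.H541.RP

open Finset

/-- a completely multiplicative weight -/
noncomputable def wt : ℕ →* ℝ where
  toFun m := if m = 0 then 0 else (3 / 2 : ℝ) ^ (m.primeFactorsList.length) / m
  map_one' := by simp
  map_mul' m n := by
    by_cases hm : m = 0
    · simp [hm]
    by_cases hn : n = 0
    · simp [hn]
    rw [if_neg (Nat.mul_ne_zero hm hn), if_neg hm, if_neg hn]
    have h := (Nat.perm_primeFactorsList_mul hm hn).length_eq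
    rw [List.length_append] at h
    rw [h, pow_add]
    push_cast
    field_simp

lemma wt_apply (m : ℕ) (hm : m ≠ 0) : wt m = (3 / 2 : ℝ) ^ (m.primeFactorsList.length) / m := by
  have : wt m = if m = 0 then 0 else (3 / 2 : ℝ) ^ (m.primeFactorsList.length) / m := rfl
  rw [this, if_neg hm]

lemma wt_nonneg (m : ℕ) : 0 ≤ wt m := by
  have : wt m = if m = 0 then 0 else (3 / 2 : ℝ) ^ (m.primeFactorsList.length) / m := rfl
  rw [this]
  split_ifs
  · exact le_rfl
  · positivity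

lemma wt_prime (p : ℕ) (hp : p.Prime) : wt p = 3 / 2 / p := by
  rw [wt_apply p hp.ne_zero, Nat.primeFactorsList_prime hp]
  simp

lemma euler_factor (p : ℕ) (hp : p.Prime) : (1 - wt p)⁻¹ ≤ Real.exp (3 * (1 / (p : ℝ))) := by
  rw [wt_prime p hp]
  have hp2 : (2 : ℝ) ≤ p := by exact_mod_cast hp.two_le
  have h34 : 3 / 2 / (p : ℝ) ≤ 3 / 4 := by
    rw [div_le_iff₀ (by linarith)]
    linarith
  rw [inv_le_iff_one_le_mul₀ (by linarith)]
  rcases Nat.lt_or_ge p 3 with h | h
  · have : p = 2 := le_antisymm (by omega) hp.two_le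
    subst this
    have h1 : Real.exp (3 * (1 / ((2 : ℕ) : ℝ))) = Real.exp 1 * Real.exp (1 / 2) := by
      rw [← Real.exp_add]
      norm_num
    rw [h1]
    have h2 := Real.exp_one_gt_d9
    have h3 := Real.add_one_le_exp (1 / 2 : ℝ)
    have h4 : (4 : ℝ) ≤ Real.exp 1 * Real.exp (1 / 2) := by
      calc (4 : ℝ) ≤ 2.7182818283 * (1 / 2 + 1) := by norm_num
        _ ≤ Real.exp 1 * Real.exp (1 / 2) := by gcongr
    have h5 : (1 : ℝ) - 3 / 2 / ((2 : ℕ) : ℝ) = 1 / 4 := by norm_num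
    rw [h5]
    linarith
  · have h3 : (3 : ℝ) ≤ p := by exact_mod_cast h
    have h4 : 3 / 2 / (p : ℝ) ≤ 1 / 2 := by
      rw [div_le_iff₀ (by linarith)]
      linarith
    have h5 : 0 < 3 / 2 / (p : ℝ) := by positivity
    have h6 : 3 * (1 / (p : ℝ)) = 2 * (3 / 2 / (p : ℝ)) := by
      field_simp
    rw [h6]
    set u := 3 / 2 / (p : ℝ)
    have h7 := Real.add_one_le_exp (2 * u)
    calc (1 : ℝ) ≤ (2 * u + 1) * (1 - u) := by nlinarith
      _ ≤ Real.exp (2 * u) * (1 - u) := by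
        apply mul_le_mul_of_nonneg_right h7
        linarith

lemma smooth_sum (y : ℕ) (F : Finset ℕ) (hF : ∀ m ∈ F, 1 ≤ m ∧ ∀ p, p.Prime → p ∣ m → p ≤ y) :
    ∑ m ∈ F, (3 / 2 : ℝ) ^ (m.primeFactorsList.length) / m ≤
      Real.exp (3 * ∑ p ∈ (Finset.Icc 1 y).filter Nat.Prime, 1 / (p : ℝ)) := by
  have h1 := (EulerProduct.summable_and_hasSum_smoothNumbers_prod_primesBelow_geometric (f := wt) (by
    intro p hp
    rw [wt_prime p hp, Real.norm_eq_abs, abs_of_nonneg (by positivity)]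
    have hp2 : (2 : ℝ) ≤ p := by exact_mod_cast hp.two_le
    rw [div_lt_iff₀ (by linarith)]
    linarith) (y + 1)).2
  have h2 : HasSum ((Nat.smoothNumbers (y + 1)).indicator (fun m => wt m))
      (∏ p ∈ (y + 1).primesBelow, (1 - wt p)⁻¹) := by
    rw [← hasSum_subtype_iff_indicator]
    exact h1
  have h3 : ∑ m ∈ F, (3 / 2 : ℝ) ^ (m.primeFactorsList.length) / m =
      ∑ m ∈ F, (Nat.smoothNumbers (y + 1)).indicator (fun m => wt m) m := by
    apply sum_congr rfl
    intro m hm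
    obtain ⟨h4, h5⟩ := hF m hm
    rw [Set.indicator_of_mem, wt_apply m (by omega)]
    rw [Nat.mem_smoothNumbers']
    intro p hp hpm
    have := h5 p hp hpm
    omega
  rw [h3]
  refine (sum_le_hasSum F (fun m _ => Set.indicator_nonneg (fun m _ => wt_nonneg m) m) h2).trans ?_
  have h4 : (y + 1).primesBelow = (Finset.Icc 1 y).filter Nat.Prime := by
    ext p
    rw [Nat.mem_primesBelow, mem_filter, mem_Icc]
    constructor
    · rintro ⟨h5, h6⟩
      exact ⟨⟨h6.pos, by omega⟩, h6⟩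
    · rintro ⟨⟨_, h5⟩, h6⟩
      exact ⟨by omega, h6⟩
  rw [h4, mul_sum, Real.exp_sum]
  apply prod_le_prod
  · intro p hp
    have hp' := (mem_filter.1 hp).2
    rw [wt_prime p hp']
    have hp2 : (2 : ℝ) ≤ p := by exact_mod_cast hp'.two_le
    have h34 : 3 / 2 / (p : ℝ) ≤ 3 / 4 := by
      rw [div_le_iff₀ (by linarith)]
      linarith
    have : 0 < 1 - 3 / 2 / (p : ℝ) := by linarith
    positivity
  · intro p hp
    exact euler_factor p (mem_filter.1 hp).2

lemma le_pow_Omega (y m : ℕ) (hm : m ≠ 0) (h : ∀ p, p.Prime → p ∣ m → p ≤ y) :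
    m ≤ y ^ (m.primeFactorsList.length) := by
  conv_lhs => rw [← Nat.prod_primeFactorsList hm]
  apply List.prod_le_pow_card
  intro p hp
  exact h p (Nat.prime_of_mem_primeFactorsList hp) (Nat.dvd_of_mem_primeFactorsList hp)

lemma exists_divisor (y Y : ℕ) (hY : 1 ≤ Y) : ∀ m : ℕ, Y ≤ m → (∀ p, p.Prime → p ∣ m → p ≤ y) →
    ∃ d, d ∣ m ∧ Y ≤ d ∧ (d ≤ Y * y ∨ d ≤ Y) := by
  intro m
  induction m using Nat.strong_induction_on with
  | _ m ih =>
    intro hm hp
    rcases Nat.lt_or_ge Y m with h0 | h0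
    swap
    · exact ⟨m, dvd_rfl, hm, Or.inr h0⟩
    rcases Nat.lt_or_ge (Y * y) m with h | h
    · have hm1 : m ≠ 1 := by omega
      have hq := Nat.minFac_prime hm1
      have hqy := hp _ hq (Nat.minFac_dvd m)
      have hlt : m / m.minFac < m := Nat.div_lt_self (by omega) hq.one_lt
      have hge : Y ≤ m / m.minFac := by
        rw [Nat.le_div_iff_mul_le hq.pos]
        have : Y * m.minFac ≤ Y * y := Nat.mul_le_mul_left _ hqy
        omega
      have hdvd : m / m.minFac ∣ m := Nat.div_dvd_of_dvd (Nat.minFac_dvd m)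
      obtain ⟨d, hd1, hd2, hd3⟩ := ih _ hlt hge (fun p hp1 hp2 => hp p hp1 (hp2.trans hdvd))
      exact ⟨d, hd1.trans hdvd, hd2, hd3⟩
    · exact ⟨m, dvd_rfl, hm, Or.inl h⟩

end Pool.Agent.H541.RP
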