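import Pool.Agent.H541.RP.Facts
import Pool.Agent.H541.RP.Smooth
import Pool.Agent.H541.RP.Geo2
import Pool.Agent.H541.LL.Param

set_option autoImplicit false

/-!
The parameters at level `n`.
-/

namespace Pool.Agent.H541.RP

open Finset
open Pool.Agent.H541.LL

/-- short lag -/
def sN (n : ℕ) : ℕ := Nat.sqrt n
/-- fourth root -/
def wN (n : ℕ) : ℕ := Nat.sqrt (Nat.sqrt n)
/-- binary logarithm -/
def lN (n : ℕ) : ℕ := Nat.log 2 n
/-- lower end of the sieving range -/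
def yN (α n : ℕ) : ℕ := n ^ α
/-- sieving primes -/
def QN (α n : ℕ) : Finset ℕ := (Finset.Ioc (yN α n) ((yN α n) ^ (sN n))).filter Nat.Prime
/-- truncation -/
def rN (n : ℕ) : ℕ := 2 * wN n
/-- weight -/
noncomputable def KN (n : ℕ) : ℝ := 2 ^ (lN n / 8)
/-- long lag -/
def tN (α n : ℕ) : ℕ := 4 * rN n * sN n * α * (lN n + 1)

open Classical in
/-- smooth numbers of medium size -/
noncomputable def DN (α n : ℕ) : Finset ℕ :=
  (Finset.Icc (2 ^ (sN n / 2)) (2 ^ (sN n))).filter (fun m => ∀ p, p.Prime → p ∣ m → p ≤ yN α n)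

lemma mem_DN (α n m : ℕ) : m ∈ DN α n ↔
    (2 ^ (sN n / 2) ≤ m ∧ m ≤ 2 ^ (sN n)) ∧ ∀ p, p.Prime → p ∣ m → p ≤ yN α n := by
  classical
  unfold DN
  rw [mem_filter, mem_Icc]

lemma QN_prime (α n : ℕ) : ∀ p ∈ QN α n, p.Prime := fun _ hp => (mem_filter.1 hp).2

/-- the reciprocal sum over a range of primes -/
lemma Lam (C : ℝ) (hC : ∀ z : ℕ, 3 ≤ z →
      |∑ p ∈ (Finset.Icc 1 z).filter Nat.Prime, 1 / (p : ℝ) - Real.log (Real.log z)| ≤ C)
    (y s : ℕ) (hy : 3 ≤ y) (hs : 1 ≤ s) :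
    |∑ p ∈ (Finset.Ioc y (y ^ s)).filter Nat.Prime, 1 / (p : ℝ) - Real.log s| ≤ 2 * C := by
  have hys : y ≤ y ^ s := Nat.le_self_pow (by omega) y
  have h1 := hC y hy
  have h2 := hC (y ^ s) (hy.trans hys)
  have h3 : (Finset.Icc 1 (y ^ s)).filter Nat.Prime = (Finset.Icc 1 y).filter Nat.Prime ∪
      (Finset.Ioc y (y ^ s)).filter Nat.Prime := by
    rw [← filter_union]
    congr 1
    ext a
    simp only [mem_Icc, mem_union, mem_Ioc]
    omega
  have h4 : Disjoint ((Finset.Icc 1 y).filter Nat.Prime) ((Finset.Ioc y (y ^ s)).filter Nat.Prime) := by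
    apply disjoint_filter_filter
    rw [disjoint_left]
    intro a ha hb
    rw [mem_Icc] at ha
    rw [mem_Ioc] at hb
    omega
  rw [h3, sum_union h4] at h2
  have hy0 : (3 : ℝ) ≤ y := by exact_mod_cast hy
  have hlog : 0 < Real.log y := Real.log_pos (by linarith)
  have hs0 : (0 : ℝ) < s := by exact_mod_cast hs
  have h5 : Real.log (Real.log ((y ^ s : ℕ) : ℝ)) = Real.log s + Real.log (Real.log y) := by
    push_cast
    rw [Real.log_pow, Real.log_mul hs0.ne' hlog.ne']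
  rw [h5] at h2
  rw [abs_le] at *
  constructor <;> linarith

/-- relations between the parameters -/
lemma rel (n : ℕ) (hn : 100 ≤ n) (hl : 64 ≤ lN n) (hlw : 64 * (lN n + 1) ^ 2 ≤ wN n) :
    wN n * wN n ≤ sN n ∧ sN n < (wN n + 1) ^ 2 ∧ n < (wN n + 1) ^ 4 ∧ sN n * sN n ≤ n ∧
    2 ^ (lN n) ≤ n ∧ n < 2 ^ (lN n + 1) ∧ 64 ≤ wN n ∧ 10 ≤ sN n := by
  have e2 : Nat.sqrt n < (wN n + 1) * (wN n + 1) := Nat.sqrt_lt.1 (Nat.lt_succ_self _)
  have e3 : n < (Nat.sqrt n + 1) * (Nat.sqrt n + 1) := Nat.sqrt_lt.1 (Nat.lt_succ_self _)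
  refine ⟨Nat.sqrt_le _, ?_, ?_, Nat.sqrt_le _, Nat.pow_log_le_self 2 (by omega),
    Nat.lt_pow_succ_log_self (by norm_num) _, ?_, ?_⟩
  · rw [sq]
    exact e2
  · have : Nat.sqrt n + 1 ≤ (wN n + 1) * (wN n + 1) := e2
    calc n < (Nat.sqrt n + 1) * (Nat.sqrt n + 1) := e3
      _ ≤ ((wN n + 1) * (wN n + 1)) * ((wN n + 1) * (wN n + 1)) := Nat.mul_le_mul this this
      _ = (wN n + 1) ^ 4 := by ring
  · have : 1 ≤ (lN n + 1) ^ 2 := Nat.one_le_pow _ _ (by omega)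
    omega
  · rw [sN, Nat.le_sqrt]
    exact hn

lemma act_ok (α n : ℕ) (hn : 100 ≤ n) (hl : 64 ≤ lN n) (hlw : 64 * (lN n + 1) ^ 2 ≤ wN n)
    (hα1 : 1 ≤ α) (hα : α ≤ lN n) :
    1 ≤ sN n ∧ 1 ≤ tN α n ∧ 4 * sN n ≤ n ∧ 4 * tN α n ≤ n := by
  obtain ⟨h1, h2, h3, h4, h5, h6, h7, h8⟩ := rel n hn hl hlw
  refine ⟨by omega, ?_, ?_, ?_⟩
  · unfold tN rN
    have : 0 < 4 * (2 * wN n) * sN n * α * (lN n + 1) := by positivity
    exact this
  · calc 4 * sN n ≤ sN n * sN n := Nat.mul_le_mul_right _ (by omega)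
      _ ≤ n := h4
  · unfold tN rN
    have h9 : α * (lN n + 1) ≤ (lN n + 1) ^ 2 := by
      rw [sq]
      exact Nat.mul_le_mul_right _ (by omega)
    calc 4 * (4 * (2 * wN n) * sN n * α * (lN n + 1)) = (wN n * sN n) * (32 * (α * (lN n + 1))) := by ring
      _ ≤ (wN n * sN n) * (wN n) := by
        apply Nat.mul_le_mul_left
        omega
      _ = (wN n * wN n) * sN n := by ring
      _ ≤ sN n * sN n := Nat.mul_le_mul_right _ h1
      _ ≤ n := h4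

lemma three_le_yN (α n : ℕ) (hn : 100 ≤ n) (hα1 : 1 ≤ α) : 3 ≤ yN α n := by
  unfold yN
  have : n ≤ n ^ α := Nat.le_self_pow (by omega) n
  omega

lemma yN_le (α n : ℕ) (hn : 100 ≤ n) (hl : 64 ≤ lN n) (hlw : 64 * (lN n + 1) ^ 2 ≤ wN n) :
    yN α n ≤ 2 ^ ((lN n + 1) * α) := by
  obtain ⟨h1, h2, h3, h4, h5, h6, h7, h8⟩ := rel n hn hl hlw
  unfold yN
  rw [pow_mul]
  exact Nat.pow_le_pow_left h6.le α

/-- the bounds for the density -/
lemma rho_bounds (C : ℝ) (hC : ∀ z : ℕ, 3 ≤ z →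
      |∑ p ∈ (Finset.Icc 1 z).filter Nat.Prime, 1 / (p : ℝ) - Real.log (Real.log z)| ≤ C)
    (α n : ℕ) (hn : 100 ≤ n) (hs : 1 ≤ sN n) (hα1 : 1 ≤ α) :
    rho (QN α n) ≤ Real.exp (2 * C) / sN n ∧ Real.exp (-(4 * C)) / (sN n) ^ 2 ≤ rho (QN α n) ∧
    ∑ p ∈ QN α n, 1 / (p : ℝ) ≤ Real.log (sN n) + 2 * C := by
  have h1 := Lam C hC (yN α n) (sN n) (three_le_yN α n hn hα1) hs
  have h2 := abs_le.1 h1
  have hs0 : (0 : ℝ) < sN n := by exact_mod_cast hs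
  have hQ := QN_prime α n
  have h3 : ∑ p ∈ QN α n, 1 / (p : ℝ) ≤ Real.log (sN n) + 2 * C := by
    have := h2.2
    unfold QN
    linarith
  have h4 : Real.log (sN n) - 2 * C ≤ ∑ p ∈ QN α n, 1 / (p : ℝ) := by
    have := h2.1
    unfold QN
    linarith
  refine ⟨?_, ?_, h3⟩
  · refine (rho_le _ hQ).trans ?_
    calc Real.exp (-∑ p ∈ QN α n, 1 / (p : ℝ)) ≤ Real.exp (2 * C - Real.log (sN n)) :=
          Real.exp_le_exp.2 (by linarith)
      _ = Real.exp (2 * C) / sN n := by rw [Real.exp_sub, Real.exp_log hs0]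
  · refine le_trans ?_ (le_rho _ hQ)
    calc Real.exp (-(4 * C)) / (sN n) ^ 2 = Real.exp (-(4 * C) - 2 * Real.log (sN n)) := by
          rw [Real.exp_sub]
          congr 1
          rw [two_mul, Real.exp_add, Real.exp_log hs0, sq]
      _ ≤ Real.exp (-2 * ∑ p ∈ QN α n, 1 / (p : ℝ)) := Real.exp_le_exp.2 (by linarith)

/-- the medium smooth numbers are rare -/
lemma tau_bound (C : ℝ) (hC : ∀ z : ℕ, 3 ≤ z →
      |∑ p ∈ (Finset.Icc 1 z).filter Nat.Prime, 1 / (p : ℝ) - Real.log (Real.log z)| ≤ C)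
    (B : ℝ) (hB : Real.exp (3 * C) ≤ B)
    (α n : ℕ) (hn : 100 ≤ n) (hl : 64 ≤ lN n) (hlw : 64 * (lN n + 1) ^ 2 ≤ wN n)
    (hα1 : 1 ≤ α) (hα : α ≤ lN n)
    (h32 : B * ((wN n : ℝ) + 1) ^ 24 ≤ (3 / 2) ^ (wN n)) :
    ∑ m ∈ DN α n, 1 / (m : ℝ) ≤ 1 / sN n := by
  obtain ⟨h1, h2, h3, h4, h5, h6, h7, h8⟩ := rel n hn hl hlw
  have hs0 : (0 : ℝ) < sN n := by exact_mod_cast (by omega : 0 < sN n)
  have hy3 := three_le_yN α n hn hα1
  have hyle := yN_le α n hn hl hlw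
  have hlα : 64 * ((lN n + 1) * α) ≤ wN n := by
    calc 64 * ((lN n + 1) * α) ≤ 64 * (lN n + 1) ^ 2 := by
          rw [sq]
          apply Nat.mul_le_mul_left
          apply Nat.mul_le_mul_left
          omega
      _ ≤ wN n := hlw
  have hDN : ∀ m ∈ DN α n, 1 ≤ m ∧ ∀ p, p.Prime → p ∣ m → p ≤ yN α n := by
    intro m hm
    rw [mem_DN] at hm
    refine ⟨?_, hm.2⟩
    have : 1 ≤ 2 ^ (sN n / 2) := Nat.one_le_pow _ _ (by norm_num)
    omega
  have hOm : ∀ m ∈ DN α n, wN n ≤ m.primeFactorsList.length := by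
    intro m hm
    obtain ⟨a1, a2⟩ := hDN m hm
    rw [mem_DN] at hm
    have a3 := le_pow_Omega (yN α n) m (by omega) a2
    by_contra hlt
    push Not at hlt
    have a4 : m ≤ 2 ^ (((lN n + 1) * α) * wN n) := by
      calc m ≤ yN α n ^ (m.primeFactorsList.length) := a3
        _ ≤ yN α n ^ (wN n) := Nat.pow_le_pow_right (by omega) hlt.le
        _ ≤ (2 ^ ((lN n + 1) * α)) ^ (wN n) := Nat.pow_le_pow_left hyle _
        _ = 2 ^ (((lN n + 1) * α) * wN n) := by rw [← pow_mul]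
    have a5 : 2 ^ (sN n / 2) ≤ 2 ^ (((lN n + 1) * α) * wN n) := hm.1.1.trans a4
    have a6 := (Nat.pow_le_pow_iff_right (by norm_num : 1 < 2)).1 a5
    have a7 : 64 * (((lN n + 1) * α) * wN n) ≤ wN n * wN n := by
      calc 64 * (((lN n + 1) * α) * wN n) = (64 * ((lN n + 1) * α)) * wN n := by ring
        _ ≤ wN n * wN n := Nat.mul_le_mul_right _ hlα
    omega
  have h9 : ∑ m ∈ DN α n, 1 / (m : ℝ) ≤ (2 / 3) ^ (wN n) *
      ∑ m ∈ DN α n, (3 / 2 : ℝ) ^ (m.primeFactorsList.length) / m := by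
    rw [mul_sum]
    apply sum_le_sum
    intro m hm
    have hm0 : (0 : ℝ) < m := by exact_mod_cast (hDN m hm).1
    rw [← mul_div_assoc]
    apply div_le_div_of_nonneg_right _ hm0.le
    calc (1 : ℝ) = (2 / 3) ^ (wN n) * (3 / 2) ^ (wN n) := by
          rw [← mul_pow]
          norm_num
      _ ≤ (2 / 3) ^ (wN n) * (3 / 2 : ℝ) ^ (m.primeFactorsList.length) := by
          apply mul_le_mul_of_nonneg_left _ (by positivity)
          exact pow_le_pow_right₀ (by norm_num) (hOm m hm)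
  have h10 := smooth_sum (yN α n) (DN α n) hDN
  have h11 := (abs_le.1 (hC (yN α n) hy3)).2
  have hy0 : (3 : ℝ) ≤ yN α n := by exact_mod_cast hy3
  have hlogy : 0 < Real.log (yN α n) := Real.log_pos (by linarith)
  have h12 : Real.exp (3 * ∑ p ∈ (Finset.Icc 1 (yN α n)).filter Nat.Prime, 1 / (p : ℝ)) ≤
      Real.exp (3 * C) * Real.log (yN α n) ^ 3 := by
    calc Real.exp (3 * ∑ p ∈ (Finset.Icc 1 (yN α n)).filter Nat.Prime, 1 / (p : ℝ))
        ≤ Real.exp (3 * C + 3 * Real.log (Real.log (yN α n))) := Real.exp_le_exp.2 (by linarith)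
      _ = Real.exp (3 * C) * Real.log (yN α n) ^ 3 := by
        rw [Real.exp_add]
        congr 1
        have : (3 : ℝ) * Real.log (Real.log (yN α n)) = ((3 : ℕ) : ℝ) * Real.log (Real.log (yN α n)) := by
          norm_num
        rw [this, Real.exp_nat_mul, Real.exp_log hlogy]
  have h13 : Real.log (yN α n) ≤ (wN n : ℝ) + 1 := by
    have a1 : (yN α n : ℝ) ≤ 2 ^ ((lN n + 1) * α) := by exact_mod_cast hyle
    have a2 := Real.log_le_log (by linarith) a1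
    rw [Real.log_pow] at a2
    have a3 : Real.log 2 ≤ 1 := by linarith [Real.log_two_lt_d9]
    have a4 : (((lN n + 1) * α : ℕ) : ℝ) ≤ wN n := by exact_mod_cast (by omega : (lN n + 1) * α ≤ wN n)
    calc Real.log (yN α n) ≤ (((lN n + 1) * α : ℕ) : ℝ) * Real.log 2 := a2
      _ ≤ (((lN n + 1) * α : ℕ) : ℝ) * 1 := by gcongr
      _ ≤ (wN n : ℝ) + 1 := by linarith
  have hsw : (sN n : ℝ) ≤ ((wN n : ℝ) + 1) ^ 2 := by exact_mod_cast h2.le
  have hw1 : (1 : ℝ) ≤ (wN n : ℝ) + 1 := by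
    have : (0 : ℝ) ≤ wN n := by positivity
    linarith
  have hB0 : 0 < B := lt_of_lt_of_le (Real.exp_pos _) hB
  calc ∑ m ∈ DN α n, 1 / (m : ℝ) ≤ (2 / 3) ^ (wN n) *
        ∑ m ∈ DN α n, (3 / 2 : ℝ) ^ (m.primeFactorsList.length) / m := h9
    _ ≤ (2 / 3) ^ (wN n) * (Real.exp (3 * C) * Real.log (yN α n) ^ 3) := by
        apply mul_le_mul_of_nonneg_left (h10.trans h12) (by positivity)
    _ ≤ (2 / 3) ^ (wN n) * (B * ((wN n : ℝ) + 1) ^ 3) := by gcongr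
    _ ≤ 1 / sN n := by
        rw [le_div_iff₀ hs0]
        calc (2 / 3) ^ (wN n) * (B * ((wN n : ℝ) + 1) ^ 3) * sN n
            ≤ (2 / 3) ^ (wN n) * (B * ((wN n : ℝ) + 1) ^ 3) * ((wN n : ℝ) + 1) ^ 2 := by gcongr
          _ = (2 / 3) ^ (wN n) * (B * ((wN n : ℝ) + 1) ^ 5) := by ring
          _ ≤ (2 / 3) ^ (wN n) * (B * ((wN n : ℝ) + 1) ^ 24) := by
              have h25 : ((wN n : ℝ) + 1) ^ 5 ≤ ((wN n : ℝ) + 1) ^ 24 := pow_le_pow_right₀ hw1 (by norm_num)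
              gcongr
          _ ≤ (2 / 3) ^ (wN n) * (3 / 2) ^ (wN n) := by gcongr
          _ = 1 := by
              rw [← mul_pow]
              norm_num

end Pool.Agent.H541.RP
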