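import Pool.Agent.H541.RP.Par1

set_option autoImplicit false

/-!
The frequency of the exceptional nodes at level `n`.
-/

namespace Pool.Agent.H541.RP

open Finset
open Pool.Agent.H541.LL

/-- the exponential moment -/
lemma K_bound (C B : ℝ) (hC0 : 0 ≤ C) (hB : 64 * (C + 1) ≤ B) (n : ℕ)
    (hn : 100 ≤ n) (hl : 64 ≤ lN n) (hlw : 64 * (lN n + 1) ^ 2 ≤ wN n)
    (hlog : (B * Real.log ((wN n : ℝ) + 1) + B) ^ 4 ≤ wN n) :
    4 * KN n * (Real.log (sN n) + 2 * C) ≤ wN n * Real.log 2 := by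
  obtain ⟨h1, h2, h3, h4, h5, h6, h7, h8⟩ := rel n hn hl hlw
  have hw64 : (64 : ℝ) ≤ wN n := by exact_mod_cast h7
  have hK0 : 0 < KN n := by unfold KN; positivity
  have hs0 : (0 : ℝ) < sN n := by exact_mod_cast (by omega : 0 < sN n)
  have hlw0 : 0 ≤ Real.log ((wN n : ℝ) + 1) := Real.log_nonneg (by linarith)
  set v : ℝ := B * Real.log ((wN n : ℝ) + 1) + B with hv
  have hB0 : 64 ≤ B := by linarith
  have hv0 : 0 ≤ v := by positivity
  have hls : Real.log (sN n) + 2 * C ≤ v / 8 := by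
    have e1 : (sN n : ℝ) ≤ ((wN n : ℝ) + 1) ^ 2 := by exact_mod_cast h2.le
    have e2 := Real.log_le_log hs0 e1
    rw [Real.log_pow] at e2
    push_cast at e2
    rw [hv]
    nlinarith
  -- K ^ 2 ≤ w + 1
  have hK2 : KN n ^ 2 ≤ wN n + 1 := by
    have e1 : (KN n ^ 2) ^ 4 ≤ ((wN n : ℝ) + 1) ^ 4 := by
      have e2 : KN n ^ 8 ≤ ((wN n : ℝ) + 1) ^ 4 := by
        unfold KN
        rw [← pow_mul]
        have e3 : 2 ^ (lN n / 8 * 8) ≤ (wN n + 1) ^ 4 := by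
          calc 2 ^ (lN n / 8 * 8) ≤ 2 ^ (lN n) := Nat.pow_le_pow_right (by norm_num) (Nat.div_mul_le_self _ _)
            _ ≤ n := h5
            _ ≤ (wN n + 1) ^ 4 := h3.le
        exact_mod_cast e3
      calc (KN n ^ 2) ^ 4 = KN n ^ 8 := by ring
        _ ≤ _ := e2
    exact le_of_pow_le_pow_left₀ (by norm_num) (by positivity) e1
  have hKv : KN n * v ≤ wN n := by
    have e1 : (KN n * v) ^ 4 ≤ (wN n : ℝ) ^ 4 := by
      have e2 : KN n ^ 4 ≤ (2 * (wN n : ℝ)) ^ 2 := by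
        calc KN n ^ 4 = (KN n ^ 2) ^ 2 := by ring
          _ ≤ ((wN n : ℝ) + 1) ^ 2 := by gcongr
          _ ≤ (2 * (wN n : ℝ)) ^ 2 := by
            gcongr
            linarith
      calc (KN n * v) ^ 4 = KN n ^ 4 * v ^ 4 := by ring
        _ ≤ (2 * (wN n : ℝ)) ^ 2 * wN n := by gcongr
        _ = 4 * (wN n : ℝ) ^ 3 := by ring
        _ ≤ wN n * (wN n : ℝ) ^ 3 := by
          gcongr
          linarith
        _ = (wN n : ℝ) ^ 4 := by ring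
    exact le_of_pow_le_pow_left₀ (by norm_num) (by positivity) e1
  have hlog2 : (1 : ℝ) / 2 ≤ Real.log 2 := by linarith [Real.log_two_gt_d9]
  calc 4 * KN n * (Real.log (sN n) + 2 * C) ≤ 4 * KN n * (v / 8) := by gcongr
    _ = (KN n * v) * (1 / 2) := by ring
    _ ≤ wN n * Real.log 2 := by gcongr

lemma eta_bound (C B : ℝ) (hC0 : 0 ≤ C) (hC : ∀ z : ℕ, 3 ≤ z →
      |∑ p ∈ (Finset.Icc 1 z).filter Nat.Prime, 1 / (p : ℝ) - Real.log (Real.log z)| ≤ C)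
    (hB1 : 36 * Real.exp (8 * C) ≤ B) (hB : 64 * (C + 1) ≤ B) (α n : ℕ)
    (hn : 100 ≤ n) (hl : 64 ≤ lN n) (hlw : 64 * (lN n + 1) ^ 2 ≤ wN n)
    (hα1 : 1 ≤ α) (hα : α ≤ lN n)
    (h2w : B * ((wN n : ℝ) + 1) ^ 24 ≤ 2 ^ (wN n))
    (hlog : (B * Real.log ((wN n : ℝ) + 1) + B) ^ 4 ≤ wN n) (M : ℕ) (hM : M ≤ n) :
    2 * eta (QN α n) (sN n) (tN α n) M (rN n) (KN n) * 2 ^ (wN n * (lN n / 8)) ≤ 1 / (n : ℝ) ^ 2 := by
  obtain ⟨h1, h2, h3, h4, h5, h6, h7, h8⟩ := rel n hn hl hlw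
  have hQ := QN_prime α n
  have hρ := rho_pos _ hQ
  have hs1 : 1 ≤ sN n := by omega
  have hs0 : (0 : ℝ) < sN n := by exact_mod_cast hs1
  obtain ⟨b1, b2, b3⟩ := rho_bounds C hC α n hn hs1 hα1
  have hK1 : 1 ≤ KN n := by
    unfold KN
    exact one_le_pow₀ (by norm_num)
  have hκ := kap_nonneg (QN α n) (rN n) (KN n) hK1
  have hn0 : (0 : ℝ) < n := by exact_mod_cast (by omega : 0 < n)
  obtain ⟨D, hD⟩ : ∃ D : ℝ, D = Real.exp (4 * C) := ⟨_, rfl⟩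
  have hD1 : 1 ≤ D := by
    rw [hD]
    exact Real.one_le_exp (by positivity)
  have hD2 : D ^ 2 = Real.exp (8 * C) := by
    rw [hD, ← Real.exp_nat_mul]
    congr 1
    push_cast
    ring
  -- 1 / rho
  have hρinv : 1 / rho (QN α n) ≤ D * (sN n : ℝ) ^ 2 := by
    rw [div_le_iff₀ hρ]
    have e1 : Real.exp (-(4 * C)) = 1 / D := by
      rw [hD, Real.exp_neg, one_div]
    rw [e1] at b2
    calc (1 : ℝ) = D * (sN n : ℝ) ^ 2 * (1 / D / (sN n : ℝ) ^ 2) := by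
          field_simp
      _ ≤ D * (sN n : ℝ) ^ 2 * rho (QN α n) := by gcongr
  have hρinv2 : 1 / rho (QN α n) ^ 2 ≤ (D * (sN n : ℝ) ^ 2) ^ 2 := by
    calc 1 / rho (QN α n) ^ 2 = (1 / rho (QN α n)) ^ 2 := by
          rw [div_pow, one_pow]
      _ ≤ _ := by gcongr
  -- the exponents
  set w := wN n with hw
  set s := sN n with hs
  set l := lN n with hl'
  set E := w * (l / 8) with hE
  have hlw2 : 64 * l ≤ w := by
    have : l ≤ (l + 1) ^ 2 := by nlinarith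
    omega
  have hEs : 512 * E ≤ s := by
    have e1 : 8 * (l / 8) ≤ l := Nat.mul_div_le l 8
    have e2 : 64 * (8 * (l / 8)) ≤ w := by omega
    calc 512 * E = w * (64 * (8 * (l / 8))) := by rw [hE]; ring
      _ ≤ w * w := Nat.mul_le_mul_left _ e2
      _ ≤ s := h1
  have hws : 64 * w ≤ s := by
    calc 64 * w ≤ w * w := Nat.mul_le_mul_right _ h7
      _ ≤ s := h1
  have hl8 : 8 ≤ l / 8 := by omega
  have hE2 : 2 * w ≤ E := by
    rw [hE]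
    calc 2 * w = w * 2 := by ring
      _ ≤ w * (l / 8) := Nat.mul_le_mul_left _ (by omega)
  -- T1
  set h : ℝ := ((2 ^ (s + 1) + 2 : ℕ) : ℝ) with hh
  have hh2 : 2 * (2 : ℝ) ^ s ≤ h := by
    rw [hh]
    push_cast
    rw [pow_succ]
    linarith
  have h2s : (0 : ℝ) < 2 ^ s := by positivity
  have hh0 : 0 < h := by linarith
  have h2w0 : (0 : ℝ) < 2 ^ w := by positivity
  have t1 : 4 / (rho (QN α n) * h) * 2 ^ E ≤ 2 * D ^ 2 * (s : ℝ) ^ 4 / 2 ^ w := by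
    have e1 : (2 : ℝ) ^ E * 2 ^ w ≤ 2 ^ s := by
      rw [← pow_add]
      exact pow_le_pow_right₀ (by norm_num) (by omega)
    have e2 : 4 / (rho (QN α n) * h) = 4 * (1 / rho (QN α n)) * (1 / h) := by
      field_simp
    have e3 : 1 / h ≤ 1 / (2 * 2 ^ s) := by
      apply one_div_le_one_div_of_le (by positivity) hh2
    rw [e2, le_div_iff₀ h2w0]
    calc 4 * (1 / rho (QN α n)) * (1 / h) * 2 ^ E * 2 ^ w
        ≤ 4 * (D * (s : ℝ) ^ 2) * (1 / (2 * 2 ^ s)) * 2 ^ E * 2 ^ w := by gcongr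
      _ = 2 * (D * (s : ℝ) ^ 2) * ((2 ^ E * 2 ^ w) / 2 ^ s) := by
        field_simp
        ring
      _ ≤ 2 * (D * (s : ℝ) ^ 2) * 1 := by
        gcongr
        rw [div_le_one h2s]
        exact e1
      _ ≤ 2 * D ^ 2 * (s : ℝ) ^ 4 := by
        have e4 : (1 : ℝ) ≤ (s : ℝ) := by exact_mod_cast hs1
        have e5 : (s : ℝ) ^ 2 ≤ (s : ℝ) ^ 4 := pow_le_pow_right₀ e4 (by norm_num)
        have e6 : D ≤ D ^ 2 := by nlinarith
        rw [mul_one, ← mul_assoc]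
        gcongr
  -- T2
  have t2 : 4 * kap (QN α n) (rN n) (KN n) / rho (QN α n) ^ 2 * 2 ^ E ≤
      4 * D ^ 2 * (s : ℝ) ^ 4 / 2 ^ w := by
    have e1 := kap_le (QN α n) (rN n) (KN n) hK1
    have e2 : Real.exp (4 * KN n * ∑ p ∈ QN α n, 1 / (p : ℝ)) ≤ 2 ^ w := by
      have e3 := K_bound C B hC0 hB n hn hl hlw hlog
      calc Real.exp (4 * KN n * ∑ p ∈ QN α n, 1 / (p : ℝ))
          ≤ Real.exp (4 * KN n * (Real.log s + 2 * C)) := by
            apply Real.exp_le_exp.2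
            have : 0 ≤ 4 * KN n := by linarith
            gcongr
        _ ≤ Real.exp (w * Real.log 2) := Real.exp_le_exp.2 e3
        _ = 2 ^ w := by
            rw [Real.exp_nat_mul, Real.exp_log (by norm_num)]
    have e3 : (KN n)⁻¹ ^ (rN n) = 1 / 2 ^ (2 * E) := by
      unfold KN rN
      rw [inv_pow, ← pow_mul, one_div]
      congr 2
      rw [hE]
      ring
    have e4 : kap (QN α n) (rN n) (KN n) ≤ 1 / 2 ^ (2 * E) * 2 ^ w := by
      refine e1.trans ?_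
      rw [e3]
      gcongr
    have e5 : 4 * kap (QN α n) (rN n) (KN n) / rho (QN α n) ^ 2 =
        4 * kap (QN α n) (rN n) (KN n) * (1 / rho (QN α n) ^ 2) := by
      field_simp
    rw [e5, le_div_iff₀ h2w0]
    calc 4 * kap (QN α n) (rN n) (KN n) * (1 / rho (QN α n) ^ 2) * 2 ^ E * 2 ^ w
        ≤ 4 * (1 / 2 ^ (2 * E) * 2 ^ w) * (D * (s : ℝ) ^ 2) ^ 2 * 2 ^ E * 2 ^ w := by gcongr
      _ = 4 * (D * (s : ℝ) ^ 2) ^ 2 * (2 ^ (2 * w) / 2 ^ E) := by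
        rw [two_mul, two_mul, pow_add, pow_add]
        field_simp
      _ ≤ 4 * (D * (s : ℝ) ^ 2) ^ 2 * 1 := by
        gcongr
        rw [div_le_one (by positivity)]
        exact pow_le_pow_right₀ (by norm_num) hE2
      _ = 4 * D ^ 2 * (s : ℝ) ^ 4 := by ring
  -- T3
  have t3 : 3 * ((Pw (QN α n) (rN n)).card : ℝ) ^ 2 / (rho (QN α n) ^ 2 * 2 ^ (s + tN α n)) * 2 ^ E ≤
      3 * D ^ 2 * (s : ℝ) ^ 4 / 2 ^ w := by
    have hcard : (QN α n).card + 1 ≤ yN α n ^ s := by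
      have hy3 := three_le_yN α n hn hα1
      have e1 : QN α n ⊆ Finset.Ioc 1 (yN α n ^ s) := by
        intro p hp
        unfold QN at hp
        rw [mem_filter, mem_Ioc] at hp
        rw [mem_Ioc]
        exact ⟨by omega, hp.1.2⟩
      have e2 := card_le_card e1
      rw [Nat.card_Ioc] at e2
      have e3 : 1 ≤ yN α n ^ s := Nat.one_le_pow _ _ (by omega)
      omega
    have e1 := pw_card (QN α n) (rN n) (yN α n ^ s) hcard
    have e2 : (yN α n ^ s) ^ (rN n) ≤ 2 ^ (((l + 1) * α) * s * rN n) := by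
      rw [← pow_mul, mul_assoc ((l + 1) * α), pow_mul 2]
      exact Nat.pow_le_pow_left (yN_le α n hn hl hlw) _
    have e3 : ((Pw (QN α n) (rN n)).card : ℝ) ^ 2 ≤ 2 ^ (tN α n) := by
      have e4 : (Pw (QN α n) (rN n)).card ^ 2 ≤ 2 ^ (tN α n) := by
        calc (Pw (QN α n) (rN n)).card ^ 2 ≤ (2 ^ (((l + 1) * α) * s * rN n)) ^ 2 :=
              Nat.pow_le_pow_left (e1.trans e2) 2
          _ = 2 ^ (((l + 1) * α) * s * rN n * 2) := by rw [← pow_mul]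
          _ ≤ 2 ^ (tN α n) := by
            apply Nat.pow_le_pow_right (by norm_num)
            unfold tN
            calc ((l + 1) * α) * s * rN n * 2 = 2 * rN n * s * α * (l + 1) := by ring
              _ ≤ 4 * rN n * s * α * (l + 1) := by gcongr; norm_num
      exact_mod_cast e4
    have e5 : 3 * ((Pw (QN α n) (rN n)).card : ℝ) ^ 2 / (rho (QN α n) ^ 2 * 2 ^ (s + tN α n)) =
        3 * (((Pw (QN α n) (rN n)).card : ℝ) ^ 2 / 2 ^ (tN α n)) * (1 / rho (QN α n) ^ 2) * (1 / 2 ^ s) := by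
      rw [pow_add]
      field_simp
    have e6 : ((Pw (QN α n) (rN n)).card : ℝ) ^ 2 / 2 ^ (tN α n) ≤ 1 := by
      rw [div_le_one (by positivity)]
      exact e3
    have e7 : (2 : ℝ) ^ E * 2 ^ w ≤ 2 ^ s := by
      rw [← pow_add]
      exact pow_le_pow_right₀ (by norm_num) (by omega)
    rw [e5, le_div_iff₀ h2w0]
    calc 3 * (((Pw (QN α n) (rN n)).card : ℝ) ^ 2 / 2 ^ (tN α n)) * (1 / rho (QN α n) ^ 2) *
          (1 / 2 ^ s) * 2 ^ E * 2 ^ w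
        ≤ 3 * 1 * (D * (s : ℝ) ^ 2) ^ 2 * (1 / 2 ^ s) * 2 ^ E * 2 ^ w := by gcongr
      _ = 3 * (D * (s : ℝ) ^ 2) ^ 2 * ((2 ^ E * 2 ^ w) / 2 ^ s) := by ring
      _ ≤ 3 * (D * (s : ℝ) ^ 2) ^ 2 * 1 := by
        gcongr
        rw [div_le_one h2s]
        exact e7
      _ = 3 * D ^ 2 * (s : ℝ) ^ 4 := by ring
  -- total
  have etaeq : eta (QN α n) s (tN α n) M (rN n) (KN n) =
      2 * M * (4 / (rho (QN α n) * h) + 4 * kap (QN α n) (rN n) (KN n) / rho (QN α n) ^ 2 +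
      3 * ((Pw (QN α n) (rN n)).card : ℝ) ^ 2 / (rho (QN α n) ^ 2 * 2 ^ (s + tN α n))) := by
    rw [eta, Bd, ← hh, pow_succ]
    field_simp
    ring
  have hMr : (M : ℝ) ≤ n := by exact_mod_cast hM
  have hnw : (n : ℝ) ≤ ((w : ℝ) + 1) ^ 4 := by exact_mod_cast h3.le
  have hsw : (s : ℝ) ≤ ((w : ℝ) + 1) ^ 2 := by exact_mod_cast h2.le
  have hw1 : (1 : ℝ) ≤ (w : ℝ) + 1 := by
    have : (0 : ℝ) ≤ w := by positivity
    linarith
  rw [etaeq, le_div_iff₀ (by positivity)]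
  calc 2 * (2 * M * (4 / (rho (QN α n) * h) + 4 * kap (QN α n) (rN n) (KN n) / rho (QN α n) ^ 2 +
      3 * ((Pw (QN α n) (rN n)).card : ℝ) ^ 2 / (rho (QN α n) ^ 2 * 2 ^ (s + tN α n)))) * 2 ^ E * (n : ℝ) ^ 2
      = 4 * M * (n : ℝ) ^ 2 * (4 / (rho (QN α n) * h) * 2 ^ E +
          4 * kap (QN α n) (rN n) (KN n) / rho (QN α n) ^ 2 * 2 ^ E +
          3 * ((Pw (QN α n) (rN n)).card : ℝ) ^ 2 / (rho (QN α n) ^ 2 * 2 ^ (s + tN α n)) * 2 ^ E) := by ring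
    _ ≤ 4 * n * (n : ℝ) ^ 2 * (2 * D ^ 2 * (s : ℝ) ^ 4 / 2 ^ w + 4 * D ^ 2 * (s : ℝ) ^ 4 / 2 ^ w +
          3 * D ^ 2 * (s : ℝ) ^ 4 / 2 ^ w) := by gcongr
    _ = 36 * D ^ 2 * (n : ℝ) ^ 3 * (s : ℝ) ^ 4 / 2 ^ w := by ring
    _ ≤ 36 * D ^ 2 * (((w : ℝ) + 1) ^ 4) ^ 3 * (((w : ℝ) + 1) ^ 2) ^ 4 / 2 ^ w := by gcongr
    _ = (36 * D ^ 2) * ((w : ℝ) + 1) ^ 20 / 2 ^ w := by ring
    _ ≤ B * ((w : ℝ) + 1) ^ 24 / 2 ^ w := by
        have e1 : 36 * D ^ 2 ≤ B := by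
          rw [hD2]
          exact hB1
        have e2 : ((w : ℝ) + 1) ^ 20 ≤ ((w : ℝ) + 1) ^ 24 := pow_le_pow_right₀ hw1 (by norm_num)
        have e3 : 0 ≤ B := by linarith
        gcongr
    _ ≤ 1 := by
        rw [div_le_one h2w0]
        exact h2w

end Pool.Agent.H541.RP
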