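import Mathlib

set_option autoImplicit false

/-!
A recursive inequality with lags that depend on the level (counting survivors in a tree).
-/

namespace Pool.Agent.H541.RP

open Finset

open Classical in
lemma rec2 (x β η : ℕ → ℝ) (s t : ℕ → ℕ) (Act : ℕ → Prop) (Fe : ℕ → Finset ℕ) (G a u : ℕ → ℝ)
    (hG0 : G 0 = 1) (hG : ∀ n, G (n + 1) = 2 * (1 - x (n + 1)) * G n)
    (hx1 : ∀ n, x n < 1) (hβ : ∀ n, 0 ≤ β n) (hη : ∀ n, 0 ≤ η n)
    (hs : ∀ n, Act n → 1 ≤ s n ∧ s n ≤ n) (hFe : ∀ n, ∀ e ∈ Fe n, 1 ≤ t e ∧ t e ≤ n)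
    (hx : ∀ n, (if Act (n + 1) then 2 * β (n + 1) * 2 ^ (s (n + 1)) * G (n + 1 - s (n + 1)) else 0) +
      ∑ e ∈ Fe (n + 1), 2 * η e * 2 ^ (t e) * G (n + 1 - t e) ≤ x (n + 1) * G (n + 1))
    (hu0 : ∀ n, 0 ≤ u n)
    (hu : ∀ n, ∑ k ∈ range (n + 1), u k / G k ≤ 1 / 2)
    (h0 : 1 - u 0 ≤ a 0)
    (hstep : ∀ n, 2 * a n ≤ a (n + 1) +
      (if Act (n + 1) then β (n + 1) * 2 ^ (s (n + 1)) * a (n + 1 - s (n + 1)) else 0)
      + ∑ e ∈ Fe (n + 1), η e * 2 ^ (t e) * a (n + 1 - t e) + u (n + 1)) :
    ∀ n, G n / 2 ≤ a n := by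
  have hGp : ∀ n, 0 < G n := by
    intro n
    induction n with
    | zero => rw [hG0]; norm_num
    | succ n ih =>
      rw [hG]
      have : 0 < 1 - x (n + 1) := by linarith [hx1 (n + 1)]
      positivity
  set w : ℕ → ℝ := fun n => a n / G n with hw
  set D : ℕ → ℝ := fun n => ∑ k ∈ range (n + 1), u k / G k with hD
  have hDs : ∀ n, D (n + 1) = D n + u (n + 1) / G (n + 1) := by
    intro n
    simp only [hD]
    rw [sum_range_succ]
  have hDm : ∀ n, 0 ≤ D n := by
    intro n
    apply sum_nonneg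
    intro k _
    exact div_nonneg (hu0 k) (hGp k).le
  have main : ∀ n, (∀ m ≤ n, w m - w n ≤ D n - D m) ∧ 1 - D n ≤ w n := by
    intro n
    induction n with
    | zero =>
      refine ⟨fun m hm => ?_, ?_⟩
      · have : m = 0 := by omega
        subst this
        simp
      · simp only [hD, hw]
        simp [hG0]
        linarith
    | succ n ih =>
      obtain ⟨ih1, ih2⟩ := ih
      have hDn : D n ≤ 1 / 2 := hu n
      have hwn : 1 / 2 ≤ w n := by linarith
      have hGn := hGp (n + 1)
      have hGn0 := hGp n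
      have hy : 0 < 1 - x (n + 1) := by linarith [hx1 (n + 1)]
      have hlag : ∀ (r : ℕ) (γ : ℝ), 1 ≤ r → r ≤ n + 1 → 0 ≤ γ →
          γ * 2 ^ r * a (n + 1 - r) ≤ (2 * γ * 2 ^ r * G (n + 1 - r)) * w n := by
        intro r γ hr hrn hγ
        have h1 := ih1 (n + 1 - r) (by omega)
        have h2 : w (n + 1 - r) ≤ 2 * w n := by
          have := hDm (n + 1 - r)
          linarith
        have h3 : a (n + 1 - r) = G (n + 1 - r) * w (n + 1 - r) := by
          simp only [hw]
          have := (hGp (n + 1 - r)).ne'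
          field_simp
        rw [h3]
        have h4 : 0 ≤ γ * 2 ^ r * G (n + 1 - r) := by
          have := hGp (n + 1 - r)
          positivity
        calc γ * 2 ^ r * (G (n + 1 - r) * w (n + 1 - r)) = (γ * 2 ^ r * G (n + 1 - r)) * w (n + 1 - r) := by
              ring
          _ ≤ (γ * 2 ^ r * G (n + 1 - r)) * (2 * w n) := mul_le_mul_of_nonneg_left h2 h4
          _ = (2 * γ * 2 ^ r * G (n + 1 - r)) * w n := by ring
      have hsum : (if Act (n + 1) then β (n + 1) * 2 ^ (s (n + 1)) * a (n + 1 - s (n + 1)) else 0)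
          + ∑ e ∈ Fe (n + 1), η e * 2 ^ (t e) * a (n + 1 - t e) ≤ (x (n + 1) * G (n + 1)) * w n := by
        have h1 : (if Act (n + 1) then β (n + 1) * 2 ^ (s (n + 1)) * a (n + 1 - s (n + 1)) else 0) ≤
            (if Act (n + 1) then 2 * β (n + 1) * 2 ^ (s (n + 1)) * G (n + 1 - s (n + 1)) else 0) * w n := by
          split_ifs with h
          · exact hlag _ _ (hs _ h).1 (hs _ h).2 (hβ _)
          · simp
        have h2 : ∑ e ∈ Fe (n + 1), η e * 2 ^ (t e) * a (n + 1 - t e) ≤
            (∑ e ∈ Fe (n + 1), 2 * η e * 2 ^ (t e) * G (n + 1 - t e)) * w n := by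
          rw [sum_mul]
          apply sum_le_sum
          intro e he
          exact hlag _ _ (hFe _ e he).1 (hFe _ e he).2 (hη _)
        have h3 := mul_le_mul_of_nonneg_right (hx n) (show 0 ≤ w n by linarith)
        rw [add_mul] at h3
        linarith
      have h1 := hstep n
      have h2 : 2 * a n * (1 - x (n + 1)) = w n * G (n + 1) := by
        simp only [hw]
        rw [hG]
        field_simp
      have h3 : a (n + 1) = w (n + 1) * G (n + 1) := by
        simp only [hw]
        field_simp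
      have h4 : 2 * a n ≤ w (n + 1) * G (n + 1) + (x (n + 1) * G (n + 1)) * w n + u (n + 1) := by
        rw [← h3]
        linarith
      -- w n (1 + x) G ≤ 2 a n
      have h5 : w n * (1 + x (n + 1)) * G (n + 1) ≤ 2 * a n := by
        have h6 : 2 * a n = w n * G (n + 1) / (1 - x (n + 1)) := by
          rw [eq_div_iff hy.ne']
          exact h2
        rw [h6, le_div_iff₀ hy]
        have h7 : 0 ≤ w n * G (n + 1) * x (n + 1) ^ 2 := by
          have : 0 ≤ w n := by linarith
          positivity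
        nlinarith
      have h8 : w n - w (n + 1) ≤ u (n + 1) / G (n + 1) := by
        rw [le_div_iff₀ hGn]
        nlinarith
      refine ⟨fun m hm => ?_, ?_⟩
      · rcases Nat.lt_or_ge m (n + 1) with h | h
        · have h9 := ih1 m (by omega)
          rw [hDs]
          linarith
        · have : m = n + 1 := by omega
          subst this
          simp
      · rw [hDs]
        linarith
  intro n
  obtain ⟨-, h⟩ := main n
  have hDn : D n ≤ 1 / 2 := hu n
  have h1 : 1 / 2 ≤ a n / G n := by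
    have : w n = a n / G n := rfl
    linarith
  rw [le_div_iff₀ (hGp n)] at h1
  linarith

end Pool.Agent.H541.RP
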