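import Pool.Agent.H541.RP.Defs

/-!
# Reversed primes: statements of the tasks (helper541)

`ee x = exp (2 π i x)` is `Pool.Agent.Helper112.ee` (lemmas `ls_ee_add`, `ls_norm_ee`, … in
`Pool.Graph.R_seed8.Helper112.LS`).
-/

set_option autoImplicit false

namespace Pool.Agent.H541.RP

open Finset Pool.Agent.Helper112

/-- DIGIT.  `|∑_{d<b} e(d x)| ≤ |1 + e(x)| + (b - 2)` and `|1 + e(x)| = 2 |cos π x| ≤ 2 cos (π η) < 2`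
for `η ≤ ‖x‖` (`η ≤ 1/2` may be assumed, else there is no `x`). -/
def S_digit : Prop := ∀ (b : ℕ) (η : ℝ), 2 ≤ b → 0 < η → ∃ r : ℝ, 0 < r ∧ r < 1 ∧
  ∀ x : ℝ, η ≤ dist1 x → ‖∑ d ∈ range b, ee (d * x)‖ ≤ b * r

/-- PROD.  With `F L θ α = ∑_{n < b^L} e(θ n + α rv b L n)` one has
`F (L+1) θ α = (∑_{d<b} e(d (θ + α b^L))) * F L (b θ) α` (write `n = d + b n'`).  So
`F (L+8) θ α = Φ(x) Φ(y) Φ(..)^6 F L (b^8 θ) α`, `x = θ + α b^(L+7)`, `y = b θ + α b^(L+6)`,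
`x - b y = -(b^2-1) θ`; if `‖(b^2-1)θ‖ ≥ 1/(2B)`, `B = b^8`, then `‖x‖ ≥ 1/(4B)` or `‖y‖ ≥ 1/(4 b B)`, so
`|Φ(x) Φ(y)| ≤ b^2 r` with `r` from DIGIT for `η = 1/(4 b B)`.  Induction `L → L + 8`. -/
def S_prod : Prop := ∀ b : ℕ, 2 ≤ b → ∃ r : ℝ, 0 < r ∧ r < 1 ∧ ∀ (L : ℕ) (θ α : ℝ),
  ‖∑ n ∈ range (b ^ L), ee (θ * n + α * rv b L n)‖ ≤
    (b : ℝ) ^ L * AA r (b ^ 8) (L / 8) (((b : ℝ) ^ 2 - 1) * θ)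

/-- POINT.  In every window of `v + 1` consecutive `i` there is one with `‖B^i h/d‖ ≥ 1/(2B)`: otherwise
`‖B^(i+1) x‖ = B ‖B^i x‖` in the window, starting from `‖x‖ ≥ 1/d ≥ B^(-v)` (the numerator of the first point of
the window is not divisible by `d` because `B` is prime to `d`), hence `‖B^v x‖ ≥ 1`, absurd. -/
def S_point : Prop := ∀ (r : ℝ) (B n v d : ℕ) (h : ℤ), 0 < r → r ≤ 1 → 2 ≤ B → 1 < d → d ≤ B ^ v →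
  B.Coprime d → ¬ (d : ℤ) ∣ h → AA r B n ((h : ℝ) / d) ≤ r ^ (n / (v + 1))

/-- AVG.  Put `q(x) = AA r B M x` (it has period 1).  `AA r B n x ≤ ∏_{u<I} q(B^(M u) x) ≤ ∑_{u<I} q(B^(M u) x)^I`;
`h ↦ B^(M u) h` permutes the reduced residues mod `d`, so the sum is `≤ I ∑_d ∑_h q(h/d)^I`.  For `x ∈ [0,1)` with
base-`B` digits `t_1 t_2 …`: `t_(i+1) ∉ {0, B-1}` implies `‖B^i x‖ ≥ 1/B`, so
`q(x)^I ≤ ∏_{i=1}^{M} ω(t_i)`, `ω(0) = ω(B-1) = 1`, else `ω = r^I`; the digits are those of `a = ⌊B^M x⌋`, and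
`(d,h) ↦ ⌊B^M h/d⌋` is injective on the reduced fractions with `d ≤ R` (two of them differ by at least
`1/R^2 ≥ B^(-M)`).  `∑_{a<B^M} ∏ ω(digits of a) = (2 + (B-2) r^I)^M ≤ 3^M`. -/
def S_avg : Prop := ∀ (r : ℝ) (B I M R n : ℕ), 0 < r → r ≤ 1 → 4 ≤ B → 1 ≤ I → (B : ℝ) * r ^ I ≤ 1 →
  R ^ 2 ≤ B ^ M → I * M ≤ n →
  ∑ d ∈ (Icc 1 R).filter (fun d => d.Coprime B), ∑ h ∈ (range d).filter (fun h => h.Coprime d),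
    AA r B n ((h : ℝ) / d) ≤ I * 3 ^ M

/-- MOM.  Induction on `k`: `τ(n)^(k+1)/n = ∑_{d e = n} τ(n)^k/n ≤ ∑_{d e = n} (τ(d)^k/d) (τ(e)^k/e)`
(model: `Pool.Agent.H316R2.tau_sq_sum_le` in `Pool.Graph.R_seed8.H316R2.LS`, the case `k = 2`). -/
def S_mom : Prop := ∀ k X : ℕ, ∑ n ∈ Icc 1 X, (n.divisors.card : ℝ) ^ k / n ≤ (1 + Real.log X) ^ (2 ^ k)

/-- SIEVE.  Selberg's weights from the library: `Pool.Graph.R_seed8.W89.Sv.Sel` (see the proof of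
`Pool.Agent.W89.Sv.selberg`): `c = lambdaSquared (selW s ξ)` for `s = sv m S v X z 1` (any `S v X`, e.g. `∅`), `ξ = z^8`:
`upperMoebius_lambdaSquared`, `mainSum_selW` (`∑ c_l / l = 1 / GZ m ξ z`), `sv_W` (`|selW| ≤ 1`), `selW_eq_zero`;
`1 / GZ m (z^8) z ≤ 1.0004 VZ m z` for large `z` is in the proof of `start_upper` (`W89.Sv.Start`), and
`VZ m z * log z` has a limit (`V_lim` in `W89.Sv.Mert`). -/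
def S_sieve : Prop := ∀ m : ℕ, m ≠ 0 → 2 ∣ m → ∃ (C : ℝ) (z0 : ℕ), 0 < C ∧ 2 ≤ z0 ∧ ∀ z : ℕ, z0 ≤ z →
  ∃ c : ℕ → ℝ, (∀ l, c l ≠ 0 → 1 ≤ l ∧ l ≤ z ^ 16 ∧ l.Coprime m) ∧
    (∀ l, |c l| ≤ (l.divisors.card : ℝ) ^ 2) ∧
    (∀ n, 0 ≤ ∑ l ∈ (Icc 1 (z ^ 16)).filter (fun l => l ∣ n), c l) ∧
    (∀ p : ℕ, p.Prime → z ≤ p → 1 ≤ ∑ l ∈ (Icc 1 (z ^ 16)).filter (fun l => l ∣ p), c l) ∧
    0 ≤ ∑ l ∈ Icc 1 (z ^ 16), c l / l ∧ ∑ l ∈ Icc 1 (z ^ 16), c l / l ≤ C / Real.log z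

/-- ERR (from POINT, AVG, MOM).  `B = b^8`, `n = L/8`, `I` with `B r^I ≤ 1`, `I ≥ 2`, `J = 64 I`, `t = L/J`,
`D = b^(16 t) = B^(2 t)`.  Lowest terms (`Pool.Agent.H623R3.PBT8.group`) and the permutation
`h ↦ (b^2-1) h` of the reduced residues give
`LHS ≤ (∑_{2≤d≤D, (d,b^3-b)=1} τ(d)^2 U(d)/d) (∑_{e≤D} τ(e)^2/e)`, `U(d) = ∑_{h mod* d} AA(h/d)`, second factor
`≤ (1 + log D)^4`.  For `B^k ≤ d < B^(k+1)`, `k ≥ s`: `τ(d)^2 ≤ C d^(1/4) ≤ C b^(2k+2)`, `1/d ≤ b^(-8k)` and AVG with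
`M = 2(k+1)`, `R = B^(k+1)` gives `∑ U(d) ≤ 9 I 9^k`: these `k` contribute `≤ C' ∑_{k≥s} (9/b^6)^k ≤ C'' (9/64)^s`.  For
`d < B^s`: `U(d) ≤ d r^(n/(s+1))` (POINT, `v = s`), contribution `≤ B^(3s) r^(n/(s+1))`.  Take `s = sqrt (sqrt L)`. -/
def S_err : Prop := ∀ (b : ℕ) (r : ℝ), 2 ≤ b → 0 < r → r < 1 → ∃ J : ℕ, 96 ≤ J ∧ ∀ A : ℕ, ∃ L0 : ℕ, ∀ L : ℕ,
  L0 ≤ L → ∑ l ∈ (Icc 1 (b ^ (16 * (L / J)))).filter (fun l => l.Coprime (b ^ 3 - b)),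
    (l.divisors.card : ℝ) ^ 2 / l * ∑ h ∈ Ico 1 l, AA r (b ^ 8) (L / 8) (((b : ℝ) ^ 2 - 1) * ((h : ℝ) / l)) ≤
      1 / (L : ℝ) ^ A

/-- the large part of ERR (from AVG) -/
def S_errBig : Prop := ∀ (b : ℕ) (r : ℝ) (I : ℕ), 2 ≤ b → 0 < r → r < 1 → 1 ≤ I → ((b ^ 8 : ℕ) : ℝ) * r ^ I ≤ 1 →
  ∃ C : ℝ, 0 < C ∧ ∀ s K n : ℕ, I * (2 * (K + 1)) ≤ n →
    ∑ d ∈ (Ico ((b ^ 8) ^ s) ((b ^ 8) ^ (K + 1))).filter (fun d => d.Coprime b), (d.divisors.card : ℝ) ^ 2 / d *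
      ∑ h ∈ (range d).filter (fun h => h.Coprime d), AA r (b ^ 8) n ((h : ℝ) / d) ≤ C * (9 / 64) ^ s

/-- ENERGY.  With `N = 2 X`, `W(k) = ∑_{n<X} w_n e(k x_n / N)`: by orthogonality
(`Pool.Agent.H623R3.PBT8.orth`) the energy is `≤ (1/N) ∑_{k<N} |W(k)|^4`, `W = V F_0 + E`, `(u+v)^4 ≤ 8 (u^4 + v^4)`,
`(1/N) ∑ |F_0|^4 ≤ X^3` (count), `(1/N) ∑ |E|^4 ≤ (σ X)^2 (1/N) ∑ |E|^2 = (σ X)^2 ∑ (w_n - V)^2`. -/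
def S_energy : Prop := ∀ (X : ℕ) (x : ℕ → ℕ) (A : Finset ℕ) (w : ℕ → ℝ) (V σ : ℝ), 1 ≤ X →
  Set.InjOn x (range X : Set ℕ) → (∀ n < X, x n < X) → A ⊆ range X → (∀ n, 0 ≤ w n) → (∀ n ∈ A, 1 ≤ w n) →
  0 ≤ V → 0 ≤ σ →
  (∀ α : ℝ, ‖∑ n ∈ range X, ((w n - V : ℝ) : ℂ) * ee (α * x n)‖ ≤ σ * X) →
  (Finset.addEnergy (A.image x) (A.image x) : ℝ) ≤
    8 * V ^ 4 * X ^ 3 + 8 * σ ^ 2 * X ^ 2 * ∑ n ∈ range X, (w n - V) ^ 2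

/-- EXPAND.  `1_{l ∣ n} = (1/l) ∑_{h<l} e(h n / l)` (`Pool.Agent.H623R3.PBT8.orth`). -/
def S_expand : Prop := ∀ (X D : ℕ) (x : ℕ → ℕ) (c : ℕ → ℝ) (α : ℝ),
  ‖∑ n ∈ range X, (((∑ l ∈ (Icc 1 D).filter (fun l => l ∣ n), c l) - ∑ l ∈ Icc 1 D, c l / l : ℝ) : ℂ) *
    ee (α * x n)‖ ≤
  ∑ l ∈ Icc 1 D, |c l| / l * ∑ h ∈ Ico 1 l, ‖∑ n ∈ range X, ee ((h : ℝ) / l * n + α * x n)‖

/-- SECOND (from MOM).  For `n ≥ 1` the inner sum is `≤ τ(n)^3`, so `(…)^2 ≤ 4 τ(n)^6`, and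
`∑_{1≤n≤X} τ(n)^6 ≤ X ∑ τ(n)^6/n ≤ X (1 + log X)^64`; `n = 0`: `(D^3 + 1)^2 ≤ 4 D^6 ≤ 4 X`. -/
def S_second : Prop := ∀ (X D : ℕ) (c : ℕ → ℝ) (V : ℝ), 1 ≤ D → D ^ 6 ≤ X →
  (∀ l, |c l| ≤ (l.divisors.card : ℝ) ^ 2) → |V| ≤ 1 →
  ∑ n ∈ range X, ((∑ l ∈ (Icc 1 D).filter (fun l => l ∣ n), c l) - V) ^ 2 ≤ 8 * X * (1 + Real.log X) ^ 64

/-- PRIMES.  Prime number theorem (library) or Chebyshev in `[b^(L-1), b^L)` (careful with `b = 2`). -/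
def S_primes : Prop := ∀ b : ℕ, 2 ≤ b → ∃ (c : ℝ) (L0 : ℕ), 0 < c ∧ ∀ L : ℕ, L0 ≤ L →
  c * (b : ℝ) ^ L / L ≤ (((Ico (b ^ (L - 1)) (b ^ L)).filter Nat.Prime).card : ℝ)

/-- SCHNIR.  `S' = {1} ∪ (A + A)` (positive elements) has positive Schnirelmann density, so every `n ≥ 1` is a sum of
at most `h` elements of `S'` (Schnirelmann: `σ(S+T) ≥ σ(S) + σ(T) - σ(S)σ(T)`, and `2S = ℕ` if `σ(S) ≥ 1/2`; look first in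
the library and in Mathlib).  If `1 ∈ A` done with `K = 2h`.  If `2, 3 ∈ A`: write `N - 2` in this way with `u ≤ h` ones;
`u + 2 ≥ 2` is a sum of at most `u + 2` numbers `2, 3`. -/
def S_schnir : Prop := ∀ A : Set ℕ, (1 ∈ A ∨ (2 ∈ A ∧ 3 ∈ A)) →
  (∃ (c : ℝ) (N0 : ℕ), 0 < c ∧ ∀ N : ℕ, N0 ≤ N → ∃ T : Finset ℕ,
    (∀ m ∈ T, 1 ≤ m ∧ m ≤ N ∧ ∃ x ∈ A, ∃ y ∈ A, x + y = m) ∧ c * N ≤ (T.card : ℝ)) →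
  ∃ K N1 : ℕ, ∀ N : ℕ, N1 ≤ N → ∃ l : List ℕ, (∀ x ∈ l, x ∈ A) ∧ l.length ≤ K ∧ l.sum = N

/-- RV.  Elementary facts on the reversal. -/
def S_rv : Prop := ∀ b : ℕ, 2 ≤ b → ∀ L : ℕ, (∀ n < b ^ L, rv b L n < b ^ L) ∧
  Set.InjOn (rv b L) (range (b ^ L) : Set ℕ) ∧
  ∀ n, b ^ L ≤ n → n < b ^ (L + 1) → rv b (L + 1) n = Nat.ofDigits b (Nat.digits b n).reverse

end Pool.Agent.H541.RP
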