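import Pool.Agent.H541.RP.Rec2
import Pool.Agent.H541.LL.Tree

set_option autoImplicit false

/-!
Counting survivors in the binary tree when the lags depend on the level.
-/

namespace Pool.Agent.H541.RP

open Finset
open Pool.Agent.H541.LL (surv surv_lt surv_not_bad surv_anc)

/-- the events whose middle level is `n` -/
noncomputable def Fe (Act : ℕ → Prop) (s : ℕ → ℕ) (n : ℕ) : Finset ℕ := by
  classical exact (range (2 * n + 1)).filter (fun e => Act e ∧ e - s e = n)

lemma mem_Fe (Act : ℕ → Prop) (s : ℕ → ℕ) (n e : ℕ) (h : ∀ e, Act e → 2 * s e ≤ e) :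
    e ∈ Fe Act s n ↔ Act e ∧ e - s e = n := by
  classical
  unfold Fe
  rw [mem_filter, mem_range]
  constructor
  · rintro ⟨-, h1⟩
    exact h1
  · rintro ⟨h1, h2⟩
    have := h e h1
    exact ⟨by omega, h1, h2⟩

/-- the bad nodes -/
def BadN (s : ℕ → ℕ) (R E U : ℕ → ℕ → Prop) (n k : ℕ) : Prop :=
  R n k ∨ (∃ e, e - s e = n ∧ E e k) ∨ U n k

open Classical in
/-- number of survivors from below -/
lemma surv_card2 (x β η : ℕ → ℝ) (s t : ℕ → ℕ) (Act : ℕ → Prop) (R E U : ℕ → ℕ → Prop) (G u : ℕ → ℝ)
    (hG0 : G 0 = 1) (hG : ∀ n, G (n + 1) = 2 * (1 - x (n + 1)) * G n)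
    (hx1 : ∀ n, x n < 1) (hβ : ∀ n, 0 ≤ β n) (hη : ∀ n, 0 ≤ η n)
    (hact : ∀ e, Act e → 1 ≤ s e ∧ 1 ≤ t e ∧ 2 * s e ≤ e ∧ s e + t e ≤ e)
    (hx : ∀ n, (if Act (n + 1) then 2 * β (n + 1) * 2 ^ (s (n + 1)) * G (n + 1 - s (n + 1)) else 0) +
      ∑ e ∈ Fe Act s (n + 1), 2 * η e * 2 ^ (t e) * G (n + 1 - t e) ≤ x (n + 1) * G (n + 1))

    (hR0 : ∀ n k, R n k → Act n) (hE0 : ∀ n k, E n k → Act n)
    (hR : ∀ e j, Act e → j < 2 ^ (e - s e) → ¬ E e j →
      (((range (2 ^ e)).filter (fun k => k / 2 ^ (s e) = j ∧ R e k)).card : ℝ) ≤ β e * 2 ^ (s e))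
    (hE : ∀ e j, Act e → j < 2 ^ (e - s e - t e) →
      (((range (2 ^ (e - s e))).filter (fun k => k / 2 ^ (t e) = j ∧ E e k)).card : ℝ) ≤ η e * 2 ^ (t e))
    (hU : ∀ n, (((range (2 ^ n)).filter (fun k => U n k)).card : ℝ) ≤ u n)
    (hu : ∀ n, ∑ k ∈ range (n + 1), u k / G k ≤ 1 / 2) (n : ℕ) :
    G n / 2 ≤ ((surv (BadN s R E U) n).card : ℝ) := by
  have hact2 : ∀ e, Act e → 2 * s e ≤ e := fun e he => (hact e he).2.2.1
  set Bad := BadN s R E U with hBad
  have hnact0 : ¬ Act 0 := by
    intro h
    have := hact 0 h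
    omega
  refine rec2 x β η s t Act (Fe Act s) G (fun n => ((surv Bad n).card : ℝ)) u hG0 hG hx1 hβ hη
    ?_ ?_ hx ?_ hu ?_ ?_ n
  · intro n hn
    have := hact n hn
    omega
  · intro n e he
    rw [mem_Fe _ _ _ _ hact2] at he
    have := hact e he.1
    omega
  · intro n
    exact le_trans (by positivity) (hU n)
  · -- level 0
    have h1 := hU 0
    have hEn : ∀ e k, e - s e = 0 → ¬ E e k := by
      intro e k he hk
      have := hact e (hE0 e k hk)
      omega
    by_cases hU0 : U 0 0
    · have : ((range (2 ^ 0)).filter (fun k => U 0 k)).card = 1 := by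
        rw [card_eq_one]
        refine ⟨0, ?_⟩
        ext k
        simp only [pow_zero, mem_filter, mem_range, Nat.lt_one_iff, mem_singleton]
        constructor
        · rintro ⟨h, -⟩
          exact h
        · rintro rfl
          exact ⟨rfl, hU0⟩
      rw [this] at h1
      have : (0 : ℝ) ≤ ((surv Bad 0).card : ℝ) := by positivity
      push_cast at h1
      linarith
    · have h0 : surv Bad 0 = {0} := by
        ext k
        simp only [surv, mem_filter, mem_range, Nat.lt_one_iff, mem_singleton]
        constructor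
        · rintro ⟨h, -⟩
          exact h
        · rintro rfl
          refine ⟨rfl, ?_⟩
          rintro (h | ⟨e, he1, he2⟩ | h)
          · exact hnact0 (hR0 0 0 h)
          · exact hEn e 0 he1 he2
          · exact hU0 h
      rw [h0, card_singleton]
      have : (0 : ℝ) ≤ u 0 := le_trans (by positivity) h1
      push_cast
      linarith
  · intro n
    -- the children of survivors
    set C : Finset ℕ := (range (2 ^ (n + 1))).filter (fun k => k / 2 ∈ surv Bad n) with hC
    have hCcard : 2 * (surv Bad n).card ≤ C.card := by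
      have h1 : ((surv Bad n) ×ˢ (range 2)).card ≤ C.card := by
        apply card_le_card_of_injOn (fun p => 2 * p.1 + p.2)
        · intro p hp
          simp only [coe_product, Set.mem_prod, mem_coe, mem_range] at hp
          simp only [hC, coe_filter, mem_range, Set.mem_ofPred_eq]
          have h2 := surv_lt Bad n p.1 hp.1
          have h3 : (2 * p.1 + p.2) / 2 = p.1 := by omega
          rw [h3]
          refine ⟨?_, hp.1⟩
          rw [pow_succ]
          omega
        · intro p hp q hq h
          simp only [coe_product, Set.mem_prod, mem_coe, mem_range] at hp hq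
          simp only at h
          ext
          · omega
          · omega
      rw [card_product, card_range] at h1
      omega
    have hCm : ∀ (r : ℕ), 1 ≤ r → r ≤ n + 1 → ∀ k ∈ C, k / 2 ^ r ∈ surv Bad (n + 1 - r) := by
      intro r hr hr2 k hk
      simp only [hC, mem_filter, mem_range] at hk
      have h1 := surv_anc Bad (n + 1 - r) (r - 1) (k / 2) (by
        have : n + 1 - r + (r - 1) = n := by omega
        rw [this]
        exact hk.2)
      rw [Nat.div_div_eq_div_mul, ← pow_succ'] at h1
      have : r - 1 + 1 = r := by omega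
      rwa [this] at h1
    have hsub : C ⊆ surv Bad (n + 1) ∪ (C.filter (fun k => R (n + 1) k) ∪
        ((Fe Act s (n + 1)).biUnion (fun e => C.filter (fun k => E e k)) ∪
          (range (2 ^ (n + 1))).filter (fun k => U (n + 1) k))) := by
      intro k hk
      have hk' := hk
      simp only [hC, mem_filter, mem_range] at hk'
      simp only [mem_union, mem_filter, mem_range, surv, mem_biUnion]
      by_cases h1 : R (n + 1) k
      · exact Or.inr (Or.inl ⟨hk, h1⟩)
      by_cases h2 : ∃ e, e - s e = n + 1 ∧ E e k
      · obtain ⟨e, he1, he2⟩ := h2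
        exact Or.inr (Or.inr (Or.inl ⟨e, (mem_Fe _ _ _ _ hact2).2 ⟨hE0 e k he2, he1⟩, hk, he2⟩))
      by_cases h3 : U (n + 1) k
      · exact Or.inr (Or.inr (Or.inr ⟨hk'.1, h3⟩))
      · refine Or.inl ⟨hk'.1, hk'.2, ?_⟩
        rintro (h | h | h)
        · exact h1 h
        · exact h2 h
        · exact h3 h
    have hcard := (card_le_card hsub).trans (card_union_le _ _)
    have hcard2 := card_union_le (C.filter (fun k => R (n + 1) k))
        ((Fe Act s (n + 1)).biUnion (fun e => C.filter (fun k => E e k)) ∪
          (range (2 ^ (n + 1))).filter (fun k => U (n + 1) k))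
    have hcard3 := card_union_le ((Fe Act s (n + 1)).biUnion (fun e => C.filter (fun k => E e k)))
        ((range (2 ^ (n + 1))).filter (fun k => U (n + 1) k))
    -- the removed ones
    have hRc : ((C.filter (fun k => R (n + 1) k)).card : ℝ) ≤
        (if Act (n + 1) then β (n + 1) * 2 ^ (s (n + 1)) *
          ((surv Bad (n + 1 - s (n + 1))).card : ℝ) else 0) := by
      split_ifs with h
      · obtain ⟨a1, a2, a3, a4⟩ := hact _ h
        have h1 : (C.filter (fun k => R (n + 1) k)).card ≤ ∑ j ∈ surv Bad (n + 1 - s (n + 1)),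
            ((C.filter (fun k => R (n + 1) k)).filter (fun k => k / 2 ^ (s (n + 1)) = j)).card := by
          rw [← card_eq_sum_card_fiberwise]
          intro k hk
          have hk2 : k ∈ C := (mem_filter.1 (mem_coe.1 hk)).1
          exact mem_coe.2 (hCm _ a1 (by omega) k hk2)
        have h2 : ∀ j ∈ surv Bad (n + 1 - s (n + 1)),
            ((((C.filter (fun k => R (n + 1) k)).filter
              (fun k => k / 2 ^ (s (n + 1)) = j)).card : ℕ) : ℝ) ≤ β (n + 1) * 2 ^ (s (n + 1)) := by
          intro j hj
          have h3 : ¬ E (n + 1) j := by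
            intro h4
            exact surv_not_bad Bad _ _ hj (Or.inr (Or.inl ⟨n + 1, rfl, h4⟩))
          have h4 := hR (n + 1) j h (surv_lt Bad _ _ hj) h3
          refine le_trans ?_ h4
          norm_cast
          apply card_le_card
          intro k hk
          simp only [hC, mem_filter, mem_range] at hk ⊢
          exact ⟨hk.1.1.1, hk.2, hk.1.2⟩
        calc ((C.filter (fun k => R (n + 1) k)).card : ℝ) ≤ ∑ j ∈ surv Bad (n + 1 - s (n + 1)),
              ((((C.filter (fun k => R (n + 1) k)).filter
                (fun k => k / 2 ^ (s (n + 1)) = j)).card : ℕ) : ℝ) := by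
              exact_mod_cast h1
          _ ≤ ∑ j ∈ surv Bad (n + 1 - s (n + 1)), β (n + 1) * 2 ^ (s (n + 1)) := sum_le_sum h2
          _ = β (n + 1) * 2 ^ (s (n + 1)) * ((surv Bad (n + 1 - s (n + 1))).card : ℝ) := by
              rw [sum_const, nsmul_eq_mul]
              ring
      · have : C.filter (fun k => R (n + 1) k) = ∅ := by
          apply filter_false_of_mem
          intro k _ hk
          exact h (hR0 _ _ hk)
        rw [this]
        simp
    have hEc : ((((Fe Act s (n + 1)).biUnion (fun e => C.filter (fun k => E e k))).card : ℕ) : ℝ) ≤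
        ∑ e ∈ Fe Act s (n + 1), η e * 2 ^ (t e) * ((surv Bad (n + 1 - t e)).card : ℝ) := by
      have h0 : (((Fe Act s (n + 1)).biUnion (fun e => C.filter (fun k => E e k))).card) ≤
          ∑ e ∈ Fe Act s (n + 1), (C.filter (fun k => E e k)).card := card_biUnion_le
      have h00 : ∑ e ∈ Fe Act s (n + 1), ((C.filter (fun k => E e k)).card : ℝ) ≤
          ∑ e ∈ Fe Act s (n + 1), η e * 2 ^ (t e) * ((surv Bad (n + 1 - t e)).card : ℝ) := by
        apply sum_le_sum
        intro e he
        rw [mem_Fe _ _ _ _ hact2] at he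
        obtain ⟨a1, a2, a3, a4⟩ := hact _ he.1
        have h1 : (C.filter (fun k => E e k)).card ≤ ∑ j ∈ surv Bad (n + 1 - t e),
            ((C.filter (fun k => E e k)).filter (fun k => k / 2 ^ (t e) = j)).card := by
          rw [← card_eq_sum_card_fiberwise]
          intro k hk
          have hk2 : k ∈ C := (mem_filter.1 (mem_coe.1 hk)).1
          exact mem_coe.2 (hCm _ a2 (by omega) k hk2)
        have h2 : ∀ j ∈ surv Bad (n + 1 - t e),
            ((((C.filter (fun k => E e k)).filter (fun k => k / 2 ^ (t e) = j)).card : ℕ) : ℝ)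
              ≤ η e * 2 ^ (t e) := by
          intro j hj
          have h5 := surv_lt Bad _ _ hj
          have h4 := hE e j he.1 (by rw [he.2]; exact h5)
          refine le_trans ?_ h4
          rw [he.2]
          norm_cast
          apply card_le_card
          intro k hk
          simp only [hC, mem_filter, mem_range] at hk ⊢
          exact ⟨hk.1.1.1, hk.2, hk.1.2⟩
        calc ((C.filter (fun k => E e k)).card : ℝ) ≤ ∑ j ∈ surv Bad (n + 1 - t e),
              ((((C.filter (fun k => E e k)).filter (fun k => k / 2 ^ (t e) = j)).card : ℕ) : ℝ) := by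
              exact_mod_cast h1
          _ ≤ ∑ j ∈ surv Bad (n + 1 - t e), η e * 2 ^ (t e) := sum_le_sum h2
          _ = η e * 2 ^ (t e) * ((surv Bad (n + 1 - t e)).card : ℝ) := by
              rw [sum_const, nsmul_eq_mul]
              ring
      refine le_trans ?_ h00
      exact_mod_cast h0
    have hUc := hU (n + 1)
    have e1 : (2 * (surv Bad n).card : ℝ) ≤ (surv Bad (n + 1)).card +
        ((C.filter (fun k => R (n + 1) k)).card +
          (((Fe Act s (n + 1)).biUnion (fun e => C.filter (fun k => E e k))).card +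
          ((range (2 ^ (n + 1))).filter (fun k => U (n + 1) k)).card)) := by
      have : 2 * (surv Bad n).card ≤ (surv Bad (n + 1)).card +
        ((C.filter (fun k => R (n + 1) k)).card +
          (((Fe Act s (n + 1)).biUnion (fun e => C.filter (fun k => E e k))).card +
          ((range (2 ^ (n + 1))).filter (fun k => U (n + 1) k)).card)) := by omega
      exact_mod_cast this
    linarith

end Pool.Agent.H541.RP
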